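import Pool.Agent.H792R2.SS.Defs

set_option autoImplicit false
open Set Filter Topology Metric MeasureTheory

namespace Pool.Agent.H792R2.SS

namespace ALEMx

theorem openD : IsOpen {y : ℂ | 1 / 2 < y.re} := isOpen_lt continuous_const Complex.continuous_re

theorem memD {t : ℝ} (ht : 0 ≤ t) : (1 + (t : ℂ)) ∈ {y : ℂ | 1 / 2 < y.re} := by
  show (1 : ℝ) / 2 < (1 + (t : ℂ)).re
  simp
  linarith

theorem ballD {t : ℝ} : ball (1 + (t : ℂ)) (t + 1 / 2) ⊆ {y : ℂ | 1 / 2 < y.re} := by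
  intro y hy
  rw [mem_ball, dist_eq_norm] at hy
  have h1 := (Complex.abs_re_le_norm (y - (1 + (t : ℂ)))).trans_lt hy
  have h2 := (abs_lt.1 h1).1
  simp only [Complex.sub_re, Complex.add_re, Complex.one_re, Complex.ofReal_re] at h2
  show (1 : ℝ) / 2 < y.re
  linarith

theorem hd {f : ℂ → ℂ} {f' : ℂ} {t : ℝ} (h : HasDerivAt f f' (1 + (t : ℂ))) :
    HasDerivAt (fun s : ℝ => f (1 + (s : ℂ))) f' t :=
  (HasDerivAt.comp_const_add 1 (t : ℂ) h).comp_ofReal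

variable {φ Φ : ℂ → ℂ}

theorem kb (hKB : S_KB) (hφ : DifferentiableOn ℂ φ {y | 1 / 2 < y.re})
    (hi : InjOn φ {y | 1 / 2 < y.re}) {t : ℝ} (ht : 0 ≤ t) :
    deriv φ (1 + (t : ℂ)) ≠ 0 ∧
      (t + 1 / 2) * ‖deriv (deriv φ) (1 + (t : ℂ))‖ ≤ 4 * ‖deriv φ (1 + (t : ℂ))‖ :=
  hKB φ (1 + (t : ℂ)) (t + 1 / 2) (by linarith) (hφ.mono ballD) (hi.mono ballD)

/-- derivative of kappa -/
theorem dk (hφ : DifferentiableOn ℂ φ {y | 1 / 2 < y.re})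
    (hΦ : DifferentiableOn ℂ Φ {y | 1 / 2 < y.re})
    (hd' : ∀ y : ℂ, 1 / 2 < y.re → deriv Φ y = (1 + Complex.exp y) * deriv φ y)
    {y : ℂ} (hy : 1 / 2 < y.re) (hne : deriv φ y ≠ 0) :
    HasDerivAt (fun y => Φ y / (Complex.exp y * deriv φ y) - 1)
      ((Complex.exp (-y) - deriv (deriv φ) y / deriv φ y -
        (Φ y / (Complex.exp y * deriv φ y) - 1) * (deriv (deriv φ) y / deriv φ y)) -
        (Φ y / (Complex.exp y * deriv φ y) - 1)) y := by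
  have hmem : {y : ℂ | 1 / 2 < y.re} ∈ 𝓝 y := openD.mem_nhds hy
  have h1 : HasDerivAt Φ ((1 + Complex.exp y) * deriv φ y) y := by
    rw [← hd' y hy]
    exact (hΦ.differentiableAt hmem).hasDerivAt
  have h2 : HasDerivAt (deriv φ) (deriv (deriv φ) y) y :=
    ((hφ.deriv openD).differentiableAt hmem).hasDerivAt
  have h3 := (Complex.hasDerivAt_exp y).mul h2
  have hne2 : Complex.exp y * deriv φ y ≠ 0 := mul_ne_zero (Complex.exp_ne_zero y) hne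
  have h4 := (h1.div h3 hne2).sub_const (1 : ℂ)
  refine h4.congr_deriv ?_
  rw [Complex.exp_neg]
  have he := Complex.exp_ne_zero y
  show ((1 + Complex.exp y) * deriv φ y * (Complex.exp y * deriv φ y) -
    Φ y * (Complex.exp y * deriv φ y + Complex.exp y * deriv (deriv φ) y)) /
    (Complex.exp y * deriv φ y) ^ 2 = _
  field_simp
  ring

theorem q_le (hKB : S_KB) (hφ : DifferentiableOn ℂ φ {y | 1 / 2 < y.re})
    (hi : InjOn φ {y | 1 / 2 < y.re}) {t : ℝ} (ht : 100 ≤ t) :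
    ‖deriv (deriv φ) (1 + (t : ℂ)) / deriv φ (1 + (t : ℂ))‖ ≤ 1 / 20 := by
  obtain ⟨h1, h2⟩ := kb hKB hφ hi (show (0 : ℝ) ≤ t by linarith)
  have h3 : 0 < ‖deriv φ (1 + (t : ℂ))‖ := norm_pos_iff.2 h1
  rw [norm_div, div_le_iff₀ h3]
  have h4 : 100 * ‖deriv (deriv φ) (1 + (t : ℂ))‖ ≤ (t + 1 / 2) * ‖deriv (deriv φ) (1 + (t : ℂ))‖ :=
    mul_le_mul_of_nonneg_right (by linarith) (norm_nonneg _)
  linarith

theorem e_le {t : ℝ} (ht : 100 ≤ t) : ‖Complex.exp (-(1 + (t : ℂ)))‖ ≤ 1 / 20 := by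
  rw [Complex.norm_exp]
  have h1 : (-(1 + (t : ℂ))).re = -(1 + t) := by simp
  rw [h1, Real.exp_neg]
  have h2 := Real.add_one_le_exp (1 + t)
  rw [inv_le_comm₀ (Real.exp_pos _) (by norm_num)]
  linarith

theorem small (hKB : S_KB) {R₀ : ℝ} (hR₀ : 0 < R₀)
    (hZ : ∀ R : ℝ, R₀ ≤ R → ‖Φ (1 + R) / (Complex.exp (1 + R) * deriv φ (1 + R)) - 1‖ ≠ 1)
    (hφ : DifferentiableOn ℂ φ {y | 1 / 2 < y.re})
    (hi : InjOn φ {y | 1 / 2 < y.re})
    (hΦ : DifferentiableOn ℂ Φ {y | 1 / 2 < y.re})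
    (hd' : ∀ y : ℂ, 1 / 2 < y.re → deriv Φ y = (1 + Complex.exp y) * deriv φ y)
    {R₁ : ℝ} (h100 : 100 ≤ R₁) (h01 : R₀ ≤ R₁) :
    ‖Φ (1 + R₁) / (Complex.exp (1 + R₁) * deriv φ (1 + R₁)) - 1‖ < 1 := by
  set κ : ℝ → ℂ := fun t => Φ (1 + (t : ℂ)) / (Complex.exp (1 + (t : ℂ)) * deriv φ (1 + (t : ℂ))) - 1
    with hκ
  set q : ℝ → ℂ := fun t => deriv (deriv φ) (1 + (t : ℂ)) / deriv φ (1 + (t : ℂ)) with hq
  have hdk : ∀ t : ℝ, 0 ≤ t →
      HasDerivAt κ ((Complex.exp (-(1 + (t : ℂ))) - q t - κ t * q t) - κ t) t := by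
    intro t ht
    exact hd (dk hφ hΦ hd' (memD ht) (kb hKB hφ hi ht).1)
  by_contra hcon
  have hge : 1 ≤ ‖κ R₁‖ := not_lt.1 hcon
  have hcont : ContinuousOn (fun t => ‖κ t‖) (Ici (0 : ℝ)) := by
    intro t ht
    exact (hdk t ht).continuousAt.norm.continuousWithinAt
  have hall : ∀ t : ℝ, R₁ ≤ t → 1 ≤ ‖κ t‖ := by
    intro t ht
    by_contra hlt
    rw [not_le] at hlt
    have hsub : Icc R₁ t ⊆ Ici (0 : ℝ) := fun s hs => by
      show (0 : ℝ) ≤ s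
      linarith [hs.1]
    have himg := intermediate_value_Icc' ht (hcont.mono hsub)
    obtain ⟨s, hs, hs1⟩ := himg (show (1 : ℝ) ∈ Icc ‖κ t‖ ‖κ R₁‖ from ⟨hlt.le, hge⟩)
    exact hZ s (by linarith [hs.1]) hs1
  have hder : ∀ t : ℝ, R₁ ≤ t → ∃ v : ℝ, v ≤ - ‖κ t‖ ^ 2 ∧ HasDerivAt (fun t => ‖κ t‖ ^ 2) v t := by
    intro t ht
    have h1 := (hdk t (by linarith)).norm_sq
    refine ⟨_, ?_, h1⟩
    have h2 := hall t ht
    have hqt : ‖q t‖ ≤ 1 / 20 := q_le hKB hφ hi (by linarith)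
    have het := e_le (show (100 : ℝ) ≤ t by linarith)
    rw [inner_sub_right, real_inner_self_eq_norm_sq]
    have h3 : inner ℝ (κ t) (Complex.exp (-(1 + (t : ℂ))) - q t - κ t * q t) ≤
        ‖κ t‖ * ‖Complex.exp (-(1 + (t : ℂ))) - q t - κ t * q t‖ := real_inner_le_norm _ _
    have h4 : ‖Complex.exp (-(1 + (t : ℂ))) - q t - κ t * q t‖ ≤ 1 / 20 + 1 / 20 + ‖κ t‖ * (1 / 20) := by
      refine (norm_sub_le _ _).trans ?_
      refine add_le_add ((norm_sub_le _ _).trans (add_le_add het hqt)) ?_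
      rw [norm_mul]
      exact mul_le_mul_of_nonneg_left hqt (norm_nonneg _)
    have h5 : ‖κ t‖ * ‖Complex.exp (-(1 + (t : ℂ))) - q t - κ t * q t‖ ≤
        ‖κ t‖ * (1 / 20 + 1 / 20 + ‖κ t‖ * (1 / 20)) := mul_le_mul_of_nonneg_left h4 (norm_nonneg _)
    nlinarith
  set u : ℝ → ℝ := fun t => Real.exp t * ‖κ t‖ ^ 2 with hu
  have hanti : AntitoneOn u (Ici R₁) := by
    have hdu : ∀ t : ℝ, R₁ ≤ t → ∃ v : ℝ, v ≤ 0 ∧ HasDerivAt u v t := by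
      intro t ht
      obtain ⟨v, hv, hv2⟩ := hder t ht
      refine ⟨_, ?_, (Real.hasDerivAt_exp t).mul hv2⟩
      have := Real.exp_pos t
      nlinarith
    apply antitoneOn_of_deriv_nonpos (convex_Ici R₁)
    · intro t ht
      obtain ⟨v, -, hv⟩ := hdu t ht
      exact hv.continuousAt.continuousWithinAt
    · intro t ht
      rw [interior_Ici] at ht
      obtain ⟨v, -, hv⟩ := hdu t (le_of_lt ht)
      exact hv.differentiableAt.differentiableWithinAt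
    · intro t ht
      rw [interior_Ici] at ht
      obtain ⟨v, hv1, hv⟩ := hdu t (le_of_lt ht)
      rw [hv.deriv]
      exact hv1
  set t : ℝ := max R₁ (u R₁) with ht
  have ht1 : R₁ ≤ t := le_max_left _ _
  have ht2 : u R₁ ≤ t := le_max_right _ _
  have h1 := hanti (mem_Ici.2 le_rfl) (mem_Ici.2 ht1) ht1
  have h2 := hall t ht1
  have h3 : Real.exp t * 1 ≤ u t := by
    show Real.exp t * 1 ≤ Real.exp t * ‖κ t‖ ^ 2
    apply mul_le_mul_of_nonneg_left _ (Real.exp_pos t).le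
    nlinarith
  have h4 := Real.add_one_le_exp t
  linarith

theorem grow (hKB : S_KB) (hφ : DifferentiableOn ℂ φ {y | 1 / 2 < y.re})
    (hi : InjOn φ {y | 1 / 2 < y.re}) {T : ℝ} :
    ∀ t ∈ Icc (0 : ℝ) T, ‖deriv φ (1 + (t : ℂ))‖ ≤ ‖deriv φ 1‖ * Real.exp (8 * t) := by
  have hder : ∀ t : ℝ, 0 ≤ t → HasDerivAt (fun s : ℝ => deriv φ (1 + (s : ℂ)))
      (deriv (deriv φ) (1 + (t : ℂ))) t := by
    intro t ht
    exact hd ((hφ.deriv openD).differentiableAt (openD.mem_nhds (memD ht))).hasDerivAt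
  have h1 := norm_le_gronwallBound_of_norm_deriv_right_le
    (f := fun s : ℝ => deriv φ (1 + (s : ℂ))) (f' := fun s : ℝ => deriv (deriv φ) (1 + (s : ℂ)))
    (δ := ‖deriv φ 1‖) (K := 8) (ε := 0) (a := 0) (b := T)
    (fun t ht => (hder t ht.1).continuousAt.continuousWithinAt)
    (fun t ht => (hder t ht.1).hasDerivWithinAt) (by simp) (by
      intro t ht
      obtain ⟨-, h2⟩ := kb hKB hφ hi ht.1
      have h3 : 1 / 2 * ‖deriv (deriv φ) (1 + (t : ℂ))‖ ≤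
          (t + 1 / 2) * ‖deriv (deriv φ) (1 + (t : ℂ))‖ :=
        mul_le_mul_of_nonneg_right (by linarith [ht.1]) (norm_nonneg _)
      show ‖deriv (deriv φ) (1 + (t : ℂ))‖ ≤ 8 * ‖deriv φ (1 + (t : ℂ))‖ + 0
      linarith)
  intro t ht
  have h2 := h1 t ht
  rw [gronwallBound_ε0, sub_zero] at h2
  exact h2

end ALEMx

open ALEMx in
theorem t_ALEM (hKB : S_KB) (hZERO : S_ZERO) : S_ALEM := by
  obtain ⟨R₀, hR₀, hZ⟩ := hZERO
  set R₁ : ℝ := max R₀ 100 with hR₁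
  have h01 : R₀ ≤ R₁ := le_max_left _ _
  have h100 : (100 : ℝ) ≤ R₁ := le_max_right _ _
  refine ⟨2 * (Real.exp (1 + R₁) * Real.exp (8 * R₁)) +
    (1 + Real.exp (1 + R₁)) * Real.exp (8 * R₁) * R₁, by positivity, ?_⟩
  intro φ Φ hφ hi hΦ hΦ0 hd'
  have hs := small hKB hR₀ (hZ φ Φ hφ hi hΦ hΦ0 hd') hφ hi hΦ hd' h100 h01
  have hg := grow hKB hφ hi (T := R₁)
  have hR0 : (0 : ℝ) ≤ R₁ := by linarith
  have hne := (kb hKB hφ hi hR0).1
  -- value at the far point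
  have hfar : ‖Φ (1 + (R₁ : ℂ))‖ ≤ 2 * (Real.exp (1 + R₁) * (‖deriv φ 1‖ * Real.exp (8 * R₁))) := by
    have hA : Complex.exp (1 + (R₁ : ℂ)) * deriv φ (1 + (R₁ : ℂ)) ≠ 0 :=
      mul_ne_zero (Complex.exp_ne_zero _) hne
    have h1 : ‖Φ (1 + (R₁ : ℂ)) / (Complex.exp (1 + (R₁ : ℂ)) * deriv φ (1 + (R₁ : ℂ)))‖ ≤ 2 := by
      have h2 := norm_add_le (Φ (1 + (R₁ : ℂ)) /
        (Complex.exp (1 + (R₁ : ℂ)) * deriv φ (1 + (R₁ : ℂ))) - 1) (1 : ℂ)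
      rw [sub_add_cancel, norm_one] at h2
      linarith
    rw [norm_div, div_le_iff₀ (norm_pos_iff.2 hA), norm_mul, Complex.norm_exp] at h1
    have h3 : (1 + (R₁ : ℂ)).re = 1 + R₁ := by simp
    rw [h3] at h1
    refine h1.trans ?_
    have h4 := hg R₁ ⟨hR0, le_rfl⟩
    have := Real.exp_pos (1 + R₁)
    nlinarith
  -- mean value inequality
  have hmv : ‖Φ (1 + (R₁ : ℂ)) - Φ (1 + ((0 : ℝ) : ℂ))‖ ≤
      ((1 + Real.exp (1 + R₁)) * (‖deriv φ 1‖ * Real.exp (8 * R₁))) * (R₁ - 0) := by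
    refine norm_image_sub_le_of_norm_deriv_le_segment' (f := fun s : ℝ => Φ (1 + (s : ℂ)))
      (f' := fun s : ℝ => deriv Φ (1 + (s : ℂ))) ?_ ?_ R₁ ⟨hR0, le_rfl⟩
    · intro t ht
      exact (hd (hΦ.differentiableAt (openD.mem_nhds (memD ht.1))).hasDerivAt).hasDerivWithinAt
    · intro t ht
      show ‖deriv Φ (1 + (t : ℂ))‖ ≤ _
      rw [hd' _ (memD ht.1), norm_mul]
      have h1 : ‖1 + Complex.exp (1 + (t : ℂ))‖ ≤ 1 + Real.exp (1 + R₁) := by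
        refine (norm_add_le _ _).trans ?_
        rw [norm_one, Complex.norm_exp]
        have h3 : (1 + (t : ℂ)).re = 1 + t := by simp
        rw [h3]
        have := Real.exp_le_exp.2 (show 1 + t ≤ 1 + R₁ by linarith [ht.2])
        linarith
      have h2 : ‖deriv φ (1 + (t : ℂ))‖ ≤ ‖deriv φ 1‖ * Real.exp (8 * R₁) := by
        refine (hg t ⟨ht.1, ht.2.le⟩).trans ?_
        apply mul_le_mul_of_nonneg_left _ (norm_nonneg _)
        exact Real.exp_le_exp.2 (by linarith [ht.2])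
      exact mul_le_mul h1 h2 (norm_nonneg _) (by positivity)
  have h0 : (1 : ℂ) + ((0 : ℝ) : ℂ) = 1 := by simp
  rw [h0] at hmv
  have hfin : ‖Φ 1‖ ≤ ‖Φ (1 + (R₁ : ℂ))‖ + ‖Φ (1 + (R₁ : ℂ)) - Φ 1‖ := by
    have := norm_sub_le (Φ (1 + (R₁ : ℂ))) (Φ (1 + (R₁ : ℂ)) - Φ 1)
    rwa [sub_sub_cancel] at this
  calc ‖Φ 1‖ ≤ 2 * (Real.exp (1 + R₁) * (‖deriv φ 1‖ * Real.exp (8 * R₁))) +
      ((1 + Real.exp (1 + R₁)) * (‖deriv φ 1‖ * Real.exp (8 * R₁))) * (R₁ - 0) := by linarith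
    _ = _ := by ring

end Pool.Agent.H792R2.SS
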