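import Pool.Agent.H792R2.SS.Defs

/-! Chain rule for the Laplacian (helper509). -/

set_option autoImplicit false
open Set Filter Topology Metric MeasureTheory
open scoped ComplexConjugate

namespace Pool.Agent.H792R2.SS

namespace CHx

theorem lap_eq (u : ℂ → ℝ) (z : ℂ) : Lap u z =
    fderiv ℝ (fderiv ℝ u) z 1 1 + fderiv ℝ (fderiv ℝ u) z Complex.I Complex.I := by
  unfold Lap
  have h := congrFun (InnerProductSpace.laplacian_eq_iteratedFDeriv_complexPlane u) z
  rw [h]
  simp only [iteratedFDeriv_two_apply]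
  simp

theorem norm_sq (ℓ : ℂ →L[ℝ] ℝ) : ‖ℓ‖ ^ 2 = ℓ 1 ^ 2 + ℓ Complex.I ^ 2 := by
  have h : ℓ = innerSL ℝ (⟨ℓ 1, ℓ Complex.I⟩ : ℂ) := by
    ext v
    have hv : v = v.re • (1 : ℂ) + v.im • Complex.I := by
      apply Complex.ext <;> simp
    rw [innerSL_apply_apply, Complex.inner]
    conv_lhs => rw [hv, map_add, map_smul, map_smul]
    simp
  have h2 : ‖ℓ‖ = ‖(⟨ℓ 1, ℓ Complex.I⟩ : ℂ)‖ := by
    conv_lhs => rw [h]
    rw [innerSL_apply_norm]
  rw [h2, Complex.sq_norm, Complex.normSq_apply]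
  simp only
  ring

end CHx

theorem t_CH : S_CH := by
  intro u φ z hu hφ
  refine ⟨hφ.comp z hu, ?_⟩
  have hu1 : DifferentiableAt ℝ (fderiv ℝ u) z :=
    (hu.fderiv_right (m := 1) (by norm_num)).differentiableAt (by norm_num)
  have hφ1 : DifferentiableAt ℝ (deriv φ) (u z) := by
    have h1 : DifferentiableAt ℝ (fderiv ℝ φ) (u z) :=
      (hφ.fderiv_right (m := 1) (by norm_num)).differentiableAt (by norm_num)
    have h2 : deriv φ = fun x => fderiv ℝ φ x 1 := rfl
    rw [h2]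
    exact h1.clm_apply (differentiableAt_const _)
  have hev : fderiv ℝ (fun w => φ (u w)) =ᶠ[𝓝 z] fun w => (deriv φ (u w)) • fderiv ℝ u w := by
    have e1 := hu.eventually (by norm_num)
    have e2 := hu.continuousAt.eventually (hφ.eventually (by norm_num))
    filter_upwards [e1, e2] with w h1 h2
    have h3 : HasDerivAt φ (deriv φ (u w)) (u w) := (h2.differentiableAt (by norm_num)).hasDerivAt
    have h4 : HasFDerivAt u (fderiv ℝ u w) w := (h1.differentiableAt (by norm_num)).hasFDerivAt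
    exact (h3.comp_hasFDerivAt w h4).fderiv
  have h2 : HasFDerivAt (fun w => (deriv φ (u w)) • fderiv ℝ u w)
      ((deriv φ (u z)) • fderiv ℝ (fderiv ℝ u) z +
        ((deriv (deriv φ) (u z)) • fderiv ℝ u z).smulRight (fderiv ℝ u z)) z :=
    (hφ1.hasDerivAt.comp_hasFDerivAt z
      (hu.differentiableAt (by norm_num)).hasFDerivAt).smul hu1.hasFDerivAt
  have h3 : fderiv ℝ (fderiv ℝ fun w => φ (u w)) z = (deriv φ (u z)) • fderiv ℝ (fderiv ℝ u) z +
        ((deriv (deriv φ) (u z)) • fderiv ℝ u z).smulRight (fderiv ℝ u z) := by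
    rw [hev.fderiv_eq]
    exact h2.fderiv
  rw [CHx.lap_eq, CHx.lap_eq, h3, CHx.norm_sq]
  simp only [add_apply, smul_apply, ContinuousLinearMap.smulRight_apply, smul_eq_mul]
  ring

end Pool.Agent.H792R2.SS
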