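import Pool.Agent.H792R2.SS.Defs

set_option autoImplicit false
open Set Filter Topology Metric MeasureTheory

namespace Pool.Agent.H792R2.SS
namespace CLEMx

theorem mI_re (z : ℂ) : (-Complex.I * z).re = z.im := by
  simp

/-- the ball with centre `z` and radius `-1/2 - re z` -/
theorem ball_sub (z : ℂ) (y : ℂ) (hy : y ∈ ball z (-1 / 2 - z.re)) : y.re < -1 / 2 := by
  rw [mem_ball, dist_eq_norm] at hy
  have h1 : (y - z).re ≤ ‖y - z‖ := Complex.re_le_norm _
  rw [Complex.sub_re] at h1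
  linarith

theorem harnack (hPOS : S_POS) (W : ℂ → ℂ) (hW : DifferentiableOn ℂ W {y | y.re < -1 / 2})
    (hpos : ∀ y : ℂ, y.re < -1 / 2 → 0 < (W y).im) (z : ℂ) (hz : z.re < -1 / 2) (w : ℂ)
    (hw : ‖w - z‖ < -1 / 2 - z.re) :
    (W z).im * (((-1 / 2 - z.re) - ‖w - z‖) / ((-1 / 2 - z.re) + ‖w - z‖)) ≤ (W w).im ∧
    (W w).im ≤ (W z).im * (((-1 / 2 - z.re) + ‖w - z‖) / ((-1 / 2 - z.re) - ‖w - z‖)) := by
  have h := hPOS (fun y => -Complex.I * W y) z (-1 / 2 - z.re) (by linarith)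
    (by
      intro y hy
      have h1 : DifferentiableAt ℂ W y := by
        apply hW.differentiableAt
        exact (isOpen_lt Complex.continuous_re continuous_const).mem_nhds (ball_sub z y hy)
      exact (h1.const_mul _).differentiableWithinAt)
    (by
      intro y hy
      simp only [mI_re]
      exact hpos y (ball_sub z y hy))
  have h2 := h.2 w (by rw [mem_ball, dist_eq_norm]; exact hw)
  simp only [mI_re] at h2
  exact h2

/-- the points -/
noncomputable def pt (k : ℕ) : ℂ := -1 + 2 * Real.pi * k * Complex.I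

theorem pt_re (k : ℕ) : (pt k).re = -1 := by simp [pt]

theorem pt_im (k : ℕ) : (pt k).im = 2 * Real.pi * k := by simp [pt]

theorem sh_re (k : ℕ) (x : ℝ) : (pt k - (x : ℂ)).re = -1 - x := by
  rw [Complex.sub_re, pt_re, Complex.ofReal_re]

theorem hor_u (hPOS : S_POS) (W : ℂ → ℂ) (hW : DifferentiableOn ℂ W {y | y.re < -1 / 2})
    (hpos : ∀ y : ℂ, y.re < -1 / 2 → 0 < (W y).im) (k : ℕ) (x : ℝ) (hx : 0 ≤ x) :
    (W (pt k - x)).im ≤ (4 * x + 1) * (W (pt k)).im := by
  have e : pt k - (pt k - (x : ℂ)) = (x : ℂ) := by ring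
  have hn : ‖pt k - (pt k - (x : ℂ))‖ = x := by
    rw [e, Complex.norm_real, Real.norm_eq_abs, abs_of_nonneg hx]
  have h := (harnack hPOS W hW hpos (pt k - x) (by rw [sh_re]; linarith) (pt k)
    (by rw [hn, sh_re]; linarith)).1
  rw [hn, sh_re] at h
  have e2 : (-1 / 2 - (-1 - x) - x) / (-1 / 2 - (-1 - x) + x) = 1 / (4 * x + 1) := by
    rw [div_eq_div_iff (by linarith) (by linarith)]
    ring
  rw [e2, mul_one_div, div_le_iff₀ (by linarith)] at h
  linarith

theorem hor (hPOS : S_POS) (c : ℝ) (hc : 0 < c) (W Ψ : ℂ → ℂ)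
    (hW : DifferentiableOn ℂ W {y | y.re < -1 / 2})
    (hpos : ∀ y : ℂ, y.re < -1 / 2 → 0 < (W y).im ∧ ‖deriv W y‖ ≤ (W y).im / c)
    (hΨ : DifferentiableOn ℂ Ψ {y | y.re < -1 / 2})
    (hd : ∀ y : ℂ, y.re < -1 / 2 → deriv Ψ y = Complex.exp y * deriv W y)
    (k : ℕ) (T : ℝ) (hT : 0 ≤ T) :
    ‖Ψ (pt k - T) - Ψ (pt k)‖ ≤ 5 / c * (W (pt k)).im := by
  set u := (W (pt k)).im with hu
  have hu0 : 0 < u := (hpos _ (by rw [pt_re]; norm_num)).1
  have hder : ∀ x : ℝ, 0 ≤ x → HasDerivAt (fun x : ℝ => Ψ (pt k - x) - Ψ (pt k))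
      (-deriv Ψ (pt k - x)) x := by
    intro x hx
    have hre : (pt k - (x : ℂ)).re < -1 / 2 := by rw [sh_re]; linarith
    have h1 : HasDerivAt Ψ (deriv Ψ (pt k - x)) (pt k - x) :=
      (hΨ.differentiableAt ((isOpen_lt Complex.continuous_re continuous_const).mem_nhds
        hre)).hasDerivAt
    have h2 : HasDerivAt (fun s : ℝ => pt k - (s : ℂ)) (-1) x := by
      have := (Complex.ofRealCLM.hasDerivAt (x := x)).const_sub (pt k)
      simpa using this
    have h3 := HasDerivAt.scomp_of_eq (h := fun s : ℝ => pt k - (s : ℂ)) x h1 h2 rfl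
    have h4 := h3.sub_const (Ψ (pt k))
    simpa [Function.comp_def] using h4
  have key := image_norm_le_of_norm_deriv_right_le_deriv_boundary
    (f := fun x : ℝ => Ψ (pt k - x) - Ψ (pt k)) (f' := fun x => -deriv Ψ (pt k - x))
    (a := 0) (b := T)
    (B := fun x => u / c * (5 * Real.exp (-1) - (4 * x + 5) * Real.exp (-1 - x)))
    (B' := fun x => u / c * ((4 * x + 1) * Real.exp (-1 - x)))
    (fun x hx => (hder x hx.1).continuousAt.continuousWithinAt)
    (fun x hx => (hder x hx.1).hasDerivWithinAt)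
    (by simp)
    (by
      intro x
      have h1 : HasDerivAt (fun x : ℝ => 4 * x + 5) 4 x := by
        simpa using ((hasDerivAt_id x).const_mul 4).add_const 5
      have h2 : HasDerivAt (fun x : ℝ => Real.exp (-1 - x)) (Real.exp (-1 - x) * (-1)) x := by
        have := ((hasDerivAt_id x).const_sub (-1)).exp
        simpa using this
      have h3 := ((h1.mul h2).const_sub (5 * Real.exp (-1))).const_mul (u / c)
      refine h3.congr_deriv ?_
      ring)
    (by
      intro x hx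
      have hre : (pt k - (x : ℂ)).re < -1 / 2 := by rw [sh_re]; linarith [hx.1]
      rw [norm_neg, hd _ hre, norm_mul, Complex.norm_exp, sh_re]
      have h1 : ‖deriv W (pt k - x)‖ ≤ u / c * (4 * x + 1) := by
        refine (hpos _ hre).2.trans ?_
        rw [div_le_iff₀ hc]
        have := hor_u hPOS W hW (fun y hy => (hpos y hy).1) k x hx.1
        calc (W (pt k - x)).im ≤ (4 * x + 1) * u := this
          _ = u / c * (4 * x + 1) * c := by field_simp
      calc Real.exp (-1 - x) * ‖deriv W (pt k - x)‖ ≤ Real.exp (-1 - x) * (u / c * (4 * x + 1)) :=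
            mul_le_mul_of_nonneg_left h1 (Real.exp_pos _).le
        _ = _ := by ring) (x := T) ⟨hT, le_refl T⟩
  refine key.trans ?_
  have h1 : Real.exp (-1) ≤ 1 := Real.exp_le_one_iff.mpr (by norm_num)
  have h2 : 0 ≤ (4 * T + 5) * Real.exp (-1 - T) := by positivity
  calc u / c * (5 * Real.exp (-1) - (4 * T + 5) * Real.exp (-1 - T)) ≤ u / c * 5 := by
        apply mul_le_mul_of_nonneg_left _ (by positivity)
        linarith
    _ = 5 / c * u := by ring

theorem vbound (v : ℝ) (hv : 0 ≤ v) : v * (8 * v + 1) ≤ 16 * Real.exp v := by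
  have := Real.quadratic_le_exp_of_nonneg hv
  nlinarith

theorem ver (hPOS : S_POS) (c : ℝ) (hc : 0 < c) (W Ψ : ℂ → ℂ)
    (hW : DifferentiableOn ℂ W {y | y.re < -1 / 2})
    (hpos : ∀ y : ℂ, y.re < -1 / 2 → 0 < (W y).im ∧ ‖deriv W y‖ ≤ (W y).im / c)
    (hΨ : DifferentiableOn ℂ Ψ {y | y.re < -1 / 2})
    (hd : ∀ y : ℂ, y.re < -1 / 2 → deriv Ψ y = Complex.exp y * deriv W y)
    (k l : ℕ) (v T : ℝ) (hv : v = 2 * Real.pi * |(l : ℝ) - k|) (hT : T = 2 * v) :
    ‖Ψ (pt l - T) - Ψ (pt k - T)‖ ≤ 48 / c * (W (pt k)).im := by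
  set u := (W (pt k)).im with hu
  have hu0 : 0 < u := (hpos _ (by rw [pt_re]; norm_num)).1
  have hv0 : 0 ≤ v := by rw [hv]; positivity
  have hT0 : 0 ≤ T := by rw [hT]; linarith
  have hdist : ‖pt l - T - (pt k - T)‖ = v := by
    have e : pt l - (T : ℂ) - (pt k - T) = ((2 * Real.pi * ((l : ℝ) - k) : ℝ) : ℂ) * Complex.I := by
      simp only [pt]
      push_cast
      ring
    rw [e, norm_mul, Complex.norm_I, mul_one, Complex.norm_real, Real.norm_eq_abs, abs_mul,
      abs_of_pos (by positivity : (0 : ℝ) < 2 * Real.pi), hv]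
  have hreD : ∀ y ∈ closedBall (pt k - (T : ℂ)) v, y.re ≤ -1 - v := by
    intro y hy
    rw [mem_closedBall, dist_eq_norm] at hy
    have h1 : (y - (pt k - T)).re ≤ ‖y - (pt k - T)‖ := Complex.re_le_norm _
    rw [Complex.sub_re, sh_re] at h1
    rw [hT] at h1 hy
    linarith
  have key := Convex.norm_image_sub_le_of_norm_deriv_le (f := Ψ) (s := closedBall (pt k - (T : ℂ)) v)
    (C := Real.exp (-1 - v) * (3 * (4 * T + 1) * u / c)) (x := pt k - T) (y := pt l - T)
    (by
      intro y hy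
      apply hΨ.differentiableAt
      apply (isOpen_lt Complex.continuous_re continuous_const).mem_nhds
      have := hreD y hy
      show y.re < -1 / 2
      linarith)
    (by
      intro y hy
      have hre := hreD y hy
      have hre' : y.re < -1 / 2 := by linarith
      rw [hd y hre', norm_mul, Complex.norm_exp]
      apply mul_le_mul (Real.exp_le_exp.mpr hre) _ (norm_nonneg _) (Real.exp_pos _).le
      refine (hpos y hre').2.trans ?_
      apply div_le_div_of_nonneg_right _ hc.le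
      rw [mem_closedBall, dist_eq_norm] at hy
      have h1 := (harnack hPOS W hW (fun y hy => (hpos y hy).1) (pt k - T)
        (by rw [sh_re]; linarith) y (by rw [sh_re]; linarith)).2
      have h2 := hor_u hPOS W hW (fun y hy => (hpos y hy).1) k T hT0
      rw [sh_re] at h1
      have h3 : (-1 / 2 - (-1 - T) + ‖y - (pt k - T)‖) / (-1 / 2 - (-1 - T) - ‖y - (pt k - T)‖) ≤ 3 := by
        rw [div_le_iff₀ (by linarith)]
        linarith
      have h4 : 0 < (W (pt k - T)).im := (hpos _ (by rw [sh_re]; linarith)).1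
      calc (W y).im ≤ (W (pt k - T)).im * 3 := h1.trans (mul_le_mul_of_nonneg_left h3 h4.le)
        _ ≤ ((4 * T + 1) * u) * 3 := by linarith
        _ = 3 * (4 * T + 1) * u := by ring)
    (convex_closedBall _ _) (mem_closedBall_self hv0)
    (by rw [mem_closedBall, dist_eq_norm, hdist])
  rw [hdist] at key
  refine key.trans ?_
  have h1 := vbound v hv0
  have h2 : Real.exp (-1 - v) * Real.exp v ≤ 1 := by
    rw [← Real.exp_add]
    exact Real.exp_le_one_iff.mpr (by linarith)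
  have h3 : Real.exp (-1 - v) * (v * (8 * v + 1)) ≤ 16 := by
    calc Real.exp (-1 - v) * (v * (8 * v + 1)) ≤ Real.exp (-1 - v) * (16 * Real.exp v) :=
          mul_le_mul_of_nonneg_left h1 (Real.exp_pos _).le
      _ = 16 * (Real.exp (-1 - v) * Real.exp v) := by ring
      _ ≤ 16 := by linarith
  calc Real.exp (-1 - v) * (3 * (4 * T + 1) * u / c) * v
      = 3 * (u / c) * (Real.exp (-1 - v) * (v * (8 * v + 1))) := by rw [hT]; ring
    _ ≤ 3 * (u / c) * 16 := mul_le_mul_of_nonneg_left h3 (by positivity)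
    _ = 48 / c * u := by ring

end CLEMx
open CLEMx

theorem t_CLEM (hPOS : S_POS) : S_CLEM := by
  intro c hc
  refine ⟨53 / c, by positivity, ?_⟩
  intro W Ψ hW hpos hΨ hd k l
  have e : ∀ k : ℕ, (-1 + 2 * Real.pi * k * Complex.I : ℂ) = pt k := fun k => rfl
  rw [e, e]
  set v : ℝ := 2 * Real.pi * |(l : ℝ) - k| with hv
  have hv0 : 0 ≤ v := by rw [hv]; positivity
  have h1 := hor hPOS c hc W Ψ hW hpos hΨ hd k (2 * v) (by linarith)
  have h2 := ver hPOS c hc W Ψ hW hpos hΨ hd k l v (2 * v) hv rfl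
  have h3 := hor hPOS c hc W Ψ hW hpos hΨ hd l (2 * v) (by linarith)
  have huk : 0 < (W (pt k)).im := (hpos _ (by rw [pt_re]; norm_num)).1
  have hul : 0 < (W (pt l)).im := (hpos _ (by rw [pt_re]; norm_num)).1
  have h4 : Ψ (pt k) - Ψ (pt l) = -(Ψ (pt k - ((2 * v : ℝ) : ℂ)) - Ψ (pt k)) -
      (Ψ (pt l - ((2 * v : ℝ) : ℂ)) - Ψ (pt k - ((2 * v : ℝ) : ℂ))) +
      (Ψ (pt l - ((2 * v : ℝ) : ℂ)) - Ψ (pt l)) := by ring
  rw [h4]
  have h5 := norm_add_le (-(Ψ (pt k - ((2 * v : ℝ) : ℂ)) - Ψ (pt k)) -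
      (Ψ (pt l - ((2 * v : ℝ) : ℂ)) - Ψ (pt k - ((2 * v : ℝ) : ℂ))))
      (Ψ (pt l - ((2 * v : ℝ) : ℂ)) - Ψ (pt l))
  have h6 := norm_sub_le (-(Ψ (pt k - ((2 * v : ℝ) : ℂ)) - Ψ (pt k)))
      (Ψ (pt l - ((2 * v : ℝ) : ℂ)) - Ψ (pt k - ((2 * v : ℝ) : ℂ)))
  rw [norm_neg] at h6
  have h7 : 5 / c * (W (pt l)).im ≤ 53 / c * (W (pt l)).im := by
    apply mul_le_mul_of_nonneg_right _ hul.le
    apply div_le_div_of_nonneg_right (by norm_num) hc.le
  calc _ ≤ 5 / c * (W (pt k)).im + 48 / c * (W (pt k)).im + 5 / c * (W (pt l)).im := by linarith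
    _ = 53 / c * (W (pt k)).im + 5 / c * (W (pt l)).im := by ring
    _ ≤ 53 / c * (W (pt k)).im + 53 / c * (W (pt l)).im := by linarith
    _ = _ := by ring

end Pool.Agent.H792R2.SS
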