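import Pool.Agent.H792R2.SS.Defs

set_option autoImplicit false
open Set Filter Topology Metric MeasureTheory

namespace Pool.Agent.H792R2.SS.COMBx

theorem exists_big (a b C : ℝ) : ∃ n : ℕ, (a + b * n) * C < 2 ^ n := by
  have h1 : Tendsto (fun n : ℕ => (n : ℝ) ^ 1 / 2 ^ n) atTop (𝓝 0) :=
    tendsto_pow_const_div_const_pow_of_one_lt 1 one_lt_two
  have h0 : Tendsto (fun n : ℕ => (n : ℝ) ^ 0 / 2 ^ n) atTop (𝓝 0) :=
    tendsto_pow_const_div_const_pow_of_one_lt 0 one_lt_two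
  have h2 : Tendsto (fun n : ℕ => a * C * ((n : ℝ) ^ 0 / 2 ^ n) + b * C * ((n : ℝ) ^ 1 / 2 ^ n))
      atTop (𝓝 (a * C * 0 + b * C * 0)) := (h0.const_mul _).add (h1.const_mul _)
  rw [mul_zero, mul_zero, add_zero] at h2
  obtain ⟨n, hn⟩ := (h2.eventually (gt_mem_nhds one_pos)).exists
  refine ⟨n, ?_⟩
  have hp : (0 : ℝ) < 2 ^ n := by positivity
  have e : a * C * ((n : ℝ) ^ 0 / 2 ^ n) + b * C * ((n : ℝ) ^ 1 / 2 ^ n) =
      ((a + b * n) * C) / 2 ^ n := by
    field_simp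
  rw [e, div_lt_one hp] at hn
  exact hn

theorem floor_mem {x X : ℝ} (h : |x| ≤ X) : ⌊x⌋ ∈ Finset.Icc (-(⌈X⌉ + 1)) (⌈X⌉ + 1) := by
  obtain ⟨h1, h2⟩ := abs_le.1 h
  rw [Finset.mem_Icc]
  constructor
  · rw [Int.le_floor]
    push_cast
    have := Int.le_ceil X
    linarith
  · have a1 : ⌊x⌋ ≤ ⌈X⌉ := by
      have b1 := Int.floor_le x
      have b2 := Int.le_ceil X
      exact_mod_cast (by linarith : (⌊x⌋ : ℝ) ≤ (⌈X⌉ : ℝ))
    linarith

theorem abs_sub_lt_of_floor_eq {x y s : ℝ} (hs : 0 < s) (h : ⌊x / s⌋ = ⌊y / s⌋) :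
    |x - y| < s := by
  have := Int.abs_sub_lt_one_of_floor_eq_floor h
  rw [← sub_div, abs_div, abs_of_pos hs, div_lt_one hs] at this
  exact this

end Pool.Agent.H792R2.SS.COMBx

namespace Pool.Agent.H792R2.SS

theorem t_COMB : S_COMB := by
  intro w A c B h hc hh hB hy hA hsep hpoly
  have hA0 : 0 ≤ A := by
    have h1 := hA 0 0
    rw [sub_self, norm_zero] at h1
    have := hy 0
    by_contra hneg
    push Not at hneg
    nlinarith
  set lev : ℕ → ℤ := fun k => Int.log 2 (w k).im with hlev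
  have l1 : ∀ k, (2 : ℝ) ^ lev k ≤ (w k).im := fun k => by
    have := Int.zpow_log_le_self (b := 2) (by norm_num) (hy k)
    exact_mod_cast this
  have l2 : ∀ k, (w k).im < (2 : ℝ) ^ (lev k + 1) := fun k => by
    have := Int.lt_zpow_succ_log_self (b := 2) (by norm_num) (w k).im
    exact_mod_cast this
  have hb : ∃ b : ℤ → ℕ, ∀ k, lev (b (lev k)) = lev k := by
    classical
    refine ⟨fun j => if h : ∃ k, lev k = j then h.choose else 0, fun k => ?_⟩
    have h' : ∃ k', lev k' = lev k := ⟨k, rfl⟩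
    have e : (if h : ∃ k', lev k' = lev k then h.choose else 0) = h'.choose := dif_pos h'
    change lev (if h : ∃ k', lev k' = lev k then h.choose else 0) = lev k
    rw [e]
    exact h'.choose_spec
  obtain ⟨b, hb⟩ := hb
  set s : ℝ := c / 2 with hs
  have hs0 : 0 < s := by rw [hs]; linarith
  set X : ℝ := 4 * A / s with hX
  set u : ℕ → ℂ := fun k => (w k - w (b (lev k))) / (((2 : ℝ) ^ (lev k) : ℝ) : ℂ) with hu
  have hup : ∀ k, ‖u k‖ ≤ 4 * A := by
    intro k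
    have hp : (0 : ℝ) < 2 ^ lev k := by positivity
    rw [hu]
    dsimp only
    rw [norm_div, Complex.norm_real, Real.norm_of_nonneg hp.le, div_le_iff₀ hp]
    have e1 := l2 k
    have e2 := l2 (b (lev k))
    rw [hb k] at e2
    rw [zpow_add_one₀ (by norm_num)] at e1 e2
    have := hA k (b (lev k))
    nlinarith
  have hre : ∀ k, ⌊(u k).re / s⌋ ∈ Finset.Icc (-(⌈X⌉ + 1)) (⌈X⌉ + 1) := by
    intro k
    apply COMBx.floor_mem
    rw [abs_div, abs_of_pos hs0, hX]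
    exact div_le_div_of_nonneg_right (le_trans (Complex.abs_re_le_norm _) (hup k)) hs0.le
  have him : ∀ k, ⌊(u k).im / s⌋ ∈ Finset.Icc (-(⌈X⌉ + 1)) (⌈X⌉ + 1) := by
    intro k
    apply COMBx.floor_mem
    rw [abs_div, abs_of_pos hs0, hX]
    exact div_le_div_of_nonneg_right (le_trans (Complex.abs_im_le_norm _) (hup k)) hs0.le
  have hinj : Function.Injective
      (fun k => (lev k, ⌊(u k).re / s⌋, ⌊(u k).im / s⌋)) := by
    intro k l hkl
    simp only [Prod.mk.injEq] at hkl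
    obtain ⟨g1, g2, g3⟩ := hkl
    by_contra hne
    have e1 := COMBx.abs_sub_lt_of_floor_eq hs0 g2
    have e2 := COMBx.abs_sub_lt_of_floor_eq hs0 g3
    have e3 : ‖u k - u l‖ < c := by
      have := Complex.norm_le_abs_re_add_abs_im (u k - u l)
      rw [Complex.sub_re, Complex.sub_im] at this
      rw [hs] at e1 e2
      linarith
    have e4 : u k - u l = (w k - w l) / (((2 : ℝ) ^ (lev k) : ℝ) : ℂ) := by
      rw [hu]
      dsimp only
      rw [← g1, ← sub_div]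
      congr 1
      ring
    have hp : (0 : ℝ) < 2 ^ lev k := by positivity
    rw [e4, norm_div, Complex.norm_real, Real.norm_of_nonneg hp.le, div_lt_iff₀ hp] at e3
    have e5 := hsep k l hne
    have e6 := l1 k
    nlinarith
  obtain ⟨β, hβ⟩ := pow_unbounded_of_one_lt B (one_lt_two : (1 : ℝ) < 2)
  set H : ℤ := Int.log 2 h with hH
  have H1 : (2 : ℝ) ^ H ≤ h := by
    have := Int.zpow_log_le_self (b := 2) (by norm_num) hh
    exact_mod_cast this
  have H2 : h < (2 : ℝ) ^ (H + 1) := by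
    have := Int.lt_zpow_succ_log_self (b := 2) (by norm_num) h
    exact_mod_cast this
  have hcount : ∀ n : ℕ, ((2 : ℕ) ^ n : ℕ) ≤
      (2 * β + 3 + 8 * n) * ((2 * ⌈X⌉ + 3).toNat * (2 * ⌈X⌉ + 3).toNat) := by
    intro n
    have hlevb : ∀ k ∈ Finset.range (2 ^ n), lev k ∈
        Finset.Icc (H - β - 4 * n - 1) (H + β + 4 * n + 1) := by
      intro k hk
      rw [Finset.mem_range] at hk
      have k1 : ((1 : ℝ) + k) ≤ 2 ^ n := by
        exact_mod_cast (by omega : 1 + k ≤ 2 ^ n)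
      have k2 : ((1 : ℝ) + k) ^ 4 ≤ 2 ^ (4 * n) := by
        calc ((1 : ℝ) + k) ^ 4 ≤ (2 ^ n) ^ 4 := pow_le_pow_left₀ (by positivity) k1 4
          _ = 2 ^ (4 * n) := by rw [← pow_mul, mul_comm]
      have k3 : B * ((1 : ℝ) + k) ^ 4 ≤ 2 ^ β * 2 ^ (4 * n) :=
        mul_le_mul hβ.le k2 (by positivity) (by positivity)
      obtain ⟨p1, p2⟩ := hpoly k
      have q1 : (2 : ℝ) ^ lev k < 2 ^ ((β : ℤ) + (4 * n : ℕ) + (H + 1)) := by
        rw [zpow_add₀ (by norm_num), zpow_add₀ (by norm_num), zpow_natCast, zpow_natCast]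
        calc (2 : ℝ) ^ lev k ≤ (w k).im := l1 k
          _ ≤ B * (1 + k) ^ 4 * h := p1
          _ ≤ 2 ^ β * 2 ^ (4 * n) * h := mul_le_mul_of_nonneg_right k3 hh.le
          _ < 2 ^ β * 2 ^ (4 * n) * 2 ^ (H + 1) := mul_lt_mul_of_pos_left H2 (by positivity)
      have q2 : (2 : ℝ) ^ H < 2 ^ ((β : ℤ) + (4 * n : ℕ) + (lev k + 1)) := by
        rw [zpow_add₀ (by norm_num), zpow_add₀ (by norm_num), zpow_natCast, zpow_natCast]
        calc (2 : ℝ) ^ H ≤ h := H1
          _ ≤ B * (1 + k) ^ 4 * (w k).im := p2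
          _ ≤ 2 ^ β * 2 ^ (4 * n) * (w k).im := mul_le_mul_of_nonneg_right k3 (hy k).le
          _ < 2 ^ β * 2 ^ (4 * n) * 2 ^ (lev k + 1) :=
            mul_lt_mul_of_pos_left (l2 k) (by positivity)
      rw [zpow_lt_zpow_iff_right₀ one_lt_two] at q1 q2
      push_cast at q1 q2
      rw [Finset.mem_Icc]
      constructor
      · linarith
      · linarith
    have hc1 := Finset.card_le_card_of_injOn
      (s := Finset.range (2 ^ n))
      (t := Finset.Icc (H - β - 4 * n - 1) (H + β + 4 * n + 1) ×ˢ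
        (Finset.Icc (-(⌈X⌉ + 1)) (⌈X⌉ + 1) ×ˢ Finset.Icc (-(⌈X⌉ + 1)) (⌈X⌉ + 1)))
      (fun k => (lev k, ⌊(u k).re / s⌋, ⌊(u k).im / s⌋))
      (fun k hk => by
        simp only [Finset.coe_product, Set.mem_prod, Finset.mem_coe]
        exact ⟨hlevb k (by simpa using hk), hre k, him k⟩) hinj.injOn
    rw [Finset.card_range, Finset.card_product, Finset.card_product, Int.card_Icc,
      Int.card_Icc] at hc1
    have e1 : (H + (β : ℤ) + 4 * n + 1 + 1 - (H - β - 4 * n - 1)).toNat = 2 * β + 3 + 8 * n := by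
      omega
    have e2 : (⌈X⌉ + 1 + 1 - (-(⌈X⌉ + 1))).toNat = (2 * ⌈X⌉ + 3).toNat := by
      congr 1
      ring
    rw [e1, e2] at hc1
    exact hc1
  set C : ℕ := (2 * ⌈X⌉ + 3).toNat * (2 * ⌈X⌉ + 3).toNat with hC
  obtain ⟨n, hn⟩ := COMBx.exists_big (2 * β + 3) 8 C
  have := hcount n
  have h' : ((2 : ℝ)) ^ n ≤ (2 * β + 3 + 8 * n) * C := by exact_mod_cast this
  linarith

end Pool.Agent.H792R2.SS
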