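import Pool.Agent.H792R2.SS.Defs

set_option autoImplicit false
open Set Filter Topology Metric MeasureTheory

namespace Pool.Agent.H792R2.SS
namespace COVx

lemma ker_upper {r : ℝ} (h1 : r < 1) {z : ℂ} (hz : 1 / 2 ≤ ‖z‖) (hz' : ‖z‖ < r) :
    ker r z ≤ 2 / (1 - ‖z‖) := by
  have h0 : 0 < ‖z‖ := by linarith
  have hD : 0 < 1 - ‖z‖ := by linarith
  have hlog : Real.log (r / ‖z‖) ≤ 2 * (1 - ‖z‖) := by
    have h3 : Real.log (r / ‖z‖) ≤ r / ‖z‖ - 1 := Real.log_le_sub_one_of_pos (by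
      apply div_pos _ h0; linarith)
    have h4 : r / ‖z‖ ≤ 1 + 2 * (1 - ‖z‖) := by
      rw [div_le_iff₀ h0]
      nlinarith
    linarith
  have hden : (1 - ‖z‖) ^ 2 ≤ (1 - ‖z‖ ^ 2) ^ 2 := by
    apply pow_le_pow_left₀ hD.le
    nlinarith
  unfold ker
  calc Real.log (r / ‖z‖) / (1 - ‖z‖ ^ 2) ^ 2
      ≤ (2 * (1 - ‖z‖)) / (1 - ‖z‖ ^ 2) ^ 2 := by
        apply div_le_div_of_nonneg_right hlog (by positivity)
    _ ≤ (2 * (1 - ‖z‖)) / (1 - ‖z‖) ^ 2 := by
        apply div_le_div_of_nonneg_left (by positivity) (by positivity) hden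
    _ = 2 / (1 - ‖z‖) := by
        field_simp

lemma ker_lower {r : ℝ} (h0 : 0 < r) (h1 : r < 1) {w : ℂ} (hw : w ≠ 0)
    (hw' : 2 * (1 - r) ≤ 1 - ‖w‖) : 1 / (1 - ‖w‖) ≤ 8 * ker r w := by
  have hn : 0 < ‖w‖ := norm_pos_iff.2 hw
  have hD : 0 < 1 - ‖w‖ := by linarith
  have hlog : (1 - ‖w‖) / 2 ≤ Real.log (r / ‖w‖) := by
    have h3 : 1 - (r / ‖w‖)⁻¹ ≤ Real.log (r / ‖w‖) := Real.one_sub_inv_le_log_of_pos (by positivity)
    have h4 : (r / ‖w‖)⁻¹ ≤ 1 - (1 - ‖w‖) / 2 := by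
      rw [inv_div, div_le_iff₀ h0]
      nlinarith
    linarith
  have hpos2 : 0 < 1 - ‖w‖ ^ 2 := by nlinarith
  have hden : (1 - ‖w‖ ^ 2) ^ 2 ≤ (2 * (1 - ‖w‖)) ^ 2 := by
    apply pow_le_pow_left₀ hpos2.le
    nlinarith
  unfold ker
  calc 1 / (1 - ‖w‖) = 8 * (((1 - ‖w‖) / 2) / (2 * (1 - ‖w‖)) ^ 2) := by
        field_simp
        norm_num
    _ ≤ 8 * (((1 - ‖w‖) / 2) / (1 - ‖w‖ ^ 2) ^ 2) := by
        apply mul_le_mul_of_nonneg_left _ (by norm_num)
        apply div_le_div_of_nonneg_left (by positivity) (by positivity) hden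
    _ ≤ 8 * (Real.log (r / ‖w‖) / (1 - ‖w‖ ^ 2) ^ 2) := by
        apply mul_le_mul_of_nonneg_left _ (by norm_num)
        apply div_le_div_of_nonneg_right hlog (by positivity)

lemma ker_nonneg (hNU : S_NU) {r : ℝ} (h0 : 0 < r) (h1 : r < 1) {z : ℂ}
    (hz : z ∈ ball (0 : ℂ) r) : 0 ≤ ker r z := (hNU.2.2 r r h0 le_rfl h1 z hz).1

lemma ker_zero (r : ℝ) : ker r 0 = 0 := by
  simp [ker]

/-- part (i) -/
lemma part1 (hNU : S_NU) {d : ℝ} (hd : 0 < d) (hd1 : d ≤ 1 / 2) : ∃ M : ℝ, 0 ≤ M ∧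
    ∀ r : ℝ, 0 < r → r < 1 →
    ∫⁻ z in ball (0 : ℂ) r ∩ {z | d ≤ 1 - ‖z‖}, ENNReal.ofReal (ker r z) ≤ ENNReal.ofReal M := by
  set r1 : ℝ := 1 - d / 2 with hr1
  have hr1a : 0 < r1 := by rw [hr1]; linarith
  have hr1b : r1 < 1 := by rw [hr1]; linarith
  set c : ℝ := -Real.log r1 / (1 - r1 ^ 2) ^ 2 with hc
  have hr1sq : 0 < 1 - r1 ^ 2 := by nlinarith
  have hlogneg : Real.log r1 < 0 := Real.log_neg hr1a hr1b
  have hc0 : 0 ≤ c := by
    rw [hc]
    apply div_nonneg (by linarith) (by positivity)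
  have hint : IntegrableOn (fun z => ker r1 z + c) (ball (0 : ℂ) r1) := by
    apply Integrable.add (hNU.1 r1 hr1a hr1b)
    apply integrableOn_const
    · exact measure_ball_lt_top.ne
    · simp
  have hnn : 0 ≤ᵐ[volume.restrict (ball (0 : ℂ) r1)] (fun z => ker r1 z + c) := by
    rw [Filter.EventuallyLE, ae_restrict_iff' measurableSet_ball]
    apply Filter.Eventually.of_forall
    intro z hz
    have := ker_nonneg hNU hr1a hr1b hz
    simp only [Pi.zero_apply]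
    linarith
  refine ⟨∫ z in ball (0 : ℂ) r1, (ker r1 z + c), ?_, ?_⟩
  · exact integral_nonneg_of_ae hnn
  · intro r hr0 hr1'
    rw [ofReal_integral_eq_lintegral_ofReal hint hnn]
    have hX : MeasurableSet (ball (0 : ℂ) r ∩ {z | d ≤ 1 - ‖z‖}) := by
      apply measurableSet_ball.inter
      exact measurableSet_le measurable_const (measurable_const.sub measurable_norm)
    have hsub : (ball (0 : ℂ) r ∩ {z | d ≤ 1 - ‖z‖}) ⊆ ball (0 : ℂ) r1 := by
      rintro z ⟨_, hz2⟩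
      simp only [mem_ofPred_eq] at hz2
      rw [mem_ball_zero_iff, hr1]
      linarith
    calc ∫⁻ z in ball (0 : ℂ) r ∩ {z | d ≤ 1 - ‖z‖}, ENNReal.ofReal (ker r z)
        ≤ ∫⁻ z in ball (0 : ℂ) r ∩ {z | d ≤ 1 - ‖z‖}, ENNReal.ofReal (ker r1 z + c) := by
          apply setLIntegral_mono' hX
          rintro z hz
          apply ENNReal.ofReal_le_ofReal
          have hzr1 := hsub hz
          rcases le_total r r1 with hle | hle
          · have := (hNU.2.2 r r1 hr0 hle hr1b z hz.1).2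
            linarith
          · by_cases hz0 : z = 0
            · rw [hz0, ker_zero, ker_zero]; linarith
            · have hn : 0 < ‖z‖ := norm_pos_iff.2 hz0
              rw [mem_ball_zero_iff] at hzr1
              unfold ker
              rw [hc, Real.log_div hr0.ne' hn.ne', Real.log_div hr1a.ne' hn.ne']
              have hlr : Real.log r ≤ 0 := (Real.log_neg hr0 hr1').le
              have hden : (1 - r1 ^ 2) ^ 2 ≤ (1 - ‖z‖ ^ 2) ^ 2 := by
                apply pow_le_pow_left₀ hr1sq.le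
                nlinarith
              have hdpos : 0 < (1 - ‖z‖ ^ 2) ^ 2 := lt_of_lt_of_le (by positivity) hden
              have h5 : -Real.log r1 / (1 - ‖z‖ ^ 2) ^ 2 ≤ -Real.log r1 / (1 - r1 ^ 2) ^ 2 := by
                apply div_le_div_of_nonneg_left (by linarith) (by positivity) hden
              have h6 : (Real.log r - Real.log ‖z‖) / (1 - ‖z‖ ^ 2) ^ 2 ≤
                  (Real.log r1 - Real.log ‖z‖) / (1 - ‖z‖ ^ 2) ^ 2 +
                    -Real.log r1 / (1 - ‖z‖ ^ 2) ^ 2 := by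
                rw [← add_div]
                apply div_le_div_of_nonneg_right _ hdpos.le
                linarith
              linarith
      _ ≤ ∫⁻ z in ball (0 : ℂ) r1, ENNReal.ofReal (ker r1 z + c) := lintegral_mono_set hsub

/-- part (ii) -/
lemma part2 (hNU : S_NU) {Q r : ℝ} (hQ : 1 ≤ Q) (hr : 1 / 2 ≤ r) (hr1 : r < 1) :
    ∫⁻ z in ball (0 : ℂ) r ∩ {z | 1 - ‖z‖ < 2 * Q * (1 - r)}, ENNReal.ofReal (ker r z) ≤
      ENNReal.ofReal (Real.pi / 2 * Real.log (4 * Q)) := by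
  have hr0 : 0 < r := by linarith
  have hpi := Real.pi_pos
  have hX : MeasurableSet {z : ℂ | 1 - ‖z‖ < 2 * Q * (1 - r)} :=
    measurableSet_lt (measurable_const.sub measurable_norm) measurable_const
  have hI := hNU.1 r hr0 hr1
  have hnn : 0 ≤ᵐ[volume.restrict (ball (0 : ℂ) r)] (fun z => ker r z) := by
    rw [Filter.EventuallyLE, ae_restrict_iff' measurableSet_ball]
    apply Filter.Eventually.of_forall
    intro z hz
    exact ker_nonneg hNU hr0 hr1 hz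
  have hnn2 : 0 ≤ᵐ[volume.restrict (ball (0 : ℂ) r ∩ {z | 1 - ‖z‖ < 2 * Q * (1 - r)})]
      (fun z => ker r z) := ae_restrict_of_ae_restrict_of_subset inter_subset_left hnn
  rw [← ofReal_integral_eq_lintegral_ofReal (hI.mono_set inter_subset_left) hnn2]
  apply ENNReal.ofReal_le_ofReal
  -- total integral
  have htot : ∫ z in ball (0 : ℂ) r, ker r z = Real.pi / 2 * sr r := by
    have := hNU.2.1 r hr0 hr1
    unfold nu at this
    rw [inter_univ] at this
    rw [← this]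
    field_simp
  have hsplit := integral_inter_add_sdiff (μ := volume) hX hI
  rw [htot] at hsplit
  have hr2 : 0 < 1 - r ^ 2 := by nlinarith
  set ρ : ℝ := 1 - 2 * Q * (1 - r) with hρ
  have hρr : ρ ≤ r := by rw [hρ]; nlinarith
  rcases le_or_gt ρ 0 with hρ0 | hρ0
  · have hdiff : 0 ≤ ∫ z in ball (0 : ℂ) r \ {z | 1 - ‖z‖ < 2 * Q * (1 - r)}, ker r z := by
      apply setIntegral_nonneg (measurableSet_ball.diff hX)
      intro z hz
      exact ker_nonneg hNU hr0 hr1 hz.1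
    have h7 : sr r ≤ Real.log (4 * Q) := by
      unfold sr
      rw [← Real.log_inv]
      apply Real.log_le_log (by positivity)
      rw [inv_le_comm₀ hr2 (by positivity)]
      rw [inv_le_iff_one_le_mul₀ (by positivity)]
      nlinarith
    have h8 : Real.pi / 2 * sr r ≤ Real.pi / 2 * Real.log (4 * Q) :=
      mul_le_mul_of_nonneg_left h7 (by positivity)
    linarith
  · have hsub : ball (0 : ℂ) ρ ⊆ ball (0 : ℂ) r \ {z | 1 - ‖z‖ < 2 * Q * (1 - r)} := by
      intro z hz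
      rw [mem_ball_zero_iff] at hz
      refine ⟨mem_ball_zero_iff.2 (lt_of_lt_of_le hz hρr), ?_⟩
      simp only [mem_ofPred_eq, not_lt]
      rw [hρ] at hz
      linarith
    have hρ1 : ρ < 1 := lt_of_le_of_lt hρr hr1
    have hdiff : ∫ z in ball (0 : ℂ) ρ, ker r z ≤
        ∫ z in ball (0 : ℂ) r \ {z | 1 - ‖z‖ < 2 * Q * (1 - r)}, ker r z := by
      apply setIntegral_mono_set (hI.mono_set sdiff_subset)
      · exact ae_restrict_of_ae_restrict_of_subset sdiff_subset hnn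
      · exact Filter.Eventually.of_forall hsub
    have hmono : ∫ z in ball (0 : ℂ) ρ, ker ρ z ≤ ∫ z in ball (0 : ℂ) ρ, ker r z := by
      apply setIntegral_mono_on (hNU.1 ρ hρ0 hρ1) (hI.mono_set (ball_subset_ball hρr))
        measurableSet_ball
      intro z hz
      exact (hNU.2.2 ρ r hρ0 hρr hr1 z hz).2
    have htot2 : ∫ z in ball (0 : ℂ) ρ, ker ρ z = Real.pi / 2 * sr ρ := by
      have := hNU.2.1 ρ hρ0 hρ1
      unfold nu at this
      rw [inter_univ] at this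
      rw [← this]
      field_simp
    have h7 : sr r - sr ρ ≤ Real.log (4 * Q) := by
      unfold sr
      have hρ2 : 0 < 1 - ρ ^ 2 := by nlinarith
      have h9 : Real.log (1 - ρ ^ 2) ≤ Real.log (4 * Q * (1 - r ^ 2)) := by
        apply Real.log_le_log hρ2
        have : 1 - ρ ^ 2 ≤ 2 * (1 - ρ) := by nlinarith
        have h10 : 2 * (1 - ρ) = 4 * Q * (1 - r) := by rw [hρ]; ring
        have h11 : 4 * Q * (1 - r) ≤ 4 * Q * (1 - r ^ 2) := by
          apply mul_le_mul_of_nonneg_left _ (by positivity)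
          nlinarith
        linarith
      rw [Real.log_mul (by positivity) hr2.ne'] at h9
      linarith
    have h8 : Real.pi / 2 * (sr r - sr ρ) ≤ Real.pi / 2 * Real.log (4 * Q) :=
      mul_le_mul_of_nonneg_left h7 (by positivity)
    rw [mul_sub] at h8
    linarith

lemma part3 {Q r₀ r : ℝ} (hQ : 1 ≤ Q) (hr₀ : 0 < r₀) (hr : 1 / 2 ≤ r) (hr1 : r < 1)
    {X Y : Set ℂ} (hX : MeasurableSet X) (hY : MeasurableSet Y)
    (hX1 : ∀ z ∈ X, 1 / 2 ≤ ‖z‖ ∧ ‖z‖ < r)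
    (hY1 : ∀ w ∈ Y, 2 * (1 - r) ≤ 1 - ‖w‖)
    (h : ∀ z ∈ X, ∃ z' : ℂ, ∀ w ∈ ball z' (r₀ * (1 - ‖z‖)),
      ‖w - z‖ ≤ Q * (1 - ‖z‖) ∧ (1 - ‖z‖) / Q ≤ 1 - ‖w‖ ∧ w ∈ Y) :
    ∫⁻ z in X, ENNReal.ofReal (ker r z) ≤
      ENNReal.ofReal (16 * (1 + Q) ^ 3 * Q ^ 4 / r₀ ^ 2) *
        ∫⁻ w in Y, ENNReal.ofReal (ker r w) := by
  have hpi := Real.pi_pos
  have hr0 : 0 < r := by linarith
  have hQ0 : 0 < Q := by linarith
  have hpiE : ((NNReal.pi : NNReal) : ENNReal) = ENNReal.ofReal Real.pi := by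
    rw [← NNReal.coe_real_pi, ENNReal.ofReal_coe_nnreal]
  set S : Set (ℂ × ℂ) := {p | ‖p.2 - p.1‖ ≤ Q * (1 - ‖p.1‖) ∧ (1 - ‖p.1‖) / Q ≤ 1 - ‖p.2‖}
    with hS
  have hSm : MeasurableSet S := by
    have hA : MeasurableSet {p : ℂ × ℂ | ‖p.2 - p.1‖ ≤ Q * (1 - ‖p.1‖)} :=
      measurableSet_le (by fun_prop) (by fun_prop)
    have hB : MeasurableSet {p : ℂ × ℂ | (1 - ‖p.1‖) / Q ≤ 1 - ‖p.2‖} :=
      measurableSet_le (by fun_prop) (by fun_prop)
    exact hA.inter hB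
  set F : ℂ × ℂ → ENNReal :=
    S.indicator (fun p => ENNReal.ofReal (2 / (Real.pi * r₀ ^ 2 * (1 - ‖p.1‖) ^ 3))) with hF
  have hFm : Measurable F := by
    apply Measurable.indicator _ hSm
    fun_prop
  -- step 1
  have step1 : ∫⁻ z in X, ENNReal.ofReal (ker r z) ≤ ∫⁻ z in X, ∫⁻ w in Y, F (z, w) := by
    apply setLIntegral_mono' hX
    intro z hz
    obtain ⟨hz1, hz2⟩ := hX1 z hz
    obtain ⟨z', hz'⟩ := h z hz
    have hD : 0 < 1 - ‖z‖ := by linarith
    have hsub : ball z' (r₀ * (1 - ‖z‖)) ⊆ Y := fun w hw => (hz' w hw).2.2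
    calc ENNReal.ofReal (ker r z) ≤ ENNReal.ofReal (2 / (1 - ‖z‖)) :=
          ENNReal.ofReal_le_ofReal (ker_upper hr1 hz1 hz2)
      _ = ENNReal.ofReal (2 / (Real.pi * r₀ ^ 2 * (1 - ‖z‖) ^ 3)) *
            volume (ball z' (r₀ * (1 - ‖z‖))) := by
          rw [Complex.volume_ball, hpiE, ← ENNReal.ofReal_pow (by positivity),
            ← ENNReal.ofReal_mul (by positivity), ← ENNReal.ofReal_mul (by positivity)]
          congr 1
          field_simp
      _ = ∫⁻ w in ball z' (r₀ * (1 - ‖z‖)),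
            ENNReal.ofReal (2 / (Real.pi * r₀ ^ 2 * (1 - ‖z‖) ^ 3)) := by
          rw [setLIntegral_const]
      _ ≤ ∫⁻ w in ball z' (r₀ * (1 - ‖z‖)), F (z, w) := by
          apply setLIntegral_mono' measurableSet_ball
          intro w hw
          have hmem : (z, w) ∈ S := ⟨(hz' w hw).1, (hz' w hw).2.1⟩
          rw [hF, indicator_of_mem hmem]
      _ ≤ ∫⁻ w in Y, F (z, w) := lintegral_mono_set hsub
  have step2 : ∫⁻ z in X, ∫⁻ w in Y, F (z, w) = ∫⁻ w in Y, ∫⁻ z in X, F (z, w) := by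
    apply lintegral_lintegral_swap
    exact hFm.aemeasurable
  have step3 : ∫⁻ w in Y, ∫⁻ z in X, F (z, w) ≤
      ∫⁻ w in Y, ENNReal.ofReal (16 * (1 + Q) ^ 3 * Q ^ 4 / r₀ ^ 2) *
        ENNReal.ofReal (ker r w) := by
    apply lintegral_mono_ae
    rw [ae_restrict_iff' hY]
    have hne : ∀ᵐ w : ℂ, w ≠ 0 := compl_mem_ae_iff.2 (measure_singleton (0 : ℂ))
    filter_upwards [hne] with w hw0 hwY
    have hw1 := hY1 w hwY
    have hDw : 0 < 1 - ‖w‖ := by linarith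
    calc ∫⁻ z in X, F (z, w)
        ≤ ∫⁻ z in X, (closedBall w (Q ^ 2 * (1 - ‖w‖))).indicator
            (fun _ => ENNReal.ofReal (2 * (1 + Q) ^ 3 / (Real.pi * r₀ ^ 2 * (1 - ‖w‖) ^ 3))) z := by
          apply setLIntegral_mono' hX
          intro z hz
          obtain ⟨hz1, hz2⟩ := hX1 z hz
          have hD : 0 < 1 - ‖z‖ := by linarith
          by_cases hmem : (z, w) ∈ S
          · have hm1 : ‖w - z‖ ≤ Q * (1 - ‖z‖) := hmem.1
            have hm2 : (1 - ‖z‖) / Q ≤ 1 - ‖w‖ := hmem.2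
            have hm3 : 1 - ‖z‖ ≤ Q * (1 - ‖w‖) := by
              rw [div_le_iff₀ hQ0] at hm2
              linarith
            have hm4 : 1 - ‖w‖ ≤ (1 + Q) * (1 - ‖z‖) := by
              have : ‖z‖ - ‖w‖ ≤ ‖w - z‖ := by
                rw [norm_sub_rev]; exact norm_sub_norm_le z w
              linarith
            have hm5 : z ∈ closedBall w (Q ^ 2 * (1 - ‖w‖)) := by
              rw [mem_closedBall, dist_eq_norm, norm_sub_rev]
              nlinarith
            rw [hF, indicator_of_mem hmem, indicator_of_mem hm5]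
            apply ENNReal.ofReal_le_ofReal
            rw [div_le_div_iff₀ (by positivity) (by positivity)]
            have hm6 : (1 - ‖w‖) ^ 3 ≤ ((1 + Q) * (1 - ‖z‖)) ^ 3 :=
              pow_le_pow_left₀ hDw.le hm4 3
            have hm7 : 0 ≤ 2 * (Real.pi * r₀ ^ 2) := by positivity
            have := mul_le_mul_of_nonneg_left hm6 hm7
            calc 2 * (Real.pi * r₀ ^ 2 * (1 - ‖w‖) ^ 3)
                = 2 * (Real.pi * r₀ ^ 2) * (1 - ‖w‖) ^ 3 := by ring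
              _ ≤ 2 * (Real.pi * r₀ ^ 2) * ((1 + Q) * (1 - ‖z‖)) ^ 3 := this
              _ = 2 * (1 + Q) ^ 3 * (Real.pi * r₀ ^ 2 * (1 - ‖z‖) ^ 3) := by ring
          · rw [hF, indicator_of_notMem hmem]
            exact bot_le
      _ ≤ ∫⁻ z, (closedBall w (Q ^ 2 * (1 - ‖w‖))).indicator
            (fun _ => ENNReal.ofReal (2 * (1 + Q) ^ 3 / (Real.pi * r₀ ^ 2 * (1 - ‖w‖) ^ 3))) z :=
          setLIntegral_le_lintegral _ _
      _ = ENNReal.ofReal (2 * (1 + Q) ^ 3 / (Real.pi * r₀ ^ 2 * (1 - ‖w‖) ^ 3)) *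
            volume (closedBall w (Q ^ 2 * (1 - ‖w‖))) := by
          rw [lintegral_indicator measurableSet_closedBall, setLIntegral_const]
      _ = ENNReal.ofReal (2 * (1 + Q) ^ 3 * Q ^ 4 / r₀ ^ 2 * (1 / (1 - ‖w‖))) := by
          rw [Complex.volume_closedBall, hpiE, ← ENNReal.ofReal_pow (by positivity),
            ← ENNReal.ofReal_mul (by positivity), ← ENNReal.ofReal_mul (by positivity)]
          congr 1
          field_simp
      _ ≤ ENNReal.ofReal (16 * (1 + Q) ^ 3 * Q ^ 4 / r₀ ^ 2 * ker r w) := by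
          apply ENNReal.ofReal_le_ofReal
          have hk := ker_lower hr0 hr1 hw0 hw1
          calc 2 * (1 + Q) ^ 3 * Q ^ 4 / r₀ ^ 2 * (1 / (1 - ‖w‖))
              ≤ 2 * (1 + Q) ^ 3 * Q ^ 4 / r₀ ^ 2 * (8 * ker r w) :=
                mul_le_mul_of_nonneg_left hk (by positivity)
            _ = 16 * (1 + Q) ^ 3 * Q ^ 4 / r₀ ^ 2 * ker r w := by ring
      _ = ENNReal.ofReal (16 * (1 + Q) ^ 3 * Q ^ 4 / r₀ ^ 2) * ENNReal.ofReal (ker r w) := by
          rw [ENNReal.ofReal_mul (by positivity)]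
  rw [lintegral_const_mul' _ _ ENNReal.ofReal_ne_top] at step3
  exact step1.trans (step2.le.trans step3)

end COVx

open COVx in
theorem t_COV (hNU : S_NU) : S_COV := by
  intro Q r₀ d₀ hQ hr₀ hd₀ hd₀1
  have hpi := Real.pi_pos
  set d : ℝ := min d₀ (1 / 2) with hd
  have hdpos : 0 < d := lt_min hd₀ (by norm_num)
  obtain ⟨M, hM0, hM⟩ := part1 hNU hdpos (min_le_right _ _)
  refine ⟨16 * (1 + Q) ^ 3 * Q ^ 4 / r₀ ^ 2,
    2 / Real.pi * (M + Real.pi / 2 * Real.log (4 * Q)), by positivity, ?_⟩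
  intro E G hE hG hEG r hr hr1
  have hr0 : 0 < r := by linarith
  have hlog4 : 0 ≤ Real.log (4 * Q) := Real.log_nonneg (by linarith)
  have hBE : MeasurableSet (ball (0 : ℂ) r ∩ E) := by
    have : ball (0 : ℂ) r ∩ E = ball (0 : ℂ) r ∩ (ball (0 : ℂ) 1 ∩ E) := by
      rw [← inter_assoc, inter_eq_left.2 (ball_subset_ball hr1.le)]
    rw [this]
    exact measurableSet_ball.inter hE
  have hBG : MeasurableSet (ball (0 : ℂ) r ∩ G) := by
    have : ball (0 : ℂ) r ∩ G = ball (0 : ℂ) r ∩ (ball (0 : ℂ) 1 ∩ G) := by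
      rw [← inter_assoc, inter_eq_left.2 (ball_subset_ball hr1.le)]
    rw [this]
    exact measurableSet_ball.inter hG
  set X1 : Set ℂ := ball (0 : ℂ) r ∩ {z | d ≤ 1 - ‖z‖} with hX1
  set X2 : Set ℂ := ball (0 : ℂ) r ∩ {z | 1 - ‖z‖ < 2 * Q * (1 - r)} with hX2
  have hX1m : MeasurableSet X1 := measurableSet_ball.inter
    (measurableSet_le measurable_const (measurable_const.sub measurable_norm))
  have hX2m : MeasurableSet X2 := measurableSet_ball.inter
    (measurableSet_lt (measurable_const.sub measurable_norm) measurable_const)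
  set X3 : Set ℂ := (ball (0 : ℂ) r ∩ E) \ (X1 ∪ X2) with hX3
  have hX3m : MeasurableSet X3 := hBE.diff (hX1m.union hX2m)
  set Y : Set ℂ := (ball (0 : ℂ) r ∩ G) ∩ {w | 2 * (1 - r) ≤ 1 - ‖w‖} with hY
  have hYm : MeasurableSet Y := hBG.inter
    (measurableSet_le measurable_const (measurable_const.sub measurable_norm))
  have hX3p : ∀ z ∈ X3, ‖z‖ < r ∧ z ∈ E ∧ 1 - ‖z‖ < d ∧ 2 * Q * (1 - r) ≤ 1 - ‖z‖ := by
    intro z hz
    have hz1 : z ∈ ball (0 : ℂ) r := hz.1.1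
    have hz2 : ‖z‖ < r := mem_ball_zero_iff.1 hz1
    refine ⟨hz2, hz.1.2, ?_, ?_⟩
    · by_contra hcon
      exact hz.2 (Or.inl ⟨hz1, not_lt.1 hcon⟩)
    · by_contra hcon
      exact hz.2 (Or.inr ⟨hz1, not_le.1 hcon⟩)
  have h3 : ∫⁻ z in X3, ENNReal.ofReal (ker r z) ≤
      ENNReal.ofReal (16 * (1 + Q) ^ 3 * Q ^ 4 / r₀ ^ 2) *
        ∫⁻ w in Y, ENNReal.ofReal (ker r w) := by
    apply part3 hQ hr₀ hr hr1 hX3m hYm
    · intro z hz
      obtain ⟨h1, _, h3, _⟩ := hX3p z hz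
      have := min_le_right d₀ (1 / 2 : ℝ)
      exact ⟨by linarith, h1⟩
    · intro w hw
      exact hw.2
    · intro z hz
      obtain ⟨h1, h2, h3, h4⟩ := hX3p z hz
      have := min_le_left d₀ (1 / 2 : ℝ)
      obtain ⟨z', hz'⟩ := hEG z h2 (by linarith) (by linarith)
      refine ⟨z', fun w hw => ?_⟩
      obtain ⟨ha, hb, hc⟩ := hz' w hw
      have hQ0 : 0 < Q := by linarith
      have h5 : 2 * (1 - r) ≤ 1 - ‖w‖ := by
        refine le_trans ?_ hb
        rw [le_div_iff₀ hQ0]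
        linarith
      refine ⟨ha, hb, ⟨mem_ball_zero_iff.2 (by linarith), hc⟩, h5⟩
  have hY2 : ∫⁻ w in Y, ENNReal.ofReal (ker r w) ≤
      ∫⁻ w in ball (0 : ℂ) r ∩ G, ENNReal.ofReal (ker r w) := lintegral_mono_set inter_subset_left
  have hsub : ball (0 : ℂ) r ∩ E ⊆ (X1 ∪ X2) ∪ X3 := by
    intro z hz
    by_cases h : z ∈ X1 ∪ X2
    · exact Or.inl h
    · exact Or.inr ⟨hz, h⟩
  have hnn : ∀ A : Set ℂ, MeasurableSet (ball (0 : ℂ) r ∩ A) →
      0 ≤ᵐ[volume.restrict (ball (0 : ℂ) r ∩ A)] (fun z => ker r z) := by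
    intro A hA
    rw [Filter.EventuallyLE, ae_restrict_iff' hA]
    apply Filter.Eventually.of_forall
    intro z hz
    exact ker_nonneg hNU hr0 hr1 hz.1
  have hI := hNU.1 r hr0 hr1
  have hIE : ENNReal.ofReal (∫ z in ball (0 : ℂ) r ∩ E, ker r z) =
      ∫⁻ z in ball (0 : ℂ) r ∩ E, ENNReal.ofReal (ker r z) :=
    ofReal_integral_eq_lintegral_ofReal (hI.mono_set inter_subset_left) (hnn E hBE)
  have hIG : ENNReal.ofReal (∫ z in ball (0 : ℂ) r ∩ G, ker r z) =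
      ∫⁻ z in ball (0 : ℂ) r ∩ G, ENNReal.ofReal (ker r z) :=
    ofReal_integral_eq_lintegral_ofReal (hI.mono_set inter_subset_left) (hnn G hBG)
  have hGnn : 0 ≤ ∫ z in ball (0 : ℂ) r ∩ G, ker r z := integral_nonneg_of_ae (hnn G hBG)
  have hmain : ENNReal.ofReal (∫ z in ball (0 : ℂ) r ∩ E, ker r z) ≤
      ENNReal.ofReal (M + Real.pi / 2 * Real.log (4 * Q) +
        16 * (1 + Q) ^ 3 * Q ^ 4 / r₀ ^ 2 * ∫ z in ball (0 : ℂ) r ∩ G, ker r z) := by
    have hCp : 0 ≤ 16 * (1 + Q) ^ 3 * Q ^ 4 / r₀ ^ 2 := by positivity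
    rw [ENNReal.ofReal_add (by positivity) (mul_nonneg hCp hGnn),
      ENNReal.ofReal_add hM0 (by positivity),
      ENNReal.ofReal_mul (q := ∫ z in ball (0 : ℂ) r ∩ G, ker r z) hCp, hIE, hIG]
    calc ∫⁻ z in ball (0 : ℂ) r ∩ E, ENNReal.ofReal (ker r z)
        ≤ ∫⁻ z in (X1 ∪ X2) ∪ X3, ENNReal.ofReal (ker r z) := lintegral_mono_set hsub
      _ ≤ (∫⁻ z in X1 ∪ X2, ENNReal.ofReal (ker r z)) +
            (∫⁻ z in X3, ENNReal.ofReal (ker r z)) :=
          lintegral_union_le _ _ _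
      _ ≤ ((∫⁻ z in X1, ENNReal.ofReal (ker r z)) + (∫⁻ z in X2, ENNReal.ofReal (ker r z))) +
            (∫⁻ z in X3, ENNReal.ofReal (ker r z)) :=
          add_le_add_left (lintegral_union_le _ _ _) _
      _ ≤ _ := by
          apply add_le_add
          · exact add_le_add (hM r hr0 hr1) (part2 hNU hQ hr hr1)
          · exact h3.trans (mul_le_mul_right hY2 _)
  rw [ENNReal.ofReal_le_ofReal_iff (by positivity)] at hmain
  unfold nu
  calc 2 / Real.pi * ∫ z in ball (0 : ℂ) r ∩ E, ker r z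
      ≤ 2 / Real.pi * (M + Real.pi / 2 * Real.log (4 * Q) +
        16 * (1 + Q) ^ 3 * Q ^ 4 / r₀ ^ 2 * ∫ z in ball (0 : ℂ) r ∩ G, ker r z) :=
        mul_le_mul_of_nonneg_left hmain (by positivity)
    _ = _ := by ring

end Pool.Agent.H792R2.SS
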