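import Pool.Agent.H792R2.SS.Defs

set_option autoImplicit false
open Set Filter Topology Metric MeasureTheory

namespace Pool.Agent.H792R2.SS

namespace CPTx

/-- the region `{a < Im w, |w| < b}` -/
def Om (a b : ℝ) : Set ℂ := {w | a < w.im ∧ ‖w‖ < b}

lemma isOpen_Om (a b : ℝ) : IsOpen (Om a b) :=
  (isOpen_lt continuous_const Complex.continuous_im).inter (isOpen_lt continuous_norm continuous_const)

lemma convex_Om (a b : ℝ) : Convex ℝ (Om a b) := by
  have h1 : Convex ℝ {w : ℂ | a < w.im} := by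
    have := (convex_Ioi a).linear_preimage Complex.imLm
    simpa [Set.preimage] using this
  have h2 : Convex ℝ {w : ℂ | ‖w‖ < b} := by
    have h3 : {w : ℂ | ‖w‖ < b} = ball 0 b := by
      ext w; simp
    rw [h3]
    exact convex_ball (0 : ℂ) b
  exact h1.inter h2

lemma isOpen_HP : IsOpen HP := isOpen_lt continuous_const Complex.continuous_im

lemma convex_HP : Convex ℝ HP := by
  have := (convex_Ioi (0:ℝ)).linear_preimage Complex.imLm
  simpa [Set.preimage, HP] using this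

lemma mem_tball {v : ℂ} {d : ℝ} (hd : 0 < d) (h : d * ‖v‖ ^ 2 < 2 * v.im) :
    v ∈ ball (Complex.I / (d : ℂ)) (1 / d) := by
  rw [mem_ball, dist_eq_norm]
  have h1 : ‖v - Complex.I / (d : ℂ)‖ ^ 2 = ‖v‖ ^ 2 - 2 * v.im / d + 1 / d ^ 2 := by
    rw [← Complex.normSq_eq_norm_sq, ← Complex.normSq_eq_norm_sq, Complex.normSq_apply,
      Complex.normSq_apply]
    have e1 : (v - Complex.I / (d : ℂ)).re = v.re := by
      simp [Complex.div_re]
    have e2 : (v - Complex.I / (d : ℂ)).im = v.im - 1 / d := by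
      simp [Complex.div_im]
    rw [e1, e2]
    field_simp
    ring
  have h2 : ‖v - Complex.I / (d : ℂ)‖ ^ 2 < (1 / d) ^ 2 := by
    rw [h1]
    have : ‖v‖ ^ 2 < 2 * v.im / d := by
      rw [lt_div_iff₀ hd]; linarith
    have e : (1 / d) ^ 2 = 1 / d ^ 2 := by ring
    rw [e]; linarith
  exact lt_of_pow_lt_pow_left₀ 2 (by positivity) h2

/-- for small `d`, balls around points of `Om a b` are in the tangent disc -/
lemma ball_sub {a b d : ℝ} (ha : 0 < a) (ha1 : a ≤ 1) (hb : 0 < b) (hd : 0 < d)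
    (h : d * (b + 1) ^ 2 < a) {w : ℂ} (hw : w ∈ Om a b) :
    ball w (a / 2) ⊆ ball (Complex.I / (d : ℂ)) (1 / d) := by
  intro v hv
  rw [mem_ball, dist_eq_norm] at hv
  apply mem_tball hd
  have h1 : a / 2 < v.im := by
    have e1 : |(v - w).im| ≤ ‖v - w‖ := Complex.abs_im_le_norm _
    rw [Complex.sub_im] at e1
    have := (abs_le.1 e1).1
    have := hw.1
    linarith
  have h2 : ‖v‖ < b + 1 := by
    have : ‖v‖ ≤ ‖v - w‖ + ‖w‖ := by simpa using norm_add_le (v - w) w
    have := hw.2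
    linarith
  have h3 : ‖v‖ ^ 2 < (b + 1) ^ 2 := by
    apply pow_lt_pow_left₀ h2 (norm_nonneg _) (by norm_num)
  nlinarith [mul_lt_mul_of_pos_left h3 hd]

lemma NN.mono {F : ℂ → ℂ} {z w : ℂ} {R r : ℝ} (h : NN F z R) (hs : ball w r ⊆ ball z R) :
    NN F w r :=
  ⟨h.1.mono hs, fun x hx => h.2.1 x (hs hx), fun x hx => h.2.2 x (hs hx)⟩

/-- the bound on the region -/
lemma bound (hP1 : S_P1) (hLOG : S_LOG) (hGR : S_GR) (K a b : ℝ) (ha : 0 < a) (ha1 : a < 1)
    (hb : 1 < b) : ∃ M : ℝ, ∀ (d : ℝ) (F : ℂ → ℂ), 0 < d → d * (b + 1) ^ 2 < a →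
    NN F (Complex.I / (d : ℂ)) (1 / d) → |Real.log ‖F Complex.I‖| ≤ K →
    ∀ w ∈ Om a b, Real.exp (-M) ≤ ‖F w‖ ∧ ‖F w‖ ≤ Real.exp M := by
  obtain ⟨C, hC, hP⟩ := hP1
  set L : ℝ := |Real.log (a / 2)| with hL
  have hL0 : 0 ≤ L := abs_nonneg _
  set A : ℝ := 2 * C / a * (1 + L) with hA
  have hA0 : 0 ≤ A := by positivity
  refine ⟨(1 + K) * Real.exp (A * (b + 1)), fun d F hd hdb hF hFi w hw => ?_⟩
  have hb0 : 0 < b := by linarith
  have hsub : ∀ w ∈ Om a b, NN F w (a / 2) := fun w hw =>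
    NN.mono hF (ball_sub ha ha1.le hb0 hd hdb hw)
  have hdiff : DifferentiableOn ℂ F (Om a b) := by
    intro w hw
    have h1 := (hsub w hw).1
    exact (h1.differentiableAt (ball_mem_nhds w (by positivity))).differentiableWithinAt
  have hne : ∀ w ∈ Om a b, F w ≠ 0 := fun w hw =>
    (hsub w hw).2.1 w (mem_ball_self (by positivity))
  obtain ⟨g, hg, hge⟩ := hLOG (Om a b) F (isOpen_Om a b) (convex_Om a b) hdiff hne
  have hre : ∀ w ∈ Om a b, (g w).re = Real.log ‖F w‖ := by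
    intro w hw
    rw [← hge w hw, Complex.norm_exp, Real.log_exp]
  have hder : ∀ w ∈ Om a b, deriv g w = deriv F w / F w := by
    intro w hw
    have hgd : DifferentiableAt ℂ g w := hg.differentiableAt ((isOpen_Om a b).mem_nhds hw)
    have h1 : HasDerivAt (fun w => Complex.exp (g w)) (Complex.exp (g w) * deriv g w) w :=
      hgd.hasDerivAt.cexp
    have h2 : (fun w => Complex.exp (g w)) =ᶠ[𝓝 w] F := by
      filter_upwards [(isOpen_Om a b).mem_nhds hw] with x hx using hge x hx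
    have h3 : deriv F w = Complex.exp (g w) * deriv g w := by
      rw [← h2.deriv_eq]; exact h1.deriv
    rw [h3, hge w hw]
    field_simp [hne w hw]
  have hgrad : ∀ w ∈ Om a b, ‖deriv g w‖ ≤ A * (1 + |(g w).re|) := by
    intro w hw
    rw [hder w hw, hre w hw]
    have h1 := hP F w (a / 2) (by positivity) (hsub w hw)
    have hFw : 0 < ‖F w‖ := norm_pos_iff.2 (hne w hw)
    have h2 : Real.log (‖F w‖ / (a / 2)) = Real.log ‖F w‖ - Real.log (a / 2) :=
      Real.log_div hFw.ne' (by positivity)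
    have h3 : |Real.log (‖F w‖ / (a / 2))| ≤ |Real.log ‖F w‖| + L := by
      rw [h2]; exact abs_sub _ _
    have h4 : ‖deriv F w / F w‖ = (a / 2 * ‖deriv F w / F w‖) * (2 / a) := by
      field_simp
    rw [h4]
    have h5 : a / 2 * ‖deriv F w / F w‖ ≤ C * ((1 + L) * (1 + |Real.log ‖F w‖|)) := by
      refine h1.trans ?_
      apply mul_le_mul_of_nonneg_left _ hC.le
      have := abs_nonneg (Real.log ‖F w‖)
      nlinarith
    calc (a / 2 * ‖deriv F w / F w‖) * (2 / a)
        ≤ (C * ((1 + L) * (1 + |Real.log ‖F w‖|))) * (2 / a) := by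
          apply mul_le_mul_of_nonneg_right h5 (by positivity)
      _ = A * (1 + |Real.log ‖F w‖|) := by rw [hA]; ring
  have hI : Complex.I ∈ Om a b := by
    constructor
    · simpa using ha1
    · simpa using hb
  have h6 := hGR (Om a b) g A (isOpen_Om a b) (convex_Om a b) hA0 hg hgrad Complex.I hI w hw
  rw [hre w hw, hre Complex.I hI] at h6
  have h7 : ‖w - Complex.I‖ ≤ b + 1 := by
    have := norm_sub_le w Complex.I
    have := hw.2
    simp at *
    linarith
  have hK0 : 0 ≤ K := (abs_nonneg _).trans hFi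
  have h8 : 1 + |Real.log ‖F w‖| ≤ (1 + K) * Real.exp (A * (b + 1)) := by
    refine h6.trans ?_
    apply mul_le_mul (by linarith) _ (Real.exp_pos _).le (by linarith)
    exact Real.exp_le_exp.2 (mul_le_mul_of_nonneg_left h7 hA0)
  have hFw : 0 < ‖F w‖ := norm_pos_iff.2 (hne w hw)
  have h9 := abs_le.1 (show |Real.log ‖F w‖| ≤ (1 + K) * Real.exp (A * (b + 1)) by linarith)
  constructor
  · rw [← Real.le_log_iff_exp_le hFw]; exact h9.1
  · rw [← Real.log_le_iff_le_exp hFw]; exact h9.2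

end CPTx

open CPTx in
theorem t_CPT (hP1 : S_P1) (hLOG : S_LOG) (hGR : S_GR) (hMT : S_MT) (hHU : S_HU) : S_CPT := by
  intro K d F 𝒰 h𝒰 hd hd0 hNN hK
  -- data for each point
  have hpt : ∀ x ∈ HP, ∃ a b : ℝ, 0 < a ∧ a < 1 ∧ 1 < b ∧ x ∈ Om a b := by
    intro x hx
    have hx' : 0 < x.im := hx
    refine ⟨min 1 x.im / 2, max 1 ‖x‖ + 1, by positivity, ?_, ?_, ?_, ?_⟩
    · have := min_le_left 1 x.im
      linarith
    · have := le_max_left 1 ‖x‖
      linarith
    · have := min_le_right 1 x.im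
      show _ < x.im
      linarith
    · have := le_max_right 1 ‖x‖
      linarith
  have hev : ∀ a b : ℝ, 0 < a → ∀ᶠ n in atTop, d n * (b + 1) ^ 2 < a := by
    intro a b ha
    have : Tendsto (fun n => d n * (b + 1) ^ 2) atTop (𝓝 (0 * (b + 1) ^ 2)) :=
      hd0.mul_const _
    rw [zero_mul] at this
    exact this.eventually (gt_mem_nhds ha)
  have hOmHP : ∀ a b : ℝ, 0 < a → Om a b ⊆ HP := fun a b ha w hw => ha.trans hw.1
  have hball : ∀ x ∈ HP, ∃ r > 0, ∃ M : ℝ, ball x r ⊆ HP ∧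
      ∀ᶠ n in atTop, (DifferentiableOn ℂ (F n) (ball x r) ∧ (∀ z ∈ ball x r, deriv (F n) z ≠ 1)) ∧
        ∀ z ∈ ball x r, Real.exp (-M) ≤ ‖F n z‖ ∧ ‖F n z‖ ≤ Real.exp M := by
    intro x hx
    obtain ⟨a, b, ha, ha1, hb, hxO⟩ := hpt x hx
    obtain ⟨M, hM⟩ := bound hP1 hLOG hGR K a b ha ha1 hb
    obtain ⟨r, hr, hrs⟩ := Metric.isOpen_iff.1 (isOpen_Om a b) x hxO
    refine ⟨min r (a / 2), by positivity, M, ?_, ?_⟩
    · exact ((ball_subset_ball (min_le_left _ _)).trans hrs).trans (hOmHP a b ha)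
    · filter_upwards [hev a b ha] with n hn
      have hsub : ball x (min r (a / 2)) ⊆ ball (Complex.I / (d n : ℂ)) (1 / d n) :=
        (ball_subset_ball (min_le_right _ _)).trans
          (ball_sub ha ha1.le (by linarith) (hd n) hn hxO)
      refine ⟨⟨(hNN n).1.mono hsub, fun z hz => (hNN n).2.2 z (hsub hz)⟩, fun z hz => ?_⟩
      exact hM (d n) (F n) (hd n) hn (hNN n) (hK n) z (hrs (ball_subset_ball (min_le_left _ _) hz))
  obtain ⟨G, hG, hT0, hT1, hT2⟩ := hMT HP F 𝒰 isOpen_HP h𝒰 (by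
    intro x hx
    obtain ⟨r, hr, M, hsub, hM⟩ := hball x hx
    refine ⟨r, hr, Real.exp M, hsub, ?_⟩
    filter_upwards [hM] with n hn
    exact ⟨hn.1.1, fun z hz => (hn.2 z hz).2⟩)
  refine ⟨G, hG, ?_, ?_, hT0, hT1, hT2⟩
  · intro w hw hGw
    obtain ⟨r, hr, M, hsub, hM⟩ := hball w hw
    have h1 : Tendsto (fun n => F n w) (𝒰 : Filter ℕ) (𝓝 (G w)) := hT0.tendsto_at hw
    have h2 : Real.exp (-M) ≤ ‖G w‖ := by
      apply ge_of_tendsto h1.norm
      filter_upwards [h𝒰 hM] with n hn using (hn.2 w (mem_ball_self hr)).1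
    rw [hGw, norm_zero] at h2
    exact absurd h2 (not_le.2 (Real.exp_pos _))
  · by_cases hex : ∃ a ∈ HP, deriv G a = 1
    · left
      obtain ⟨a, ha, hGa⟩ := hex
      obtain ⟨r, hr, M, hsub, hM⟩ := hball a ha
      have hanG : AnalyticOnNhd ℂ (deriv G) HP := (hG.analyticOnNhd isOpen_HP).deriv
      have h1 := hHU (ball a r) (fun n z => deriv (F n) z - 1) (fun z => deriv G z - 1) 𝒰
        isOpen_ball (by
          filter_upwards [h𝒰 hM] with n hn
          exact (hn.1.1.deriv isOpen_ball).sub (differentiableOn_const _)) (by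
          have h3 := hT1.mono hsub
          rw [Metric.tendstoLocallyUniformlyOn_iff] at h3 ⊢
          intro ε hε x hx
          obtain ⟨t, ht, hn⟩ := h3 ε hε x hx
          refine ⟨t, ht, ?_⟩
          filter_upwards [hn] with n hn y hy
          have := hn y hy
          simpa [dist_eq_norm] using this) (by
          filter_upwards [h𝒰 hM] with n hn z hz
          exact sub_ne_zero.2 (hn.1.2 z hz)) a (mem_ball_self hr) (by simp [hGa])
      have h2 : deriv G =ᶠ[𝓝 a] fun _ => (1 : ℂ) := by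
        filter_upwards [h1] with z hz
        exact sub_eq_zero.1 hz
      have h4 := hanG.eqOn_of_preconnected_of_eventuallyEq analyticOnNhd_const
        convex_HP.isPreconnected ha h2
      exact fun w hw => h4 hw
    · right
      intro w hw h
      exact hex ⟨w, hw, h⟩

end Pool.Agent.H792R2.SS
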