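import Pool.Agent.H792R2.SS.Defs

/-!
# FIN: the final inequality
-/

set_option autoImplicit false
open Set Filter Topology Metric MeasureTheory

namespace Pool.Agent.H792R2.SS

namespace FINx

lemma contU {f : ℂ → ℂ} (hf : NN f 0 1) {r : ℝ} (h0 : 0 < r) (h1 : r < 1) :
    ContinuousOn (UU f) (sphere (0 : ℂ) r) := by
  have hsub : sphere (0 : ℂ) r ⊆ ball 0 1 := by
    intro z hz
    rw [mem_sphere_zero_iff_norm] at hz
    rw [mem_ball_zero_iff, hz]
    exact h1
  have hc : ContinuousOn f (sphere (0 : ℂ) r) := hf.1.continuousOn.mono hsub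
  unfold UU
  apply ContinuousOn.sub
  · apply ContinuousOn.log hc.norm
    intro z hz
    exact norm_ne_zero_iff.2 (hf.2.1 z (hsub hz))
  · apply ContinuousOn.log
    · fun_prop
    · intro z hz
      rw [mem_sphere_zero_iff_norm] at hz
      rw [hz]
      nlinarith

lemma contv {f : ℂ → ℂ} (hf : NN f 0 1) {r : ℝ} (_h0 : 0 < r) (h1 : r < 1) :
    ContinuousOn (fun z => Real.log ‖deriv f z - 1‖) (sphere (0 : ℂ) r) := by
  have hsub : sphere (0 : ℂ) r ⊆ ball 0 1 := by
    intro z hz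
    rw [mem_sphere_zero_iff_norm] at hz
    rw [mem_ball_zero_iff, hz]
    exact h1
  have hc : ContinuousOn (deriv f) (sphere (0 : ℂ) r) :=
    (hf.1.deriv isOpen_ball).continuousOn.mono hsub
  apply ContinuousOn.log (hc.sub continuousOn_const).norm
  intro z hz
  exact norm_ne_zero_iff.2 (sub_ne_zero.2 (hf.2.2 z (hsub hz)))

lemma log_le (ε x : ℝ) (hε : 0 < ε) (hx : 0 ≤ x) : Real.log (1 + x) ≤ ε * x + (ε - Real.log ε) := by
  have h1 : 0 < ε * (1 + x) := by positivity
  have h2 := Real.log_le_sub_one_of_pos h1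
  rw [Real.log_mul hε.ne' (by positivity)] at h2
  nlinarith

lemma avg_bound {f : ℂ → ℂ} (hf : NN f 0 1) {r : ℝ} (h0 : 0 < r) (h1 : r < 1) (η : ℝ)
    (hη : 0 < η) :
    Real.circleAverage (fun z => 2 * Real.log (1 + |UU f z|) +
      Real.log (1 + |Real.log ‖deriv f z - 1‖|)) 0 r ≤
    η * (Real.circleAverage (fun z => |UU f z|) 0 r +
      Real.circleAverage (fun z => |Real.log ‖deriv f z - 1‖|) 0 r) +
      (2 * (η / 2 - Real.log (η / 2)) + (η - Real.log η)) := by
  have cU := contU hf h0 h1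
  have cv := contv hf h0 h1
  have iU : CircleIntegrable (fun z => |UU f z|) 0 r := (cU.abs).circleIntegrable h0.le
  have iv : CircleIntegrable (fun z => |Real.log ‖deriv f z - 1‖|) 0 r :=
    (cv.abs).circleIntegrable h0.le
  have iL : CircleIntegrable (fun z => 2 * Real.log (1 + |UU f z|) +
      Real.log (1 + |Real.log ‖deriv f z - 1‖|)) 0 r := by
    apply ContinuousOn.circleIntegrable h0.le
    apply ContinuousOn.add
    · apply ContinuousOn.mul continuousOn_const
      apply ContinuousOn.log (continuousOn_const.add cU.abs)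
      intro z _
      exact (by positivity : (0 : ℝ) < 1 + |UU f z|).ne'
    · apply ContinuousOn.log (continuousOn_const.add cv.abs)
      intro z _
      exact (by positivity : (0 : ℝ) < 1 + |Real.log ‖deriv f z - 1‖|).ne'
  set c : ℝ := 2 * (η / 2 - Real.log (η / 2)) + (η - Real.log η) with hc
  have iR : CircleIntegrable (fun z => (η * |UU f z| + η * |Real.log ‖deriv f z - 1‖|) + c) 0 r := by
    apply ContinuousOn.circleIntegrable h0.le
    exact ((continuousOn_const.mul cU.abs).add (continuousOn_const.mul cv.abs)).add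
      continuousOn_const
  have hle := Real.circleAverage_mono iL iR (by
    intro z _
    have e1 := log_le (η / 2) |UU f z| (by positivity) (abs_nonneg _)
    have e2 := log_le η |Real.log ‖deriv f z - 1‖| hη (abs_nonneg _)
    simp only [hc]
    linarith)
  refine hle.trans (le_of_eq ?_)
  have e1 : Real.circleAverage
      (fun z => (η * |UU f z| + η * |Real.log ‖deriv f z - 1‖|) + c) 0 r =
      (η * Real.circleAverage (fun z => |UU f z|) 0 r +
      η * Real.circleAverage (fun z => |Real.log ‖deriv f z - 1‖|) 0 r) + c := by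
    have i1 : CircleIntegrable (fun z => η * |UU f z|) 0 r :=
      (continuousOn_const.mul cU.abs).circleIntegrable h0.le
    have i2 : CircleIntegrable (fun z => η * |Real.log ‖deriv f z - 1‖|) 0 r :=
      (continuousOn_const.mul cv.abs).circleIntegrable h0.le
    have i3 : CircleIntegrable (fun _ : ℂ => c) 0 r := continuousOn_const.circleIntegrable h0.le
    have s1 := Real.circleAverage_fun_add (i1.add i2) i3
    have s2 := Real.circleAverage_fun_add i1 i2
    have s3 := Real.circleAverage_fun_smul (a := η) (f := fun z => |UU f z|) (c := 0) (R := r)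
    have s4 := Real.circleAverage_fun_smul (a := η)
      (f := fun z => |Real.log ‖deriv f z - 1‖|) (c := 0) (R := r)
    simp only [smul_eq_mul] at s3 s4
    rw [← s3, ← s4, ← s2]
    have s5 := Real.circleAverage_const c (0 : ℂ) r
    calc _ = _ := s1
      _ = _ := by rw [s5]; rfl
  rw [e1]
  ring

/-- the case of a constant function -/
lemma const_case {f : ℂ → ℂ} (hf : NN f 0 1) (h0 : ∀ z ∈ ball (0 : ℂ) 1, deriv f z = 0) :
    ∀ r : ℝ, 0 < r → r < 1 → TT f r = max 0 (Real.log ‖f 0‖) := by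
  intro r hr0 hr1
  have hconst : ∀ z ∈ ball (0 : ℂ) 1, f z = f 0 := by
    intro z hz
    exact isOpen_ball.is_const_of_deriv_eq_zero (convex_ball 0 1).isPreconnected hf.1
      (fun w hw => h0 w hw) hz (mem_ball_self one_pos)
  unfold TT
  have : ∀ θ : ℝ, max 0 (Real.log ‖f (circleMap 0 r θ)‖) = max 0 (Real.log ‖f 0‖) := by
    intro θ
    rw [hconst]
    rw [mem_ball_zero_iff, norm_circleMap_zero, abs_of_pos hr0]
    exact hr1
  simp only [this]
  rw [intervalIntegral.integral_const, smul_eq_mul]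
  have : (2 * Real.pi : ℝ) ≠ 0 := by positivity
  field_simp
  ring

/-- the logarithm tends to infinity -/
lemma tendsto_L : Tendsto (fun r : ℝ => -Real.log (1 - r)) (𝓝[<] (1 : ℝ)) atTop := by
  have h1 : Tendsto (fun r : ℝ => 1 - r) (𝓝[<] (1 : ℝ)) (𝓝[>] (0 : ℝ)) := by
    apply tendsto_nhdsWithin_iff.2
    constructor
    · have : Tendsto (fun r : ℝ => 1 - r) (𝓝 (1 : ℝ)) (𝓝 (1 - 1)) := by
        apply Continuous.tendsto; fun_prop
      rw [sub_self] at this
      exact this.mono_left nhdsWithin_le_nhds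
    · filter_upwards [self_mem_nhdsWithin] with r hr
      simp only [mem_Iio] at hr
      simp only [mem_Ioi]
      linarith
  exact tendsto_neg_atBot_atTop.comp (Real.tendsto_log_nhdsGT_zero.comp h1)

end FINx

theorem t_FIN (hI5 : S_I5) (hLLz : S_LLz) (hCOV : S_COV) (hMEAS : S_MEAS) (hI9 : S_I9)
    (hI10 : S_I10) (hT1 : S_T1) : S_FIN := by
  obtain ⟨K, C₁, hC₁, h5⟩ := hI5
  obtain ⟨Q, r₀, d₀, hQ, hr₀, hd₀, hd₁, hll⟩ := hLLz K
  obtain ⟨C₂, C₃, hC₂, hcov⟩ := hCOV Q r₀ d₀ hQ hr₀ hd₀ hd₁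
  set Cc := C₁ * C₂ with hCc
  have hCc0 : 0 < Cc := mul_pos hC₁ hC₂
  have hden : 0 < 1 + 2 * Cc := by positivity
  refine ⟨1 + (2 * Cc + 1 / 4) / (1 + 2 * Cc), ?_, ?_⟩
  · have : (2 * Cc + 1 / 4) / (1 + 2 * Cc) < 1 := by
      rw [div_lt_one hden]; linarith
    linarith
  intro f hf ⟨M, hM⟩
  have hα0 : 0 < (2 * Cc + 1 / 4) / (1 + 2 * Cc) := by positivity
  by_cases hconst : ∀ z ∈ ball (0 : ℂ) 1, deriv f z = 0
  · have hT := FINx.const_case hf hconst
    have hI : ∀ᶠ r in 𝓝[<] (1 : ℝ), r ∈ Ioo (0 : ℝ) 1 := Ioo_mem_nhdsLT (by norm_num)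
    filter_upwards [hI, FINx.tendsto_L.eventually_ge_atTop (max 1 (max 0 (Real.log ‖f 0‖)))]
      with r hr hL
    rw [hT r hr.1 hr.2]
    have hLpos : 0 < -Real.log (1 - r) := by
      have := le_max_left (1 : ℝ) (max 0 (Real.log ‖f 0‖))
      linarith
    rw [div_le_iff₀ hLpos]
    have h2 := le_max_right (1 : ℝ) (max 0 (Real.log ‖f 0‖))
    nlinarith
  push Not at hconst
  obtain ⟨z₀, hz₀, hz₀'⟩ := hconst
  obtain ⟨C, h9⟩ := hI9 f hf ⟨z₀, hz₀, hz₀'⟩
  obtain ⟨B, h10⟩ := hI10 f hf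
  have hmeas := hMEAS f hf
  set E : Set ℂ := {z | bad f K z} with hE
  set G : Set ℂ := {z | unh f z} with hG
  have hnu : ∀ r : ℝ, 1 / 2 ≤ r → r < 1 → nu r E ≤ C₂ * nu r G + C₃ :=
    hcov E G (hmeas.1 K) hmeas.2 (fun z hz h1 h2 => hll f hf z hz h1 h2)
  -- constants
  set M' := max M 0 with hM'
  set B' := max B 1 with hB'
  have hM'0 : 0 ≤ M' := le_max_right _ _
  have hB'0 : 0 < B' := lt_of_lt_of_le one_pos (le_max_right _ _)
  set η : ℝ := 1 / (32 * Cc * B' * (M' + 1)) with hη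
  have hη0 : 0 < η := by positivity
  have hηeq : 2 * Cc * (η * B' * (M' + 1)) = 1 / 16 := by
    rw [hη]; field_simp; ring
  set Cη : ℝ := 2 * (η / 2 - Real.log (η / 2)) + (η - Real.log η) with hCη
  set A0 : ℝ := Real.log (1 + Real.exp (-UU f 0)) with hA0
  set W : ℝ := (A0 + C₁ * C₃ + 2 * Cc * (η * B' + Cη + C)) / (1 + 2 * Cc) + Real.log ‖f 0‖ with hW
  have hI : ∀ᶠ r in 𝓝[<] (1 : ℝ), r ∈ Ioo (1 / 2 : ℝ) 1 := Ioo_mem_nhdsLT (by norm_num)
  filter_upwards [hI, hM, FINx.tendsto_L.eventually_ge_atTop (max 1 (16 * (1 + 2 * Cc) * W))]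
    with r hr hMr hL
  obtain ⟨hr1, hr2⟩ := hr
  have hr0 : 0 < r := by linarith
  set L := -Real.log (1 - r) with hLdef
  have hL1 : 1 ≤ L := (le_max_left _ _).trans hL
  have hL2 : 16 * (1 + 2 * Cc) * W ≤ L := (le_max_right _ _).trans hL
  have hLpos : 0 < L := by linarith
  rw [div_le_iff₀ hLpos] at hMr ⊢
  -- s ≤ L, 0 ≤ s
  have hs : sr r ≤ L := by
    rw [hLdef]
    unfold sr
    have : Real.log (1 - r) ≤ Real.log (1 - r ^ 2) := by
      apply Real.log_le_log (by linarith); nlinarith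
    linarith
  have hs0 : 0 ≤ sr r := by
    unfold sr
    have : Real.log (1 - r ^ 2) ≤ 0 := by
      apply Real.log_nonpos <;> nlinarith
    linarith
  obtain ⟨hT0, hT1'⟩ := hT1 f hf r hr0 hr2
  have e5 := h5 f hf r hr0 hr2
  have e9 := h9 r hr1.le hr2
  have e10 := h10 r hr0 hr2
  have eavg := FINx.avg_bound hf hr0 hr2 η hη0
  have enu := hnu r hr1.le hr2
  set D := Real.circleAverage (fun z => max 0 (-UU f z)) 0 r with hD
  set mU := Real.circleAverage (fun z => |UU f z|) 0 r with hmU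
  set mv := Real.circleAverage (fun z => |Real.log ‖deriv f z - 1‖|) 0 r with hmv
  set ν := nu r G with hν
  set T := TT f r with hT
  set s := sr r with hsdef
  have hTM : T ≤ M' * L := hMr.trans (mul_le_mul_of_nonneg_right (le_max_left _ _) hLpos.le)
  have e10' : mU + mv ≤ B' * (1 + (M' + 1) * L) := by
    have h1 : B * (1 + T + s) ≤ B' * (1 + T + s) :=
      mul_le_mul_of_nonneg_right (le_max_left _ _) (by linarith)
    have h2 : B' * (1 + T + s) ≤ B' * (1 + (M' + 1) * L) :=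
      mul_le_mul_of_nonneg_left (by linarith) hB'0.le
    linarith
  have ea : D ≤ A0 + s / 8 + Cc * ν + C₁ * C₃ := by
    have h1 : C₁ * nu r E ≤ C₁ * (C₂ * ν + C₃) := mul_le_mul_of_nonneg_left enu hC₁.le
    have h2 : C₁ * (C₂ * ν + C₃) = Cc * ν + C₁ * C₃ := by rw [hCc]; ring
    linarith
  have eb : D ≤ s - ν / 2 + η * (B' * (1 + (M' + 1) * L)) + Cη + C := by
    have h1 := mul_le_mul_of_nonneg_left e10' hη0.le
    linarith
  have ec : (1 + 2 * Cc) * D ≤ A0 + C₁ * C₃ + 2 * Cc * (η * B' + Cη + C) +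
      (1 / 8 + 2 * Cc) * L + 1 / 16 * L := by
    have h1 := mul_le_mul_of_nonneg_left eb (by positivity : 0 ≤ 2 * Cc)
    have h2 : 2 * Cc * (s - ν / 2 + η * (B' * (1 + (M' + 1) * L)) + Cη + C) =
      2 * Cc * s - Cc * ν + 2 * Cc * (η * B' + Cη + C) + 2 * Cc * (η * B' * (M' + 1)) * L := by ring
    rw [h2, hηeq] at h1
    have h3 : (1 / 8 + 2 * Cc) * s ≤ (1 / 8 + 2 * Cc) * L :=
      mul_le_mul_of_nonneg_left hs (by positivity)
    have h4 : (1 + 2 * Cc) * D = D + 2 * Cc * D := by ring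
    have h5 : (1 / 8 + 2 * Cc) * s = s / 8 + 2 * Cc * s := by ring
    rw [h4]
    rw [h5] at h3
    linarith
  have ed : T ≤ Real.log ‖f 0‖ + L + D := by linarith
  have hWD : (1 + 2 * Cc) * (T - L) ≤ (1 + 2 * Cc) * W + (2 * Cc + 3 / 16) * L := by
    have h1 : (1 + 2 * Cc) * W = A0 + C₁ * C₃ + 2 * Cc * (η * B' + Cη + C) +
        (1 + 2 * Cc) * Real.log ‖f 0‖ := by
      rw [hW, mul_add, mul_div_cancel₀ _ hden.ne']
    have h2 := mul_le_mul_of_nonneg_left ed hden.le
    rw [h1]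
    have h3 : (1 + 2 * Cc) * (Real.log ‖f 0‖ + L + D) =
      (1 + 2 * Cc) * Real.log ‖f 0‖ + (1 + 2 * Cc) * L + (1 + 2 * Cc) * D := by ring
    have h4 : (1 + 2 * Cc) * (T - L) = (1 + 2 * Cc) * T - (1 + 2 * Cc) * L := by ring
    have h5 : (1 / 8 + 2 * Cc) * L + 1 / 16 * L = (2 * Cc + 3 / 16) * L := by ring
    rw [h3] at h2
    rw [h4]
    linarith
  have hfinal : (1 + 2 * Cc) * (T - L) ≤ (2 * Cc + 1 / 4) * L := by
    have h1 : (2 * Cc + 1 / 4) * L = (2 * Cc + 3 / 16) * L + L / 16 := by ring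
    have h2 : 16 * (1 + 2 * Cc) * W = 16 * ((1 + 2 * Cc) * W) := by ring
    rw [h2] at hL2
    linarith
  have : T - L ≤ (2 * Cc + 1 / 4) / (1 + 2 * Cc) * L := by
    rw [div_mul_eq_mul_div, le_div_iff₀ hden]
    linarith
  linarith

end Pool.Agent.H792R2.SS
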