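import Pool.Agent.H792R2.SS.Defs

set_option autoImplicit false
open Set Filter Topology Metric MeasureTheory

namespace Pool.Agent.H792R2.SS

namespace Gx

lemma isOpen_HP : IsOpen HP := by
  have : HP = Complex.im ⁻¹' Ioi 0 := rfl
  rw [this]
  exact isOpen_Ioi.preimage Complex.continuous_im

lemma convex_HP : Convex ℝ HP := by
  have : HP = Complex.imCLM ⁻¹' Ioi 0 := rfl
  rw [this]
  exact (convex_Ioi (0 : ℝ)).linear_preimage Complex.imCLM.toLinearMap

lemma isOpen_left : IsOpen {y : ℂ | y.re < -1 / 2} := by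
  have : {y : ℂ | y.re < -1 / 2} = Complex.re ⁻¹' Iio (-1 / 2) := rfl
  rw [this]
  exact isOpen_Iio.preimage Complex.continuous_re

lemma ball_sub_HP (w : ℂ) : ball w w.im ⊆ HP := by
  intro x hx
  have h1 : |(x - w).im| ≤ ‖x - w‖ := Complex.abs_im_le_norm _
  have h2 : ‖x - w‖ < w.im := by simpa [dist_eq_norm] using hx
  have h3 : -(x - w).im ≤ |(x - w).im| := neg_le_abs _
  have h4 : (x - w).im = x.im - w.im := Complex.sub_im _ _
  show 0 < x.im
  linarith

end Gx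

theorem t_G (hLOG : S_LOG) (hG1 : S_G1) (hG2 : S_G2) (hCLEM : S_CLEM) (hSEP : S_SEP)
    (hPOLY : S_POLY) (hCOMB : S_COMB) : S_G := by
  intro F c hc hF hF0 hF1 hineq
  have hFd : ∀ w ∈ HP, DifferentiableAt ℂ F w := fun w hw =>
    hF.differentiableAt (Gx.isOpen_HP.mem_nhds hw)
  have hdF : DifferentiableOn ℂ (deriv F) HP := hF.deriv Gx.isOpen_HP
  obtain ⟨V, hV, hVe⟩ := hLOG HP (fun w => deriv F w - 1) Gx.isOpen_HP Gx.convex_HP
    (hdF.sub_const 1) (fun w hw => sub_ne_zero.mpr (hF1 w hw))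
  have hVd : ∀ w ∈ HP, DifferentiableAt ℂ V w := fun w hw =>
    hV.differentiableAt (Gx.isOpen_HP.mem_nhds hw)
  have hV1 : ∀ w ∈ HP, 1 + Complex.exp (V w) = deriv F w := by
    intro w hw
    rw [hVe w hw]
    ring
  have hF2 : ∀ w ∈ HP, deriv (deriv F) w = deriv V w * (deriv F w - 1) := by
    intro w hw
    have h1 : deriv F =ᶠ[𝓝 w] fun x => 1 + Complex.exp (V x) := by
      filter_upwards [Gx.isOpen_HP.mem_nhds hw] with x hx
      exact (hV1 x hx).symm
    rw [h1.deriv_eq]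
    have h2 : HasDerivAt (fun x => 1 + Complex.exp (V x)) (Complex.exp (V w) * deriv V w) w :=
      ((hVd w hw).hasDerivAt.cexp).const_add 1
    rw [h2.deriv, hVe w hw]
    ring
  have hHL : HL F V c := by
    refine ⟨hc, hF, hF0, hV, hVe, ?_⟩
    intro w hw
    rw [hV1 w hw]
    have h1 := hineq w hw
    rw [hF2 w hw, norm_mul] at h1
    have h2 : 0 < ‖deriv F w - 1‖ := norm_pos_iff.mpr (sub_ne_zero.mpr (hF1 w hw))
    have h3 : (c * ‖deriv F w‖) * ‖deriv F w - 1‖ ≤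
        (w.im * ‖deriv V w‖ * Real.sqrt (1 + ‖deriv F w‖ ^ 2)) * ‖deriv F w - 1‖ := by
      calc (c * ‖deriv F w‖) * ‖deriv F w - 1‖ ≤ _ := h1
        _ = _ := by ring
    exact le_of_mul_le_mul_right h3 h2
  by_contra hcon
  have hVn : ¬ ∃ a : ℂ, ∀ w ∈ HP, V w = a := by
    rintro ⟨a, ha⟩
    apply hcon
    refine ⟨1 + Complex.exp a, fun w hw => ?_⟩
    rw [← hV1 w hw, ha w hw]
  obtain ⟨c₁, W, hc₁, hW, hWp⟩ := hG1 F V c hHL hVn
  obtain ⟨C₂, hC₂, hFb⟩ := hG2 F V c hHL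
  have hyre : ∀ k : ℕ, ((-1 + 2 * Real.pi * k * Complex.I : ℂ)).re < -1 / 2 := by
    intro k
    simp
    norm_num
  set w : ℕ → ℂ := fun k => W (-1 + 2 * Real.pi * k * Complex.I) with hwdef
  have hwHP : ∀ k, w k ∈ HP := fun k => (hWp _ (hyre k)).1
  have hVw : ∀ k, V (w k) = -1 + 2 * Real.pi * k * Complex.I := fun k => (hWp _ (hyre k)).2.1
  have hFw : ∀ k, ‖F (w k)‖ ≤ C₂ * (w k).im := fun k => hFb (w k) (hwHP k) k (hVw k)
  have hdFw : ∀ k, deriv F (w k) = 1 + Complex.exp (-1) := by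
    intro k
    rw [← hV1 (w k) (hwHP k), hVw k]
    congr 1
    rw [Complex.exp_add]
    have : Complex.exp (2 * Real.pi * k * Complex.I) = 1 := by
      rw [Complex.exp_eq_one_iff]
      exact ⟨k, by push_cast; ring⟩
    rw [this, mul_one]
  obtain ⟨C₃, hC₃, hPsi⟩ := hCLEM c₁ hc₁
  have hWd : ∀ y : ℂ, y.re < -1 / 2 → DifferentiableAt ℂ W y := fun y hy =>
    hW.differentiableAt (Gx.isOpen_left.mem_nhds hy)
  have hPsi' := hPsi W (fun y => F (W y) - W y) hW
    (fun y hy => ⟨(hWp y hy).1, (hWp y hy).2.2⟩)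
    (by
      intro y hy
      have h1 := (hFd (W y) (hWp y hy).1).comp y (hWd y hy)
      exact (h1.sub (hWd y hy)).differentiableWithinAt)
    (by
      intro y hy
      have h1 : HasDerivAt (fun y => F (W y)) (deriv F (W y) * deriv W y) y :=
        ((hFd (W y) (hWp y hy).1).hasDerivAt).comp y (hWd y hy).hasDerivAt
      have h2 := h1.sub (hWd y hy).hasDerivAt
      have h3 : deriv (fun y => F (W y) - W y) y = deriv F (W y) * deriv W y - deriv W y :=
        h2.deriv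
      rw [h3, ← hV1 (W y) (hWp y hy).1, (hWp y hy).2.1]
      ring)
  have hA : ∀ k l, ‖w k - w l‖ ≤ (C₃ + C₂) * ((w k).im + (w l).im) := by
    intro k l
    have h1 : ‖(F (w k) - w k) - (F (w l) - w l)‖ ≤ C₃ * ((w k).im + (w l).im) := hPsi' k l
    have h2 : w k - w l = -((F (w k) - w k) - (F (w l) - w l)) + (F (w k) - F (w l)) := by ring
    calc ‖w k - w l‖ = ‖-((F (w k) - w k) - (F (w l) - w l)) + (F (w k) - F (w l))‖ := by rw [← h2]
      _ ≤ ‖-((F (w k) - w k) - (F (w l) - w l))‖ + ‖F (w k) - F (w l)‖ := norm_add_le _ _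
      _ ≤ C₃ * ((w k).im + (w l).im) + (C₂ * (w k).im + C₂ * (w l).im) := by
          gcongr
          · rw [norm_neg]; exact h1
          · exact (norm_sub_le _ _).trans (add_le_add (hFw k) (hFw l))
      _ = (C₃ + C₂) * ((w k).im + (w l).im) := by ring
  obtain ⟨c₄, hc₄, hsep⟩ := hSEP C₂
  have hS : ∀ k l, k ≠ l → c₄ * (w k).im ≤ ‖w k - w l‖ := by
    intro k l hkl
    by_contra hlt
    push Not at hlt
    have hb := Gx.ball_sub_HP (w k)
    have h1 := hsep F V (w k) (w k).im (hwHP k)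
      ⟨hF.mono hb, fun x hx => hF0 x (hb hx), fun x hx => hF1 x (hb hx)⟩ (hFw k) (hdFw k)
      (hV.mono hb) (fun x hx => hVe x (hb hx)) (w l) (by rw [norm_sub_rev]; exact hlt)
    rw [hVw k, hVw l] at h1
    have h2 : (-1 + 2 * Real.pi * l * Complex.I : ℂ) - (-1 + 2 * Real.pi * k * Complex.I) =
        ((2 * Real.pi * ((l : ℝ) - (k : ℝ)) : ℝ) : ℂ) * Complex.I := by
      push_cast
      ring
    rw [h2, norm_mul, Complex.norm_I, mul_one, Complex.norm_real, Real.norm_eq_abs, abs_mul,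
      abs_of_pos Real.two_pi_pos] at h1
    have h3 : (1 : ℝ) ≤ |(l : ℝ) - (k : ℝ)| := by
      have h4 : ((l : ℤ) - (k : ℤ)) ≠ 0 := by
        intro h
        apply hkl
        have : (k : ℤ) = l := by linarith
        exact_mod_cast this
      have h5 : (1 : ℤ) ≤ |(l : ℤ) - (k : ℤ)| := Int.one_le_abs h4
      exact_mod_cast h5
    have h6 : 2 * Real.pi * 1 ≤ 2 * Real.pi * |(l : ℝ) - (k : ℝ)| :=
      mul_le_mul_of_nonneg_left h3 Real.two_pi_pos.le
    linarith
  obtain ⟨B, hB, hpoly⟩ := hPOLY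
  have hm1 : ((-1 : ℂ)).re < -1 / 2 := by
    simp
    norm_num
  exact hCOMB w (C₃ + C₂) c₄ B (W (-1)).im hc₄ (hWp _ hm1).1 hB hwHP hA hS
    (hpoly W hW (fun y hy => (hWp y hy).1))

end Pool.Agent.H792R2.SS
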