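import Pool.Agent.H792R2.SS.Defs

set_option autoImplicit false
open Set Filter Topology Metric MeasureTheory

namespace Pool.Agent.H792R2.SS

namespace G1x

lemma isOpen_HP : IsOpen HP := by
  have : HP = Complex.im ⁻¹' Ioi 0 := rfl
  rw [this]
  exact isOpen_Ioi.preimage Complex.continuous_im

lemma convex_HP : Convex ℝ HP := by
  have : HP = Complex.imCLM ⁻¹' Ioi 0 := rfl
  rw [this]
  exact (convex_Ioi (0 : ℝ)).linear_preimage Complex.imCLM.toLinearMap

lemma isOpen_left : IsOpen {y : ℂ | y.re < -1 / 2} := by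
  have : {y : ℂ | y.re < -1 / 2} = Complex.re ⁻¹' Iio (-1 / 2) := rfl
  rw [this]
  exact isOpen_Iio.preimage Complex.continuous_re

lemma convex_left : Convex ℝ {y : ℂ | y.re < -1 / 2} := by
  have : {y : ℂ | y.re < -1 / 2} = Complex.reCLM ⁻¹' Iio (-1 / 2) := rfl
  rw [this]
  exact (convex_Iio (-1 / 2 : ℝ)).linear_preimage Complex.reCLM.toLinearMap

lemma isOpen_strip (x η : ℝ) : IsOpen {y : ℂ | y.im ∈ ball x η} :=
  isOpen_ball.preimage Complex.continuous_im

lemma convex_strip (x η : ℝ) : Convex ℝ {y : ℂ | y.im ∈ ball x η} := by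
  have : {y : ℂ | y.im ∈ ball x η} = Complex.imCLM ⁻¹' (ball x η) := rfl
  rw [this]
  exact (convex_ball x η).linear_preimage Complex.imCLM.toLinearMap

/-- `|1 + e^y| ≥ |sin (Im y)|` -/
lemma sin_le (y : ℂ) : |Real.sin y.im| ≤ ‖1 + Complex.exp y‖ := by
  have h1 : ‖1 + Complex.exp y‖ =
      ‖(1 + Complex.exp y) * Complex.exp (-(y.im : ℂ) * Complex.I)‖ := by
    rw [norm_mul]
    have : ‖Complex.exp (-(y.im : ℂ) * Complex.I)‖ = 1 := by
      have h := Complex.norm_exp_ofReal_mul_I (-y.im)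
      push_cast at h
      exact h
    rw [this, mul_one]
  have h2 : (1 + Complex.exp y) * Complex.exp (-(y.im : ℂ) * Complex.I) =
      Complex.exp (-(y.im : ℂ) * Complex.I) + ((Real.exp y.re : ℝ) : ℂ) := by
    rw [add_mul, one_mul, ← Complex.exp_add]
    congr 1
    rw [Complex.ofReal_exp]
    congr 1
    nth_rewrite 1 [← Complex.re_add_im y]
    ring
  have h3 : (Complex.exp (-(y.im : ℂ) * Complex.I) + ((Real.exp y.re : ℝ) : ℂ)).im =
      -Real.sin y.im := by
    rw [Complex.add_im, Complex.ofReal_im, add_zero]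
    have : (-(y.im : ℂ) * Complex.I) = ((-y.im : ℝ) : ℂ) * Complex.I := by push_cast; ring
    rw [this, Complex.exp_ofReal_mul_I_im, Real.sin_neg]
  rw [h1, h2]
  have h4 := Complex.abs_im_le_norm
    (Complex.exp (-(y.im : ℂ) * Complex.I) + ((Real.exp y.re : ℝ) : ℂ))
  rw [h3, abs_neg] at h4
  exact h4

lemma left_le (y : ℂ) (hy : y.re < -1 / 2) : 1 - Real.exp (-1 / 2) ≤ ‖1 + Complex.exp y‖ := by
  have h1 : ‖(1 : ℂ)‖ - ‖-Complex.exp y‖ ≤ ‖(1 : ℂ) - -Complex.exp y‖ := norm_sub_norm_le _ _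
  rw [norm_neg, Complex.norm_exp, norm_one, sub_neg_eq_add] at h1
  have h2 : Real.exp y.re ≤ Real.exp (-1 / 2) := Real.exp_le_exp.mpr hy.le
  linarith

lemma lower {F V : ℂ → ℂ} {c m : ℝ} (h : HL F V c) (hm : 0 < m) {w : ℂ} (hw : w ∈ HP)
    (hmw : m ≤ ‖1 + Complex.exp (V w)‖) : c * m / (m + 1) ≤ ‖deriv V w‖ * w.im := by
  obtain ⟨hc, _, _, _, _, hH⟩ := h
  have h1 := hH w hw
  set X := ‖1 + Complex.exp (V w)‖ with hX
  have hX0 : 0 < X := lt_of_lt_of_le hm hmw
  have him : 0 < w.im := hw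
  have h2 : Real.sqrt (1 + X ^ 2) ≤ 1 + X := by
    rw [Real.sqrt_le_left (by positivity)]
    nlinarith
  have h3 : m * Real.sqrt (1 + X ^ 2) ≤ (m + 1) * X := by
    have : m * Real.sqrt (1 + X ^ 2) ≤ m * (1 + X) := mul_le_mul_of_nonneg_left h2 hm.le
    nlinarith
  have h4 : 0 ≤ w.im * ‖deriv V w‖ := mul_nonneg him.le (norm_nonneg _)
  have h5 : (c * m) * X ≤ (w.im * ‖deriv V w‖ * (m + 1)) * X := by
    calc (c * m) * X = m * (c * X) := by ring
      _ ≤ m * (w.im * ‖deriv V w‖ * Real.sqrt (1 + X ^ 2)) := mul_le_mul_of_nonneg_left h1 hm.le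
      _ = (w.im * ‖deriv V w‖) * (m * Real.sqrt (1 + X ^ 2)) := by ring
      _ ≤ (w.im * ‖deriv V w‖) * ((m + 1) * X) := mul_le_mul_of_nonneg_left h3 h4
      _ = _ := by ring
  have h6 : c * m ≤ w.im * ‖deriv V w‖ * (m + 1) := le_of_mul_le_mul_right h5 hX0
  rw [div_le_iff₀ (by positivity)]
  calc c * m ≤ _ := h6
    _ = _ := by ring

end G1x

theorem t_G1 (hINV : S_INV) : S_G1 := by
  intro F V c hHL hnc
  have hV : DifferentiableOn ℂ V HP := hHL.2.2.2.1
  have hc : 0 < c := hHL.1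
  have hVa : AnalyticOnNhd ℂ V HP := hV.analyticOnNhd G1x.isOpen_HP
  have hopen : IsOpen (V '' HP) := by
    rcases hVa.is_constant_or_isOpen G1x.convex_HP.isPreconnected with h | h
    · exact absurd h hnc
    · exact h HP Subset.rfl G1x.isOpen_HP
  have hI : Complex.I ∈ HP := by
    show (0 : ℝ) < Complex.I.im
    simp
  -- a point with `sin (Im V) ≠ 0`
  have hstar : ∃ w ∈ HP, Real.sin (V w).im ≠ 0 := by
    by_cases hs : Real.sin (V Complex.I).im = 0
    · have hmem : V Complex.I ∈ V '' HP := ⟨_, hI, rfl⟩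
      obtain ⟨ε, hε, hball⟩ := Metric.isOpen_iff.mp hopen _ hmem
      set t : ℝ := min (ε / 2) 1 with ht
      have ht0 : 0 < t := by positivity
      have htε : t < ε := by
        have : t ≤ ε / 2 := min_le_left _ _
        linarith
      have ht1 : t < Real.pi := by
        have : t ≤ 1 := min_le_right _ _
        have := Real.pi_gt_three
        linarith
      have h1 : V Complex.I + (t : ℂ) * Complex.I ∈ ball (V Complex.I) ε := by
        rw [mem_ball, dist_eq_norm]
        have : V Complex.I + (t : ℂ) * Complex.I - V Complex.I = (t : ℂ) * Complex.I := by ring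
        rw [this, norm_mul, Complex.norm_I, mul_one, Complex.norm_real, Real.norm_eq_abs,
          abs_of_pos ht0]
        exact htε
      obtain ⟨w, hw, hVw⟩ := hball h1
      refine ⟨w, hw, ?_⟩
      rw [hVw]
      have h2 : (V Complex.I + (t : ℂ) * Complex.I).im = (V Complex.I).im + t := by simp
      rw [h2, Real.sin_add, hs, zero_mul, zero_add]
      refine mul_ne_zero ?_ (Real.sin_pos_of_pos_of_lt_pi ht0 ht1).ne'
      intro hcos
      have := Real.sin_sq_add_cos_sq (V Complex.I).im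
      rw [hs, hcos] at this
      norm_num at this
    · exact ⟨_, hI, hs⟩
  obtain ⟨w₀, hw₀, hsin⟩ := hstar
  set x : ℝ := (V w₀).im with hx
  set m : ℝ := |Real.sin x| / 2 with hm
  have habs : 0 < |Real.sin x| := abs_pos.mpr hsin
  have hm0 : 0 < m := by positivity
  have hcont : ContinuousAt (fun t => |Real.sin t|) x := (Real.continuous_sin.abs).continuousAt
  obtain ⟨η, hη, hηs⟩ : ∃ η > 0, ∀ t ∈ ball x η, m ≤ |Real.sin t| := by
    have h1 : ∀ᶠ t in 𝓝 x, m < |Real.sin t| := by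
      apply hcont.eventually (lt_mem_nhds _)
      show m < |Real.sin x|
      rw [hm]
      linarith
    obtain ⟨η, hη, h⟩ := Metric.eventually_nhds_iff_ball.mp h1
    exact ⟨η, hη, fun t ht => (h t ht).le⟩
  obtain ⟨W₀, _, _, hW₀⟩ := hINV {y : ℂ | y.im ∈ ball x η} V (c * m / (m + 1)) w₀
    (G1x.isOpen_strip x η) (G1x.convex_strip x η) (by positivity) hV
    (by
      intro w hw hVw
      exact G1x.lower hHL hm0 hw ((hηs _ hVw).trans (G1x.sin_le _)))
    hw₀ (by
      show (V w₀).im ∈ ball x η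
      rw [← hx]
      exact mem_ball_self hη)
  have hy1 : (-1 + (x : ℂ) * Complex.I) ∈ {y : ℂ | y.im ∈ ball x η} := by
    show (-1 + (x : ℂ) * Complex.I).im ∈ ball x η
    have : (-1 + (x : ℂ) * Complex.I).im = x := by simp
    rw [this]
    exact mem_ball_self hη
  obtain ⟨hw1, hVw1, _⟩ := hW₀ _ hy1
  set w₁ := W₀ (-1 + (x : ℂ) * Complex.I) with hw₁
  set m₂ : ℝ := 1 - Real.exp (-1 / 2) with hm₂
  have hm₂0 : 0 < m₂ := by
    have : Real.exp (-1 / 2) < 1 := by
      rw [Real.exp_lt_one_iff]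
      norm_num
    rw [hm₂]
    linarith
  obtain ⟨W, hWd, _, hW⟩ := hINV {y : ℂ | y.re < -1 / 2} V (c * m₂ / (m₂ + 1)) w₁
    G1x.isOpen_left G1x.convex_left (by positivity) hV
    (by
      intro w hw hVw
      exact G1x.lower hHL hm₂0 hw (G1x.left_le _ hVw))
    hw1 (by
      show (V w₁).re < -1 / 2
      rw [hVw1]
      simp
      norm_num)
  exact ⟨c * m₂ / (m₂ + 1), W, by positivity, hWd, hW⟩

end Pool.Agent.H792R2.SS
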