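import Pool.Agent.H792R2.SS.Defs

set_option autoImplicit false
open Set Filter Topology Metric MeasureTheory

namespace Pool.Agent.H792R2.SS
namespace G2x

theorem low (x m c q : ℝ) (hc : 0 < c) (hm : 0 < m) (hmx : m ≤ x)
    (h : c * x ≤ q * Real.sqrt (1 + x ^ 2)) : c * (m / Real.sqrt (1 + m ^ 2)) ≤ q := by
  have hx : 0 < x := lt_of_lt_of_le hm hmx
  have h1 : 0 < Real.sqrt (1 + m ^ 2) := Real.sqrt_pos.mpr (by positivity)
  have h2 : 0 < Real.sqrt (1 + x ^ 2) := Real.sqrt_pos.mpr (by positivity)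
  have h3 : m * Real.sqrt (1 + x ^ 2) ≤ x * Real.sqrt (1 + m ^ 2) := by
    have e1 : m * Real.sqrt (1 + x ^ 2) = Real.sqrt (m ^ 2 * (1 + x ^ 2)) := by
      rw [Real.sqrt_mul (by positivity), Real.sqrt_sq hm.le]
    have e2 : x * Real.sqrt (1 + m ^ 2) = Real.sqrt (x ^ 2 * (1 + m ^ 2)) := by
      rw [Real.sqrt_mul (by positivity), Real.sqrt_sq hx.le]
    rw [e1, e2]
    apply Real.sqrt_le_sqrt
    nlinarith [mul_le_mul hmx hmx hm.le hx.le]
  have h4 : m / Real.sqrt (1 + m ^ 2) ≤ x / Real.sqrt (1 + x ^ 2) := by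
    rw [div_le_div_iff₀ h1 h2]
    exact h3
  calc c * (m / Real.sqrt (1 + m ^ 2)) ≤ c * (x / Real.sqrt (1 + x ^ 2)) :=
        mul_le_mul_of_nonneg_left h4 hc.le
    _ = c * x / Real.sqrt (1 + x ^ 2) := by ring
    _ ≤ q := by
        rw [div_le_iff₀ h2]
        exact h

theorem isOpen_HP : IsOpen HP := isOpen_lt continuous_const Complex.continuous_im

/-- the strip -/
def strip (k : ℕ) : Set ℂ := {y : ℂ | |y.im - 2 * Real.pi * k| < Real.pi / 2}

theorem strip_eq (k : ℕ) : strip k =
    {y : ℂ | 2 * Real.pi * k - Real.pi / 2 < y.im} ∩ {y : ℂ | y.im < 2 * Real.pi * k + Real.pi / 2} := by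
  ext y
  simp only [strip, Set.mem_ofPred_eq, mem_inter_iff, abs_lt]
  constructor
  · rintro ⟨h1, h2⟩
    constructor <;> linarith
  · rintro ⟨h1, h2⟩
    constructor <;> linarith

theorem strip_open (k : ℕ) : IsOpen (strip k) := by
  rw [strip_eq]
  exact (isOpen_lt continuous_const Complex.continuous_im).inter
    (isOpen_lt Complex.continuous_im continuous_const)

theorem strip_convex (k : ℕ) : Convex ℝ (strip k) := by
  rw [strip_eq]
  exact (convex_halfSpace_im_gt _).inter (convex_halfSpace_im_lt _)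

theorem strip_norm (k : ℕ) (y : ℂ) (hy : y ∈ strip k) : 1 ≤ ‖1 + Complex.exp y‖ := by
  have hc : 0 ≤ Real.cos y.im := by
    have e : Real.cos y.im = Real.cos (y.im - k * (2 * Real.pi)) := by
      rw [Real.cos_sub_nat_mul_two_pi]
    rw [e]
    have hy' : |y.im - 2 * Real.pi * k| < Real.pi / 2 := hy
    rw [abs_lt] at hy'
    apply Real.cos_nonneg_of_mem_Icc
    constructor <;> nlinarith [hy'.1, hy'.2]
  have h1 : (1 + Complex.exp y).re ≤ ‖1 + Complex.exp y‖ := Complex.re_le_norm _
  have h2 : (1 + Complex.exp y).re = 1 + Real.exp y.re * Real.cos y.im := by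
    rw [Complex.add_re, Complex.one_re, Complex.exp_re]
  rw [h2] at h1
  have := mul_nonneg (Real.exp_pos y.re).le hc
  linarith

theorem right_norm (y : ℂ) (hy : 1 / 2 < y.re) : 1 / 2 ≤ ‖1 + Complex.exp y‖ := by
  have h1 : ‖Complex.exp y‖ - ‖(1 : ℂ)‖ ≤ ‖1 + Complex.exp y‖ := by
    have := norm_sub_le (1 + Complex.exp y) 1
    have e : 1 + Complex.exp y - 1 = Complex.exp y := by ring
    rw [e] at this
    linarith
  rw [Complex.norm_exp, norm_one] at h1
  have h2 : y.re + 1 ≤ Real.exp y.re := Real.add_one_le_exp _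
  linarith

theorem per (k : ℕ) (y : ℂ) : Complex.exp (y + 2 * Real.pi * k * Complex.I) = Complex.exp y := by
  have := Complex.exp_periodic.nat_mul k y
  rw [← this]
  congr 1
  ring

end G2x
open G2x

theorem t_G2 (hINV : S_INV) (hALEM : S_ALEM) : S_G2 := by
  intro F V c hHL
  obtain ⟨hc, hF, hF0, hV, hexp, hlow⟩ := hHL
  obtain ⟨A, hA, hALEM⟩ := hALEM
  set cS : ℝ := c * (1 / Real.sqrt (1 + 1 ^ 2)) with hcS
  set cA : ℝ := c * ((1 / 2) / Real.sqrt (1 + (1 / 2) ^ 2)) with hcA
  have hcS0 : 0 < cS := by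
    have : 0 < Real.sqrt (1 + 1 ^ 2) := Real.sqrt_pos.mpr (by positivity)
    positivity
  have hcA0 : 0 < cA := by
    have : 0 < Real.sqrt (1 + (1 / 2) ^ 2) := Real.sqrt_pos.mpr (by positivity)
    positivity
  set K : ℝ := 1 / cS with hK
  have hK0 : 0 < K := by positivity
  refine ⟨A * (1 / cA) * Real.exp (K * 2) + 2 * ((1 + Real.exp 1) * (K * Real.exp (K * 2))),
    by positivity, ?_⟩
  intro w hw k hVw
  -- the inverse branch on the strip
  have hVS : V w ∈ strip k := by
    rw [hVw]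
    simp [strip, Real.pi_pos]
  obtain ⟨W, hWd, hW0, hWp⟩ := hINV (strip k) V cS w (strip_open k) (strip_convex k) hcS0 hV
    (by
      intro u hu hVu
      have h1 := strip_norm k _ hVu
      have h2 := hlow u hu
      have := low _ 1 c (u.im * ‖deriv V u‖) hc one_pos h1 h2
      rw [mul_comm (‖deriv V u‖)]
      exact this) hw hVS
  rw [hVw] at hW0
  set y₀ : ℂ := -1 + 2 * Real.pi * k * Complex.I with hy₀
  have hmem : ∀ t : ℝ, y₀ + t ∈ strip k := by
    intro t
    simp [strip, hy₀, Real.pi_pos]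
  have him : ∀ t : ℝ, (y₀ + t).im = 2 * Real.pi * k := by
    intro t
    simp [hy₀]
  have hre : ∀ t : ℝ, (y₀ + t).re = -1 + t := by
    intro t
    simp [hy₀]
  -- the path
  set g : ℝ → ℂ := fun t => W (y₀ + t) with hg
  have hgd : ∀ t : ℝ, HasDerivAt g (deriv W (y₀ + t)) t := by
    intro t
    have h1 : HasDerivAt W (deriv W (y₀ + t)) (y₀ + t) :=
      (hWd.differentiableAt ((strip_open k).mem_nhds (hmem t))).hasDerivAt
    have h2 : HasDerivAt (fun s : ℝ => y₀ + (s : ℂ)) 1 t := by
      have := (Complex.ofRealCLM.hasDerivAt (x := t)).const_add y₀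
      simpa using this
    have := HasDerivAt.scomp_of_eq (h := fun s : ℝ => y₀ + (s : ℂ)) t h1 h2 rfl
    simpa [hg, Function.comp_def] using this
  have hgHP : ∀ t : ℝ, g t ∈ HP := fun t => (hWp _ (hmem t)).1
  have hgV : ∀ t : ℝ, V (g t) = y₀ + t := fun t => (hWp _ (hmem t)).2.1
  have hgn : ∀ t : ℝ, ‖deriv W (y₀ + t)‖ ≤ K * (g t).im := by
    intro t
    have := (hWp _ (hmem t)).2.2
    rw [hK, one_div, mul_comm]
    exact this
  have hg0 : g 0 = w := by
    simp [hg, hW0]
  have himpos : ∀ t : ℝ, 0 < (g t).im := fun t => hgHP t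
  -- heights along the path
  have hheight : ∀ t ∈ Icc (0 : ℝ) 2, (g t).im ≤ w.im * Real.exp (K * 2) := by
    intro t ht
    have key := norm_le_gronwallBound_of_norm_deriv_right_le (f := fun s : ℝ => (g s).im)
      (f' := fun s : ℝ => (deriv W (y₀ + s)).im) (δ := w.im) (K := K) (ε := 0) (a := 0) (b := 2)
      (by
        intro s _
        exact (Complex.continuous_im.continuousAt.comp (hgd s).continuousAt).continuousWithinAt)
      (by
        intro s _
        have := (Complex.imCLM.hasFDerivAt (x := g s)).comp_hasDerivAt s (hgd s)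
        exact this.hasDerivWithinAt)
      (by
        simp only [hg0]
        rw [Real.norm_eq_abs, abs_of_pos hw])
      (by
        intro s _
        rw [add_zero, Real.norm_eq_abs, Real.norm_eq_abs, abs_of_pos (himpos s)]
        exact (Complex.abs_im_le_norm _).trans (hgn s)) t ht
    rw [gronwallBound_ε0, Real.norm_eq_abs, abs_of_pos (himpos t)] at key
    refine key.trans ?_
    apply mul_le_mul_of_nonneg_left _ (le_of_lt hw)
    apply Real.exp_le_exp.mpr
    apply mul_le_mul_of_nonneg_left _ hK0.le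
    linarith [ht.2]
  -- F along the path
  have hdF : ∀ t ∈ Icc (0 : ℝ) 2, ‖deriv F (g t)‖ ≤ 1 + Real.exp 1 := by
    intro t ht
    have e : deriv F (g t) = 1 + Complex.exp (V (g t)) := by
      rw [hexp _ (hgHP t)]
      ring
    rw [e]
    refine (norm_add_le _ _).trans ?_
    rw [norm_one, Complex.norm_exp, hgV, hre]
    have : Real.exp (-1 + t) ≤ Real.exp 1 := Real.exp_le_exp.mpr (by linarith [ht.2])
    linarith
  have hpath : ‖F (g 2) - F (g 0)‖ ≤ (1 + Real.exp 1) * (K * (w.im * Real.exp (K * 2))) * (2 - 0) := by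
    have key := norm_image_sub_le_of_norm_deriv_le_segment' (f := fun t => F (g t))
      (f' := fun t => deriv W (y₀ + t) • deriv F (g t)) (a := 0) (b := 2)
      (C := (1 + Real.exp 1) * (K * (w.im * Real.exp (K * 2))))
      (by
        intro s _
        have h1 : HasDerivAt F (deriv F (g s)) (g s) :=
          (hF.differentiableAt (isOpen_HP.mem_nhds (hgHP s))).hasDerivAt
        exact (h1.scomp s (hgd s)).hasDerivWithinAt)
      (by
        intro s hs
        have hs' : s ∈ Icc (0 : ℝ) 2 := ⟨hs.1, hs.2.le⟩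
        rw [norm_smul, mul_comm]
        apply mul_le_mul (hdF s hs') _ (norm_nonneg _) (by positivity)
        exact (hgn s).trans (mul_le_mul_of_nonneg_left (hheight s hs') hK0.le)) 2 (by simp)
    exact key
  -- the right half plane
  set w' : ℂ := g 2 with hw'
  have hVw' : V w' = 1 + 2 * Real.pi * k * Complex.I := by
    rw [hw', hgV, hy₀]
    push_cast
    ring
  have hAo : IsOpen {y : ℂ | 1 / 2 < y.re} := isOpen_lt continuous_const Complex.continuous_re
  obtain ⟨X, hXd, hX0, hXp⟩ := hINV {y : ℂ | 1 / 2 < y.re} V cA w' hAo (convex_halfSpace_re_gt _)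
    hcA0 hV
    (by
      intro u hu hVu
      have h1 := right_norm _ hVu
      have h2 := hlow u hu
      have := low _ (1 / 2) c (u.im * ‖deriv V u‖) hc (by norm_num) h1 h2
      rw [mul_comm (‖deriv V u‖)]
      exact this) (hgHP 2) (by rw [hVw']; simp; norm_num)
  rw [hVw'] at hX0
  have hsh : ∀ y : ℂ, 1 / 2 < y.re → y + 2 * Real.pi * k * Complex.I ∈ {y : ℂ | 1 / 2 < y.re} := by
    intro y hy
    simp only [Set.mem_ofPred_eq]
    simpa using hy
  have hφd : ∀ y : ℂ, 1 / 2 < y.re → HasDerivAt (fun y => X (y + 2 * Real.pi * k * Complex.I))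
      (deriv X (y + 2 * Real.pi * k * Complex.I)) y := by
    intro y hy
    have h1 : HasDerivAt X (deriv X (y + 2 * Real.pi * k * Complex.I))
        (y + 2 * Real.pi * k * Complex.I) :=
      (hXd.differentiableAt (hAo.mem_nhds (hsh y hy))).hasDerivAt
    exact h1.comp_add_const y _
  have hΦd : ∀ y : ℂ, 1 / 2 < y.re → HasDerivAt (fun y => F (X (y + 2 * Real.pi * k * Complex.I)))
      (deriv F (X (y + 2 * Real.pi * k * Complex.I)) *
        deriv X (y + 2 * Real.pi * k * Complex.I)) y := by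
    intro y hy
    have h1 : HasDerivAt F (deriv F (X (y + 2 * Real.pi * k * Complex.I)))
        (X (y + 2 * Real.pi * k * Complex.I)) :=
      (hF.differentiableAt (isOpen_HP.mem_nhds (hXp _ (hsh y hy)).1)).hasDerivAt
    exact h1.comp y (hφd y hy)
  have hres := hALEM (fun y => X (y + 2 * Real.pi * k * Complex.I))
    (fun y => F (X (y + 2 * Real.pi * k * Complex.I)))
    (fun y hy => (hφd y hy).differentiableAt.differentiableWithinAt)
    (by
      intro y hy z hz hyz
      have e1 := (hXp _ (hsh y hy)).2.1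
      have e2 := (hXp _ (hsh z hz)).2.1
      simp only at hyz
      rw [hyz, e2] at e1
      exact (add_right_cancel e1).symm)
    (fun y hy => (hΦd y hy).differentiableAt.differentiableWithinAt)
    (fun y hy => hF0 _ (hXp _ (hsh y hy)).1)
    (by
      intro y hy
      rw [(hΦd y hy).deriv, (hφd y hy).deriv]
      congr 1
      have h1 := hexp _ (hXp _ (hsh y hy)).1
      rw [(hXp _ (hsh y hy)).2.1, per] at h1
      rw [h1]
      ring)
  have h1re : (1 : ℝ) / 2 < (1 : ℂ).re := by norm_num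
  rw [(hφd 1 h1re).deriv, hX0] at hres
  have hX1 : ‖deriv X (1 + 2 * Real.pi * k * Complex.I)‖ ≤ w'.im / cA := by
    have := (hXp _ (hsh 1 h1re)).2.2
    rw [hX0] at this
    exact this
  have hw'im : w'.im ≤ w.im * Real.exp (K * 2) := hheight 2 (by constructor <;> norm_num)
  have hFw' : ‖F w'‖ ≤ A * (1 / cA) * (w.im * Real.exp (K * 2)) := by
    have h1 : w'.im / cA ≤ (1 / cA) * (w.im * Real.exp (K * 2)) := by
      rw [div_eq_mul_one_div, mul_comm]
      exact mul_le_mul_of_nonneg_left hw'im (by positivity)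
    calc ‖F w'‖ ≤ A * ‖deriv X (1 + 2 * Real.pi * k * Complex.I)‖ := hres
      _ ≤ A * ((1 / cA) * (w.im * Real.exp (K * 2))) :=
        mul_le_mul_of_nonneg_left (hX1.trans h1) hA.le
      _ = _ := by ring
  have hfin : ‖F w‖ ≤ ‖F w'‖ + ‖F w' - F w‖ := by
    have := norm_sub_le (F w') (F w' - F w)
    have e : F w' - (F w' - F w) = F w := by ring
    rw [e] at this
    exact this
  rw [hg0] at hpath
  calc ‖F w‖ ≤ ‖F w'‖ + ‖F w' - F w‖ := hfin
    _ ≤ A * (1 / cA) * (w.im * Real.exp (K * 2)) +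
        (1 + Real.exp 1) * (K * (w.im * Real.exp (K * 2))) * (2 - 0) := add_le_add hFw' hpath
    _ = _ := by ring

end Pool.Agent.H792R2.SS
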