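import Pool.Agent.H792R2.SS.Defs

/-!
# GR: Gronwall along segments
-/

set_option autoImplicit false
open Set Filter Topology Metric MeasureTheory

namespace Pool.Agent.H792R2.SS

theorem t_GR : S_GR := by
  intro Ω h A hΩ hconv hA hd hb w hw w' hw'
  -- the path
  set γ : ℝ → ℂ := fun t => w + t * (w' - w) with hγ
  set K : ℝ := A * ‖w' - w‖ with hK
  have hK0 : 0 ≤ K := by positivity
  have hmem : ∀ t ∈ Icc (0 : ℝ) 1, γ t ∈ Ω := by
    intro t ht
    have := hconv hw hw' (a := 1 - t) (b := t) (by linarith [ht.2]) ht.1 (by ring)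
    have e : (1 - t) • w + t • w' = γ t := by
      simp only [hγ, Complex.real_smul]
      push_cast
      ring
    rwa [e] at this
  have hderiv : ∀ t ∈ Icc (0 : ℝ) 1, HasDerivAt (fun t => (h (γ t)).re)
      ((deriv h (γ t) * (w' - w)).re) t := by
    intro t ht
    have h1 : HasDerivAt h (deriv h (γ t)) (γ t) :=
      (hd.differentiableAt (hΩ.mem_nhds (hmem t ht))).hasDerivAt
    have h2 : HasDerivAt γ (w' - w) t := by
      have h3 : HasDerivAt (fun t : ℝ => (t : ℂ)) 1 t := Complex.ofRealCLM.hasDerivAt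
      have h4 := (h3.mul_const (w' - w)).const_add w
      rw [one_mul] at h4
      exact h4
    have h5 : HasDerivAt (fun t => h (γ t)) (deriv h (γ t) * (w' - w)) t := h1.comp t h2
    exact (Complex.reCLM.hasFDerivAt.comp_hasDerivAt t h5)
  have hcont : ContinuousOn (fun t => (h (γ t)).re) (Icc 0 1) := fun t ht =>
    (hderiv t ht).continuousAt.continuousWithinAt
  have hg := norm_le_gronwallBound_of_norm_deriv_right_le (f := fun t => (h (γ t)).re)
    (f' := fun t => (deriv h (γ t) * (w' - w)).re) (δ := |(h w).re|) (K := K) (ε := K) (a := 0)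
    (b := 1) hcont (fun t ht => (hderiv t ⟨ht.1, ht.2.le⟩).hasDerivWithinAt)
    (by simp [hγ]) (by
      intro t ht
      have h1 := hb (γ t) (hmem t ⟨ht.1, ht.2.le⟩)
      calc ‖(deriv h (γ t) * (w' - w)).re‖ ≤ ‖deriv h (γ t) * (w' - w)‖ := by
            rw [Real.norm_eq_abs]; exact Complex.abs_re_le_norm _
        _ = ‖deriv h (γ t)‖ * ‖w' - w‖ := norm_mul _ _
        _ ≤ A * (1 + |(h (γ t)).re|) * ‖w' - w‖ :=
            mul_le_mul_of_nonneg_right h1 (norm_nonneg _)
        _ = K * ‖(h (γ t)).re‖ + K := by rw [hK, Real.norm_eq_abs]; ring)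
    1 (right_mem_Icc.2 zero_le_one)
  have e1 : γ 1 = w' := by simp [hγ]
  have e2 : ‖(h (γ 1)).re‖ = |(h w').re| := by rw [e1, Real.norm_eq_abs]
  have hg' : |(h w').re| ≤ gronwallBound |(h w).re| K K (1 - 0) := by
    rw [← e2]; exact hg
  rcases eq_or_ne K 0 with hK1 | hK1
  · rw [hK1, gronwallBound_K0] at hg'
    rw [hK1, Real.exp_zero]
    simp only [zero_mul, add_zero] at hg'
    linarith
  · rw [gronwallBound_of_K_ne_0 hK1, div_self hK1] at hg'
    simp only [sub_zero, mul_one, one_mul] at hg'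
    linarith

end Pool.Agent.H792R2.SS
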