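import Pool.Agent.H792R2.SS.Defs

set_option autoImplicit false
open Set Filter Topology Metric MeasureTheory

namespace Pool.Agent.H792R2.SS.GUx

theorem nn_sub {f : ℂ → ℂ} {z : ℂ} (hf : NN f 0 1) (hz : z ∈ ball (0 : ℂ) 1) :
    NN f z (1 - ‖z‖) := by
  have hsub : ball z (1 - ‖z‖) ⊆ ball (0 : ℂ) 1 := by
    apply ball_subset_ball'
    rw [dist_zero_right]
    linarith
  exact ⟨hf.1.mono hsub, fun w hw => hf.2.1 w (hsub hw), fun w hw => hf.2.2 w (hsub hw)⟩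

/-- comparison of `log (|f| / (1 - |z|))` with `U` -/
theorem log_sub_UU {f : ℂ → ℂ} {z : ℂ} (hf : f z ≠ 0) (hz : ‖z‖ < 1) :
    Real.log (‖f z‖ / (1 - ‖z‖)) = UU f z + Real.log (1 + ‖z‖) := by
  have h0 := norm_nonneg z
  unfold UU
  have e : 1 - ‖z‖ ^ 2 = (1 - ‖z‖) * (1 + ‖z‖) := by ring
  rw [e, Real.log_mul (by linarith) (by linarith), Real.log_div (norm_ne_zero_iff.2 hf)
    (by linarith)]
  ring

theorem log_one_add_le {z : ℂ} (hz : ‖z‖ < 1) :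
    0 ≤ Real.log (1 + ‖z‖) ∧ Real.log (1 + ‖z‖) ≤ 1 := by
  have h0 := norm_nonneg z
  constructor
  · exact Real.log_nonneg (by linarith)
  · have := Real.log_le_sub_one_of_pos (show 0 < 1 + ‖z‖ by linarith)
    linarith

theorem abs_log_le {f : ℂ → ℂ} {z : ℂ} (hf : f z ≠ 0) (hz : ‖z‖ < 1) :
    1 + |Real.log (‖f z‖ / (1 - ‖z‖))| ≤ 2 * (1 + |UU f z|) := by
  rw [log_sub_UU hf hz]
  obtain ⟨h1, h2⟩ := log_one_add_le hz
  have := abs_add_le (UU f z) (Real.log (1 + ‖z‖))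
  rw [abs_of_nonneg h1] at this
  have := abs_nonneg (UU f z)
  linarith

theorem norm_le_exp {f : ℂ → ℂ} {z : ℂ} (hf : f z ≠ 0) (hz : ‖z‖ < 1) :
    ‖f z‖ / (1 - ‖z‖) ≤ 2 * Real.exp (UU f z) := by
  have h0 := norm_nonneg z
  have hp : 0 < ‖f z‖ / (1 - ‖z‖) := div_pos (norm_pos_iff.2 hf) (by linarith)
  rw [← Real.exp_log hp, log_sub_UU hf hz, Real.exp_add, Real.exp_log (by linarith), mul_comm]
  exact mul_le_mul_of_nonneg_right (by linarith) (Real.exp_pos _).le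

end Pool.Agent.H792R2.SS.GUx

namespace Pool.Agent.H792R2.SS

theorem t_GU (hP1 : S_P1) : S_GU := by
  obtain ⟨C, hC, h⟩ := hP1
  refine ⟨4 * C + 1, by linarith, ?_⟩
  intro f z hf hz
  have hz1 : ‖z‖ < 1 := mem_ball_zero_iff.1 hz
  have h0 := norm_nonneg z
  have hR : 0 < 1 - ‖z‖ := by linarith
  have hfz : f z ≠ 0 := hf.2.1 z hz
  have h1 := h f z (1 - ‖z‖) hR (GUx.nn_sub hf hz)
  have h2 := GUx.abs_log_le hfz hz1
  have hU := abs_nonneg (UU f z)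
  have h3 : (1 - ‖z‖) * ‖deriv f z / f z‖ ≤ 2 * C * (1 + |UU f z|) := by
    calc (1 - ‖z‖) * ‖deriv f z / f z‖ ≤ C * (1 + |Real.log (‖f z‖ / (1 - ‖z‖))|) := h1
      _ ≤ C * (2 * (1 + |UU f z|)) := mul_le_mul_of_nonneg_left h2 hC.le
      _ = 2 * C * (1 + |UU f z|) := by ring
  constructor
  · unfold gU
    have e1 : ‖(((1 - ‖z‖ ^ 2) / 2 : ℝ) : ℂ) * (deriv f z / f z)‖ ≤
        (1 - ‖z‖) * ‖deriv f z / f z‖ := by
      rw [norm_mul, Complex.norm_real, Real.norm_of_nonneg (by nlinarith)]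
      exact mul_le_mul_of_nonneg_right (by nlinarith) (norm_nonneg _)
    have e2 : ‖(starRingEnd ℂ) z‖ = ‖z‖ := RCLike.norm_conj z
    calc ‖(((1 - ‖z‖ ^ 2) / 2 : ℝ) : ℂ) * (deriv f z / f z) + (starRingEnd ℂ) z‖
        ≤ ‖(((1 - ‖z‖ ^ 2) / 2 : ℝ) : ℂ) * (deriv f z / f z)‖ + ‖(starRingEnd ℂ) z‖ :=
          norm_add_le _ _
      _ ≤ (4 * C + 1) * (1 + |UU f z|) := by
          rw [e2]
          nlinarith
  · have e3 : ‖deriv f z‖ = ‖f z‖ / (1 - ‖z‖) * ((1 - ‖z‖) * ‖deriv f z / f z‖) := by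
      rw [norm_div]
      have : ‖f z‖ ≠ 0 := norm_ne_zero_iff.2 hfz
      field_simp
    rw [e3]
    have e4 := GUx.norm_le_exp hfz hz1
    have e5 := Real.exp_pos (UU f z)
    calc ‖f z‖ / (1 - ‖z‖) * ((1 - ‖z‖) * ‖deriv f z / f z‖)
        ≤ (2 * Real.exp (UU f z)) * (2 * C * (1 + |UU f z|)) :=
          mul_le_mul e4 h3 (by positivity) (by positivity)
      _ ≤ (4 * C + 1) * (1 + |UU f z|) * Real.exp (UU f z) := by nlinarith

end Pool.Agent.H792R2.SS
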