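import Pool.Agent.H792R2.SS.Defs

set_option autoImplicit false
open Set Filter Topology Metric MeasureTheory

namespace Pool.Agent.H792R2.SS.HHx

theorem main (hPOS : S_POS) (h : ℂ → ℂ) (z : ℂ) (R K : ℝ) (hR : 0 < R) (hK : 0 ≤ K)
    (hd : DifferentiableOn ℂ h (ball z R))
    (hg : ∀ w ∈ ball z R, |(h w).re| ≤ 1 → ‖deriv h w‖ ≤ K) (hz : 1 < (h z).re) :
    ‖deriv h z‖ ≤ 4 * K + 4 * (h z).re / R := by
  have hsub : closedBall z (R / 2) ⊆ ball z R := closedBall_subset_ball (by linarith)
  by_cases hA : ∀ w ∈ ball z (R / 2), 1 < (h w).re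
  · have h1 := (hPOS h z (R / 2) (by linarith)
      (hd.mono (ball_subset_ball (by linarith))) (fun w hw => by linarith [hA w hw])).1
    have h2 : 2 * (h z).re / (R / 2) = 4 * (h z).re / R := by
      field_simp
      ring
    rw [h2] at h1
    linarith
  push Not at hA
  obtain ⟨w1, hw1, hw1'⟩ := hA
  have hcont : ContinuousOn (fun w => (h w).re) (closedBall z (R / 2)) :=
    Complex.continuous_re.comp_continuousOn ((hd.mono hsub).continuousOn)
  have hScl : IsClosed (closedBall z (R / 2) ∩ (fun w => (h w).re) ⁻¹' Iic 1) :=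
    hcont.preimage_isClosed_of_isClosed isClosed_closedBall isClosed_Iic
  have hScomp : IsCompact (closedBall z (R / 2) ∩ (fun w => (h w).re) ⁻¹' Iic 1) :=
    (isCompact_closedBall z (R / 2)).of_isClosed_subset hScl inter_subset_left
  obtain ⟨zs, hzs, hmin⟩ := hScomp.exists_isMinOn
    ⟨w1, ball_subset_closedBall hw1, hw1'⟩ (f := fun w => ‖w - z‖) (by fun_prop)
  have hzs1 : ‖zs - z‖ ≤ R / 2 := by
    have := hzs.1
    rwa [mem_closedBall, dist_eq_norm] at this
  have hzs2 : (h zs).re ≤ 1 := hzs.2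
  set ρ := ‖zs - z‖ with hρ
  have hne : zs ≠ z := by
    intro heq
    rw [heq] at hzs2
    linarith
  have hρ0 : 0 < ρ := norm_pos_iff.2 (sub_ne_zero.2 hne)
  have hzsR : zs ∈ ball z R := hsub hzs.1
  have hball : ∀ w ∈ ball z ρ, 1 < (h w).re := by
    intro w hw
    rw [mem_ball, dist_eq_norm] at hw
    by_contra hcon
    have hwS : w ∈ closedBall z (R / 2) ∩ (fun w => (h w).re) ⁻¹' Iic 1 := by
      refine ⟨?_, not_lt.1 hcon⟩
      rw [mem_closedBall, dist_eq_norm]
      linarith
    have := hmin hwS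
    simp only [mem_ofPred_eq] at this
    linarith
  -- the function along the segment
  have hwt : ∀ t : ℝ, 0 ≤ t → t < 1 → z + (t : ℂ) * (zs - z) ∈ ball z ρ ∧
      ‖z + (t : ℂ) * (zs - z) - z‖ = t * ρ := by
    intro t ht0 ht1
    have h1 : ‖z + (t : ℂ) * (zs - z) - z‖ = t * ρ := by
      rw [add_sub_cancel_left, norm_mul, Complex.norm_real, Real.norm_eq_abs, abs_of_nonneg ht0]
    refine ⟨?_, h1⟩
    rw [mem_ball, dist_eq_norm, h1]
    nlinarith
  have hdiff : DifferentiableAt ℂ h zs := hd.differentiableAt (isOpen_ball.mem_nhds hzsR)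
  have hder : HasDerivAt (fun t : ℝ => (h (z + (t : ℂ) * (zs - z))).re)
      ((deriv h zs * (zs - z)).re) 1 := by
    have h1 : HasDerivAt (fun t : ℂ => h (z + t * (zs - z))) (deriv h zs * (zs - z)) ((1 : ℝ) : ℂ) := by
      have h2 : HasDerivAt (fun t : ℂ => z + t * (zs - z)) (zs - z) ((1 : ℝ) : ℂ) := by
        have := ((hasDerivAt_id ((1 : ℝ) : ℂ)).mul_const (zs - z)).const_add z
        simpa using this
      have h3 : HasDerivAt h (deriv h zs) (z + ((1 : ℝ) : ℂ) * (zs - z)) := by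
        have h4 : z + ((1 : ℝ) : ℂ) * (zs - z) = zs := by
          rw [Complex.ofReal_one, one_mul]
          ring
        rw [h4]
        exact hdiff.hasDerivAt
      exact HasDerivAt.comp ((1 : ℝ) : ℂ) (h := fun t : ℂ => z + t * (zs - z)) h3 h2
    exact h1.real_of_complex
  have hval1 : (h (z + ((1 : ℝ) : ℂ) * (zs - z))).re = (h zs).re := by
    have h4 : z + ((1 : ℝ) : ℂ) * (zs - z) = zs := by
      rw [Complex.ofReal_one, one_mul]
      ring
    rw [h4]
  -- `u (zs) = 1`
  have hev : ∀ᶠ t : ℝ in 𝓝[<] (1 : ℝ), 0 ≤ t ∧ t < 1 := by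
    filter_upwards [Ioo_mem_nhdsLT (show (0 : ℝ) < 1 by norm_num)] with t ht
    exact ⟨ht.1.le, ht.2⟩
  have hge : 1 ≤ (h zs).re := by
    have h1 : Tendsto (fun t : ℝ => (h (z + (t : ℂ) * (zs - z))).re) (𝓝[<] (1 : ℝ))
        (𝓝 (h zs).re) := by
      rw [← hval1]
      exact hder.continuousAt.tendsto.mono_left nhdsWithin_le_nhds
    refine ge_of_tendsto h1 ?_
    filter_upwards [hev] with t ht
    exact (hball _ (hwt t ht.1 ht.2).1).le
  have hKz : ‖deriv h zs‖ ≤ K := by
    apply hg zs hzsR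
    rw [abs_le]
    constructor <;> linarith
  -- Harnack for `h - 1`
  have hd1 : DifferentiableOn ℂ (fun w => h w - 1) (ball z ρ) :=
    (hd.mono (ball_subset_ball (by linarith))).sub_const 1
  have hpos := hPOS (fun w => h w - 1) z ρ hρ0 hd1 (fun w hw => by
    have := hball w hw
    simp only [Complex.sub_re, Complex.one_re]
    linarith)
  simp only [Complex.sub_re, Complex.one_re] at hpos
  obtain ⟨hp1, hp2⟩ := hpos
  have hslope : (deriv h zs * (zs - z)).re ≤ -(((h z).re - 1) / 2) := by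
    have h1 := (hasDerivAt_iff_tendsto_slope.1 hder).mono_left
      (nhdsWithin_mono (1 : ℝ) (fun t (ht : t ∈ Iio (1 : ℝ)) => ne_of_lt ht))
    refine le_of_tendsto h1 ?_
    filter_upwards [hev] with t ht
    obtain ⟨hm, hn⟩ := hwt t ht.1 ht.2
    have h2 := (hp2 _ hm).1
    rw [hn] at h2
    have h3 : (1 - t) / 2 ≤ (ρ - t * ρ) / (ρ + t * ρ) := by
      have h4 : (ρ - t * ρ) / (ρ + t * ρ) = (1 - t) / (1 + t) := by
        have : ρ + t * ρ = ρ * (1 + t) := by ring
        rw [this, show ρ - t * ρ = ρ * (1 - t) by ring, mul_div_mul_left _ _ hρ0.ne']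
      rw [h4]
      apply div_le_div_of_nonneg_left (by linarith [ht.2]) (by linarith [ht.1]) (by linarith [ht.2])
    have h5 : ((h z).re - 1) * ((1 - t) / 2) ≤ (h (z + (t : ℂ) * (zs - z))).re - 1 :=
      (mul_le_mul_of_nonneg_left h3 (by linarith)).trans h2
    rw [slope_def_field, hval1]
    have h6 : t - 1 < 0 := by linarith [ht.2]
    rw [div_le_iff_of_neg h6]
    nlinarith
  have habs : |(deriv h zs * (zs - z)).re| ≤ K * ρ := by
    refine (Complex.abs_re_le_norm _).trans ?_
    rw [norm_mul]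
    exact mul_le_mul_of_nonneg_right hKz (norm_nonneg _)
  have hu : (h z).re - 1 ≤ 2 * (K * ρ) := by
    have := (abs_le.1 habs).1
    linarith
  have hd2 : deriv (fun w => h w - 1) z = deriv h z := by
    rw [deriv_sub_const]
  rw [hd2] at hp1
  have h7 : 2 * ((h z).re - 1) / ρ ≤ 4 * K := by
    rw [div_le_iff₀ hρ0]
    linarith
  have h8 : 0 ≤ 4 * (h z).re / R := by
    apply div_nonneg _ hR.le
    linarith
  linarith

end Pool.Agent.H792R2.SS.HHx

namespace Pool.Agent.H792R2.SS

theorem t_HH (hPOS : S_POS) : S_HH := by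
  intro h z R K hR hK hd hg
  rcases le_or_gt |(h z).re| 1 with h1 | h1
  · have h2 := hg z (mem_ball_self hR) h1
    have h3 : 0 ≤ 4 * |(h z).re| / R := by positivity
    linarith
  · rcases le_or_gt 0 (h z).re with h0 | h0
    · rw [abs_of_nonneg h0] at h1 ⊢
      exact HHx.main hPOS h z R K hR hK hd hg h1
    · rw [abs_of_neg h0] at h1 ⊢
      have h2 := HHx.main hPOS (fun w => -h w) z R K hR hK hd.neg
        (fun w hw hw1 => by
          rw [deriv.fun_neg, norm_neg]
          apply hg w hw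
          simpa using hw1) (by simpa using h1)
      rw [deriv.fun_neg, norm_neg] at h2
      simpa using h2

end Pool.Agent.H792R2.SS
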