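import Pool.Agent.H792R2.SS.Defs

set_option autoImplicit false
open Set Filter Topology Metric MeasureTheory

namespace Pool.Agent.H792R2.SS.I10x

theorem TT_eq (f : ℂ → ℂ) (r : ℝ) :
    TT f r = Real.circleAverage (fun z => max 0 (Real.log ‖f z‖)) 0 r := by
  simp [TT, Real.circleAverage]

theorem pos_part (x : ℝ) : |x| = 2 * max 0 x - x := by
  rcases le_total 0 x with h | h
  · rw [abs_of_nonneg h, max_eq_right h]; ring
  · rw [abs_of_nonpos h, max_eq_left h]; ring

theorem maxc {h : ℂ → ℝ} {S : Set ℂ} (hh : ContinuousOn h S) :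
    ContinuousOn (fun z => max 0 (h z)) S :=
  ContinuousOn.sup continuousOn_const hh

/-- mean of `|log ‖g‖|` -/
theorem avg_abs (g : ℂ → ℂ) (hg : DifferentiableOn ℂ g (ball 0 1)) (hne : ∀ w ∈ ball (0 : ℂ) 1, g w ≠ 0)
    {r : ℝ} (hr0 : 0 < r) (hr1 : r < 1) :
    ContinuousOn (fun z => Real.log ‖g z‖) (sphere 0 |r|) ∧
    Real.circleAverage (fun z => |Real.log ‖g z‖|) 0 r =
      2 * Real.circleAverage (fun z => max 0 (Real.log ‖g z‖)) 0 r - Real.log ‖g 0‖ := by
  have habs : |r| = r := abs_of_pos hr0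
  have hsub : closedBall (0 : ℂ) |r| ⊆ ball 0 1 := by
    rw [habs]; exact closedBall_subset_ball hr1
  have hsub' : sphere (0 : ℂ) |r| ⊆ ball 0 1 := sphere_subset_closedBall.trans hsub
  have hc : ContinuousOn (fun z => Real.log ‖g z‖) (sphere 0 |r|) := by
    refine ContinuousOn.log ((hg.continuousOn.mono hsub').norm) ?_
    intro z hz
    exact (norm_pos_iff.mpr (hne z (hsub' hz))).ne'
  refine ⟨hc, ?_⟩
  have han : AnalyticOnNhd ℂ g (closedBall 0 |r|) := fun z hz =>
    hg.analyticAt (isOpen_ball.mem_nhds (hsub hz))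
  have hav := han.circleAverage_log_norm_of_ne_zero (fun z hz => hne z (hsub hz))
  have h1 : (fun z => |Real.log ‖g z‖|) =
      fun z => (2 : ℝ) • max 0 (Real.log ‖g z‖) - Real.log ‖g z‖ := by
    funext z
    simp [pos_part]
  have hI1 : CircleIntegrable (fun z => max 0 (Real.log ‖g z‖)) 0 r :=
    (maxc hc).circleIntegrable'
  have hI2 : CircleIntegrable (fun z => Real.log ‖g z‖) 0 r := hc.circleIntegrable'
  have hI3 : CircleIntegrable (fun z => (2 : ℝ) • max 0 (Real.log ‖g z‖)) 0 r :=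
    ((maxc hc).const_smul (2 : ℝ)).circleIntegrable'
  rw [h1, Real.circleAverage_fun_sub hI3 hI2, Real.circleAverage_fun_smul, hav]
  simp

theorem est {C a u : ℝ} (hC : 1 ≤ C) (ha : a ≤ C * (1 + |u|) * Real.exp u) (x : ℝ)
    (hx : x ≤ a + 1) (hx0 : 0 < x) :
    max 0 (Real.log x) ≤ Real.log (2 * C) + 2 * |u| := by
  have h1 : 1 + |u| ≤ Real.exp |u| := by
    have := Real.add_one_le_exp |u|
    linarith
  have h2 : Real.exp u ≤ Real.exp |u| := Real.exp_le_exp.mpr (le_abs_self u)
  have hau : 0 ≤ |u| := abs_nonneg u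
  have h3 : C * (1 + |u|) * Real.exp u ≤ C * (Real.exp |u| * Real.exp |u|) := by
    rw [mul_assoc]
    apply mul_le_mul_of_nonneg_left _ (by linarith)
    exact mul_le_mul h1 h2 (Real.exp_pos _).le (Real.exp_pos _).le
  have h4 : 1 ≤ Real.exp |u| := Real.one_le_exp hau
  have h5 : 1 ≤ C * (Real.exp |u| * Real.exp |u|) := by nlinarith
  have h6 : x ≤ 2 * C * (Real.exp |u| * Real.exp |u|) := by linarith
  have h7 : Real.log x ≤ Real.log (2 * C) + 2 * |u| := by
    have h8 := Real.log_le_log hx0 h6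
    rw [Real.log_mul (x := 2 * C) (by positivity) (by positivity),
      Real.log_mul (x := Real.exp |u|) (by positivity) (by positivity),
      Real.log_exp] at h8
    linarith
  have h9 : 0 ≤ Real.log (2 * C) := Real.log_nonneg (by linarith)
  exact max_le (by positivity) h7

end Pool.Agent.H792R2.SS.I10x

namespace Pool.Agent.H792R2.SS

open I10x

theorem t_I10 (hGU : S_GU) : S_I10 := by
  obtain ⟨C, hC, hGU⟩ := hGU
  intro f hf
  obtain ⟨hfd, hfz, hf1⟩ := id hf
  have hd1 : DifferentiableOn ℂ (fun z => deriv f z - 1) (ball 0 1) :=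
    (hfd.deriv isOpen_ball).sub (differentiableOn_const 1)
  have hne1 : ∀ w ∈ ball (0 : ℂ) 1, deriv f w - 1 ≠ 0 := fun w hw => sub_ne_zero.mpr (hf1 w hw)
  refine ⟨10 + 5 * |Real.log ‖f 0‖| + 2 * Real.log (2 * C) + |Real.log ‖deriv f 0 - 1‖|, ?_⟩
  intro r hr0 hr1
  have habs : |r| = r := abs_of_pos hr0
  have hsub' : sphere (0 : ℂ) |r| ⊆ ball 0 1 := by
    rw [habs]; exact sphere_subset_closedBall.trans (closedBall_subset_ball hr1)
  obtain ⟨hc1, hav1⟩ := avg_abs f hfd hfz hr0 hr1
  obtain ⟨hc2, hav2⟩ := avg_abs (fun z => deriv f z - 1) hd1 hne1 hr0 hr1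
  have hs0 : 0 ≤ sr r := by
    unfold sr
    have : Real.log (1 - r ^ 2) ≤ 0 := Real.log_nonpos (by nlinarith) (by nlinarith)
    linarith
  have hT0 : 0 ≤ TT f r := by
    rw [TT_eq]
    exact Real.circleAverage_nonneg_of_nonneg (fun x _ => le_max_left _ _)
  have hUeq : ∀ z ∈ sphere (0 : ℂ) |r|, UU f z = Real.log ‖f z‖ + sr r := by
    intro z hz
    have : ‖z‖ = r := by rw [mem_sphere, dist_zero_right, habs] at hz; exact hz
    simp [UU, sr, this]
    ring
  have hUc : ContinuousOn (fun z => UU f z) (sphere 0 |r|) := by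
    refine ContinuousOn.congr (hc1.add continuousOn_const) hUeq
  -- first mean
  have hU : Real.circleAverage (fun z => |UU f z|) 0 r ≤
      2 * TT f r + |Real.log ‖f 0‖| + sr r := by
    have h1 : Real.circleAverage (fun z => |UU f z|) 0 r ≤
        Real.circleAverage (fun z => |Real.log ‖f z‖| + sr r) 0 r := by
      refine Real.circleAverage_mono (hUc.abs.circleIntegrable')
        ((hc1.abs.add continuousOn_const).circleIntegrable') ?_
      intro z hz
      rw [hUeq z hz]
      exact (abs_add_le _ _).trans (by rw [abs_of_nonneg hs0])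
    have h2 : Real.circleAverage (fun z => |Real.log ‖f z‖| + sr r) 0 r =
        Real.circleAverage (fun z => |Real.log ‖f z‖|) 0 r + sr r := by
      rw [Real.circleAverage_fun_add hc1.abs.circleIntegrable'
        (continuousOn_const.circleIntegrable'), Real.circleAverage_const]
    rw [h2, hav1, ← TT_eq] at h1
    have h3 := neg_abs_le (Real.log ‖f 0‖)
    linarith
  have hV : Real.circleAverage (fun z => max 0 (Real.log ‖deriv f z - 1‖)) 0 r ≤
      Real.log (2 * C) + 2 * Real.circleAverage (fun z => |UU f z|) 0 r := by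
    have h1 : Real.circleAverage (fun z => max 0 (Real.log ‖deriv f z - 1‖)) 0 r ≤
        Real.circleAverage (fun z => Real.log (2 * C) + (2 : ℝ) • |UU f z|) 0 r := by
      refine Real.circleAverage_mono (maxc hc2).circleIntegrable'
        ((continuousOn_const.add (hUc.abs.const_smul (2 : ℝ))).circleIntegrable') ?_
      intro z hz
      have hzb := hsub' hz
      refine est hC (hGU f z hf hzb).2 _ ?_ (norm_pos_iff.mpr (hne1 z hzb))
      exact (norm_sub_le _ _).trans (by simp)
    have hI4 : CircleIntegrable (fun z => (2 : ℝ) • |UU f z|) 0 r :=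
      (hUc.abs.const_smul (2 : ℝ)).circleIntegrable'
    have hI5 : CircleIntegrable (fun _ : ℂ => Real.log (2 * C)) 0 r :=
      continuousOn_const.circleIntegrable'
    rw [Real.circleAverage_fun_add hI5 hI4, Real.circleAverage_const,
      Real.circleAverage_fun_smul] at h1
    simpa using h1
  have hL0 : 0 ≤ Real.log (2 * C) := Real.log_nonneg (by linarith)
  have hp1 := neg_abs_le (Real.log ‖deriv f 0 - 1‖)
  have hkey : Real.circleAverage (fun z => |UU f z|) 0 r +
      Real.circleAverage (fun z => |Real.log ‖deriv f z - 1‖|) 0 r ≤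
      5 * (2 * TT f r + |Real.log ‖f 0‖| + sr r) + 2 * Real.log (2 * C) +
        |Real.log ‖deriv f 0 - 1‖| := by
    rw [hav2]
    linarith
  refine hkey.trans ?_
  have ha0 := abs_nonneg (Real.log ‖f 0‖)
  have hb0 := abs_nonneg (Real.log ‖deriv f 0 - 1‖)
  nlinarith [mul_nonneg ha0 hT0, mul_nonneg ha0 hs0, mul_nonneg hb0 hT0, mul_nonneg hb0 hs0,
    mul_nonneg hL0 hT0, mul_nonneg hL0 hs0]

end Pool.Agent.H792R2.SS
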