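import Pool.Agent.H792R2.SS.Defs

set_option autoImplicit false
open Set Filter Topology Metric MeasureTheory

namespace Pool.Agent.H792R2.SS.I5x

noncomputable def phi (x : ℝ) : ℝ := Real.log (1 + Real.exp (-x))

theorem phi_cd : ContDiff ℝ 2 phi := by
  unfold phi
  refine ContDiff.log ?_ (fun x => (by positivity : (0:ℝ) < 1 + Real.exp (-x)).ne')
  exact contDiff_const.add (Real.contDiff_exp.comp contDiff_neg)

theorem phi_d (x : ℝ) : HasDerivAt phi (-(Real.exp (-x)) / (1 + Real.exp (-x))) x := by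
  have h1 : HasDerivAt (fun x : ℝ => 1 + Real.exp (-x)) (-(Real.exp (-x))) x := by
    have := ((hasDerivAt_neg x).exp).const_add 1
    simpa using this
  exact h1.log (by positivity : (0:ℝ) < 1 + Real.exp (-x)).ne'

theorem phi_dd (x : ℝ) : HasDerivAt (deriv phi)
    (Real.exp (-x) / (1 + Real.exp (-x)) ^ 2) x := by
  have e : deriv phi = fun x => -(Real.exp (-x)) / (1 + Real.exp (-x)) := by
    funext y; exact (phi_d y).deriv
  rw [e]
  have h0 : HasDerivAt (fun x : ℝ => Real.exp (-x)) (-(Real.exp (-x))) x := by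
    have := ((hasDerivAt_neg x).exp)
    simpa using this
  have h1 : HasDerivAt (fun x : ℝ => 1 + Real.exp (-x)) (-(Real.exp (-x))) x := h0.const_add 1
  have h2 := h0.fun_neg.div h1 (by positivity : (0:ℝ) < 1 + Real.exp (-x)).ne'
  refine h2.congr_deriv ?_
  congr 1
  ring

theorem phi_ge (x : ℝ) : max 0 (-x) ≤ phi x := by
  unfold phi
  have h : 0 < Real.exp (-x) := Real.exp_pos _
  refine max_le (Real.log_nonneg (by linarith)) ?_
  rw [Real.le_log_iff_exp_le (by positivity)]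
  linarith

/-- the density -/
theorem dens (x g : ℝ) : deriv phi x + deriv (deriv phi) x * g ^ 2 ≤
    Real.exp (-x) / (1 + Real.exp (-x)) ^ 2 * (g ^ 2 - 1) := by
  rw [(phi_d x).deriv, (phi_dd x).deriv]
  have h : 0 < Real.exp (-x) := Real.exp_pos _
  set E := Real.exp (-x) with hE
  have h1 : 0 < 1 + E := by linarith
  have : -E / (1 + E) + E / (1 + E) ^ 2 * g ^ 2 = E / (1 + E) ^ 2 * (g ^ 2 - 1) - E ^ 2 / (1 + E) ^ 2 := by
    field_simp
    ring
  rw [this]
  have : 0 ≤ E ^ 2 / (1 + E) ^ 2 := by positivity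
  linarith

theorem q_le (x : ℝ) : Real.exp (-x) / (1 + Real.exp (-x)) ^ 2 ≤ 1 / 4 := by
  have h : 0 < Real.exp (-x) := Real.exp_pos _
  rw [div_le_div_iff₀ (by positivity) (by norm_num)]
  nlinarith [sq_nonneg (1 - Real.exp (-x))]

theorem q_le' (x : ℝ) : Real.exp (-x) / (1 + Real.exp (-x)) ^ 2 ≤ Real.exp (-|x|) := by
  have h : 0 < Real.exp (-x) := Real.exp_pos _
  rw [div_le_iff₀ (by positivity)]
  rcases le_total 0 x with hx | hx
  · rw [abs_of_nonneg hx]
    nlinarith [mul_pos h h, mul_pos (mul_pos h h) h]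
  · rw [abs_of_nonpos hx, neg_neg]
    have h2 : Real.exp x * Real.exp (-x) = 1 := by rw [← Real.exp_add]; simp
    have h3 : 0 < Real.exp x := Real.exp_pos _
    nlinarith [mul_pos h h, mul_pos h3 h]

theorem sq_le_exp (x : ℝ) (hx : 0 ≤ x) : (1 + x) ^ 2 ≤ 4 * Real.exp x := by
  have h1 : 1 + x / 2 ≤ Real.exp (x / 2) := by linarith [Real.add_one_le_exp (x / 2)]
  have h2 : Real.exp x = Real.exp (x / 2) ^ 2 := by
    rw [← Real.exp_nat_mul]; congr 1; push_cast; ring
  rw [h2]
  nlinarith [Real.exp_pos (x / 2)]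

theorem expK (C : ℝ) (hC : 1 ≤ C) : ∃ K : ℝ, 0 < K ∧ ∀ x : ℝ, K ≤ x →
    Real.exp (-x) * (C * (1 + x)) ^ 2 ≤ 1 / 8 := by
  refine ⟨1024 * C ^ 2 + 1, by positivity, ?_⟩
  intro x hx
  have hx0 : 0 < x := lt_of_lt_of_le (by positivity) hx
  -- (1+x)^3 ≤ 27 * exp x
  have h1 : 1 + x / 4 ≤ Real.exp (x / 4) := by linarith [Real.add_one_le_exp (x / 4)]
  have h2 : Real.exp x = Real.exp (x / 4) ^ 4 := by
    rw [← Real.exp_nat_mul]; congr 1; push_cast; ring
  have h3 : (1 + x / 4) ^ 4 ≤ Real.exp x := by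
    rw [h2]; exact pow_le_pow_left₀ (by positivity) h1 4
  have h4 : (1 + x) ≤ 4 * (1 + x / 4) := by linarith
  have h5 : (1 + x) ^ 3 ≤ 64 * (1 + x / 4) ^ 3 := by
    calc (1 + x) ^ 3 ≤ (4 * (1 + x / 4)) ^ 3 := pow_le_pow_left₀ (by positivity) h4 3
      _ = 64 * (1 + x / 4) ^ 3 := by ring
  have h6 : (1 + x) ^ 3 ≤ 64 * Real.exp x := by
    refine h5.trans ?_
    have : (1 + x / 4) ^ 3 ≤ (1 + x / 4) ^ 4 := pow_le_pow_right₀ (by linarith) (by norm_num)
    linarith
  rw [Real.exp_neg, inv_mul_le_iff₀ (Real.exp_pos x)]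
  have h7 : (1024 * C ^ 2) * (1 + x) ^ 2 ≤ (1 + x) ^ 3 := by
    have : (1 + x) ^ 3 = (1 + x) * (1 + x) ^ 2 := by ring
    rw [this]
    apply mul_le_mul_of_nonneg_right _ (by positivity)
    linarith
  nlinarith [sq_nonneg (1 + x)]

end Pool.Agent.H792R2.SS.I5x

namespace Pool.Agent.H792R2.SS

theorem t_I5 (hMEAN : S_MEAN) (hLU : S_LU) (hNU : S_NU) (hGU : S_GU) (hMEAS : S_MEAS) : S_I5 := by
  obtain ⟨C, hC1, hC⟩ := hGU
  obtain ⟨K, hK0, hK⟩ := I5x.expK C hC1
  refine ⟨K, 4 * C ^ 2, by positivity, ?_⟩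
  intro f hf r hr hr1
  have habs : |r| = r := abs_of_pos hr
  obtain ⟨hcd, hlap⟩ := hLU f I5x.phi hf.1 hf.2.1 I5x.phi_cd
  -- pointwise bound
  have hpt : ∀ z ∈ ball (0 : ℂ) 1,
      deriv I5x.phi (UU f z) + deriv (deriv I5x.phi) (UU f z) * gU f z ^ 2 ≤
        1 / 8 + ({z | bad f K z} : Set ℂ).indicator (fun _ => 4 * C ^ 2) z := by
    intro z hz
    have hg0 : 0 ≤ gU f z := norm_nonneg _
    have hg := (hC f z hf hz).1
    have hgs : gU f z ^ 2 ≤ (C * (1 + |UU f z|)) ^ 2 := pow_le_pow_left₀ hg0 hg 2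
    have hd := I5x.dens (UU f z) (gU f z)
    have hq0 : 0 ≤ Real.exp (-(UU f z)) / (1 + Real.exp (-(UU f z))) ^ 2 := by positivity
    have hbig : Real.exp (-(UU f z)) / (1 + Real.exp (-(UU f z))) ^ 2 * (gU f z ^ 2 - 1) ≤
        Real.exp (-|UU f z|) * (C * (1 + |UU f z|)) ^ 2 := by
      calc Real.exp (-(UU f z)) / (1 + Real.exp (-(UU f z))) ^ 2 * (gU f z ^ 2 - 1) ≤
          Real.exp (-(UU f z)) / (1 + Real.exp (-(UU f z))) ^ 2 * (C * (1 + |UU f z|)) ^ 2 :=
            mul_le_mul_of_nonneg_left (by linarith) hq0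
        _ ≤ _ := mul_le_mul_of_nonneg_right (I5x.q_le' _) (by positivity)
    by_cases hb : bad f K z
    · rw [indicator_of_mem (show z ∈ ({z | bad f K z} : Set ℂ) from hb)]
      have h1 : Real.exp (-|UU f z|) * (C * (1 + |UU f z|)) ^ 2 ≤ 4 * C ^ 2 := by
        have h2 := I5x.sq_le_exp |UU f z| (abs_nonneg _)
        rw [Real.exp_neg, inv_mul_le_iff₀ (Real.exp_pos _)]
        have : (C * (1 + |UU f z|)) ^ 2 = C ^ 2 * (1 + |UU f z|) ^ 2 := by ring
        rw [this]
        nlinarith [sq_nonneg C]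
      linarith
    · rw [indicator_of_notMem (show z ∉ ({z | bad f K z} : Set ℂ) from hb)]
      unfold bad at hb
      by_cases hU : |UU f z| ≤ K
      · have hg9 : gU f z ^ 2 < 9 / 8 := by
          by_contra hcon
          exact hb ⟨hU, not_lt.1 hcon⟩
        have h1 := I5x.q_le (UU f z)
        have h2 : Real.exp (-(UU f z)) / (1 + Real.exp (-(UU f z))) ^ 2 * (gU f z ^ 2 - 1) ≤
            1 / 8 := by
          rcases le_total (gU f z ^ 2) 1 with h | h
          · have : Real.exp (-(UU f z)) / (1 + Real.exp (-(UU f z))) ^ 2 * (gU f z ^ 2 - 1) ≤ 0 :=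
              mul_nonpos_of_nonneg_of_nonpos hq0 (by linarith)
            linarith
          · nlinarith
        linarith
      · have := hK |UU f z| (not_le.1 hU).le
        linarith
  -- measurable sets and integrability
  have hsub : ball (0 : ℂ) r ⊆ ball 0 1 := ball_subset_ball hr1.le
  have hker := hNU.1 r hr hr1
  have hker0 : ∀ z ∈ ball (0 : ℂ) r, 0 ≤ ker r z := fun z hz =>
    (hNU.2.2 r r hr le_rfl hr1 z hz).1
  have hBm : MeasurableSet (ball (0 : ℂ) r ∩ {z | bad f K z}) := by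
    have h1 := (hMEAS f hf).1 K
    have h2 : ball (0 : ℂ) r ∩ {z | bad f K z} = ball 0 r ∩ (ball 0 1 ∩ {z | bad f K z}) := by
      ext z
      constructor
      · rintro ⟨h3, h4⟩; exact ⟨h3, hsub h3, h4⟩
      · rintro ⟨h3, _, h4⟩; exact ⟨h3, h4⟩
    rw [h2]
    exact measurableSet_ball.inter h1
  -- the right hand side function
  set B : Set ℂ := ball (0 : ℂ) r ∩ {z | bad f K z} with hB
  have hkB : IntegrableOn (ker r) B := hker.mono_set inter_subset_left
  have hkBi : IntegrableOn (B.indicator (ker r)) (ball 0 r) := by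
    exact hker.indicator hBm
  have hrhs : IntegrableOn (fun z => (1 / 2) * ker r z + (16 * C ^ 2) * B.indicator (ker r) z)
      (ball 0 r) := (hker.const_mul _).add (hkBi.const_mul _)
  have hle : ∀ z ∈ ball (0 : ℂ) r, Real.log (r / ‖z‖) * Lap (fun z => I5x.phi (UU f z)) z ≤
      (1 / 2) * ker r z + (16 * C ^ 2) * B.indicator (ker r) z := by
    intro z hz
    have hz1 := hsub hz
    have h1 := hlap z hz1
    have hzn : ‖z‖ < 1 := mem_ball_zero_iff.1 hz1
    have hδ : 0 < 1 - ‖z‖ ^ 2 := by nlinarith [norm_nonneg z]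
    have h2 : Lap (fun z => I5x.phi (UU f z)) z = 4 / (1 - ‖z‖ ^ 2) ^ 2 *
        (deriv I5x.phi (UU f z) + deriv (deriv I5x.phi) (UU f z) * gU f z ^ 2) := by
      rw [← h1]
      field_simp
    have h3 : Real.log (r / ‖z‖) * Lap (fun z => I5x.phi (UU f z)) z = 4 * ker r z *
        (deriv I5x.phi (UU f z) + deriv (deriv I5x.phi) (UU f z) * gU f z ^ 2) := by
      rw [h2]; unfold ker; ring
    rw [h3]
    have h4 := mul_le_mul_of_nonneg_left (hpt z hz1) (mul_nonneg (by norm_num : (0:ℝ) ≤ 4) (hker0 z hz))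
    refine h4.trans (le_of_eq ?_)
    by_cases hb : bad f K z
    · rw [indicator_of_mem (show z ∈ ({z | bad f K z} : Set ℂ) from hb),
        indicator_of_mem (show z ∈ B from ⟨hz, hb⟩)]
      ring
    · rw [indicator_of_notMem (show z ∉ ({z | bad f K z} : Set ℂ) from hb),
        indicator_of_notMem (show z ∉ B from fun h => hb h.2)]
      ring
  have hrhs0 : 0 ≤ ∫ z in ball (0 : ℂ) r, ((1 / 2) * ker r z +
      (16 * C ^ 2) * B.indicator (ker r) z) := by
    refine setIntegral_nonneg measurableSet_ball (fun z hz => ?_)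
    have h1 := hker0 z hz
    have h2 : 0 ≤ B.indicator (ker r) z := indicator_nonneg (fun w hw => hker0 w hw.1) z
    positivity
  have hint : ∫ z in ball (0 : ℂ) r, Real.log (r / ‖z‖) * Lap (fun z => I5x.phi (UU f z)) z ≤
      ∫ z in ball (0 : ℂ) r, ((1 / 2) * ker r z + (16 * C ^ 2) * B.indicator (ker r) z) := by
    by_cases hi : IntegrableOn (fun z => Real.log (r / ‖z‖) *
        Lap (fun z => I5x.phi (UU f z)) z) (ball 0 r)
    · exact setIntegral_mono_on hi hrhs measurableSet_ball hle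
    · rw [integral_undef hi]; exact hrhs0
  have hval : ∫ z in ball (0 : ℂ) r, ((1 / 2) * ker r z + (16 * C ^ 2) * B.indicator (ker r) z) =
      (1 / 2) * (∫ z in ball (0 : ℂ) r, ker r z) + (16 * C ^ 2) * ∫ z in B, ker r z := by
    rw [integral_add (hker.const_mul _) (hkBi.const_mul _), integral_const_mul, integral_const_mul]
    congr 2
    rw [setIntegral_indicator hBm]
    congr 2
    rw [hB, ← inter_assoc, inter_self]
  have hmean := hMEAN (fun z => I5x.phi (UU f z)) r hcd hr hr1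
  have hnu1 := hNU.2.1 r hr hr1
  unfold nu at hnu1
  rw [inter_univ] at hnu1
  -- circle averages
  have hsph : sphere (0 : ℂ) |r| ⊆ ball 0 1 := by
    rw [habs]; exact sphere_subset_ball hr1
  have hUc : ContinuousOn (UU f) (ball 0 1) := by
    unfold UU
    refine ContinuousOn.sub ?_ ?_
    · exact (hf.1.continuousOn.norm).log (fun z hz => norm_ne_zero_iff.2 (hf.2.1 z hz))
    · refine ContinuousOn.log (by fun_prop) (fun z hz => ?_)
      have : ‖z‖ < 1 := mem_ball_zero_iff.1 hz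
      have : 0 < 1 - ‖z‖ ^ 2 := by nlinarith [norm_nonneg z]
      exact this.ne'
  have hca : Real.circleAverage (fun z => max 0 (-UU f z)) 0 r ≤
      Real.circleAverage (fun z => I5x.phi (UU f z)) 0 r := by
    refine Real.circleAverage_mono ?_ ?_ (fun z _ => I5x.phi_ge _)
    · exact ContinuousOn.circleIntegrable' (continuousOn_const.sup (hUc.mono hsph).neg)
    · exact ContinuousOn.circleIntegrable' (hcd.continuousOn.mono hsph)
  have hpi := Real.pi_pos
  refine hca.trans ?_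
  rw [hmean]
  have hphi0 : I5x.phi (UU f 0) = Real.log (1 + Real.exp (-UU f 0)) := rfl
  rw [hphi0]
  have hfin : (2 * Real.pi)⁻¹ * ∫ z in ball (0 : ℂ) r, Real.log (r / ‖z‖) *
      Lap (fun z => I5x.phi (UU f z)) z ≤ sr r / 8 + 4 * C ^ 2 * nu r {z | bad f K z} := by
    have h1 := mul_le_mul_of_nonneg_left (hint.trans hval.le)
      (show (0:ℝ) ≤ (2 * Real.pi)⁻¹ by positivity)
    refine h1.trans (le_of_eq ?_)
    rw [← hnu1]
    unfold nu
    rw [← hB]
    field_simp
    ring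
  linarith

end Pool.Agent.H792R2.SS
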