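import Pool.Agent.H792R2.SS.Defs

set_option autoImplicit false
open Set Filter Topology Metric MeasureTheory

namespace Pool.Agent.H792R2.SS

namespace I9x

theorem lapCont {H : ℂ → ℝ} (hH : ContDiffOn ℝ 2 H (ball 0 1)) :
    ContinuousOn (Lap H) (ball 0 1) := by
  have h1 : ContinuousOn (iteratedFDeriv ℝ 2 H) (ball 0 1) := by
    have h2 := hH.continuousOn_iteratedFDerivWithin (m := 2) le_rfl
      (isOpen_ball : IsOpen (ball (0 : ℂ) 1)).uniqueDiffOn
    exact h2.congr (fun z hz => ((iteratedFDerivWithin_of_isOpen 2 isOpen_ball) hz).symm)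
  have h2 : ∀ v : Fin 2 → ℂ, ContinuousOn (fun z => iteratedFDeriv ℝ 2 H z v) (ball 0 1) := by
    intro v
    exact (ContinuousMultilinearMap.apply ℝ (fun _ : Fin 2 => ℂ) ℝ v).continuous.comp_continuousOn h1
  have h3 : Lap H = fun z => iteratedFDeriv ℝ 2 H z ![1, 1] +
      iteratedFDeriv ℝ 2 H z ![Complex.I, Complex.I] := by
    funext z
    show Laplacian.laplacian H z = _
    rw [InnerProductSpace.laplacian_eq_iteratedFDeriv_complexPlane]
  rw [h3]
  exact (h2 _).add (h2 _)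

/-- hyperbolic Laplacian -/
noncomputable def LH (H : ℂ → ℝ) (z : ℂ) : ℝ := (1 - ‖z‖ ^ 2) ^ 2 / 4 * Lap H z

theorem lhCont {H : ℂ → ℝ} (hH : ContDiffOn ℝ 2 H (ball 0 1)) :
    ContinuousOn (LH H) (ball 0 1) := by
  apply ContinuousOn.mul _ (lapCont hH)
  fun_prop

theorem mean' (hMEAN : S_MEAN) {H : ℂ → ℝ} (hH : ContDiffOn ℝ 2 H (ball 0 1)) {r : ℝ}
    (hr : 0 < r) (hr1 : r < 1) :
    Real.circleAverage H 0 r = H 0 + 2 / Real.pi * ∫ z in ball (0 : ℂ) r, ker r z * LH H z := by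
  rw [hMEAN H r hH hr hr1]
  have h1 : ∫ z in ball (0 : ℂ) r, Real.log (r / ‖z‖) * Lap H z =
      ∫ z in ball (0 : ℂ) r, 4 * (ker r z * LH H z) := by
    apply setIntegral_congr_fun measurableSet_ball
    intro z hz
    have hz1 : ‖z‖ < r := by simpa using hz
    have hz2 : 0 < 1 - ‖z‖ ^ 2 := by nlinarith [norm_nonneg z]
    show Real.log (r / ‖z‖) * Lap H z =
      4 * (Real.log (r / ‖z‖) / (1 - ‖z‖ ^ 2) ^ 2 * ((1 - ‖z‖ ^ 2) ^ 2 / 4 * Lap H z))
    field_simp
  rw [h1, integral_const_mul]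
  have := Real.pi_pos
  field_simp
  ring

theorem intLH (hNU : S_NU) {H : ℂ → ℝ} (hH : ContDiffOn ℝ 2 H (ball 0 1)) {r : ℝ}
    (hr : 0 < r) (hr1 : r < 1) :
    IntegrableOn (fun z => ker r z * LH H z) (ball 0 r) := by
  have hc : ContinuousOn (LH H) (closedBall 0 r) :=
    (lhCont hH).mono (closedBall_subset_ball hr1)
  obtain ⟨M, hM⟩ := (isCompact_closedBall (0 : ℂ) r).exists_bound_of_continuousOn hc
  refine Integrable.mul_bdd (c := M) (hNU.1 r hr hr1) ?_ ?_
  · exact (hc.mono ball_subset_closedBall).aestronglyMeasurable measurableSet_ball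
  · exact ae_restrict_of_forall_mem measurableSet_ball (fun z hz => hM z (ball_subset_closedBall hz))

/-- indicator of the set in the disc -/
noncomputable def ind (E : Set ℂ) : ℂ → ℝ := (ball 0 1 ∩ E).indicator (fun _ => (1 : ℝ))

theorem intInd (hNU : S_NU) {E : Set ℂ} (hE : MeasurableSet (ball 0 1 ∩ E)) {r : ℝ}
    (hr : 0 < r) (hr1 : r < 1) :
    IntegrableOn (fun z => ker r z * ind E z) (ball 0 r) := by
  refine Integrable.mul_bdd (c := 1) (hNU.1 r hr hr1) ?_ ?_
  · exact (measurable_const.indicator hE).aestronglyMeasurable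
  · refine Eventually.of_forall (fun z => ?_)
    unfold ind
    by_cases hz : z ∈ ball 0 1 ∩ E
    · rw [indicator_of_mem hz]; simp
    · rw [indicator_of_notMem hz]; simp

theorem nuInd {E : Set ℂ} (hE : MeasurableSet (ball 0 1 ∩ E)) {r : ℝ} (hr1 : r < 1) :
    nu r E = 2 / Real.pi * ∫ z in ball (0 : ℂ) r, ker r z * ind E z := by
  have h1 : (fun z => ker r z * ind E z) = (ball 0 1 ∩ E).indicator (ker r) := by
    funext z
    unfold ind
    by_cases hz : z ∈ ball 0 1 ∩ E
    · rw [indicator_of_mem hz, indicator_of_mem hz, mul_one]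
    · rw [indicator_of_notMem hz, indicator_of_notMem hz, mul_zero]
  rw [h1, setIntegral_indicator hE]
  have h2 : ball (0 : ℂ) r ∩ (ball 0 1 ∩ E) = ball 0 r ∩ E := by
    ext z
    constructor
    · rintro ⟨h, h', h''⟩
      exact ⟨h, h''⟩
    · rintro ⟨h, h''⟩
      exact ⟨h, ball_subset_ball hr1.le h, h''⟩
  rw [h2]
  rfl

/-- the formula for the integral -/
theorem fml (hMEAN : S_MEAN) (hNU : S_NU) {H : ℂ → ℝ} (hH : ContDiffOn ℝ 2 H (ball 0 1))
    {E : Set ℂ} (hE : MeasurableSet (ball 0 1 ∩ E)) {r : ℝ} (hr : 0 < r) (hr1 : r < 1) :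
    2 / Real.pi * ∫ z in ball (0 : ℂ) r, ker r z * (LH H z + 1 - ind E z / 2) =
      Real.circleAverage H 0 r - H 0 + sr r - nu r E / 2 := by
  have h1 : (fun z => ker r z * (LH H z + 1 - ind E z / 2)) =
      fun z => (ker r z * LH H z + ker r z) - (1 / 2) * (ker r z * ind E z) := by
    funext z
    ring
  have i1 := intLH hNU hH hr hr1
  have i2 := hNU.1 r hr hr1
  have i3 := intInd hNU hE hr hr1
  have e1 : ∫ z in ball (0 : ℂ) r, (ker r z * LH H z + ker r z) - (1 / 2) * (ker r z * ind E z) =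
      (∫ z in ball (0 : ℂ) r, ker r z * LH H z) + (∫ z in ball (0 : ℂ) r, ker r z) -
        (1 / 2) * ∫ z in ball (0 : ℂ) r, ker r z * ind E z := by
    have e2 := integral_sub (i1.add i2) (i3.const_mul (1 / 2))
    have e3 := integral_add i1 i2
    have e4 : ∫ z in ball (0 : ℂ) r, (1 / 2) * (ker r z * ind E z) =
      (1 / 2) * ∫ z in ball (0 : ℂ) r, ker r z * ind E z := integral_const_mul _ _
    rw [← e4, ← e3]
    exact e2
  rw [h1, e1, mean' hMEAN hH hr hr1, nuInd hE hr1, ← hNU.2.1 r hr hr1]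
  unfold nu
  rw [inter_univ]
  ring

theorem intG (hNU : S_NU) {H : ℂ → ℝ} (hH : ContDiffOn ℝ 2 H (ball 0 1))
    {E : Set ℂ} (hE : MeasurableSet (ball 0 1 ∩ E)) {r : ℝ} (hr : 0 < r) (hr1 : r < 1) :
    IntegrableOn (fun z => ker r z * (LH H z + 1 - ind E z / 2)) (ball 0 r) := by
  have h1 : (fun z => ker r z * (LH H z + 1 - ind E z / 2)) =
      fun z => (ker r z * LH H z + ker r z) - (1 / 2) * (ker r z * ind E z) := by
    funext z
    ring
  have i1 := intLH hNU hH hr hr1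
  have i2 := hNU.1 r hr hr1
  have i3 := intInd hNU hE hr hr1
  rw [h1]
  exact (i1.add i2).sub (i3.const_mul _)

theorem mono' (hMEAN : S_MEAN) (hNU : S_NU) {H : ℂ → ℝ} (hH : ContDiffOn ℝ 2 H (ball 0 1))
    {E : Set ℂ} (hE : MeasurableSet (ball 0 1 ∩ E))
    (hg : ∀ z ∈ ball (0 : ℂ) 1, 0 ≤ LH H z + 1 - ind E z / 2) {r₁ r : ℝ} (h0 : 0 < r₁)
    (h01 : r₁ ≤ r) (hr1 : r < 1) :
    Real.circleAverage H 0 r₁ + sr r₁ - nu r₁ E / 2 ≤
      Real.circleAverage H 0 r + sr r - nu r E / 2 := by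
  have hr : 0 < r := by linarith
  have e1 := fml hMEAN hNU hH hE h0 (by linarith)
  have e2 := fml hMEAN hNU hH hE hr hr1
  have hsub : ball (0 : ℂ) r₁ ⊆ ball 0 r := ball_subset_ball h01
  have i2 := intG hNU hH hE hr hr1
  have i1 := intG hNU hH hE h0 (by linarith)
  have hk : ∀ z ∈ ball (0 : ℂ) r, 0 ≤ ker r z := fun z hz => (hNU.2.2 r r hr le_rfl hr1 z hz).1
  have h1 : ∫ z in ball (0 : ℂ) r₁, ker r₁ z * (LH H z + 1 - ind E z / 2) ≤
      ∫ z in ball (0 : ℂ) r₁, ker r z * (LH H z + 1 - ind E z / 2) := by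
    apply setIntegral_mono_on i1 (i2.mono_set hsub) measurableSet_ball
    intro z hz
    apply mul_le_mul_of_nonneg_right _ (hg z (ball_subset_ball (by linarith) hz))
    exact (hNU.2.2 r₁ r h0 h01 hr1 z hz).2
  have h2 : ∫ z in ball (0 : ℂ) r₁, ker r z * (LH H z + 1 - ind E z / 2) ≤
      ∫ z in ball (0 : ℂ) r, ker r z * (LH H z + 1 - ind E z / 2) := by
    apply setIntegral_mono_set i2
    · apply ae_restrict_of_forall_mem measurableSet_ball
      intro z hz
      exact mul_nonneg (hk z hz) (hg z (ball_subset_ball hr1.le hz))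
    · exact (hsub.eventuallyLE)
  have h3 : 0 ≤ 2 / Real.pi := by positivity
  have h4 := mul_le_mul_of_nonneg_left (h1.trans h2) h3
  linarith

theorem UUcont {f : ℂ → ℂ} (hf : NN f 0 1) : ContinuousOn (UU f) (ball 0 1) := by
  unfold UU
  apply ContinuousOn.sub
  · apply ContinuousOn.log hf.1.continuousOn.norm
    intro z hz
    exact norm_ne_zero_iff.2 (hf.2.1 z hz)
  · apply ContinuousOn.log (by fun_prop)
    intro z hz
    have hz1 : ‖z‖ < 1 := by simpa using hz
    nlinarith [norm_nonneg z]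

theorem Pcont {f : ℂ → ℂ} (hf : NN f 0 1) : ContinuousOn (deriv f) (ball 0 1) :=
  (hf.1.deriv isOpen_ball).continuousOn

theorem vcont {f : ℂ → ℂ} (hf : NN f 0 1) :
    ContinuousOn (fun z => Real.log ‖deriv f z - 1‖) (ball 0 1) := by
  apply ContinuousOn.log ((Pcont hf).sub continuousOn_const).norm
  intro z hz
  exact norm_ne_zero_iff.2 (sub_ne_zero.2 (hf.2.2 z hz))

theorem exR {f : ℂ → ℂ} (hf : NN f 0 1) (hne : ∃ z ∈ ball (0 : ℂ) 1, deriv f z ≠ 0) :
    ∃ r₁ : ℝ, 0 < r₁ ∧ r₁ < 1 / 2 ∧ ∀ z ∈ sphere (0 : ℂ) r₁, deriv f z ≠ 0 := by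
  have han : AnalyticOnNhd ℂ (deriv f) (ball 0 1) :=
    (hf.1.deriv isOpen_ball).analyticOnNhd isOpen_ball
  have h0 : (0 : ℂ) ∈ ball (0 : ℂ) 1 := mem_ball_self one_pos
  rcases (han 0 h0).eventually_eq_zero_or_eventually_ne_zero with h | h
  · exfalso
    obtain ⟨z, hz, hz2⟩ := hne
    apply hz2
    have := han.eqOn_zero_of_preconnected_of_eventuallyEq_zero
      (convex_ball (0 : ℂ) 1).isPreconnected h0 h
    exact this hz
  · rw [eventually_nhdsWithin_iff, Metric.eventually_nhds_iff] at h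
    obtain ⟨ε, hε, h⟩ := h
    refine ⟨min ε (1 / 2) / 2, by positivity, ?_, ?_⟩
    · have := min_le_right ε (1 / 2)
      linarith
    · intro z hz
      have hz1 : ‖z‖ = min ε (1 / 2) / 2 := by simpa using hz
      have hpos : 0 < min ε (1 / 2) := by positivity
      apply h
      · rw [dist_zero_right, hz1]
        have := min_le_left ε (1 / 2)
        linarith
      · intro h0
        have h0' : z = 0 := h0
        rw [h0', norm_zero] at hz1
        linarith

end I9x

open I9x in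
theorem t_I9 (hY : S_Y) (hMEAN : S_MEAN) (hNU : S_NU) (hMEAS : S_MEAS) (hI9a : S_I9a) : S_I9 := by
  obtain ⟨C, hC, hI⟩ := hI9a
  intro f hf hne
  obtain ⟨r₁, hr0, hr12, hr1⟩ := exR hf hne
  have hE : MeasurableSet (ball 0 1 ∩ {z | unh f z}) := (hMEAS f hf).2
  have hsub1 : sphere (0 : ℂ) r₁ ⊆ ball 0 1 := fun z hz => by
    have hz1 : ‖z‖ = r₁ := by simpa using hz
    rw [mem_ball_zero_iff, hz1]; linarith
  have hcb : ContinuousOn (fun z => 1 / 8 * ‖deriv f z‖ / Real.sqrt (1 + ‖deriv f z‖ ^ 2))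
      (sphere (0 : ℂ) r₁) := by
    have h1 := ((Pcont hf).mono hsub1).norm
    apply ContinuousOn.div (continuousOn_const.mul h1)
      ((continuousOn_const.add (h1.pow 2)).sqrt)
    intro z _
    have : 0 < Real.sqrt (1 + ‖deriv f z‖ ^ 2) := Real.sqrt_pos.2 (by positivity)
    exact this.ne'
  obtain ⟨z₁, hz₁, hmin⟩ := (isCompact_sphere (0 : ℂ) r₁).exists_isMinOn
    (NormedSpace.sphere_nonempty.2 hr0.le) hcb
  set b : ℝ := 1 / 8 * ‖deriv f z₁‖ / Real.sqrt (1 + ‖deriv f z₁‖ ^ 2) with hb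
  have hbpos : 0 < b := by
    have := norm_pos_iff.2 (hr1 z₁ hz₁)
    positivity
  refine ⟨Real.log C - Real.log b - sr r₁ + nu r₁ {z | unh f z} / 2, ?_⟩
  intro r hr hr1'
  have hrpos : 0 < r := by linarith
  have hsub : sphere (0 : ℂ) r ⊆ ball 0 1 := fun z hz => by
    have hz1 : ‖z‖ = r := by simpa using hz
    rw [mem_ball_zero_iff, hz1]; exact hr1'
  -- choose tau
  have hUc := (UUcont hf).mono hsub
  obtain ⟨z₂, hz₂, hmin2⟩ := (isCompact_sphere (0 : ℂ) r).exists_isMinOn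
    (NormedSpace.sphere_nonempty.2 hrpos.le) hUc
  set τ : ℝ := min 1 (Real.exp (UU f z₂)) with hτ
  have hτ0 : 0 < τ := lt_min one_pos (Real.exp_pos _)
  have hτ1 : τ ≤ 1 := min_le_left _ _
  have hτU : ∀ z ∈ sphere (0 : ℂ) r, τ ≤ Real.exp (UU f z) := by
    intro z hz
    exact (min_le_right _ _).trans (Real.exp_le_exp.2 (hmin2 hz))
  obtain ⟨H, hH, hHp⟩ := hY f τ hf hτ0 hτ1
  have hg : ∀ z ∈ ball (0 : ℂ) 1, 0 ≤ LH H z + 1 - ind {z | unh f z} z / 2 := by
    intro z hz
    obtain ⟨h1, h2, -, -⟩ := hHp z hz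
    have h1' : -1 ≤ LH H z := h1
    have h2' : unh f z → -1 / 2 ≤ LH H z := h2
    unfold ind
    by_cases hzE : z ∈ ball (0 : ℂ) 1 ∩ {z | unh f z}
    · rw [indicator_of_mem hzE]
      have := h2' hzE.2
      linarith
    · rw [indicator_of_notMem hzE]
      linarith
  have hm := mono' hMEAN hNU hH hE hg hr0 (show r₁ ≤ r by linarith) hr1'
  have hHc := hH.continuousOn
  have hlow : Real.log b ≤ Real.circleAverage H 0 r₁ := by
    have hci : CircleIntegrable H 0 r₁ :=
      ContinuousOn.circleIntegrable hr0.le (hHc.mono hsub1)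
    have h1 := Real.circleAverage_mono (circleIntegrable_const (Real.log b) 0 r₁) hci (by
      intro z hz
      rw [abs_of_pos hr0] at hz
      obtain ⟨-, -, -, h4⟩ := hHp z (hsub1 hz)
      have h5 : b ≤ 1 / 8 * ‖deriv f z‖ / Real.sqrt (1 + ‖deriv f z‖ ^ 2) := hmin hz
      have h6 : ‖deriv f z‖ ≤ Real.sqrt (‖deriv f z‖ ^ 2 + τ ^ 2) := by
        apply Real.le_sqrt_of_sq_le
        nlinarith [sq_nonneg τ]
      have h7 : 1 / 8 * ‖deriv f z‖ / Real.sqrt (1 + ‖deriv f z‖ ^ 2) ≤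
          1 / 8 * Real.sqrt (‖deriv f z‖ ^ 2 + τ ^ 2) / Real.sqrt (1 + ‖deriv f z‖ ^ 2) := by
        gcongr
      rw [Real.log_le_iff_le_exp hbpos]
      linarith)
    rwa [Real.circleAverage_const] at h1
  -- the upper bound
  set Um : ℂ → ℝ := fun z => max 0 (-UU f z) with hUm
  set Gf : ℂ → ℝ := fun z => 2 * Real.log (1 + |UU f z|) +
    Real.log (1 + |Real.log ‖deriv f z - 1‖|) with hGf
  have hUmc : ContinuousOn Um (sphere (0 : ℂ) r) := continuousOn_const.sup hUc.neg
  have hvc := (vcont hf).mono hsub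
  have hGfc : ContinuousOn Gf (sphere (0 : ℂ) r) := by
    apply ContinuousOn.add
    · apply continuousOn_const.mul
      apply ContinuousOn.log (continuousOn_const.add hUc.abs)
      intro z _
      have : 0 < 1 + |UU f z| := by positivity
      exact this.ne'
    · apply ContinuousOn.log (continuousOn_const.add hvc.abs)
      intro z _
      have : 0 < 1 + |Real.log ‖deriv f z - 1‖| := by positivity
      exact this.ne'
  have ciU : CircleIntegrable Um 0 r := ContinuousOn.circleIntegrable hrpos.le hUmc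
  have ciG : CircleIntegrable Gf 0 r := ContinuousOn.circleIntegrable hrpos.le hGfc
  have ciC : CircleIntegrable (fun _ : ℂ => Real.log C) 0 r := circleIntegrable_const _ _ _
  have ciH : CircleIntegrable H 0 r := ContinuousOn.circleIntegrable hrpos.le (hHc.mono hsub)
  have hup : Real.circleAverage H 0 r ≤ Real.log C - Real.circleAverage Um 0 r +
      Real.circleAverage Gf 0 r := by
    have h1 : Real.circleAverage (fun z => (Real.log C - Um z) + Gf z) 0 r =
        Real.log C - Real.circleAverage Um 0 r + Real.circleAverage Gf 0 r := by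
      have a1 := Real.circleAverage_fun_add (ciC.sub ciU) ciG
      have a2 := Real.circleAverage_fun_sub ciC ciU
      rw [Real.circleAverage_const] at a2
      rw [← a2]
      exact a1
    rw [← h1]
    apply Real.circleAverage_mono ciH ((ciC.sub ciU).add ciG)
    intro z hz
    rw [abs_of_pos hrpos] at hz
    obtain ⟨-, -, h3, -⟩ := hHp z (hsub hz)
    have h4 := hI f τ z hf (hsub hz) hτ0 hτ1 (hτU z hz)
    have h5 := h3.trans h4
    have hp1 : 0 < 1 + |UU f z| := by positivity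
    have hp2 : 0 < 1 + |Real.log ‖deriv f z - 1‖| := by positivity
    have h6 : Real.exp ((Real.log C - Um z) + Gf z) =
        C * Real.exp (-max 0 (-UU f z)) * (1 + |UU f z|) ^ 2 *
          (1 + |Real.log ‖deriv f z - 1‖|) := by
      show Real.exp ((Real.log C - max 0 (-UU f z)) + (2 * Real.log (1 + |UU f z|) +
        Real.log (1 + |Real.log ‖deriv f z - 1‖|))) = _
      rw [sub_eq_add_neg, Real.exp_add, Real.exp_add, Real.exp_log hC, Real.exp_add,
        Real.exp_log hp2, two_mul, Real.exp_add, Real.exp_log hp1]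
      ring
    rw [← h6] at h5
    exact Real.exp_le_exp.1 h5
  show Real.circleAverage Um 0 r ≤ sr r - nu r {z | unh f z} / 2 +
    Real.circleAverage Gf 0 r + _
  linarith

end Pool.Agent.H792R2.SS
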