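import Pool.Agent.H792R2.SS.Defs

set_option autoImplicit false
open Set Filter Topology Metric MeasureTheory

namespace Pool.Agent.H792R2.SS

theorem t_I9a (hGU : S_GU) (hP3 : S_P3) : S_I9a := by
  obtain ⟨C, hC, hGU⟩ := hGU
  obtain ⟨C3, hC3, hP3⟩ := hP3
  refine ⟨3 * (8 * C3 + C + 1), by positivity, fun f τ z hf hz hτ hτ1 hτU => ?_⟩
  have hz1 : ‖z‖ < 1 := by simpa using hz
  have hz0 : 0 ≤ ‖z‖ := norm_nonneg z
  set R : ℝ := 1 - ‖z‖ with hR
  have hR0 : 0 < R := by rw [hR]; linarith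
  have hNN : NN f z R := by
    have hs : ball z R ⊆ ball (0 : ℂ) 1 := by
      intro w hw
      rw [mem_ball, dist_eq_norm] at hw
      rw [mem_ball_zero_iff]
      have : ‖w‖ ≤ ‖w - z‖ + ‖z‖ := by simpa using norm_add_le (w - z) z
      rw [hR] at hw
      linarith
    exact ⟨hf.1.mono hs, fun x hx => hf.2.1 x (hs hx), fun x hx => hf.2.2 x (hs hx)⟩
  have hfz : 0 < ‖f z‖ := norm_pos_iff.2 (hf.2.1 z hz)
  have hfz1 : 0 < ‖deriv f z - 1‖ := norm_pos_iff.2 (sub_ne_zero.2 (hf.2.2 z hz))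
  set U : ℝ := UU f z with hU
  set L : ℝ := 1 + |Real.log ‖deriv f z - 1‖| with hL
  have hL1 : 1 ≤ L := by
    have := abs_nonneg (Real.log ‖deriv f z - 1‖)
    linarith
  have hz2 : 1 - ‖z‖ ^ 2 = R * (1 + ‖z‖) := by rw [hR]; ring
  have hlogq : Real.log (‖f z‖ / R) = U + Real.log (1 + ‖z‖) := by
    rw [hU, UU, hz2, Real.log_div hfz.ne' hR0.ne', Real.log_mul hR0.ne' (by positivity)]
    ring
  have hl0 : 0 ≤ Real.log (1 + ‖z‖) := Real.log_nonneg (by linarith)
  have hl1 : Real.log (1 + ‖z‖) ≤ 1 := by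
    have := Real.log_le_sub_one_of_pos (show 0 < 1 + ‖z‖ by positivity)
    linarith
  have hq : ‖f z‖ / R ≤ 2 * Real.exp U := by
    have h1 : ‖f z‖ / R = Real.exp (Real.log (‖f z‖ / R)) := (Real.exp_log (by positivity)).symm
    rw [h1, hlogq, Real.exp_add, Real.exp_log (by positivity)]
    nlinarith [Real.exp_pos U]
  set E : ℝ := Real.exp (-max 0 (-U)) with hE
  have hE0 : 0 < E := Real.exp_pos _
  have hmin : min 1 (‖f z‖ / R) ≤ 2 * E := by
    rcases le_total 0 U with h | h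
    · have : max 0 (-U) = 0 := max_eq_left (by linarith)
      rw [hE, this, neg_zero, Real.exp_zero]
      exact (min_le_left _ _).trans (by norm_num)
    · have : max 0 (-U) = -U := max_eq_right (by linarith)
      rw [hE, this, neg_neg]
      exact (min_le_right _ _).trans hq
  have habs : 1 + |Real.log (‖f z‖ / R)| ≤ 2 * (1 + |U|) := by
    rw [hlogq]
    have h1 : |U + Real.log (1 + ‖z‖)| ≤ |U| + Real.log (1 + ‖z‖) := by
      have := abs_add_le U (Real.log (1 + ‖z‖))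
      rwa [abs_of_nonneg hl0] at this
    have := abs_nonneg U
    linarith
  have hU1 : 1 ≤ 1 + |U| := by have := abs_nonneg U; linarith
  have hU2 : 1 + |U| ≤ (1 + |U|) ^ 2 := by nlinarith
  have hq0 : 0 ≤ ‖f z‖ / R := by positivity
  -- the first entry
  have h1 : (1 - ‖z‖ ^ 2) / 2 * ‖deriv (deriv f) z‖ / ‖deriv f z - 1‖ ≤
      8 * C3 * (E * (1 + |U|) ^ 2 * L) := by
    rw [div_le_iff₀ hfz1]
    have h2 := hP3 f z R hR0 hNN
    have h3 : (1 - ‖z‖ ^ 2) / 2 * ‖deriv (deriv f) z‖ ≤ R * ‖deriv (deriv f) z‖ := by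
      apply mul_le_mul_of_nonneg_right _ (norm_nonneg _)
      rw [hz2]
      nlinarith
    refine h3.trans (h2.trans ?_)
    apply mul_le_mul_of_nonneg_right _ hfz1.le
    have h4 : (1 + |Real.log (‖f z‖ / R)|) ^ 2 ≤ 4 * (1 + |U|) ^ 2 := by
      have := pow_le_pow_left₀ (by positivity) habs 2
      calc (1 + |Real.log (‖f z‖ / R)|) ^ 2 ≤ (2 * (1 + |U|)) ^ 2 := this
        _ = 4 * (1 + |U|) ^ 2 := by ring
    calc C3 * min 1 (‖f z‖ / R) * (1 + |Real.log (‖f z‖ / R)|) ^ 2 * L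
        ≤ C3 * (2 * E) * (4 * (1 + |U|) ^ 2) * L := by
          apply mul_le_mul_of_nonneg_right _ (by linarith)
          apply mul_le_mul _ h4 (by positivity) (by positivity)
          exact mul_le_mul_of_nonneg_left hmin hC3.le
      _ = 8 * C3 * (E * (1 + |U|) ^ 2 * L) := by ring
  -- the second entry
  have hB0 : 0 ≤ E * (1 + |U|) ^ 2 * L := by positivity
  have h2 : 1 / 8 * Real.sqrt (‖deriv f z‖ ^ 2 + τ ^ 2) / Real.sqrt (1 + ‖deriv f z‖ ^ 2) ≤
      (C + 1) * (E * (1 + |U|) ^ 2 * L) := by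
    set P : ℝ := ‖deriv f z‖ with hP
    have hP0 : 0 ≤ P := norm_nonneg _
    have hs1 : 1 ≤ Real.sqrt (1 + P ^ 2) := by
      rw [Real.one_le_sqrt]; nlinarith
    have hs0 : 0 < Real.sqrt (1 + P ^ 2) := by linarith
    rcases le_total 0 U with h | h
    · have hE1 : E = 1 := by
        have : max 0 (-U) = 0 := max_eq_left (by linarith)
        rw [hE, this, neg_zero, Real.exp_zero]
      have h3 : 1 / 8 * Real.sqrt (P ^ 2 + τ ^ 2) / Real.sqrt (1 + P ^ 2) ≤ 1 := by
        rw [div_le_one hs0]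
        have : Real.sqrt (P ^ 2 + τ ^ 2) ≤ Real.sqrt (1 + P ^ 2) := by
          apply Real.sqrt_le_sqrt
          nlinarith
        have := Real.sqrt_nonneg (P ^ 2 + τ ^ 2)
        linarith
      refine h3.trans ?_
      rw [hE1, one_mul]
      have h4 : 1 ≤ (1 + |U|) ^ 2 * L := by
        have h5 : 1 ≤ (1 + |U|) ^ 2 := by linarith
        exact one_le_mul_of_one_le_of_one_le h5 hL1
      have h6 : 1 * ((1 + |U|) ^ 2 * L) ≤ (C + 1) * ((1 + |U|) ^ 2 * L) := by
        apply mul_le_mul_of_nonneg_right _ (by positivity)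
        linarith
      linarith
    · have hE1 : E = Real.exp U := by
        have : max 0 (-U) = -U := max_eq_right (by linarith)
        rw [hE, this, neg_neg]
      have h3 : Real.sqrt (P ^ 2 + τ ^ 2) ≤ P + τ := by
        rw [Real.sqrt_le_left (by positivity)]
        have := mul_nonneg hP0 hτ.le
        linarith [add_sq P τ]
      have h4 : 1 / 8 * Real.sqrt (P ^ 2 + τ ^ 2) / Real.sqrt (1 + P ^ 2) ≤ P + τ := by
        rw [div_le_iff₀ hs0]
        have h5 : 0 ≤ P + τ := by positivity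
        have h6 := Real.sqrt_nonneg (P ^ 2 + τ ^ 2)
        have h7 : P + τ ≤ (P + τ) * Real.sqrt (1 + P ^ 2) := le_mul_of_one_le_right h5 hs1
        linarith
      have h5 := (hGU f z hf hz).2
      have h6 : P + τ ≤ (C + 1) * ((1 + |U|) * Real.exp U) := by
        have h7 : P ≤ C * (1 + |U|) * Real.exp U := h5
        have h8 : τ ≤ (1 + |U|) * Real.exp U :=
          hτU.trans (le_mul_of_one_le_left (Real.exp_pos _).le hU1)
        linarith
      refine h4.trans (h6.trans ?_)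
      apply mul_le_mul_of_nonneg_left _ (by positivity)
      rw [hE1]
      have h9 : (1 + |U|) * Real.exp U ≤ (1 + |U|) ^ 2 * Real.exp U :=
        mul_le_mul_of_nonneg_right hU2 (Real.exp_pos _).le
      have h10 : 0 ≤ (1 + |U|) ^ 2 * Real.exp U := by positivity
      calc (1 + |U|) * Real.exp U ≤ (1 + |U|) ^ 2 * Real.exp U := h9
        _ ≤ (1 + |U|) ^ 2 * Real.exp U * L := le_mul_of_one_le_right h10 hL1
        _ = Real.exp U * (1 + |U|) ^ 2 * L := by ring
  have h3 : max ((1 - ‖z‖ ^ 2) / 2 * ‖deriv (deriv f) z‖ / ‖deriv f z - 1‖)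
      (1 / 8 * Real.sqrt (‖deriv f z‖ ^ 2 + τ ^ 2) / Real.sqrt (1 + ‖deriv f z‖ ^ 2)) ≤
      (8 * C3 + C + 1) * (E * (1 + |U|) ^ 2 * L) := by
    apply max_le
    · refine h1.trans ?_
      apply mul_le_mul_of_nonneg_right _ hB0
      linarith
    · refine h2.trans ?_
      apply mul_le_mul_of_nonneg_right _ hB0
      linarith
  calc _ ≤ 3 * ((8 * C3 + C + 1) * (E * (1 + |U|) ^ 2 * L)) :=
        mul_le_mul_of_nonneg_left h3 (by norm_num)
    _ = 3 * (8 * C3 + C + 1) * E * (1 + |U|) ^ 2 * L := by ring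

end Pool.Agent.H792R2.SS
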