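import Pool.Agent.H792R2.SS.Defs

set_option autoImplicit false
open Set Filter Topology Metric

namespace Pool.Agent.H792R2.SS.INVx

theorem isOpen_HP : IsOpen HP := isOpen_lt continuous_const Complex.continuous_im

/-- the segment -/
noncomputable def ln (y₀ y : ℂ) (s : ℝ) : ℂ := y₀ + (s : ℂ) * (y - y₀)

theorem ln_cont (y₀ y : ℂ) : Continuous (ln y₀ y) := by
  unfold ln
  exact continuous_const.add (Complex.continuous_ofReal.mul continuous_const)

theorem ln_zero (y₀ y : ℂ) : ln y₀ y 0 = y₀ := by simp [ln]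

theorem ln_one (y₀ y : ℂ) : ln y₀ y 1 = y := by simp [ln]

theorem ln_deriv (y₀ y : ℂ) (s : ℝ) : HasDerivAt (ln y₀ y) (y - y₀) s := by
  unfold ln
  have h1 : HasDerivAt (fun s : ℝ => (s : ℂ)) 1 s := (hasDerivAt_id s).ofReal_comp
  have h2 := (h1.mul_const (y - y₀)).const_add y₀
  simpa using h2

theorem ln_dist (y₀ y : ℂ) (s t : ℝ) : dist (ln y₀ y s) (ln y₀ y t) = |s - t| * ‖y - y₀‖ := by
  rw [dist_eq_norm]
  have : ln y₀ y s - ln y₀ y t = ((s - t : ℝ) : ℂ) * (y - y₀) := by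
    simp [ln]; ring
  rw [this, norm_mul, Complex.norm_real, Real.norm_eq_abs]

theorem ln_mem {𝒞 : Set ℂ} (hc : Convex ℝ 𝒞) {y₀ y : ℂ} (h0 : y₀ ∈ 𝒞) (h : y ∈ 𝒞) {s : ℝ}
    (hs : s ∈ Icc (0 : ℝ) 1) : ln y₀ y s ∈ 𝒞 := by
  have h2 : ln y₀ y s = (1 - s) • y₀ + s • y := by
    simp [ln]; ring
  rw [h2]
  exact hc h0 h (by linarith [hs.2]) hs.1 (by ring)

/-- a lift of the segment on `[0, t]` -/
def IsLift (V : ℂ → ℂ) (w₀ y₀ y : ℂ) (t : ℝ) (γ : ℝ → ℂ) : Prop :=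
  ContinuousOn γ (Icc 0 t) ∧ γ 0 = w₀ ∧ ∀ s ∈ Icc 0 t, γ s ∈ HP ∧ V (γ s) = ln y₀ y s

variable {𝒞 : Set ℂ} {V : ℂ → ℂ} {c : ℝ} {w₀ : ℂ}

theorem hasStrict (hV : DifferentiableOn ℂ V HP) {w : ℂ} (hw : w ∈ HP) :
    HasStrictDerivAt V (deriv V w) w := by
  have h1 : AnalyticAt ℂ V w := hV.analyticAt (isOpen_HP.mem_nhds hw)
  exact h1.hasStrictDerivAt

theorem dne (hc : 0 < c) (hder : ∀ w ∈ HP, V w ∈ 𝒞 → c ≤ ‖deriv V w‖ * w.im) {w : ℂ}
    (hw : w ∈ HP) (hw' : V w ∈ 𝒞) : deriv V w ≠ 0 := by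
  intro h
  have := hder w hw hw'
  rw [h] at this
  simp at this
  linarith

theorem lift_deriv (hconv : Convex ℝ 𝒞) (hc : 0 < c) (hV : DifferentiableOn ℂ V HP)
    (hder : ∀ w ∈ HP, V w ∈ 𝒞 → c ≤ ‖deriv V w‖ * w.im) {y₀ y : ℂ} (h0 : y₀ ∈ 𝒞) (hy : y ∈ 𝒞)
    {t : ℝ} (ht : t ≤ 1) {γ : ℝ → ℂ} (hγ : IsLift V w₀ y₀ y t γ) {s : ℝ} (hs : s ∈ Icc 0 t) :
    HasDerivWithinAt γ ((deriv V (γ s))⁻¹ * (y - y₀)) (Icc 0 t) s := by
  obtain ⟨hcont, -, hl⟩ := hγ
  have hmem : ln y₀ y s ∈ 𝒞 := ln_mem hconv h0 hy ⟨hs.1, hs.2.trans ht⟩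
  have hC : V (γ s) ∈ 𝒞 := by rw [(hl s hs).2]; exact hmem
  have hne : deriv V (γ s) ≠ 0 := dne hc hder (hl s hs).1 hC
  have hst := hasStrict hV (hl s hs).1
  have h1 : HasStrictDerivAt (hst.localInverse V (deriv V (γ s)) (γ s) hne) (deriv V (γ s))⁻¹ (V (γ s)) :=
    hst.to_localInverse hne
  have h2 : ∀ᶠ x in 𝓝 (γ s), hst.localInverse V (deriv V (γ s)) (γ s) hne (V x) = x :=
    HasStrictFDerivAt.eventually_left_inverse _
  have h3 : ∀ᶠ s' in 𝓝[Icc 0 t] s, hst.localInverse V (deriv V (γ s)) (γ s) hne (V (γ s')) = γ s' :=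
    (hcont s hs).eventually h2
  have h4 : γ =ᶠ[𝓝[Icc 0 t] s]
      (fun s' => hst.localInverse V (deriv V (γ s)) (γ s) hne (ln y₀ y s')) := by
    filter_upwards [h3, self_mem_nhdsWithin] with s' hs' hs''
    rw [← (hl s' hs'').2, hs']
  have h5 : HasDerivAt (hst.localInverse V (deriv V (γ s)) (γ s) hne) (deriv V (γ s))⁻¹ (ln y₀ y s) := by
    rw [← (hl s hs).2]
    exact h1.hasDerivAt
  have h6 : HasDerivAt (fun s' => hst.localInverse V (deriv V (γ s)) (γ s) hne (ln y₀ y s'))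
      ((deriv V (γ s))⁻¹ * (y - y₀)) s := by
    have := h5.scomp (𝕜 := ℝ) s (ln_deriv y₀ y s)
    simpa [Function.comp_def, mul_comm] using this
  exact h6.hasDerivWithinAt.congr_of_eventuallyEq h4 (by
    show γ s = hst.localInverse V (deriv V (γ s)) (γ s) hne (ln y₀ y s)
    rw [← (hl s hs).2]
    exact (h2.self_of_nhds).symm)

theorem lift_bound (hconv : Convex ℝ 𝒞) (hc : 0 < c) (hV : DifferentiableOn ℂ V HP)
    (hder : ∀ w ∈ HP, V w ∈ 𝒞 → c ≤ ‖deriv V w‖ * w.im) {y₀ y : ℂ} (h0 : y₀ ∈ 𝒞) (hy : y ∈ 𝒞)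
    {t : ℝ} (ht : t ≤ 1) {γ : ℝ → ℂ} (hγ : IsLift V w₀ y₀ y t γ) {s : ℝ} (hs : s ∈ Icc 0 t) :
    ‖(deriv V (γ s))⁻¹ * (y - y₀)‖ ≤ ‖y - y₀‖ / c * (γ s).im := by
  have hl := hγ.2.2
  have hmem : ln y₀ y s ∈ 𝒞 := ln_mem hconv h0 hy ⟨hs.1, hs.2.trans ht⟩
  have hC : V (γ s) ∈ 𝒞 := by rw [(hl s hs).2]; exact hmem
  have hne : deriv V (γ s) ≠ 0 := dne hc hder (hl s hs).1 hC
  have h1 := hder _ (hl s hs).1 hC
  rw [norm_mul, norm_inv]
  have hp : 0 < ‖deriv V (γ s)‖ := norm_pos_iff.mpr hne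
  rw [inv_mul_eq_div, div_mul_eq_mul_div, div_le_div_iff₀ hp hc]
  nlinarith [norm_nonneg (y - y₀)]

theorem lift_apriori (hconv : Convex ℝ 𝒞) (hc : 0 < c) (hV : DifferentiableOn ℂ V HP)
    (hder : ∀ w ∈ HP, V w ∈ 𝒞 → c ≤ ‖deriv V w‖ * w.im) (hw₀ : w₀ ∈ HP)
    {y₀ y : ℂ} (h0 : y₀ ∈ 𝒞) (hy : y ∈ 𝒞)
    {t : ℝ} (ht0 : 0 ≤ t) (ht : t ≤ 1) {γ : ℝ → ℂ} (hγ : IsLift V w₀ y₀ y t γ)
    {s : ℝ} (hs : s ∈ Icc 0 t) :
    w₀.im * Real.exp (-(‖y - y₀‖ / c)) ≤ (γ s).im ∧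
      ‖γ s - w₀‖ ≤ ‖y - y₀‖ / c * (w₀.im * Real.exp (‖y - y₀‖ / c)) := by
  set L := ‖y - y₀‖ / c with hL
  have hL0 : 0 ≤ L := by positivity
  have hl := hγ.2.2
  have him : ∀ s ∈ Icc 0 t, 0 < (γ s).im := fun s hs => (hl s hs).1
  have hw0 : 0 < w₀.im := hw₀
  have hlog : ∀ s ∈ Icc 0 t, HasDerivWithinAt (fun s => Real.log (γ s).im)
      (((deriv V (γ s))⁻¹ * (y - y₀)).im / (γ s).im) (Icc 0 t) s := by
    intro s hs
    have h1 := lift_deriv hconv hc hV hder h0 hy ht hγ hs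
    have h2 : HasDerivWithinAt (fun s => (γ s).im) (((deriv V (γ s))⁻¹ * (y - y₀)).im)
        (Icc 0 t) s := by
      have := (Complex.imCLM.hasFDerivAt (x := γ s)).comp_hasDerivWithinAt s h1
      simpa [Function.comp_def] using this
    exact h2.log (him s hs).ne'
  have hb : ∀ s ∈ Icc 0 t, ‖((deriv V (γ s))⁻¹ * (y - y₀)).im / (γ s).im‖ ≤ L := by
    intro s hs
    rw [norm_div, Real.norm_eq_abs, Real.norm_eq_abs, abs_of_pos (him s hs), div_le_iff₀ (him s hs)]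
    exact (Complex.abs_im_le_norm _).trans (lift_bound hconv hc hV hder h0 hy ht hγ hs)
  have hlogb : ∀ s ∈ Icc 0 t, |Real.log (γ s).im - Real.log w₀.im| ≤ L := by
    intro s hs
    have h1 := norm_image_sub_le_of_norm_deriv_le_segment' hlog
      (fun s hs => hb s ⟨hs.1, hs.2.le⟩) s hs
    rw [hγ.2.1] at h1
    rw [Real.norm_eq_abs] at h1
    have h2 : L * (s - 0) ≤ L := by nlinarith [hs.1, hs.2]
    exact h1.trans h2
  have hup : ∀ s ∈ Icc 0 t, (γ s).im ≤ w₀.im * Real.exp L := by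
    intro s hs
    have h1 := (abs_le.mp (hlogb s hs)).2
    have h2 : Real.log (γ s).im ≤ Real.log w₀.im + L := by linarith
    have h3 := Real.exp_le_exp.mpr h2
    rwa [Real.exp_add, Real.exp_log (him s hs), Real.exp_log hw0] at h3
  have hlo : ∀ s ∈ Icc 0 t, w₀.im * Real.exp (-L) ≤ (γ s).im := by
    intro s hs
    have h1 := (abs_le.mp (hlogb s hs)).1
    have h2 : Real.log w₀.im + -L ≤ Real.log (γ s).im := by linarith
    have h3 := Real.exp_le_exp.mpr h2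
    rwa [Real.exp_add, Real.exp_log (him s hs), Real.exp_log hw0] at h3
  refine ⟨hlo s hs, ?_⟩
  have h1 := norm_image_sub_le_of_norm_deriv_le_segment' (C := L * (w₀.im * Real.exp L))
    (fun s hs => lift_deriv hconv hc hV hder h0 hy ht hγ hs)
    (fun s hs => (lift_bound hconv hc hV hder h0 hy ht hγ ⟨hs.1, hs.2.le⟩).trans
      (mul_le_mul_of_nonneg_left (hup s ⟨hs.1, hs.2.le⟩) hL0)) s hs
  rw [hγ.2.1] at h1
  have h2 : 0 ≤ L * (w₀.im * Real.exp L) := by positivity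
  have h3 : L * (w₀.im * Real.exp L) * (s - 0) ≤ L * (w₀.im * Real.exp L) := by
    nlinarith [hs.1, hs.2]
  exact h1.trans h3

/-- the compact set -/
def KK (V : ℂ → ℂ) (w₀ y₀ y : ℂ) (m M : ℝ) : Set ℂ :=
  {w | m ≤ w.im ∧ ‖w - w₀‖ ≤ M ∧ V w ∈ ln y₀ y '' Icc 0 1}

theorem KK_compact (hV : DifferentiableOn ℂ V HP) {y₀ y : ℂ} {m M : ℝ} (hm : 0 < m) :
    IsCompact (KK V w₀ y₀ y m M) := by
  have hS : IsClosed (ln y₀ y '' Icc 0 1) :=
    (isCompact_Icc.image (ln_cont y₀ y)).isClosed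
  have hA : IsClosed ({w : ℂ | m ≤ w.im} ∩ closedBall w₀ M) :=
    (isClosed_le continuous_const Complex.continuous_im).inter isClosed_closedBall
  have hVc : ContinuousOn V ({w : ℂ | m ≤ w.im} ∩ closedBall w₀ M) :=
    hV.continuousOn.mono (fun w hw => lt_of_lt_of_le hm hw.1)
  have hcl := hVc.preimage_isClosed_of_isClosed hA hS
  have heq : KK V w₀ y₀ y m M =
      ({w : ℂ | m ≤ w.im} ∩ closedBall w₀ M) ∩ V ⁻¹' (ln y₀ y '' Icc 0 1) := by
    ext w
    simp only [KK, Set.mem_ofPred_eq, mem_inter_iff, mem_closedBall, dist_eq_norm, mem_preimage]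
    tauto
  rw [heq]
  refine IsCompact.of_isClosed_subset (isCompact_closedBall w₀ M) hcl ?_
  intro w hw
  exact hw.1.2

/-- uniform size of local inverses -/
theorem unif (hconv : Convex ℝ 𝒞) (hc : 0 < c) (hV : DifferentiableOn ℂ V HP)
    (hder : ∀ w ∈ HP, V w ∈ 𝒞 → c ≤ ‖deriv V w‖ * w.im)
    {y₀ y : ℂ} (h0 : y₀ ∈ 𝒞) (hy : y ∈ 𝒞) {m M : ℝ} (hm : 0 < m) :
    ∃ δ > 0, ∀ w₁ ∈ KK V w₀ y₀ y m M, ∃ W : ℂ → ℂ, ContinuousOn W (ball (V w₁) δ) ∧
      W (V w₁) = w₁ ∧ ∀ z ∈ ball (V w₁) δ, W z ∈ HP ∧ V (W z) = z := by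
  have hK := KK_compact (w₀ := w₀) (y₀ := y₀) (y := y) (M := M) hV hm
  refine hK.induction_on (p := fun s => ∃ δ > 0, ∀ w₁ ∈ s, ∃ W : ℂ → ℂ,
    ContinuousOn W (ball (V w₁) δ) ∧
      W (V w₁) = w₁ ∧ ∀ z ∈ ball (V w₁) δ, W z ∈ HP ∧ V (W z) = z) ?_ ?_ ?_ ?_
  · exact ⟨1, one_pos, by simp⟩
  · rintro s t hst ⟨δ, hδ, h⟩
    exact ⟨δ, hδ, fun w hw => h w (hst hw)⟩
  · rintro s t ⟨δ, hδ, h⟩ ⟨δ', hδ', h'⟩
    refine ⟨min δ δ', lt_min hδ hδ', ?_⟩
    rintro w (hw | hw)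
    · obtain ⟨W, h1, h2, h3⟩ := h w hw
      exact ⟨W, h1.mono (ball_subset_ball (min_le_left _ _)), h2,
        fun z hz => h3 z (ball_subset_ball (min_le_left _ _) hz)⟩
    · obtain ⟨W, h1, h2, h3⟩ := h' w hw
      exact ⟨W, h1.mono (ball_subset_ball (min_le_right _ _)), h2,
        fun z hz => h3 z (ball_subset_ball (min_le_right _ _) hz)⟩
  · intro w hw
    have hwH : w ∈ HP := lt_of_lt_of_le hm hw.1
    have hwC : V w ∈ 𝒞 := by
      obtain ⟨s, hs, hs'⟩ := hw.2.2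
      rw [← hs']
      exact ln_mem hconv h0 hy hs
    have hne := dne hc hder hwH hwC
    have hst := hasStrict hV hwH
    have hstF : HasStrictFDerivAt V
        ((ContinuousLinearEquiv.unitsEquivAut ℂ (Units.mk0 _ hne) : ℂ ≃L[ℂ] ℂ) : ℂ →L[ℂ] ℂ) w :=
      hst.hasStrictFDerivAt_equiv hne
    let e := (hstF.toOpenPartialHomeomorph V).restrOpen HP isOpen_HP
    have hes : w ∈ e.source := by
      simp only [e, OpenPartialHomeomorph.restrOpen_source]
      exact ⟨hstF.mem_toOpenPartialHomeomorph_source, hwH⟩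
    have hec : ∀ x, e x = V x := fun x => rfl
    have het : V w ∈ e.target := e.map_source hes
    obtain ⟨r, hr, hball⟩ := Metric.isOpen_iff.mp e.open_target _ het
    have hVw : ContinuousAt V w := (hst.hasDerivAt).continuousAt
    have hnb : ∀ᶠ x in 𝓝 w, x ∈ e.source ∧ V x ∈ ball (V w) (r / 2) :=
      Filter.Eventually.and (IsOpen.mem_nhds e.open_source hes)
        (hVw (ball_mem_nhds _ (by positivity)))
    refine ⟨{x | x ∈ e.source ∧ V x ∈ ball (V w) (r / 2)}, mem_nhdsWithin_of_mem_nhds hnb,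
      r / 2, by positivity, ?_⟩
    rintro x ⟨hx1, hx2⟩
    have hsub : ball (V x) (r / 2) ⊆ e.target := by
      intro z hz
      apply hball
      rw [mem_ball] at *
      calc dist z (V w) ≤ dist z (V x) + dist (V x) (V w) := dist_triangle _ _ _
        _ < r / 2 + r / 2 := add_lt_add hz hx2
        _ = r := by ring
    refine ⟨e.symm, e.continuousOn_symm.mono hsub, ?_, ?_⟩
    · exact e.left_inv hx1
    · intro z hz
      refine ⟨?_, e.right_inv (hsub hz)⟩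
      have := e.map_target (hsub hz)
      simp only [e, OpenPartialHomeomorph.restrOpen_source] at this
      exact this.2

theorem lift_exists (hconv : Convex ℝ 𝒞) (hc : 0 < c) (hV : DifferentiableOn ℂ V HP)
    (hder : ∀ w ∈ HP, V w ∈ 𝒞 → c ≤ ‖deriv V w‖ * w.im) (hw₀ : w₀ ∈ HP)
    {y : ℂ} (h0 : V w₀ ∈ 𝒞) (hy : y ∈ 𝒞) :
    ∃ γ, IsLift V w₀ (V w₀) y 1 γ := by
  set y₀ := V w₀ with hy₀
  set L := ‖y - y₀‖ / c with hL
  have hw0 : 0 < w₀.im := hw₀
  have hm : 0 < w₀.im * Real.exp (-L) := by positivity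
  obtain ⟨δ, hδ, hun⟩ := unif (w₀ := w₀) (M := L * (w₀.im * Real.exp L)) hconv hc hV hder h0 hy hm
  set ε := δ / (1 + ‖y - y₀‖) with hε
  have hε0 : 0 < ε := by positivity
  have hεδ : ε * ‖y - y₀‖ < δ := by
    rw [hε, div_mul_eq_mul_div, div_lt_iff₀ (by positivity)]
    nlinarith [norm_nonneg (y - y₀)]
  have step : ∀ t, 0 ≤ t → t ≤ 1 → (∃ γ, IsLift V w₀ y₀ y t γ) →
      ∃ γ, IsLift V w₀ y₀ y (min (t + ε) 1) γ := by
    rintro t ht0 ht1 ⟨γ, hγ⟩
    have htm : t ∈ Icc 0 t := ⟨ht0, le_rfl⟩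
    have hap := lift_apriori hconv hc hV hder hw₀ h0 hy ht0 ht1 hγ htm
    have hK : γ t ∈ KK V w₀ y₀ y (w₀.im * Real.exp (-L)) (L * (w₀.im * Real.exp L)) :=
      ⟨hap.1, hap.2, ⟨t, ⟨ht0, ht1⟩, ((hγ.2.2 t htm).2).symm⟩⟩
    obtain ⟨W, hW1, hW2, hW3⟩ := hun _ hK
    have hVt : V (γ t) = ln y₀ y t := (hγ.2.2 t htm).2
    rw [hVt] at hW1 hW2 hW3
    have htt : t ≤ min (t + ε) 1 := le_min (by linarith) ht1
    have hball : ∀ s ∈ Icc t (min (t + ε) 1), ln y₀ y s ∈ ball (ln y₀ y t) δ := by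
      intro s hs
      rw [mem_ball, ln_dist, abs_of_nonneg (by linarith [hs.1])]
      have : s - t ≤ ε := by linarith [hs.2, min_le_left (t + ε) 1]
      nlinarith [norm_nonneg (y - y₀)]
    refine ⟨fun s => if s ≤ t then γ s else W (ln y₀ y s), ?_, ?_, ?_⟩
    · have hun : Icc 0 (min (t + ε) 1) = Icc 0 t ∪ Icc t (min (t + ε) 1) :=
        (Icc_union_Icc_eq_Icc ht0 htt).symm
      rw [hun]
      refine ContinuousOn.union_of_isClosed ?_ ?_ isClosed_Icc isClosed_Icc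
      · refine hγ.1.congr ?_
        intro s hs
        simp [hs.2]
      · have h1 : ContinuousOn (fun s => W (ln y₀ y s)) (Icc t (min (t + ε) 1)) :=
          hW1.comp (ln_cont y₀ y).continuousOn hball
        refine h1.congr ?_
        intro s hs
        by_cases hst : s ≤ t
        · have : s = t := le_antisymm hst hs.1
          subst this
          simp [hW2]
        · simp [hst]
    · simp only [ht0, if_true]
      exact hγ.2.1
    · intro s hs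
      by_cases hst : s ≤ t
      · simp only [hst, if_true]
        exact hγ.2.2 s ⟨hs.1, hst⟩
      · simp only [hst, if_false]
        exact hW3 _ (hball s ⟨(not_le.mp hst).le, hs.2⟩)
  have ind : ∀ n : ℕ, ∃ γ, IsLift V w₀ y₀ y (min (n * ε) 1) γ := by
    intro n
    induction n with
    | zero =>
      refine ⟨fun _ => w₀, continuousOn_const, rfl, ?_⟩
      intro s hs
      have hs0 : s = 0 := by
        have h1 := hs.2
        have h2 := hs.1
        simp at h1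
        linarith
      refine ⟨hw₀, ?_⟩
      rw [hs0, ln_zero]
    | succ n ih =>
      have h1 := step (min (n * ε) 1) (le_min (by positivity) zero_le_one) (min_le_right _ _) ih
      have h2 : min (min ((n : ℝ) * ε) 1 + ε) 1 = min (((n + 1 : ℕ) : ℝ) * ε) 1 := by
        push_cast
        rcases le_total ((n : ℝ) * ε) 1 with h | h
        · rw [min_eq_left h]; ring_nf
        · rw [min_eq_right h, min_eq_right (by linarith), min_eq_right (by nlinarith)]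
      rwa [h2] at h1
  obtain ⟨n, hn⟩ := exists_nat_gt (1 / ε)
  have hn' : 1 ≤ (n : ℝ) * ε := by
    rw [div_lt_iff₀ hε0] at hn
    exact hn.le
  have := ind n
  rwa [min_eq_right hn'] at this

end Pool.Agent.H792R2.SS.INVx

namespace Pool.Agent.H792R2.SS

open INVx

theorem t_INV : S_INV := by
  intro 𝒞 V c w₀ hopen hconv hc hV hder hw₀ h0
  set Ω : Set ℂ := {w | w ∈ HP ∧ V w ∈ 𝒞} with hΩ
  have hΩo : IsOpen Ω := by
    have := hV.continuousOn.isOpen_inter_preimage isOpen_HP hopen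
    exact this
  have hloc : IsLocalHomeomorphOn V Ω := by
    refine IsLocalHomeomorphOn.mk V Ω ?_
    intro w hw
    have hne := dne hc hder hw.1 hw.2
    have hst := hasStrict hV hw.1
    have hstF : HasStrictFDerivAt V
        ((ContinuousLinearEquiv.unitsEquivAut ℂ (Units.mk0 _ hne) : ℂ ≃L[ℂ] ℂ) : ℂ →L[ℂ] ℂ) w :=
      hst.hasStrictFDerivAt_equiv hne
    exact ⟨hstF.toOpenPartialHomeomorph V, hstF.mem_toOpenPartialHomeomorph_source, fun x _ => rfl⟩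
  have homeo : IsLocalHomeomorph (fun e : Ω => V e) := by
    rw [isLocalHomeomorph_iff_isLocalHomeomorphOn_univ]
    refine IsLocalHomeomorphOn.comp (f := fun e : Ω => (e : ℂ)) (g := V) hloc ?_ ?_
    · exact (hΩo.isOpenEmbedding_subtypeVal.isLocalHomeomorph).isLocalHomeomorphOn
    · intro e _
      exact e.2
  have sep : IsSeparatedMap (fun e : Ω => V e) := T2Space.isSeparatedMap _
  have hex : ∀ y : 𝒞, ∃ g : C(unitInterval, Ω), (g 0 : ℂ) = w₀ ∧
      ∀ t : unitInterval, V (g t) = ln (V w₀) y t := by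
    intro y
    obtain ⟨γ, hγ1, hγ2, hγ3⟩ := lift_exists hconv hc hV hder hw₀ h0 y.2
    have hmem : ∀ t : unitInterval, γ t ∈ Ω := by
      intro t
      refine ⟨(hγ3 t t.2).1, ?_⟩
      rw [(hγ3 t t.2).2]
      exact ln_mem hconv h0 y.2 t.2
    refine ⟨⟨fun t => ⟨γ t, hmem t⟩, ?_⟩, ?_, ?_⟩
    · refine Continuous.subtype_mk ?_ _
      exact hγ1.comp_continuous continuous_subtype_val (fun t => t.2)
    · simpa using hγ2
    · intro t
      exact (hγ3 t t.2).2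
  choose g hg0 hg using hex
  let e₀ : Ω := ⟨w₀, hw₀, h0⟩
  let F : C(unitInterval × 𝒞, ℂ) := ⟨fun q => V w₀ + ((q.1 : ℝ) : ℂ) * ((q.2 : ℂ) - V w₀), by
    fun_prop⟩
  let G : unitInterval × 𝒞 → Ω := fun q => g q.2 q.1
  have hcont : Continuous G := by
    refine homeo.continuous_lift sep F (g := G) ?_ ?_ ?_
    · funext q
      exact hg q.2 q.1
    · have : (fun a : 𝒞 => G (0, a)) = fun _ => e₀ := by
        funext a
        exact Subtype.ext (hg0 a)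
      rw [show (G ⟨0, ·⟩) = fun a : 𝒞 => G (0, a) from rfl, this]
      exact continuous_const
    · intro a
      exact (g a).continuous
  classical
  let W : ℂ → ℂ := fun y => if h : y ∈ 𝒞 then (G (1, ⟨y, h⟩) : ℂ) else 0
  have hWeq : ∀ y (h : y ∈ 𝒞), W y = G (1, ⟨y, h⟩) := fun y h => by simp [W, h]
  have hWc : ContinuousOn W 𝒞 := by
    rw [continuousOn_iff_continuous_domRestrict]
    have h1 : Continuous (fun y : 𝒞 => (G (1, y) : ℂ)) :=
      continuous_subtype_val.comp (hcont.comp (Continuous.prodMk_right 1))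
    refine h1.congr ?_
    intro y
    exact (hWeq y y.2).symm
  have hWV : ∀ y ∈ 𝒞, V (W y) = y := by
    intro y hy
    rw [hWeq y hy]
    have := hg ⟨y, hy⟩ 1
    simpa [ln] using this
  have hWH : ∀ y ∈ 𝒞, W y ∈ HP := by
    intro y hy
    rw [hWeq y hy]
    exact (G (1, ⟨y, hy⟩)).2.1
  have hWd : ∀ y ∈ 𝒞, HasDerivAt W (deriv V (W y))⁻¹ y := by
    intro y hy
    have hst := (hasStrict hV (hWH y hy)).hasDerivAt
    have hne := dne hc hder (hWH y hy) (by rw [hWV y hy]; exact hy)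
    refine HasDerivAt.of_local_left_inverse (f := V) ?_ hst hne ?_
    · exact hWc.continuousAt (hopen.mem_nhds hy)
    · filter_upwards [hopen.mem_nhds hy] with z hz
      exact hWV z hz
  refine ⟨W, fun y hy => (hWd y hy).differentiableAt.differentiableWithinAt, ?_, ?_⟩
  · -- the base point
    rw [hWeq _ h0]
    have h1 : ∀ t t' : unitInterval, g ⟨V w₀, h0⟩ t = g ⟨V w₀, h0⟩ t' := by
      intro t t'
      refine sep.const_of_comp homeo.isLocallyInjective (g ⟨V w₀, h0⟩).continuous ?_ t t'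
      intro a b
      show V (g ⟨V w₀, h0⟩ a) = V (g ⟨V w₀, h0⟩ b)
      rw [hg, hg]
      simp [ln]
    have h2 := h1 1 0
    show ((g ⟨V w₀, h0⟩ 1 : Ω) : ℂ) = w₀
    rw [h2, hg0]
  · intro y hy
    refine ⟨hWH y hy, hWV y hy, ?_⟩
    rw [(hWd y hy).deriv, norm_inv]
    have h1 := hder _ (hWH y hy) (by rw [hWV y hy]; exact hy)
    have hne := dne hc hder (hWH y hy) (by rw [hWV y hy]; exact hy)
    have hp : 0 < ‖deriv V (W y)‖ := norm_pos_iff.mpr hne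
    rw [inv_eq_one_div, div_le_div_iff₀ hp hc]
    linarith

end Pool.Agent.H792R2.SS
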