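import Pool.Agent.H792R2.SS.LBx

/-! Laplacian of `log (|P|² + τ²)` (helper509). -/

set_option autoImplicit false
open Set Filter Topology Metric MeasureTheory

namespace Pool.Agent.H792R2.SS

theorem t_LB (hCH : S_CH) : S_LB := by
  intro P τ z hP hτ
  have hd : ∀ x : ℝ, x + τ ^ 2 ≠ 0 → HasDerivAt (fun x => Real.log (x + τ ^ 2)) (x + τ ^ 2)⁻¹ x := by
    intro x hx
    have h1 : HasDerivAt (fun x : ℝ => x + τ ^ 2) 1 x := (hasDerivAt_id x).add_const _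
    have h2 := h1.log hx
    rwa [one_div] at h2
  have hpos : 0 < ‖P z‖ ^ 2 + τ ^ 2 := by positivity
  have hc : ContDiffAt ℝ 2 (fun x => Real.log (x + τ ^ 2)) (‖P z‖ ^ 2) := by
    refine ContDiffAt.log (by fun_prop) hpos.ne'
  have hdd : deriv (deriv (fun x => Real.log (x + τ ^ 2))) (‖P z‖ ^ 2) = -((‖P z‖ ^ 2 + τ ^ 2) ^ 2)⁻¹ := by
    have hev : deriv (fun x => Real.log (x + τ ^ 2)) =ᶠ[𝓝 (‖P z‖ ^ 2)] fun x => (x + τ ^ 2)⁻¹ := by
      have hopen : ∀ᶠ x in 𝓝 (‖P z‖ ^ 2), x + τ ^ 2 ≠ 0 := by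
        have : ContinuousAt (fun x : ℝ => x + τ ^ 2) (‖P z‖ ^ 2) := by fun_prop
        exact this.eventually_ne hpos.ne'
      filter_upwards [hopen] with x hx using (hd x hx).deriv
    rw [hev.deriv_eq]
    have h1 : HasDerivAt (fun x : ℝ => x + τ ^ 2) 1 (‖P z‖ ^ 2) := (hasDerivAt_id _).add_const _
    have h2 := (h1.inv hpos.ne').deriv
    have h3 : deriv (fun x : ℝ => (x + τ ^ 2)⁻¹) (‖P z‖ ^ 2) = -1 / (‖P z‖ ^ 2 + τ ^ 2) ^ 2 := h2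
    rw [h3]
    ring
  obtain ⟨h1, h2⟩ := LBx.main hCH hP (fun x => Real.log (x + τ ^ 2)) hc
  refine ⟨h1, ?_⟩
  rw [h2, hdd, (hd _ hpos.ne').deriv]
  field_simp
  ring

end Pool.Agent.H792R2.SS
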