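import Pool.Agent.H792R2.SS.LBx

/-! Laplacian of `log (1 - |z|²)` (helper509). -/

set_option autoImplicit false
open Set Filter Topology Metric MeasureTheory

namespace Pool.Agent.H792R2.SS

theorem t_LD (hCH : S_CH) : S_LD := by
  intro z hz
  have hd : ∀ x : ℝ, 1 - x ≠ 0 → HasDerivAt (fun x => Real.log (1 - x)) (-(1 - x)⁻¹) x := by
    intro x hx
    have h1 : HasDerivAt (fun x : ℝ => 1 - x) (-1) x := (hasDerivAt_id x).const_sub 1
    have h2 := h1.log hx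
    rwa [neg_div, one_div] at h2
  have hpos : 0 < 1 - ‖z‖ ^ 2 := by nlinarith [norm_nonneg z]
  have hc : ContDiffAt ℝ 2 (fun x => Real.log (1 - x)) (‖z‖ ^ 2) := by
    refine ContDiffAt.log (by fun_prop) hpos.ne'
  have hdd : deriv (deriv (fun x => Real.log (1 - x))) (‖z‖ ^ 2) = -((1 - ‖z‖ ^ 2) ^ 2)⁻¹ := by
    have hev : deriv (fun x => Real.log (1 - x)) =ᶠ[𝓝 (‖z‖ ^ 2)] fun x => -(1 - x)⁻¹ := by
      have hopen : ∀ᶠ x in 𝓝 (‖z‖ ^ 2), 1 - x ≠ 0 := by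
        have : ContinuousAt (fun x : ℝ => 1 - x) (‖z‖ ^ 2) := by fun_prop
        exact this.eventually_ne hpos.ne'
      filter_upwards [hopen] with x hx using (hd x hx).deriv
    rw [hev.deriv_eq]
    have h1 : HasDerivAt (fun x : ℝ => 1 - x) (-1) (‖z‖ ^ 2) := (hasDerivAt_id _).const_sub 1
    have h2 := ((h1.inv hpos.ne').neg).deriv
    have h3 : deriv (fun x : ℝ => -(1 - x)⁻¹) (‖z‖ ^ 2) = -(-(-1) / (1 - ‖z‖ ^ 2) ^ 2) := h2
    rw [h3]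
    ring
  obtain ⟨h1, h2⟩ := LBx.main hCH (analyticAt_id (𝕜 := ℂ) (z := z)) (fun x => Real.log (1 - x)) hc
  refine ⟨h1, ?_⟩
  have h4 : Lap (fun w : ℂ => Real.log (1 - ‖w‖ ^ 2)) z = deriv (fun x => Real.log (1 - x)) (‖z‖ ^ 2) *
      (4 * ‖deriv (id : ℂ → ℂ) z‖ ^ 2) + deriv (deriv (fun x => Real.log (1 - x))) (‖z‖ ^ 2) *
      (4 * ‖z‖ ^ 2 * ‖deriv (id : ℂ → ℂ) z‖ ^ 2) := h2
  rw [h4, hdd, (hd _ hpos.ne').deriv, deriv_id, norm_one]
  field_simp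
  ring

end Pool.Agent.H792R2.SS
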