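import Pool.Agent.H792R2.SS.Defs

set_option autoImplicit false
open Set Filter Topology Metric MeasureTheory

namespace Pool.Agent.H792R2.SS

namespace LLwx

lemma isOpen_HP : IsOpen HP := by
  have : HP = Complex.im ⁻¹' Ioi 0 := rfl
  rw [this]
  exact isOpen_Ioi.preimage Complex.continuous_im

lemma convex_HP : Convex ℝ HP := by
  have : HP = Complex.imCLM ⁻¹' Ioi 0 := rfl
  rw [this]
  exact (convex_Ioi (0 : ℝ)).linear_preimage Complex.imCLM.toLinearMap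

lemma I_mem : Complex.I ∈ HP := by
  show (0 : ℝ) < Complex.I.im
  simp

/-- affine zero-free functions on the half plane -/
lemma affine_bound {G : ℂ → ℂ} (hG : DifferentiableOn ℂ G HP) (hG0 : ∀ w ∈ HP, G w ≠ 0) (a : ℂ)
    (ha : ∀ w ∈ HP, deriv G w = a) :
    ‖-Complex.I * (deriv G Complex.I / G Complex.I) + 1‖ ≤ 1 := by
  have h1 : ∀ w ∈ HP, G w = G Complex.I + a * (w - Complex.I) := by
    intro w hw
    have hd : DifferentiableOn ℂ (fun w => G w - a * w) HP :=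
      hG.sub ((differentiable_id.const_mul a).differentiableOn)
    have hz : HP.EqOn (deriv (fun w => G w - a * w)) 0 := by
      intro z hz
      have h1 : HasDerivAt G a z := by
        rw [← ha z hz]
        exact (hG.differentiableAt (isOpen_HP.mem_nhds hz)).hasDerivAt
      have h2 : HasDerivAt (fun w => G w - a * w) (a - a * 1) z :=
        h1.sub ((hasDerivAt_id z).const_mul a)
      rw [h2.deriv]
      show a - a * 1 = 0
      ring
    have h := isOpen_HP.is_const_of_deriv_eq_zero convex_HP.isPreconnected hd hz hw I_mem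
    have h' : G w - a * w = G Complex.I - a * Complex.I := h
    linear_combination h'
  rw [ha _ I_mem]
  by_cases ha0 : a = 0
  · rw [ha0]
    simp
  · set q : ℂ := G Complex.I / a with hq
    have hGI : G Complex.I ≠ 0 := hG0 _ I_mem
    have hq0 : q ≠ 0 := div_ne_zero hGI ha0
    have him : 1 ≤ q.im := by
      by_contra hlt
      push Not at hlt
      have hmem : Complex.I - q ∈ HP := by
        show 0 < (Complex.I - q).im
        simp
        exact hlt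
      apply hG0 _ hmem
      rw [h1 _ hmem, hq]
      field_simp
      ring
    have h2 : a / G Complex.I = q⁻¹ := by
      rw [hq, inv_div]
    have h3 : -Complex.I * (a / G Complex.I) + 1 = (q - Complex.I) / q := by
      rw [h2]
      field_simp
      ring
    rw [h3, norm_div, div_le_one (norm_pos_iff.mpr hq0)]
    rw [← abs_of_nonneg (norm_nonneg (q - Complex.I)), ← abs_of_nonneg (norm_nonneg q)]
    apply sq_le_sq.mp
    rw [← Complex.normSq_eq_norm_sq, ← Complex.normSq_eq_norm_sq, Complex.normSq_apply,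
      Complex.normSq_apply]
    simp
    nlinarith

end LLwx

theorem t_LLw (hCPT : S_CPT) (hG : S_G) : S_LLw := by
  intro K
  by_contra hcon
  push Not at hcon
  have hn : ∀ n : ℕ, (0 : ℝ) < 1 / ((n : ℝ) + 1) := fun n => by positivity
  have hn1 : ∀ n : ℕ, (1 : ℝ) ≤ (n : ℝ) + 1 := fun n => by
    have : (0 : ℝ) ≤ n := Nat.cast_nonneg n
    linarith
  choose d F hd0 hdn hNN hlog h98 hw using fun n : ℕ =>
    hcon ((n : ℝ) + 1) (1 / ((n : ℝ) + 1)) (1 / ((n : ℝ) + 1)) (hn1 n) (hn n) (hn n)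
  set 𝒰 : Ultrafilter ℕ := Ultrafilter.of atTop with h𝒰
  have h𝒰le : (𝒰 : Filter ℕ) ≤ atTop := Ultrafilter.of_le atTop
  have hlim1 : Tendsto (fun n : ℕ => 1 / ((n : ℝ) + 1)) atTop (𝓝 0) :=
    tendsto_one_div_add_atTop_nhds_zero_nat
  have hd : Tendsto d atTop (𝓝 0) :=
    squeeze_zero (fun n => (hd0 n).le) (fun n => (hdn n).le) hlim1
  obtain ⟨G, hGd, hG0, hG1, hT0, hT1, hT2⟩ := hCPT K d F 𝒰 h𝒰le hd0 hd hNN hlog
  have hdU : Tendsto d 𝒰 (𝓝 0) := hd.mono_left h𝒰le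
  have hGd1 : DifferentiableOn ℂ (deriv G) HP := hGd.deriv LLwx.isOpen_HP
  have hGd2 : DifferentiableOn ℂ (deriv (deriv G)) HP := hGd1.deriv LLwx.isOpen_HP
  -- limit at `I`
  have hlim : (9 : ℝ) / 8 ≤ ‖-Complex.I * (deriv G Complex.I / G Complex.I) + 1‖ ^ 2 := by
    have hF0 : Tendsto (fun n => F n Complex.I) 𝒰 (𝓝 (G Complex.I)) := hT0.tendsto_at LLwx.I_mem
    have hF1 : Tendsto (fun n => deriv (F n) Complex.I) 𝒰 (𝓝 (deriv G Complex.I)) :=
      hT1.tendsto_at LLwx.I_mem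
    have hdC : Tendsto (fun n => ((1 - d n / 2 : ℝ) : ℂ)) 𝒰 (𝓝 ((1 : ℝ) : ℂ)) := by
      apply (Complex.continuous_ofReal.tendsto _).comp
      have := (hdU.div_const 2).const_sub 1
      simpa using this
    have hdC' : Tendsto (fun n => ((1 - d n : ℝ) : ℂ)) 𝒰 (𝓝 ((1 : ℝ) : ℂ)) := by
      apply (Complex.continuous_ofReal.tendsto _).comp
      have := hdU.const_sub 1
      simpa using this
    have h1 : Tendsto (fun n => ‖((1 - d n / 2 : ℝ) : ℂ) * (-Complex.I) *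
        (deriv (F n) Complex.I / F n Complex.I) + ((1 - d n : ℝ) : ℂ)‖ ^ 2) 𝒰
        (𝓝 (‖((1 : ℝ) : ℂ) * (-Complex.I) * (deriv G Complex.I / G Complex.I) +
          ((1 : ℝ) : ℂ)‖ ^ 2)) :=
      ((((hdC.mul_const (-Complex.I)).mul (hF1.div hF0 (hG0 _ LLwx.I_mem))).add hdC').norm).pow 2
    have h2 := ge_of_tendsto' h1 h98
    simpa using h2
  -- the health condition for `G`
  have hhealth : ∀ w₀ ∈ HP, 1 / 32 * ‖deriv G w₀‖ * ‖deriv G w₀ - 1‖ ≤
      w₀.im * ‖deriv (deriv G) w₀‖ * Real.sqrt (1 + ‖deriv G w₀‖ ^ 2) := by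
    intro w₀ hw₀
    choose w hwb hwi using fun n => hw n w₀
    have hwlim : Tendsto w atTop (𝓝 w₀) := by
      rw [tendsto_iff_dist_tendsto_zero]
      exact squeeze_zero (fun n => dist_nonneg) (fun n => (mem_ball.mp (hwb n)).le) hlim1
    have hwim : Tendsto (fun n => (w n).im) atTop (𝓝 w₀.im) :=
      (Complex.continuous_im.tendsto _).comp hwlim
    have hwnorm : Tendsto (fun n => ‖w n‖) atTop (𝓝 ‖w₀‖) := hwlim.norm
    have hw₀' : 0 < w₀.im := hw₀
    have e1 : ∀ᶠ n : ℕ in atTop, ‖w n‖ ≤ (n : ℝ) + 1 := by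
      have h1 : ∀ᶠ n in atTop, ‖w n‖ < ‖w₀‖ + 1 := hwnorm.eventually_lt_const (by linarith)
      have h2 : ∀ᶠ n : ℕ in atTop, ‖w₀‖ ≤ (n : ℝ) := tendsto_natCast_atTop_atTop.eventually_ge_atTop _
      filter_upwards [h1, h2] with n a b
      linarith
    have e2 : ∀ᶠ n : ℕ in atTop, 1 / ((n : ℝ) + 1) ≤ (w n).im := by
      have h1 : ∀ᶠ n in atTop, w₀.im / 2 < (w n).im := hwim.eventually_const_lt (by linarith)
      have h2 : ∀ᶠ n : ℕ in atTop, 1 / ((n : ℝ) + 1) < w₀.im / 2 :=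
        hlim1.eventually_lt_const (by linarith)
      filter_upwards [h1, h2] with n a b
      linarith
    have e3 : ∀ᶠ n in atTop, ‖w n‖ ^ 2 * d n < 2 * (w n).im := by
      have h1 : Tendsto (fun n => ‖w n‖ ^ 2 * d n) atTop (𝓝 (‖w₀‖ ^ 2 * 0)) :=
        (hwnorm.pow 2).mul hd
      have h2 : Tendsto (fun n => 2 * (w n).im) atTop (𝓝 (2 * w₀.im)) := hwim.const_mul 2
      have h3 : ‖w₀‖ ^ 2 * 0 < 2 * w₀.im := by
        rw [mul_zero]
        linarith
      exact h1.eventually_lt h2 h3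
    have e4 : ∀ᶠ n in (𝒰 : Filter ℕ), 1 / 32 * ‖deriv (F n) (w n)‖ * ‖deriv (F n) (w n) - 1‖ ≤
        ((w n).im - d n * ‖w n‖ ^ 2 / 2) * ‖deriv (deriv (F n)) (w n)‖ *
          Real.sqrt (1 + ‖deriv (F n) (w n)‖ ^ 2) := by
      filter_upwards [h𝒰le e1, h𝒰le e2, h𝒰le e3] with n a b c
      exact (hwi n a b c).le
    have hwU : Tendsto w 𝒰 (𝓝[HP] w₀) := by
      rw [LLwx.isOpen_HP.nhdsWithin_eq hw₀]
      exact hwlim.mono_left h𝒰le
    have l1 : Tendsto (fun n => deriv (F n) (w n)) 𝒰 (𝓝 (deriv G w₀)) :=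
      hT1.tendsto_comp (hGd1.continuousOn _ hw₀) hw₀ hwU
    have l2 : Tendsto (fun n => deriv (deriv (F n)) (w n)) 𝒰 (𝓝 (deriv (deriv G) w₀)) :=
      hT2.tendsto_comp (hGd2.continuousOn _ hw₀) hw₀ hwU
    have l3 : Tendsto (fun n => (w n).im - d n * ‖w n‖ ^ 2 / 2) 𝒰 (𝓝 w₀.im) := by
      have h1 : Tendsto (fun n => (w n).im - d n * ‖w n‖ ^ 2 / 2) atTop
          (𝓝 (w₀.im - 0 * ‖w₀‖ ^ 2 / 2)) :=
        hwim.sub ((hd.mul (hwnorm.pow 2)).div_const 2)
      have h2 : w₀.im - 0 * ‖w₀‖ ^ 2 / 2 = w₀.im := by ring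
      rw [h2] at h1
      exact h1.mono_left h𝒰le
    have lL : Tendsto (fun n => 1 / 32 * ‖deriv (F n) (w n)‖ * ‖deriv (F n) (w n) - 1‖) 𝒰
        (𝓝 (1 / 32 * ‖deriv G w₀‖ * ‖deriv G w₀ - 1‖)) :=
      (l1.norm.const_mul _).mul (l1.sub_const 1).norm
    have lR : Tendsto (fun n => ((w n).im - d n * ‖w n‖ ^ 2 / 2) * ‖deriv (deriv (F n)) (w n)‖ *
          Real.sqrt (1 + ‖deriv (F n) (w n)‖ ^ 2)) 𝒰
        (𝓝 (w₀.im * ‖deriv (deriv G) w₀‖ * Real.sqrt (1 + ‖deriv G w₀‖ ^ 2))) :=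
      (l3.mul l2.norm).mul ((Real.continuous_sqrt.tendsto _).comp ((l1.norm.pow 2).const_add 1))
    exact le_of_tendsto_of_tendsto lL lR e4
  -- `G'` is constant
  have hconst : ∃ a : ℂ, ∀ w ∈ HP, deriv G w = a := by
    rcases hG1 with h | h
    · exact ⟨1, h⟩
    · exact hG G (1 / 32) (by norm_num) hGd hG0 h hhealth
  obtain ⟨a, ha⟩ := hconst
  have hb := LLwx.affine_bound hGd hG0 a ha
  have hb2 : ‖-Complex.I * (deriv G Complex.I / G Complex.I) + 1‖ ^ 2 ≤ 1 ^ 2 :=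
    pow_le_pow_left₀ (norm_nonneg _) hb 2
  have h3 : (9 : ℝ) / 8 ≤ 1 ^ 2 := hlim.trans hb2
  norm_num at h3

end Pool.Agent.H792R2.SS
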