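import Pool.Agent.H792R2.SS.Defs

set_option autoImplicit false
open Set Filter Topology Metric MeasureTheory

namespace Pool.Agent.H792R2.SS.LLzx

/-- the coordinate change -/
noncomputable def ph (ζ : ℂ) (d : ℝ) (w : ℂ) : ℂ := ζ * (1 + Complex.I * d * w)

noncomputable def FF (f : ℂ → ℂ) (ζ : ℂ) (d : ℝ) (w : ℂ) : ℂ := f (ph ζ d w) / (Complex.I * ζ * d)

lemma ph_deriv (ζ : ℂ) (d : ℝ) (w : ℂ) : HasDerivAt (ph ζ d) (Complex.I * ζ * d) w := by
  have h : HasDerivAt (fun w : ℂ => ζ * (1 + Complex.I * d * w)) (ζ * (Complex.I * d * 1)) w :=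
    (((hasDerivAt_id w).const_mul (Complex.I * (d : ℂ))).const_add 1).const_mul ζ
  have e : ζ * (Complex.I * d * 1) = Complex.I * ζ * d := by ring
  rw [e] at h
  exact h

lemma ph_norm {ζ : ℂ} {d : ℝ} (hζ : ‖ζ‖ = 1) (hd : 0 < d) (w : ℂ) :
    ‖ph ζ d w‖ = d * ‖w - Complex.I / (d : ℂ)‖ := by
  have hd' : (d : ℂ) ≠ 0 := by exact_mod_cast hd.ne'
  have : (1 + Complex.I * d * w) = Complex.I * d * (w - Complex.I / (d : ℂ)) := by
    field_simp
    linear_combination Complex.I_sq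
  unfold ph
  rw [this, norm_mul, norm_mul, norm_mul, hζ, Complex.norm_I, Complex.norm_real,
    Real.norm_of_nonneg hd.le]
  ring

lemma ph_mem {ζ : ℂ} {d : ℝ} (hζ : ‖ζ‖ = 1) (hd : 0 < d) (w : ℂ) :
    ph ζ d w ∈ ball (0 : ℂ) 1 ↔ w ∈ ball (Complex.I / (d : ℂ)) (1 / d) := by
  rw [mem_ball_zero_iff, ph_norm hζ hd, mem_ball, dist_eq_norm, lt_div_iff₀ hd, mul_comm]

lemma ph_sq {ζ : ℂ} {d : ℝ} (hζ : ‖ζ‖ = 1) (w : ℂ) :
    1 - ‖ph ζ d w‖ ^ 2 = 2 * d * (w.im - d * ‖w‖ ^ 2 / 2) := by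
  unfold ph
  rw [norm_mul, hζ, one_mul, Complex.sq_norm, Complex.sq_norm]
  simp only [Complex.normSq_apply, Complex.add_re, Complex.add_im, Complex.one_re, Complex.one_im,
    Complex.mul_re, Complex.mul_im, Complex.I_re, Complex.I_im, Complex.ofReal_re,
    Complex.ofReal_im]
  ring

lemma FF_deriv {f : ℂ → ℂ} {ζ : ℂ} {d : ℝ} (hf : DifferentiableOn ℂ f (ball 0 1)) (hζ : ‖ζ‖ = 1)
    (hd : 0 < d) {w : ℂ} (hw : w ∈ ball (Complex.I / (d : ℂ)) (1 / d)) :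
    HasDerivAt (FF f ζ d) (deriv f (ph ζ d w)) w := by
  have hd' : (d : ℂ) ≠ 0 := by exact_mod_cast hd.ne'
  have hζ' : ζ ≠ 0 := by rintro rfl; simp at hζ
  have h1 : HasDerivAt f (deriv f (ph ζ d w)) (ph ζ d w) :=
    (hf.differentiableAt (isOpen_ball.mem_nhds ((ph_mem hζ hd w).2 hw))).hasDerivAt
  have h2 := (h1.comp w (ph_deriv ζ d w)).div_const (Complex.I * ζ * d)
  have e : deriv f (ph ζ d w) * (Complex.I * ζ * d) / (Complex.I * ζ * d) =
      deriv f (ph ζ d w) := by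
    rw [mul_div_assoc, div_self, mul_one]
    exact mul_ne_zero (mul_ne_zero Complex.I_ne_zero hζ') hd'
  rw [e] at h2
  exact h2

lemma FF_deriv2 {f : ℂ → ℂ} {ζ : ℂ} {d : ℝ} (hf : DifferentiableOn ℂ f (ball 0 1))
    (hζ : ‖ζ‖ = 1) (hd : 0 < d) {w : ℂ} (hw : w ∈ ball (Complex.I / (d : ℂ)) (1 / d)) :
    deriv (deriv (FF f ζ d)) w = deriv (deriv f) (ph ζ d w) * (Complex.I * ζ * d) := by
  have h0 : deriv (FF f ζ d) =ᶠ[𝓝 w] fun w => deriv f (ph ζ d w) := by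
    filter_upwards [isOpen_ball.mem_nhds hw] with x hx
    exact (FF_deriv hf hζ hd hx).deriv
  rw [h0.deriv_eq]
  have h1 : HasDerivAt (deriv f) (deriv (deriv f) (ph ζ d w)) (ph ζ d w) :=
    ((hf.deriv isOpen_ball).differentiableAt
      (isOpen_ball.mem_nhds ((ph_mem hζ hd w).2 hw))).hasDerivAt
  exact (h1.comp w (ph_deriv ζ d w)).deriv

end Pool.Agent.H792R2.SS.LLzx

namespace Pool.Agent.H792R2.SS

open LLzx in
theorem t_LLz (hLLw : S_LLw) : S_LLz := by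
  intro K
  obtain ⟨Q, r₀, d₀, hQ, hr₀, hd₀, H⟩ := hLLw (K + 1)
  have hQ0 : 0 < Q := by linarith
  refine ⟨2 * Q, r₀, min (min d₀ (1 / Q ^ 3)) (1 / 2), by linarith, hr₀,
    lt_min (lt_min hd₀ (by positivity)) (by norm_num),
    (min_le_right _ _).trans_lt (by norm_num), ?_⟩
  intro f hf z hbad hzd hz1
  set d : ℝ := 1 - ‖z‖ with hd_def
  have hd : 0 < d := by linarith
  have hd1 : d < d₀ := hzd.trans_le ((min_le_left _ _).trans (min_le_left _ _))
  have hd2 : d < 1 / Q ^ 3 := hzd.trans_le ((min_le_left _ _).trans (min_le_right _ _))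
  have hd3 : d < 1 / 2 := hzd.trans_le (min_le_right _ _)
  have hzn : ‖z‖ = 1 - d := by rw [hd_def]; ring
  have hz0 : (‖z‖ : ℂ) ≠ 0 := by
    have : ‖z‖ ≠ 0 := by rw [hzn]; linarith
    exact_mod_cast this
  have hd' : (d : ℂ) ≠ 0 := by exact_mod_cast hd.ne'
  set ζ : ℂ := z / (‖z‖ : ℂ) with hζ_def
  have hζ : ‖ζ‖ = 1 := by
    rw [hζ_def, norm_div, Complex.norm_real, norm_norm, div_self]
    exact_mod_cast hz0
  have hζ0 : ζ ≠ 0 := by intro h; rw [h] at hζ; simp at hζ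
  have hzζ : z = ζ * (1 - d) := by
    have : ((1 : ℂ) - d) = (‖z‖ : ℂ) := by rw [hzn]; push_cast; ring
    rw [this, hζ_def]; field_simp
  have hphI : ph ζ d Complex.I = z := by
    rw [hzζ]; unfold ph
    linear_combination ζ * (d : ℂ) * Complex.I_sq
  have hIb : Complex.I ∈ ball (Complex.I / (d : ℂ)) (1 / d) := by
    rw [← ph_mem hζ hd, hphI, mem_ball_zero_iff]; exact hz1
  have hzb : z ∈ ball (0 : ℂ) 1 := mem_ball_zero_iff.2 hz1
  have hc : Complex.I * ζ * d ≠ 0 := mul_ne_zero (mul_ne_zero Complex.I_ne_zero hζ0) hd'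
  have hcn : ‖Complex.I * ζ * d‖ = d := by
    rw [norm_mul, norm_mul, hζ, Complex.norm_I, Complex.norm_real, Real.norm_of_nonneg hd.le]
    ring
  have hNN : NN (FF f ζ d) (Complex.I / (d : ℂ)) (1 / d) := by
    refine ⟨fun w hw => (FF_deriv hf.1 hζ hd hw).differentiableAt.differentiableWithinAt, ?_, ?_⟩
    · intro w hw
      exact div_ne_zero (hf.2.1 _ ((ph_mem hζ hd w).2 hw)) hc
    · intro w hw
      rw [(FF_deriv hf.1 hζ hd hw).deriv]
      exact hf.2.2 _ ((ph_mem hζ hd w).2 hw)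
  have hfz : 0 < ‖f z‖ := norm_pos_iff.2 (hf.2.1 z hzb)
  have hlog : |Real.log ‖FF f ζ d Complex.I‖| ≤ K + 1 := by
    have e1 : ‖FF f ζ d Complex.I‖ = ‖f z‖ / d := by
      unfold FF; rw [hphI, norm_div, hcn]
    have e2 : Real.log ‖FF f ζ d Complex.I‖ = UU f z + Real.log (2 - d) := by
      rw [e1, Real.log_div hfz.ne' hd.ne']
      unfold UU
      have : 1 - ‖z‖ ^ 2 = d * (2 - d) := by rw [hzn]; ring
      rw [this, Real.log_mul hd.ne' (by linarith)]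
      ring
    have h3 : 0 ≤ Real.log (2 - d) := Real.log_nonneg (by linarith)
    have h4 : Real.log (2 - d) ≤ 1 := by
      have := Real.log_le_sub_one_of_pos (show 0 < 2 - d by linarith)
      linarith
    rw [e2]
    have := abs_le.1 hbad.1
    rw [abs_le]
    constructor <;> linarith
  have hg : 9 / 8 ≤ ‖((1 - d / 2 : ℝ) : ℂ) * (-Complex.I) * (deriv (FF f ζ d) Complex.I /
      FF f ζ d Complex.I) + ((1 - d : ℝ) : ℂ)‖ ^ 2 := by
    have e1 : deriv (FF f ζ d) Complex.I = deriv f z := by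
      rw [(FF_deriv hf.1 hζ hd hIb).deriv, hphI]
    have e2 : FF f ζ d Complex.I = f z / (Complex.I * ζ * d) := by unfold FF; rw [hphI]
    have e3 : gU f z = ‖((1 - d / 2 : ℝ) : ℂ) * (-Complex.I) * (deriv (FF f ζ d) Complex.I /
        FF f ζ d Complex.I) + ((1 - d : ℝ) : ℂ)‖ := by
      rw [e1, e2]
      have h5 : (starRingEnd ℂ) ζ * ζ = 1 := by
        rw [mul_comm, Complex.mul_conj, Complex.normSq_eq_norm_sq, hζ]; simp
      have h6 : (((1 - ‖z‖ ^ 2) / 2 : ℝ) : ℂ) * (deriv f z / f z) + (starRingEnd ℂ) z =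
        (starRingEnd ℂ) ζ * (((1 - d / 2 : ℝ) : ℂ) * (-Complex.I) *
          (deriv f z / (f z / (Complex.I * ζ * d))) + ((1 - d : ℝ) : ℂ)) := by
        have h7 : (1 - ‖z‖ ^ 2) / 2 = d * (1 - d / 2) := by rw [hzn]; ring
        have h8 : (starRingEnd ℂ) z = (starRingEnd ℂ) ζ * (1 - d) := by
          rw [hzζ, map_mul, map_sub, Complex.conj_ofReal, map_one]
        have h9 : deriv f z / (f z / (Complex.I * ζ * d)) =
            deriv f z / f z * (Complex.I * ζ * d) := by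
          rw [div_div_eq_mul_div, mul_div_right_comm]
        rw [h7, h8, h9]
        push_cast
        linear_combination (-(deriv f z / f z) * d * (1 - d / 2)) * h5 +
          ((starRingEnd ℂ) ζ * (1 - d / 2) * (deriv f z / f z) * ζ * d) * Complex.I_sq
      unfold gU
      rw [h6, norm_mul, RCLike.norm_conj, hζ, one_mul]
    rw [← e3]
    exact hbad.2
  obtain ⟨w', hw'⟩ := H d (FF f ζ d) hd hd1 hNN hlog hg
  refine ⟨ph ζ d w', ?_⟩
  intro x hx
  obtain ⟨w, rfl⟩ : ∃ w, x = ph ζ d w := by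
    refine ⟨(x / ζ - 1) / (Complex.I * d), ?_⟩
    unfold ph
    have := Complex.I_ne_zero
    field_simp
    ring
  have hsub : ∀ a b, ph ζ d a - ph ζ d b = (Complex.I * ζ * d) * (a - b) := by
    intro a b; unfold ph; ring
  have hww : w ∈ ball w' r₀ := by
    rw [mem_ball, dist_eq_norm, hsub, norm_mul, hcn, mul_comm] at hx
    rw [mem_ball, dist_eq_norm]
    exact lt_of_mul_lt_mul_right hx hd.le
  obtain ⟨a1, a2, a3, a4⟩ := hw' w hww
  have hsq := ph_sq (d := d) hζ w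
  have hpos : 0 < w.im - d * ‖w‖ ^ 2 / 2 := by linarith
  have hxn : ‖ph ζ d w‖ < 1 := by
    have : 0 < 1 - ‖ph ζ d w‖ ^ 2 := by rw [hsq]; positivity
    nlinarith [norm_nonneg (ph ζ d w)]
  have hwb : w ∈ ball (Complex.I / (d : ℂ)) (1 / d) := by
    rw [← ph_mem hζ hd, mem_ball_zero_iff]; exact hxn
  refine ⟨?_, ?_, ?_⟩
  · have : ph ζ d w - z = (Complex.I * ζ * d) * (w - Complex.I) := by
      rw [← hsub, hphI]
    rw [this, norm_mul, hcn]
    have h10 : ‖w - Complex.I‖ ≤ Q + 1 := by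
      have := norm_sub_le w Complex.I
      rw [Complex.norm_I] at this
      linarith
    nlinarith
  · have h11 : ‖w‖ ^ 2 ≤ Q ^ 2 := pow_le_pow_left₀ (norm_nonneg w) a1 2
    have h12 : d * ‖w‖ ^ 2 ≤ 1 / Q := by
      calc d * ‖w‖ ^ 2 ≤ (1 / Q ^ 3) * Q ^ 2 := by gcongr
        _ = 1 / Q := by field_simp
    have h13 : 1 / (2 * Q) ≤ w.im - d * ‖w‖ ^ 2 / 2 := by
      have : 1 / (2 * Q) = 1 / Q - (1 / Q) / 2 := by field_simp; ring
      linarith
    have h14 : 1 - ‖ph ζ d w‖ ^ 2 ≤ 2 * (1 - ‖ph ζ d w‖) := by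
      nlinarith [norm_nonneg (ph ζ d w)]
    have h15 : d / (2 * Q) = d * (1 / (2 * Q)) := by ring
    rw [h15]
    rw [hsq] at h14
    nlinarith
  · unfold unh
    rw [hsq]
    rw [FF_deriv2 hf.1 hζ hd hwb, (FF_deriv hf.1 hζ hd hwb).deriv, norm_mul, hcn] at a4
    calc 2 * d * (w.im - d * ‖w‖ ^ 2 / 2) / 2 * ‖deriv (deriv f) (ph ζ d w)‖ *
          Real.sqrt (1 + ‖deriv f (ph ζ d w)‖ ^ 2) =
        (w.im - d * ‖w‖ ^ 2 / 2) * (‖deriv (deriv f) (ph ζ d w)‖ * d) *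
          Real.sqrt (1 + ‖deriv f (ph ζ d w)‖ ^ 2) := by ring
      _ ≤ _ := a4

end Pool.Agent.H792R2.SS
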