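import Pool.Agent.H792R2.SS.Defs

/-!
# LOG: holomorphic logarithm on convex sets
-/

set_option autoImplicit false
open Set Filter Topology Metric MeasureTheory

namespace Pool.Agent.H792R2.SS

theorem t_LOG : S_LOG := by
  intro Ω f hΩ hconv hd hne
  rcases Ω.eq_empty_or_nonempty with rfl | hnonempty
  · exact ⟨f, differentiableOn_empty, fun z hz => absurd hz (notMem_empty z)⟩
  have hc : ContractibleSpace Ω := hconv.contractibleSpace hnonempty
  have hs : IsSimplyConnected Ω := by
    unfold IsSimplyConnected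
    infer_instance
  obtain ⟨g, hgc, hg⟩ := Complex.exists_continuousOn_eqOn_exp_comp hs hΩ hd.continuousOn (by
    rintro ⟨z, hz, h0⟩
    exact hne z hz h0)
  have hg' : ∀ z ∈ Ω, Complex.exp (g z) = f z := fun z hz => hg hz
  refine ⟨g, ?_, hg'⟩
  intro z₀ hz₀
  have hnhds := hΩ.mem_nhds hz₀
  have hgca : ContinuousAt g z₀ := hgc.continuousAt hnhds
  have hfd : DifferentiableAt ℂ f z₀ := hd.differentiableAt hnhds
  have hev : g =ᶠ[𝓝 z₀] fun z => g z₀ + Complex.log (f z / f z₀) := by
    have h1 : ∀ᶠ z in 𝓝 z₀, ‖g z - g z₀‖ < 1 := by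
      have := (hgca.sub continuousAt_const).norm (f := fun z => g z - g z₀)
      have h2 : Tendsto (fun z => ‖g z - g z₀‖) (𝓝 z₀) (𝓝 ‖g z₀ - g z₀‖) := this
      rw [sub_self, norm_zero] at h2
      exact h2.eventually (gt_mem_nhds one_pos)
    filter_upwards [h1, hnhds] with z hz hzΩ
    have him : |(g z - g z₀).im| < Real.pi := by
      have h3 := Complex.abs_im_le_norm (g z - g z₀)
      have h4 := Real.pi_gt_three
      linarith
    rw [← hg' z hzΩ, ← hg' z₀ hz₀, ← Complex.exp_sub, Complex.log_exp (abs_lt.1 him).1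
      (abs_lt.1 him).2.le]
    ring
  have hdiff : DifferentiableAt ℂ (fun z => g z₀ + Complex.log (f z / f z₀)) z₀ := by
    apply DifferentiableAt.const_add
    apply DifferentiableAt.clog
    · exact hfd.div_const _
    · rw [div_self (hne z₀ hz₀)]
      exact Complex.one_mem_slitPlane
  exact (hev.differentiableAt_iff.2 hdiff).differentiableWithinAt

end Pool.Agent.H792R2.SS
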