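import Pool.Agent.H792R2.SS.Defs

/-!
# LU: hyperbolic Laplacian of functions of U
-/

set_option autoImplicit false
open Set Filter Topology Metric MeasureTheory

namespace Pool.Agent.H792R2.SS.LUx

/-- the functional v ↦ Re (v b) -/
noncomputable def Lb (b : ℂ) : ℂ →L[ℝ] ℝ :=
  Complex.reCLM ∘L ((ContinuousLinearMap.toSpanSingleton ℂ b).restrictScalars ℝ)

theorem Lb_apply (b v : ℂ) : Lb b v = (v * b).re := by
  simp [Lb]

theorem norm_Lb (b : ℂ) : ‖Lb b‖ = ‖b‖ := by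
  apply le_antisymm
  · apply ContinuousLinearMap.opNorm_le_bound _ (norm_nonneg b)
    intro v
    rw [Lb_apply, Real.norm_eq_abs]
    refine (Complex.abs_re_le_norm _).trans ?_
    rw [norm_mul, mul_comm]
  · by_cases hb : b = 0
    · simp [hb]
    · have hn : 0 < ‖b‖ := norm_pos_iff.mpr hb
      have h1 := (Lb b).le_opNorm ((starRingEnd ℂ) b)
      rw [Lb_apply, Complex.conj_mul', Complex.norm_conj] at h1
      have h2 : (((‖b‖ : ℂ)) ^ 2).re = ‖b‖ ^ 2 := by
        norm_cast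
      rw [h2, Real.norm_of_nonneg (by positivity)] at h1
      nlinarith

theorem deriv_logf (f : ℂ → ℂ) (z : ℂ) (hf : DifferentiableAt ℂ f z) (h0 : f z ≠ 0) :
    HasFDerivAt (fun w => Real.log ‖f w‖) (Lb (deriv f z / f z)) z := by
  have h1 : HasDerivAt (fun w => f w / f z) (deriv f z / f z) z := hf.hasDerivAt.div_const _
  have h2 : HasDerivAt (fun w => Complex.log (f w / f z)) (deriv f z / f z) z := by
    have h3 : f z / f z ∈ Complex.slitPlane := by
      rw [div_self h0]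
      exact Complex.one_mem_slitPlane
    have h4 := h1.clog h3
    rw [div_self h0, div_one] at h4
    exact h4
  have h5 : HasFDerivAt (fun w => (Complex.log (f w / f z)).re) (Lb (deriv f z / f z)) z := by
    have h6 := (h2.hasFDerivAt).restrictScalars ℝ
    have h7 := Complex.reCLM.hasFDerivAt.comp z h6
    exact h7
  have h8 : HasFDerivAt (fun w => (Complex.log (f w / f z)).re + Real.log ‖f z‖)
      (Lb (deriv f z / f z)) z := h5.add_const _
  apply h8.congr_of_eventuallyEq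
  have h9 : ∀ᶠ w in 𝓝 z, f w ≠ 0 := hf.continuousAt.eventually_ne h0
  filter_upwards [h9] with w hw
  rw [Complex.log_re, norm_div, Real.log_div (norm_ne_zero_iff.mpr hw) (norm_ne_zero_iff.mpr h0)]
  ring

theorem deriv_logd (z : ℂ) (hz : ‖z‖ < 1) :
    HasFDerivAt (fun w : ℂ => Real.log (1 - ‖w‖ ^ 2))
      (-(Lb ((starRingEnd ℂ) z * ((2 / (1 - ‖z‖ ^ 2) : ℝ) : ℂ)))) z := by
  have hd : 0 < 1 - ‖z‖ ^ 2 := by nlinarith [norm_nonneg z]
  have h1 := (hasStrictFDerivAt_norm_sq z).hasFDerivAt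
  have h2 := h1.const_sub 1
  have h3 := h2.log hd.ne'
  refine h3.congr_fderiv ?_
  obtain ⟨c, hc⟩ : ∃ c : ℝ, c = 2 / (1 - ‖z‖ ^ 2) := ⟨_, rfl⟩
  rw [← hc]
  have hc2 : c = 2 * (1 - ‖z‖ ^ 2)⁻¹ := by rw [hc, div_eq_mul_inv]
  ext v
  simp [Lb_apply]
  rw [hc2]
  ring

end Pool.Agent.H792R2.SS.LUx

namespace Pool.Agent.H792R2.SS

open LUx

theorem t_LU (hCH : S_CH) (hLD : S_LD) : S_LU := by
  intro f φ hf h0 hφ
  have key : ∀ z ∈ ball (0 : ℂ) 1, ContDiffAt ℝ 2 (UU f) z ∧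
      Lap (UU f) z = 4 / (1 - ‖z‖ ^ 2) ^ 2 ∧
      (1 - ‖z‖ ^ 2) ^ 2 / 4 * ‖fderiv ℝ (UU f) z‖ ^ 2 = gU f z ^ 2 := by
    intro z hz
    have hz1 : ‖z‖ < 1 := by rwa [mem_ball_zero_iff] at hz
    have hd : 0 < 1 - ‖z‖ ^ 2 := by nlinarith [norm_nonneg z]
    have han : AnalyticAt ℂ f z := hf.analyticAt (isOpen_ball.mem_nhds hz)
    have hharm := han.harmonicAt_log_norm (h0 z hz)
    obtain ⟨hl1, hl2⟩ := hLD z hz1
    have hUeq : UU f = (fun w => Real.log ‖f w‖) - (fun w : ℂ => Real.log (1 - ‖w‖ ^ 2)) := by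
      funext w
      rfl
    refine ⟨?_, ?_, ?_⟩
    · rw [hUeq]
      exact hharm.1.sub hl1
    · unfold Lap
      rw [hUeq, ContDiffAt.laplacian_sub hharm.1 hl1]
      have h1 := hharm.2.self_of_nhds
      simp only [Pi.zero_apply] at h1
      rw [h1]
      unfold Lap at hl2
      rw [hl2]
      ring
    · have h2 := (deriv_logf f z han.differentiableAt (h0 z hz)).sub (deriv_logd z hz1)
      have h3 : fderiv ℝ (UU f) z = Lb (deriv f z / f z +
          (starRingEnd ℂ) z * ((2 / (1 - ‖z‖ ^ 2) : ℝ) : ℂ)) := by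
        rw [hUeq, h2.fderiv]
        ext v
        rw [ContinuousLinearMap.sub_apply, ContinuousLinearMap.neg_apply, Lb_apply, Lb_apply,
          Lb_apply, mul_add, Complex.add_re]
        ring
      rw [h3, norm_Lb]
      unfold gU
      have h4 : (((1 - ‖z‖ ^ 2) / 2 : ℝ) : ℂ) * (deriv f z / f z) + (starRingEnd ℂ) z =
          (((1 - ‖z‖ ^ 2) / 2 : ℝ) : ℂ) * (deriv f z / f z +
          (starRingEnd ℂ) z * ((2 / (1 - ‖z‖ ^ 2) : ℝ) : ℂ)) := by
        have h5 : (((1 - ‖z‖ ^ 2) / 2 : ℝ) : ℂ) * ((2 / (1 - ‖z‖ ^ 2) : ℝ) : ℂ) = 1 := by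
          rw [← Complex.ofReal_mul]
          have : (1 - ‖z‖ ^ 2) / 2 * (2 / (1 - ‖z‖ ^ 2)) = 1 := by field_simp
          rw [this, Complex.ofReal_one]
        linear_combination (-(starRingEnd ℂ) z) * h5
      rw [h4, norm_mul, Complex.norm_real, Real.norm_of_nonneg (by positivity)]
      ring
  constructor
  · intro z hz
    obtain ⟨h1, -, -⟩ := key z hz
    exact (hCH (UU f) φ z h1 hφ.contDiffAt).1.contDiffWithinAt
  · intro z hz
    have hz1 : ‖z‖ < 1 := by rwa [mem_ball_zero_iff] at hz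
    have hd : 0 < 1 - ‖z‖ ^ 2 := by nlinarith [norm_nonneg z]
    obtain ⟨h1, h2, h3⟩ := key z hz
    rw [(hCH (UU f) φ z h1 hφ.contDiffAt).2, h2, ← h3]
    field_simp

end Pool.Agent.H792R2.SS
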