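import Pool.Agent.H792R2.SS.Defs
import Pool.Agent.Helper509.Polar

/-!
# MEAN: the mean formula
-/

set_option autoImplicit false
open Set Filter Topology Metric MeasureTheory

namespace Pool.Agent.H792R2.SS.MEANx

theorem cont_lap (h : ℂ → ℝ) (hh : ContDiffOn ℝ 2 h (ball 0 1)) :
    ContinuousOn (Lap h) (ball 0 1) := by
  have h1 : ContinuousOn (iteratedFDeriv ℝ 2 h) (ball (0 : ℂ) 1) := by
    have h2 := hh.continuousOn_iteratedFDerivWithin (m := 2) (by norm_num)
      isOpen_ball.uniqueDiffOn
    refine h2.congr ?_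
    intro z hz
    exact (iteratedFDerivWithin_of_isOpen 2 isOpen_ball hz).symm
  have h3 : Lap h = fun x => iteratedFDeriv ℝ 2 h x ![1, 1] +
      iteratedFDeriv ℝ 2 h x ![Complex.I, Complex.I] := by
    have := InnerProductSpace.laplacian_eq_iteratedFDeriv_complexPlane h
    funext x
    unfold Lap
    exact congrFun this x
  rw [h3]
  apply ContinuousOn.add
  · exact (ContinuousMultilinearMap.apply ℝ (fun _ : Fin 2 => ℂ) ℝ ![1, 1]).continuous.comp_continuousOn h1
  · exact (ContinuousMultilinearMap.apply ℝ (fun _ : Fin 2 => ℂ) ℝ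
      ![Complex.I, Complex.I]).continuous.comp_continuousOn h1

theorem cont_avg (g : ℂ → ℝ) (hg : ContinuousOn g (ball 0 1)) (r : ℝ) (hr : r < 1) :
    ContinuousOn (Real.circleAverage g 0) (Icc 0 r) := by
  apply Real.ContinuousOn.circleAverage
  · apply hg.mono
    intro z hz
    simp only [mem_ofPred_eq, sub_zero, mem_Icc] at hz
    rw [mem_ball_zero_iff]
    linarith [hz.2]
  · intro t ht
    exact ht.1

/-- t * log (r / t), as a continuous function -/
theorem tlog (r t : ℝ) (hr : 0 < r) : t * Real.log (r / t) = t * Real.log r - t * Real.log t := by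
  by_cases h : t = 0
  · simp [h]
  · rw [Real.log_div hr.ne' h]
    ring

theorem cont_tlog (r : ℝ) (hr : 0 < r) : Continuous (fun t : ℝ => t * Real.log (r / t)) := by
  have h1 : (fun t : ℝ => t * Real.log (r / t)) =
      fun t => t * Real.log r - t * Real.log t := by
    funext t
    exact tlog r t hr
  rw [h1]
  have := Real.continuous_mul_log
  fun_prop

theorem ftc (hMEANa : S_MEANa) (h : ℂ → ℝ) (r : ℝ) (hh : ContDiffOn ℝ 2 h (ball 0 1))
    (hr : 0 < r) (hr1 : r < 1) :
    Real.circleAverage h 0 r =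
    h 0 + ∫ t in (0 : ℝ)..r, t * Real.log (r / t) * Real.circleAverage (Lap h) 0 t := by
  obtain ⟨m', hm1, hm2, hm3⟩ := hMEANa h hh
  obtain ⟨M, hM⟩ := hm3 r hr1
  have hcA : ContinuousOn (Real.circleAverage h 0) (Icc 0 r) :=
    cont_avg h hh.continuousOn r hr1
  have hcL : ContinuousOn (Real.circleAverage (Lap h) 0) (Icc 0 r) :=
    cont_avg (Lap h) (cont_lap h hh) r hr1
  have hder : ∀ t : ℝ, 0 < t → t < 1 →
      HasDerivAt (fun t => Real.log (r / t) * (t * m' t) + Real.circleAverage h 0 t)
      (t * Real.log (r / t) * Real.circleAverage (Lap h) 0 t) t := by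
    intro t ht0 ht1
    have h1 : HasDerivAt (fun t : ℝ => Real.log (r / t)) (-(1 / t)) t := by
      have h2 : (fun t : ℝ => Real.log (r / t)) =ᶠ[𝓝 t] fun t => Real.log r - Real.log t := by
        filter_upwards [lt_mem_nhds ht0] with s hs
        rw [Real.log_div hr.ne' hs.ne']
      have h3 : HasDerivAt (fun t : ℝ => Real.log r - Real.log t) (-(1 / t)) t := by
        have := (Real.hasDerivAt_log ht0.ne').const_sub (Real.log r)
        rw [one_div]
        exact this
      exact h3.congr_of_eventuallyEq h2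
    have h4 := (h1.mul (hm2 t ht0 ht1)).add (hm1 t ht0 ht1)
    refine h4.congr_deriv ?_
    field_simp
    ring
  have hA0 : Tendsto (Real.circleAverage h 0) (𝓝[>] 0) (𝓝 (h 0)) := by
    have h1 := hcA 0 ⟨le_refl _, hr.le⟩
    have h2 : Tendsto (Real.circleAverage h 0) (𝓝[Icc 0 r] 0) (𝓝 (Real.circleAverage h 0 0)) := h1
    rw [Real.circleAverage_zero] at h2
    refine h2.mono_left ?_
    rw [← nhdsWithin_Ioc_eq_nhdsGT hr]
    exact nhdsWithin_mono _ Ioc_subset_Icc_self
  have hB0 : Tendsto (fun t : ℝ => Real.log (r / t) * (t * m' t)) (𝓝[>] 0) (𝓝 0) := by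
    have h1 : Tendsto (fun t : ℝ => |M| * |t * Real.log (r / t)|) (𝓝[>] 0) (𝓝 0) := by
      have h2 : Continuous (fun t : ℝ => |M| * |t * Real.log (r / t)|) := by
        have := (cont_tlog r hr).abs
        exact continuous_const.mul this
      have h3 := h2.tendsto 0
      simp only [zero_mul, abs_zero, mul_zero] at h3
      exact h3.mono_left nhdsWithin_le_nhds
    refine squeeze_zero_norm' ?_ h1
    rw [← nhdsWithin_Ioc_eq_nhdsGT hr]
    filter_upwards [self_mem_nhdsWithin] with t ht
    have h4 := hM t ht.1 ht.2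
    have h5 : Real.log (r / t) * (t * m' t) = m' t * (t * Real.log (r / t)) := by ring
    rw [h5, norm_mul, Real.norm_eq_abs, Real.norm_eq_abs]
    exact mul_le_mul_of_nonneg_right (h4.trans (le_abs_self M)) (abs_nonneg _)
  have hend : Tendsto (fun t => Real.log (r / t) * (t * m' t) + Real.circleAverage h 0 t)
      (𝓝[<] r) (𝓝 (Real.circleAverage h 0 r)) := by
    have h1 := (hder r hr hr1).continuousAt.tendsto
    have h2 : Real.log (r / r) * (r * m' r) + Real.circleAverage h 0 r =
        Real.circleAverage h 0 r := by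
      rw [div_self hr.ne', Real.log_one]
      ring
    rw [h2] at h1
    exact h1.mono_left nhdsWithin_le_nhds
  have hstart : Tendsto (fun t => Real.log (r / t) * (t * m' t) + Real.circleAverage h 0 t)
      (𝓝[>] 0) (𝓝 (h 0)) := by
    have := hB0.add hA0
    rwa [zero_add] at this
  have hint : IntervalIntegrable
      (fun t => t * Real.log (r / t) * Real.circleAverage (Lap h) 0 t) volume 0 r := by
    apply ContinuousOn.intervalIntegrable
    rw [uIcc_of_le hr.le]
    exact (cont_tlog r hr).continuousOn.mul hcL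
  have key := intervalIntegral.integral_eq_sub_of_hasDerivAt_of_tendsto hr
    (fun t ht => hder t ht.1 (ht.2.trans hr1)) hint hstart hend
  rw [key]
  ring

theorem tlog_le (r t : ℝ) (hr : 0 < r) (ht : 0 < t) (htr : t < r) :
    0 ≤ Real.log (r / t) ∧ t * Real.log (r / t) ≤ r := by
  have h1 : 1 ≤ r / t := by
    rw [le_div_iff₀ ht]
    linarith
  refine ⟨Real.log_nonneg h1, ?_⟩
  have h2 : Real.log (r / t) ≤ r / t := (Real.log_le_sub_one_of_pos (by positivity)).trans
    (by linarith)
  calc t * Real.log (r / t) ≤ t * (r / t) := mul_le_mul_of_nonneg_left h2 ht.le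
    _ = r := by field_simp

theorem polar (g : ℂ → ℝ) (hg : ContinuousOn g (ball 0 1)) (r : ℝ) (hr : 0 < r) (hr1 : r < 1) :
    ∫ z in ball (0 : ℂ) r, Real.log (r / ‖z‖) * g z =
      2 * Real.pi * ∫ t in (0 : ℝ)..r, t * Real.log (r / t) * Real.circleAverage g 0 t := by
  classical
  obtain ⟨C, hC⟩ : ∃ C : ℝ, ∀ z ∈ closedBall (0 : ℂ) r, ‖g z‖ ≤ C := by
    have hcomp : IsCompact (closedBall (0 : ℂ) r) := isCompact_closedBall 0 r
    exact hcomp.exists_bound_of_continuousOn (hg.mono (closedBall_subset_ball hr1))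
  set G : ℂ → ℝ := (ball (0 : ℂ) r).piecewise g (fun _ => 0) with hG
  have hGm : Measurable G := by
    apply ContinuousOn.measurable_piecewise (hg.mono (ball_subset_ball hr1.le))
      continuousOn_const measurableSet_ball
  have hGeq : ∀ z ∈ ball (0 : ℂ) r, G z = g z := by
    intro z hz
    rw [hG, piecewise_eq_of_mem _ _ _ hz]
  set F : ℂ → ℂ := fun z => ((Real.log (r / ‖z‖) * G z : ℝ) : ℂ) with hF
  have hFm : Measurable F := by
    apply Complex.measurable_ofReal.comp
    apply Measurable.mul _ hGm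
    exact Real.measurable_log.comp (measurable_const.div measurable_norm)
  have hFint : IntegrableOn F (ball 0 r) := by
    refine ⟨hFm.aestronglyMeasurable, ?_⟩
    rw [hasFiniteIntegral_iff_enorm, Helper509.Polar.lintegral_ball]
    have hle : ∫⁻ p in (Ioo 0 r) ×ˢ (Ioo (-Real.pi) Real.pi),
        ENNReal.ofReal p.1 * ‖F (circleMap 0 p.1 p.2)‖ₑ ≤
        ∫⁻ p in (Ioo 0 r) ×ˢ (Ioo (-Real.pi) Real.pi), ENNReal.ofReal (r * C) := by
      apply setLIntegral_mono' (measurableSet_Ioo.prod measurableSet_Ioo)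
      intro p hp
      have hp1 : 0 < p.1 := hp.1.1
      have hp2 : p.1 < r := hp.1.2
      have hmem : circleMap 0 p.1 p.2 ∈ ball (0 : ℂ) r := by
        rw [mem_ball_zero_iff, norm_circleMap_zero, abs_of_pos hp1]
        exact hp2
      obtain ⟨hl0, hl1⟩ := tlog_le r p.1 hr hp1 hp2
      rw [← ofReal_norm, ← ENNReal.ofReal_mul hp1.le]
      apply ENNReal.ofReal_le_ofReal
      rw [hF]
      simp only
      rw [Complex.norm_real, norm_mul, norm_circleMap_zero, abs_of_pos hp1, hGeq _ hmem,
        Real.norm_of_nonneg hl0, ← mul_assoc]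
      have hC1 := hC _ (ball_subset_closedBall hmem)
      exact mul_le_mul hl1 hC1 (norm_nonneg _) hr.le
    refine lt_of_le_of_lt hle ?_
    rw [setLIntegral_const]
    apply ENNReal.mul_lt_top ENNReal.ofReal_lt_top
    rw [Measure.volume_eq_prod, Measure.prod_prod, Real.volume_Ioo, Real.volume_Ioo]
    exact ENNReal.mul_lt_top ENNReal.ofReal_lt_top ENNReal.ofReal_lt_top
  have key := Helper509.Polar.integral_ball F hFm 0 r hFint
  have hL : ∫ z in ball (0 : ℂ) r, F z =
      ((∫ z in ball (0 : ℂ) r, Real.log (r / ‖z‖) * g z : ℝ) : ℂ) := by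
    rw [← integral_complex_ofReal]
    apply setIntegral_congr_fun measurableSet_ball
    intro z hz
    simp only [hF, hGeq z hz]
  have hR : ∫ t in Ioo 0 r, (t : ℝ) • ((2 * Real.pi) • Real.circleAverage F 0 t) =
      ((2 * Real.pi * ∫ t in (0 : ℝ)..r, t * Real.log (r / t) * Real.circleAverage g 0 t : ℝ) : ℂ) := by
    rw [intervalIntegral.integral_of_le hr.le, integral_Ioc_eq_integral_Ioo,
      ← integral_const_mul, ← integral_complex_ofReal]
    apply setIntegral_congr_fun measurableSet_Ioo
    intro t ht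
    simp only
    have hav : Real.circleAverage F 0 t =
        ((Real.log (r / t) * Real.circleAverage g 0 t : ℝ) : ℂ) := by
      rw [Real.circleAverage_def, Real.circleAverage_def]
      have h1 : ∫ θ in (0 : ℝ)..2 * Real.pi, F (circleMap 0 t θ) =
          ((∫ θ in (0 : ℝ)..2 * Real.pi, Real.log (r / t) * g (circleMap 0 t θ) : ℝ) : ℂ) := by
        rw [← intervalIntegral.integral_ofReal]
        apply intervalIntegral.integral_congr
        intro θ _
        have hmem : circleMap 0 t θ ∈ ball (0 : ℂ) r := by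
          rw [mem_ball_zero_iff, norm_circleMap_zero, abs_of_pos ht.1]
          exact ht.2
        simp only [hF, hGeq _ hmem, norm_circleMap_zero, abs_of_pos ht.1]
      rw [h1, intervalIntegral.integral_const_mul]
      simp only [smul_eq_mul, Complex.real_smul]
      push_cast
      ring
    rw [hav]
    simp only [smul_eq_mul, Complex.real_smul]
    push_cast
    ring
  rw [hL, hR] at key
  exact_mod_cast key

end Pool.Agent.H792R2.SS.MEANx

namespace Pool.Agent.H792R2.SS

open MEANx

theorem t_MEAN (hMEANa : S_MEANa) : S_MEAN := by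
  intro h r hh hr hr1
  rw [polar (Lap h) (cont_lap h hh) r hr hr1, ftc hMEANa h r hh hr hr1]
  have hpi := Real.pi_pos
  congr 1
  rw [← mul_assoc, inv_mul_cancel₀ (by positivity), one_mul]

end Pool.Agent.H792R2.SS
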