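import Pool.Agent.H792R2.SS.Defs

set_option autoImplicit false
open Set Filter Topology Metric MeasureTheory

namespace Pool.Agent.H792R2.SS.MEANax

/-- differentiation under the integral sign -/
theorem diffint (F F' : ℝ → ℝ → ℝ)
    (hF : ∀ x : ℝ, |x| < 1 → ∀ θ : ℝ, HasDerivAt (fun x => F x θ) (F' x θ) x)
    (hFc : ∀ x : ℝ, |x| < 1 → Continuous (F x))
    (hF'c : ContinuousOn (fun p : ℝ × ℝ => F' p.1 p.2) (Ioo (-1) 1 ×ˢ univ)) (t : ℝ)
    (ht : |t| < 1) :
    HasDerivAt (fun x => ∫ θ in (0 : ℝ)..2 * Real.pi, F x θ)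
      (∫ θ in (0 : ℝ)..2 * Real.pi, F' t θ) t := by
  set ρ : ℝ := (1 + |t|) / 2 with hρ
  have hρ1 : ρ < 1 := by rw [hρ]; linarith
  have htρ : |t| < ρ := by rw [hρ]; linarith
  have hcomp : IsCompact (Icc (-ρ) ρ ×ˢ Icc (0 : ℝ) (2 * Real.pi)) :=
    isCompact_Icc.prod isCompact_Icc
  have hsub : Icc (-ρ) ρ ×ˢ Icc (0 : ℝ) (2 * Real.pi) ⊆ Ioo (-1) 1 ×ˢ univ := by
    rintro ⟨x, y⟩ ⟨hx, _⟩
    exact ⟨⟨by linarith [hx.1], by linarith [hx.2]⟩, mem_univ _⟩
  obtain ⟨M, hM⟩ := hcomp.exists_bound_of_continuousOn (hF'c.mono hsub)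
  have hF'ct : Continuous (F' t) := by
    rw [← continuousOn_univ]
    have h1 : ContinuousOn (fun θ : ℝ => ((t, θ) : ℝ × ℝ)) univ := by fun_prop
    exact hF'c.comp h1 (fun θ _ => ⟨abs_lt.mp ht, mem_univ _⟩)
  have hs : Ioo (-ρ) ρ ∈ 𝓝 t := Ioo_mem_nhds (by linarith [(abs_lt.mp htρ).1]) (abs_lt.mp htρ).2
  refine (intervalIntegral.hasDerivAt_integral_of_dominated_loc_of_deriv_le
    (bound := fun _ => M) hs ?_ ?_ ?_ ?_ ?_ ?_).2
  · filter_upwards [hs] with x hx
    exact (hFc x (abs_lt.mpr ⟨by linarith [hx.1], by linarith [hx.2]⟩)).aestronglyMeasurable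
  · exact (hFc t ht).intervalIntegrable _ _
  · exact hF'ct.aestronglyMeasurable
  · refine Filter.Eventually.of_forall fun θ hθ x hx => ?_
    rw [uIoc_of_le (by positivity)] at hθ
    exact hM (x, θ) ⟨⟨hx.1.le, hx.2.le⟩, ⟨hθ.1.le, hθ.2⟩⟩
  · exact intervalIntegrable_const
  · refine Filter.Eventually.of_forall fun θ _ x hx => ?_
    exact hF x (abs_lt.mpr ⟨by linarith [hx.1], by linarith [hx.2]⟩) θ

/-- unit vector -/
noncomputable def ev (θ : ℝ) : ℂ := Complex.exp (θ * Complex.I)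

theorem ev_cont : Continuous ev := by unfold ev; fun_prop

theorem ev_norm (θ : ℝ) : ‖ev θ‖ = 1 := by unfold ev; exact Complex.norm_exp_ofReal_mul_I θ

theorem circ (t θ : ℝ) : circleMap 0 t θ = t * ev θ := by
  unfold ev; simp [circleMap]

theorem circ_mem {t : ℝ} (ht : |t| < 1) (θ : ℝ) : circleMap 0 t θ ∈ ball (0 : ℂ) 1 := by
  rw [circ, mem_ball_zero_iff, norm_mul, ev_norm, mul_one, Complex.norm_real]
  exact ht

theorem circ_dt (t θ : ℝ) : HasDerivAt (fun x : ℝ => circleMap 0 x θ) (ev θ) t := by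
  simp only [circ]
  have h1 : HasDerivAt (fun x : ℝ => (x : ℂ)) 1 t := Complex.ofRealCLM.hasDerivAt
  simpa using h1.mul_const (ev θ)

theorem ev_dt (θ : ℝ) : HasDerivAt ev (ev θ * Complex.I) θ := by
  unfold ev
  have h1 : HasDerivAt (fun x : ℝ => (x : ℂ) * Complex.I) (1 * Complex.I) θ :=
    HasDerivAt.mul_const (Complex.ofRealCLM.hasDerivAt) _
  have h2 := h1.cexp
  rwa [one_mul] at h2

theorem circ_dθ (t θ : ℝ) : HasDerivAt (circleMap 0 t) (t * ev θ * Complex.I) θ := by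
  have h1 := hasDerivAt_circleMap 0 t θ
  rwa [circ] at h1

theorem circ_cont : Continuous (fun p : ℝ × ℝ => circleMap 0 p.1 p.2) := by
  have h1 : (fun p : ℝ × ℝ => circleMap 0 p.1 p.2) = fun p => (p.1 : ℂ) * ev p.2 := by
    funext p; exact circ _ _
  rw [h1]
  exact (Complex.continuous_ofReal.comp continuous_fst).mul (ev_cont.comp continuous_snd)

/-- the Laplacian in a rotated frame -/
theorem lap_rot (h : ℂ → ℝ) (z : ℂ) (θ : ℝ) :
    Lap h z = fderiv ℝ (fderiv ℝ h) z (ev θ) (ev θ) +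
      fderiv ℝ (fderiv ℝ h) z (ev θ * Complex.I) (ev θ * Complex.I) := by
  let v := Complex.orthonormalBasisOneI.map (rotation (Circle.exp θ))
  have hv0 : v 0 = ev θ := by
    simp [v, ev]
  have hv1 : v 1 = ev θ * Complex.I := by
    simp [v, ev]
  have h2 := congrFun (InnerProductSpace.laplacian_eq_iteratedFDeriv_orthonormalBasis h v) z
  unfold Lap
  rw [h2]
  simp only [Fin.sum_univ_two, iteratedFDeriv_two_apply, hv0, hv1]
  simp

end Pool.Agent.H792R2.SS.MEANax

namespace Pool.Agent.H792R2.SS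

open MEANax

theorem t_MEANa : S_MEANa := by
  intro h hh
  have hD : ContDiffOn ℝ 1 (fderiv ℝ h) (ball 0 1) :=
    hh.fderiv_of_isOpen isOpen_ball (by norm_num)
  have hDc : ContinuousOn (fderiv ℝ h) (ball 0 1) := hD.continuousOn
  have hD2c : ContinuousOn (fderiv ℝ (fderiv ℝ h)) (ball 0 1) :=
    hD.continuousOn_fderiv_of_isOpen isOpen_ball le_rfl
  have hd1 : ∀ z ∈ ball (0 : ℂ) 1, HasFDerivAt h (fderiv ℝ h z) z := fun z hz =>
    ((hh.contDiffAt (isOpen_ball.mem_nhds hz)).differentiableAt (by norm_num)).hasFDerivAt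
  have hd2 : ∀ z ∈ ball (0 : ℂ) 1, HasFDerivAt (fderiv ℝ h) (fderiv ℝ (fderiv ℝ h) z) z :=
    fun z hz => ((hD.contDiffAt (isOpen_ball.mem_nhds hz)).differentiableAt
      (by norm_num)).hasFDerivAt
  have hmaps : MapsTo (fun p : ℝ × ℝ => circleMap 0 p.1 p.2) (Ioo (-1) 1 ×ˢ univ)
      (ball (0 : ℂ) 1) := fun p hp => circ_mem (abs_lt.mpr ⟨hp.1.1, hp.1.2⟩) _
  -- continuity facts
  have c1 : ContinuousOn (fun p : ℝ × ℝ => fderiv ℝ h (circleMap 0 p.1 p.2) (ev p.2))
      (Ioo (-1) 1 ×ˢ univ) :=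
    (hDc.comp circ_cont.continuousOn hmaps).clm_apply (ev_cont.comp continuous_snd).continuousOn
  have c2 : ContinuousOn (fun p : ℝ × ℝ =>
      fderiv ℝ (fderiv ℝ h) (circleMap 0 p.1 p.2) (ev p.2) (ev p.2)) (Ioo (-1) 1 ×ˢ univ) :=
    ((hD2c.comp circ_cont.continuousOn hmaps).clm_apply
      (ev_cont.comp continuous_snd).continuousOn).clm_apply
      (ev_cont.comp continuous_snd).continuousOn
  have slice : ∀ (G : ℝ × ℝ → ℝ), ContinuousOn G (Ioo (-1) 1 ×ˢ univ) → ∀ x : ℝ, |x| < 1 →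
      Continuous (fun θ => G (x, θ)) := by
    intro G hG x hx
    rw [← continuousOn_univ]
    have h1 : ContinuousOn (fun θ : ℝ => ((x, θ) : ℝ × ℝ)) univ := by fun_prop
    exact hG.comp h1 (fun θ _ => ⟨abs_lt.mp hx, mem_univ _⟩)
  have c0 : ∀ x : ℝ, |x| < 1 → Continuous (fun θ => h (circleMap 0 x θ)) := by
    intro x hx
    exact slice (fun p => h (circleMap 0 p.1 p.2)) (hh.continuousOn.comp circ_cont.continuousOn hmaps)
      x hx
  -- radial derivatives
  have r1 : ∀ x : ℝ, |x| < 1 → ∀ θ : ℝ, HasDerivAt (fun x => h (circleMap 0 x θ))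
      (fderiv ℝ h (circleMap 0 x θ) (ev θ)) x := fun x hx θ =>
    (hd1 _ (circ_mem hx θ)).comp_hasDerivAt x (circ_dt x θ)
  have r2 : ∀ x : ℝ, |x| < 1 → ∀ θ : ℝ, HasDerivAt (fun x => fderiv ℝ h (circleMap 0 x θ) (ev θ))
      (fderiv ℝ (fderiv ℝ h) (circleMap 0 x θ) (ev θ) (ev θ)) x := fun x hx θ => by
    have h1 := (hd2 _ (circ_mem hx θ)).comp_hasDerivAt x (circ_dt x θ)
    have h2 := h1.clm_apply (hasDerivAt_const x (ev θ))
    simpa using h2
  -- angular derivative
  have a1 : ∀ x : ℝ, |x| < 1 → ∀ θ : ℝ,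
      HasDerivAt (fun θ => fderiv ℝ h (circleMap 0 x θ) (ev θ * Complex.I))
      (x * fderiv ℝ (fderiv ℝ h) (circleMap 0 x θ) (ev θ * Complex.I) (ev θ * Complex.I) -
        fderiv ℝ h (circleMap 0 x θ) (ev θ)) θ := fun x hx θ => by
    have h1 := (hd2 _ (circ_mem hx θ)).comp_hasDerivAt θ (circ_dθ x θ)
    have h2 := h1.clm_apply ((ev_dt θ).mul_const Complex.I)
    refine h2.congr_deriv ?_
    have e1 : (x : ℂ) * ev θ * Complex.I = (x : ℝ) • (ev θ * Complex.I) := by
      rw [Complex.real_smul]; ring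
    have e2 : ev θ * Complex.I * Complex.I = -(ev θ) := by
      rw [mul_assoc, Complex.I_mul_I]; ring
    rw [e1, e2, map_smul, map_neg]
    simp [sub_eq_add_neg]
  set m' : ℝ → ℝ := fun t => (2 * Real.pi)⁻¹ *
    ∫ θ in (0 : ℝ)..2 * Real.pi, fderiv ℝ h (circleMap 0 t θ) (ev θ) with hm'
  refine ⟨m', ?_, ?_, ?_⟩
  · intro t ht0 ht1
    have ht : |t| < 1 := by rw [abs_of_pos ht0]; exact ht1
    have h1 := diffint (fun x θ => h (circleMap 0 x θ))
      (fun x θ => fderiv ℝ h (circleMap 0 x θ) (ev θ)) r1 c0 c1 t ht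
    have h2 := h1.const_mul ((2 * Real.pi)⁻¹)
    exact h2
  · intro t ht0 ht1
    have ht : |t| < 1 := by rw [abs_of_pos ht0]; exact ht1
    have h1 := diffint (fun x θ => x * fderiv ℝ h (circleMap 0 x θ) (ev θ))
      (fun x θ => fderiv ℝ h (circleMap 0 x θ) (ev θ) +
        x * fderiv ℝ (fderiv ℝ h) (circleMap 0 x θ) (ev θ) (ev θ)) (by
        intro x hx θ
        have h2 := (hasDerivAt_id' x).fun_mul (r2 x hx θ)
        rwa [one_mul] at h2) (fun x hx => continuous_const.mul (slice _ c1 x hx))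
      (c1.add (continuousOn_fst.mul c2)) t ht
    have h2 := h1.const_mul ((2 * Real.pi)⁻¹)
    have e1 : (fun x => (2 * Real.pi)⁻¹ * ∫ θ in (0 : ℝ)..2 * Real.pi,
        x * fderiv ℝ h (circleMap 0 x θ) (ev θ)) = fun t => t * m' t := by
      funext x
      rw [intervalIntegral.integral_const_mul, hm']
      ring
    rw [e1] at h2
    refine h2.congr_deriv ?_
    rw [Real.circleAverage_def, smul_eq_mul]
    have hang : ∫ θ in (0 : ℝ)..2 * Real.pi,
        (t * fderiv ℝ (fderiv ℝ h) (circleMap 0 t θ) (ev θ * Complex.I) (ev θ * Complex.I) -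
          fderiv ℝ h (circleMap 0 t θ) (ev θ)) = 0 := by
      have c3 : ContinuousOn (fun p : ℝ × ℝ =>
          fderiv ℝ (fderiv ℝ h) (circleMap 0 p.1 p.2) (ev p.2 * Complex.I) (ev p.2 * Complex.I))
          (Ioo (-1) 1 ×ˢ univ) :=
        ((hD2c.comp circ_cont.continuousOn hmaps).clm_apply
          ((ev_cont.comp continuous_snd).mul continuous_const).continuousOn).clm_apply
          ((ev_cont.comp continuous_snd).mul continuous_const).continuousOn
      rw [intervalIntegral.integral_eq_sub_of_hasDerivAt (fun θ _ => a1 t ht θ)]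
      · have e2 : circleMap 0 t (2 * Real.pi) = circleMap 0 t 0 := by
          rw [circ, circ]; unfold ev; simp
        have e3 : ev (2 * Real.pi) = ev 0 := by unfold ev; simp
        rw [e2, e3, sub_self]
      · exact ((continuous_const.mul (slice _ c3 t ht)).sub (slice _ c1 t ht)).intervalIntegrable
          _ _
    have c3 : ContinuousOn (fun p : ℝ × ℝ =>
        fderiv ℝ (fderiv ℝ h) (circleMap 0 p.1 p.2) (ev p.2 * Complex.I) (ev p.2 * Complex.I))
        (Ioo (-1) 1 ×ˢ univ) :=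
      ((hD2c.comp circ_cont.continuousOn hmaps).clm_apply
        ((ev_cont.comp continuous_snd).mul continuous_const).continuousOn).clm_apply
        ((ev_cont.comp continuous_snd).mul continuous_const).continuousOn
    have i1 : IntervalIntegrable (fun θ => fderiv ℝ h (circleMap 0 t θ) (ev θ) +
        t * fderiv ℝ (fderiv ℝ h) (circleMap 0 t θ) (ev θ) (ev θ)) volume 0 (2 * Real.pi) :=
      ((slice _ c1 t ht).add (continuous_const.mul (slice _ c2 t ht))).intervalIntegrable _ _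
    have i2 : IntervalIntegrable (fun θ =>
        t * fderiv ℝ (fderiv ℝ h) (circleMap 0 t θ) (ev θ * Complex.I) (ev θ * Complex.I) -
          fderiv ℝ h (circleMap 0 t θ) (ev θ)) volume 0 (2 * Real.pi) :=
      ((continuous_const.mul (slice _ c3 t ht)).sub (slice _ c1 t ht)).intervalIntegrable _ _
    have hsum : ∫ θ in (0 : ℝ)..2 * Real.pi, t * Lap h (circleMap 0 t θ) =
        ∫ θ in (0 : ℝ)..2 * Real.pi, (fderiv ℝ h (circleMap 0 t θ) (ev θ) +
          t * fderiv ℝ (fderiv ℝ h) (circleMap 0 t θ) (ev θ) (ev θ)) := by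
      have h3 := intervalIntegral.integral_add i1 i2
      rw [hang, add_zero] at h3
      rw [← h3]
      refine intervalIntegral.integral_congr fun θ _ => ?_
      rw [lap_rot h _ θ]
      ring
    rw [← hsum, intervalIntegral.integral_const_mul]
    ring
  · intro ρ hρ
    have hcomp : IsCompact (closedBall (0 : ℂ) ρ) := isCompact_closedBall _ _
    obtain ⟨M, hM⟩ := hcomp.exists_bound_of_continuousOn
      (hDc.mono (closedBall_subset_ball hρ))
    refine ⟨M, fun t ht0 htρ => ?_⟩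
    have ht : |t| < 1 := by rw [abs_of_pos ht0]; linarith
    have h1 : ‖∫ θ in (0 : ℝ)..2 * Real.pi, fderiv ℝ h (circleMap 0 t θ) (ev θ)‖ ≤
        M * |2 * Real.pi - 0| := by
      refine intervalIntegral.norm_integral_le_of_norm_le_const fun θ _ => ?_
      refine (ContinuousLinearMap.le_opNorm _ _).trans ?_
      rw [ev_norm, mul_one]
      refine hM _ ?_
      rw [circ, mem_closedBall_zero_iff, norm_mul, ev_norm, mul_one, Complex.norm_real,
        Real.norm_of_nonneg ht0.le]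
      exact htρ
    have hpi : 0 < 2 * Real.pi := by positivity
    rw [hm']
    simp only
    rw [abs_mul, abs_of_pos (inv_pos.mpr hpi)]
    rw [sub_zero, abs_of_pos hpi, Real.norm_eq_abs] at h1
    calc _ ≤ (2 * Real.pi)⁻¹ * (M * (2 * Real.pi)) :=
        mul_le_mul_of_nonneg_left h1 (inv_pos.mpr hpi).le
      _ = M := by field_simp

end Pool.Agent.H792R2.SS
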