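import Pool.Agent.H792R2.SS.Defs
import Pool.Agent.Helper114.MontelSol

set_option autoImplicit false
open Set Filter Topology Metric MeasureTheory

namespace Pool.Agent.H792R2.SS

namespace MTx

theorem loc {Ω : Set ℂ} {F : ℕ → ℂ → ℂ} {G : ℂ → ℂ} {l : Filter ℕ}
    (h : ∀ x ∈ Ω, ∃ r > 0, TendstoLocallyUniformlyOn F G l (ball x r)) :
    TendstoLocallyUniformlyOn F G l Ω := by
  rw [Metric.tendstoLocallyUniformlyOn_iff]
  intro ε hε x hx
  obtain ⟨r, hr, hb⟩ := h x hx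
  rw [Metric.tendstoLocallyUniformlyOn_iff] at hb
  obtain ⟨t, ht, hev⟩ := hb ε hε x (mem_ball_self hr)
  refine ⟨t, ?_, hev⟩
  rw [isOpen_ball.nhdsWithin_eq (mem_ball_self hr)] at ht
  exact mem_nhdsWithin_of_mem_nhds ht

theorem one {F : ℕ → ℂ → ℂ} (𝒰 : Ultrafilter ℕ) (h𝒰 : (𝒰 : Filter ℕ) ≤ atTop)
    {x : ℂ} {r M : ℝ}
    (h : ∀ᶠ n in atTop, DifferentiableOn ℂ (F n) (ball x r) ∧ ∀ z ∈ ball x r, ‖F n z‖ ≤ M) :
    ∃ Φ : ℂ → ℂ, DifferentiableOn ℂ Φ (ball x r) ∧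
      TendstoLocallyUniformlyOn F Φ (𝒰 : Filter ℕ) (ball x r) := by
  classical
  let F' : ℕ → ℂ → ℂ := fun n => if (DifferentiableOn ℂ (F n) (ball x r) ∧
    ∀ z ∈ ball x r, ‖F n z‖ ≤ M) then F n else 0
  have h1 : ∀ n, DifferentiableOn ℂ (F' n) (ball x r) := by
    intro n
    show DifferentiableOn ℂ (if (DifferentiableOn ℂ (F n) (ball x r) ∧
      ∀ z ∈ ball x r, ‖F n z‖ ≤ M) then F n else 0) (ball x r)
    split_ifs with hc
    · exact hc.1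
    · exact differentiableOn_const (c := (0 : ℂ))
  have h2 : ∀ n, ∀ z ∈ ball x r, ‖F' n z‖ ≤ |M| := by
    intro n z hz
    show ‖(if (DifferentiableOn ℂ (F n) (ball x r) ∧
      ∀ z ∈ ball x r, ‖F n z‖ ≤ M) then F n else 0) z‖ ≤ |M|
    split_ifs with hc
    · exact (hc.2 z hz).trans (le_abs_self M)
    · simp
  obtain ⟨Φ, hΦ, hΦ2⟩ := Pool.Agent.Helper114.Montel.montel isOpen_ball F' h1 |M| h2 𝒰
  refine ⟨Φ, hΦ, ?_⟩
  rw [Metric.tendstoLocallyUniformlyOn_iff] at hΦ2 ⊢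
  intro ε hε y hy
  obtain ⟨t, ht, hev⟩ := hΦ2 ε hε y hy
  refine ⟨t, ht, ?_⟩
  filter_upwards [hev, h𝒰 h] with n hn1 hn2 z hz
  have := hn1 z hz
  have he : F' n = F n := if_pos hn2
  rwa [he] at this

end MTx

theorem t_MT : S_MT := by
  classical
  intro Ω F 𝒰 hΩ h𝒰 hloc
  let G : ℂ → ℂ := fun z => if h : ∃ v : ℂ, Tendsto (fun n => F n z) 𝒰 (𝓝 v) then h.choose else 0
  have hG : ∀ z v, Tendsto (fun n => F n z) 𝒰 (𝓝 v) → G z = v := by
    intro z v hv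
    have hex : ∃ v : ℂ, Tendsto (fun n => F n z) 𝒰 (𝓝 v) := ⟨v, hv⟩
    have : G z = hex.choose := dif_pos hex
    rw [this]
    exact tendsto_nhds_unique hex.choose_spec hv
  have key : ∀ x ∈ Ω, ∃ r > 0, DifferentiableOn ℂ G (ball x r) ∧
      TendstoLocallyUniformlyOn F G (𝒰 : Filter ℕ) (ball x r) ∧
      ∀ᶠ n in (𝒰 : Filter ℕ), DifferentiableOn ℂ (F n) (ball x r) := by
    intro x hx
    obtain ⟨r, hr, M, -, hev⟩ := hloc x hx
    obtain ⟨Φ, hΦ, hΦ2⟩ := MTx.one 𝒰 h𝒰 hev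
    have heq : EqOn G Φ (ball x r) := by
      intro z hz
      exact hG z _ (hΦ2.tendsto_at hz)
    refine ⟨r, hr, hΦ.congr heq, ?_, ?_⟩
    · exact hΦ2.congr_right (fun z hz => (heq hz).symm)
    · have hev2 := hev.filter_mono h𝒰
      exact hev2.mono (fun n hn => hn.1)
  refine ⟨G, ?_, ?_, ?_, ?_⟩
  · intro x hx
    obtain ⟨r, hr, h1, -, -⟩ := key x hx
    exact ((h1 x (mem_ball_self hr)).differentiableAt (isOpen_ball.mem_nhds (mem_ball_self hr))).differentiableWithinAt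
  · apply MTx.loc
    intro x hx
    obtain ⟨r, hr, -, h2, -⟩ := key x hx
    exact ⟨r, hr, h2⟩
  · apply MTx.loc
    intro x hx
    obtain ⟨r, hr, -, h2, h3⟩ := key x hx
    exact ⟨r, hr, h2.deriv h3 isOpen_ball⟩
  · apply MTx.loc
    intro x hx
    obtain ⟨r, hr, -, h2, h3⟩ := key x hx
    refine ⟨r, hr, (h2.deriv h3 isOpen_ball).deriv ?_ isOpen_ball⟩
    filter_upwards [h3] with n hn
    exact hn.deriv isOpen_ball

end Pool.Agent.H792R2.SS
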