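import Pool.Agent.H792R2.SS.Defs

/-! # Normality of the zero-free functions with `F' ≠ 1` (task NL, by helper279) -/

set_option autoImplicit false
open Set Filter Topology Metric MeasureTheory

namespace Pool.Agent.H792R2.SS

namespace NLx

theorem log_deriv {g h : ℂ → ℂ} {U : Set ℂ} (hU : IsOpen U) (hg : DifferentiableOn ℂ g U)
    (hd : DifferentiableOn ℂ h U) (he : ∀ z ∈ U, Complex.exp (h z) = g z) {w : ℂ} (hw : w ∈ U) :
    deriv h w = deriv g w / g w := by
  have h1 : HasDerivAt h (deriv h w) w := (hd.differentiableAt (hU.mem_nhds hw)).hasDerivAt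
  have h2 := h1.cexp
  have h3 : g =ᶠ[𝓝 w] fun z => Complex.exp (h z) := by
    filter_upwards [hU.mem_nhds hw] with z hz
    exact (he z hz).symm
  have h4 : deriv g w = Complex.exp (h w) * deriv h w := by
    rw [h3.deriv_eq, h2.deriv]
  rw [h4, ← he w hw, mul_div_cancel_left₀ _ (Complex.exp_ne_zero _)]

theorem single (hHH : S_HH) (hGR : S_GR) {t K : ℝ} (hK : K = 5 * Real.exp 1) {g h : ℂ → ℂ}
    (ht0 : 0 < t) (ht1 : t ≤ 1)
    (hNN : NN g 0 (1 / t)) (hg0 : ‖deriv g 0‖ = 1 + ‖g 0‖ ^ 2)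
    (hg1 : ∀ w ∈ ball (0 : ℂ) (1 / t), ‖deriv g w‖ ≤ 1 + ‖g w‖ ^ 2 / (1 - t * ‖w‖) ^ 2)
    (hd : DifferentiableOn ℂ h (ball 0 (1 / t)))
    (he : ∀ z ∈ ball (0 : ℂ) (1 / t), Complex.exp (h z) = g z) :
    (∀ w ∈ ball (0 : ℂ) (1 / (4 * t)), ‖g w‖ = Real.exp (h w).re) ∧
    (∀ w ∈ ball (0 : ℂ) (1 / (4 * t)), ‖deriv g w / g w‖ ≤ 4 * K + 16 * t * |(h w).re|) ∧
    (∀ w ∈ ball (0 : ℂ) (1 / (4 * t)), 1 + |(h w).re| ≤
      (41 + 8 * K) * Real.exp ((4 * K + 16) * ‖w‖)) ∧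
    2 ≤ ‖deriv g 0 / g 0‖ := by
  have hK0 : 0 < K := by rw [hK]; positivity
  have hb : (0 : ℂ) ∈ ball (0 : ℂ) (1 / t) := mem_ball_self (by positivity)
  have hnorm : ∀ w ∈ ball (0 : ℂ) (1 / t), ‖g w‖ = Real.exp (h w).re := by
    intro w hw
    rw [← he w hw, Complex.norm_exp]
  have hld : ∀ w ∈ ball (0 : ℂ) (1 / t), deriv h w = deriv g w / g w := fun w hw =>
    log_deriv isOpen_ball hNN.1 hd he hw
  have h4le : 1 / (4 * t) ≤ 1 / t := by
    apply one_div_le_one_div_of_le ht0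
    linarith
  have h24 : 1 / (4 * t) + 1 / (4 * t) = 1 / (2 * t) := by
    field_simp
    norm_num
  have h2le : 1 / (2 * t) ≤ 1 / t := by
    apply one_div_le_one_div_of_le ht0
    linarith
  -- bound where `|Re h| ≤ 1`
  have hc : ∀ w ∈ ball (0 : ℂ) (1 / (2 * t)), |(h w).re| ≤ 1 → ‖deriv h w‖ ≤ K := by
    intro w hw hre
    have hw1 : w ∈ ball (0 : ℂ) (1 / t) := ball_subset_ball h2le hw
    rw [mem_ball_zero_iff] at hw
    have h1 : t * ‖w‖ < 1 / 2 := by
      calc t * ‖w‖ < t * (1 / (2 * t)) := mul_lt_mul_of_pos_left hw ht0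
        _ = 1 / 2 := by field_simp
    have h2 : ‖deriv g w‖ ≤ 1 + 4 * ‖g w‖ ^ 2 := by
      refine (hg1 w hw1).trans ?_
      have h3 : 1 / 4 ≤ (1 - t * ‖w‖) ^ 2 := by nlinarith
      have h4 : ‖g w‖ ^ 2 / (1 - t * ‖w‖) ^ 2 ≤ ‖g w‖ ^ 2 / (1 / 4) :=
        div_le_div_of_nonneg_left (by positivity) (by norm_num) h3
      have h5 : ‖g w‖ ^ 2 / (1 / 4) = 4 * ‖g w‖ ^ 2 := by ring
      linarith
    rw [hld w hw1, norm_div, hnorm w hw1] at *
    set x := (h w).re with hx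
    have hx1 := abs_le.1 hre
    have hex : 0 < Real.exp x := Real.exp_pos x
    rw [div_le_iff₀ hex]
    have h3 : Real.exp x ≤ Real.exp 1 := Real.exp_le_exp.2 hx1.2
    have h4 : 1 ≤ Real.exp 1 * Real.exp x := by
      rw [← Real.exp_add]
      exact Real.one_le_exp (by linarith)
    rw [hK]
    nlinarith
  -- Harnack-Hopf
  have hdd : ∀ w ∈ ball (0 : ℂ) (1 / (4 * t)), ‖deriv h w‖ ≤ 4 * K + 16 * t * |(h w).re| := by
    intro w hw
    have hsub : ball w (1 / (4 * t)) ⊆ ball (0 : ℂ) (1 / (2 * t)) := by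
      refine ball_subset_ball' ?_
      rw [dist_zero_right]
      rw [mem_ball_zero_iff] at hw
      rw [← h24]
      linarith
    have h1 := hHH h w (1 / (4 * t)) K (by positivity) hK0.le
      (hd.mono (hsub.trans (ball_subset_ball h2le))) (fun x hx => hc x (hsub hx))
    refine h1.trans (le_of_eq ?_)
    field_simp
    ring
  have h40 : (0 : ℂ) ∈ ball (0 : ℂ) (1 / (4 * t)) := mem_ball_self (by positivity)
  -- at the origin
  set x₀ := (h 0).re with hx₀
  have hq : ‖deriv g 0 / g 0‖ = Real.exp (-x₀) + Real.exp x₀ := by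
    rw [norm_div, hg0, hnorm 0 hb, ← hx₀, Real.exp_neg]
    have : Real.exp x₀ ≠ 0 := (Real.exp_pos x₀).ne'
    field_simp
  have h2 : 2 ≤ ‖deriv g 0 / g 0‖ := by
    rw [hq]
    have h3 : Real.exp (-x₀) * Real.exp x₀ = 1 := by rw [← Real.exp_add]; simp
    have h4 := Real.exp_pos x₀
    have h5 := Real.exp_pos (-x₀)
    nlinarith [sq_nonneg (Real.exp x₀ - Real.exp (-x₀))]
  have hx0b : |x₀| ≤ 40 + 8 * K := by
    by_contra hc2
    push Not at hc2
    have h3 : Real.exp |x₀| ≤ Real.exp (-x₀) + Real.exp x₀ := by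
      rcases abs_cases x₀ with ⟨h, _⟩ | ⟨h, _⟩ <;> rw [h]
      · linarith [Real.exp_pos (-x₀)]
      · linarith [Real.exp_pos x₀]
    have h4 : Real.exp (-x₀) + Real.exp x₀ ≤ 4 * K + 16 * t * |x₀| := by
      rw [← hq, ← hld 0 hb]
      exact hdd 0 h40
    have h5 := Real.quadratic_le_exp_of_nonneg (abs_nonneg x₀)
    have h6 : 16 * t * |x₀| ≤ 16 * |x₀| := by
      have : 0 ≤ |x₀| := abs_nonneg _
      nlinarith
    nlinarith [abs_nonneg x₀, sq_abs x₀]
  refine ⟨fun w hw => hnorm w (ball_subset_ball h4le hw), fun w hw => ?_, fun w hw => ?_, h2⟩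
  · rw [← hld w (ball_subset_ball h4le hw)]
    exact hdd w hw
  · have h3 := hGR (ball 0 (1 / (4 * t))) h (4 * K + 16) isOpen_ball (convex_ball _ _)
      (by positivity) (hd.mono (ball_subset_ball h4le)) (fun x hx => by
        refine (hdd x hx).trans ?_
        have h4 := abs_nonneg (h x).re
        nlinarith [mul_nonneg hK0.le h4, mul_le_mul_of_nonneg_right ht1 h4]) 0 h40 w hw
    rw [sub_zero] at h3
    refine h3.trans ?_
    refine mul_le_mul_of_nonneg_right ?_ (Real.exp_pos _).le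
    rw [← hx₀]
    linarith

end NLx

open NLx in
theorem t_NL (hHH : S_HH) (hLOG : S_LOG) (hGR : S_GR) (hMT : S_MT) (hHU : S_HU) (hRS : S_RS) :
    S_NL := by
  by_contra hcon
  have hcon' : ∀ C : ℝ, 0 < C → ∃ F : ℂ → ℂ, NN F 0 1 ∧ C * (1 + ‖F 0‖ ^ 2) < ‖deriv F 0‖ := by
    intro C hC
    by_contra h
    push Not at h
    exact hcon ⟨C, hC, h⟩
  have h1 : ∀ n : ℕ, ∃ (t : ℝ) (g : ℂ → ℂ), 0 < t ∧ t ≤ 1 / Real.sqrt ((n + 1 : ℕ) : ℝ) ∧
      NN g 0 (1 / t) ∧ ‖deriv g 0‖ = 1 + ‖g 0‖ ^ 2 ∧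
      ∀ w ∈ ball (0 : ℂ) (1 / t), ‖deriv g w‖ ≤ 1 + ‖g w‖ ^ 2 / (1 - t * ‖w‖) ^ 2 := by
    intro n
    obtain ⟨F, hF, hF2⟩ := hcon' ((n + 1 : ℕ) : ℝ) (by positivity)
    exact hRS F (n + 1) (by omega) hF hF2
  choose t g ht0 ht1 hNN hg0 hg1 using h1
  have h2 : ∀ n, ∃ h : ℂ → ℂ, DifferentiableOn ℂ h (ball 0 (1 / t n)) ∧
      ∀ z ∈ ball (0 : ℂ) (1 / t n), Complex.exp (h z) = g n z := fun n =>
    hLOG (ball 0 (1 / t n)) (g n) isOpen_ball (convex_ball _ _) (hNN n).1 (hNN n).2.1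
  choose h hd he using h2
  have htle : ∀ n, t n ≤ 1 := by
    intro n
    refine (ht1 n).trans ?_
    rw [div_le_one (by positivity)]
    rw [Real.one_le_sqrt]
    push_cast
    linarith [(Nat.cast_nonneg n : (0 : ℝ) ≤ n)]
  set K : ℝ := 5 * Real.exp 1 with hK
  have hK0 : 0 < K := by positivity
  have hS := fun n => single hHH hGR hK (ht0 n) (htle n) (hNN n) (hg0 n) (hg1 n) (hd n) (he n)
  have ht_lim : Tendsto t atTop (𝓝 0) := by
    refine squeeze_zero (fun n => (ht0 n).le) ht1 ?_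
    have h3 : Tendsto (fun n : ℕ => Real.sqrt ((n + 1 : ℕ) : ℝ)) atTop atTop :=
      Real.tendsto_sqrt_atTop.comp (tendsto_natCast_atTop_atTop.comp (tendsto_add_atTop_nat 1))
    refine h3.inv_tendsto_atTop.congr fun n => ?_
    simp only [Pi.inv_apply, one_div]
  -- every ball is eventually inside
  have hball : ∀ ρ : ℝ, 0 < ρ → ∀ᶠ n in atTop, ball (0 : ℂ) ρ ⊆ ball 0 (1 / (4 * t n)) := by
    intro ρ hρ
    have h3 : ∀ᶠ n in atTop, t n < 1 / (4 * ρ) := ht_lim.eventually_lt_const (by positivity)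
    filter_upwards [h3] with n hn
    refine ball_subset_ball ?_
    have h4 := ht0 n
    rw [le_div_iff₀ (by positivity)]
    rw [lt_div_iff₀ (by positivity)] at hn
    linarith
  set B : ℝ → ℝ := fun ρ => (41 + 8 * K) * Real.exp ((4 * K + 16) * ρ) with hB
  have hBpos : ∀ ρ, 0 < B ρ := fun ρ => by simp only [hB]; positivity
  have hreb : ∀ ρ : ℝ, 0 < ρ → ∀ᶠ n in atTop, ∀ w ∈ ball (0 : ℂ) ρ, |(h n w).re| ≤ B ρ ∧
      ‖g n w‖ = Real.exp (h n w).re := by
    intro ρ hρ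
    filter_upwards [hball ρ hρ] with n hn w hw
    refine ⟨?_, (hS n).1 w (hn hw)⟩
    have h3 := (hS n).2.2.1 w (hn hw)
    have h4 : (41 + 8 * K) * Real.exp ((4 * K + 16) * ‖w‖) ≤ B ρ := by
      simp only [hB]
      refine mul_le_mul_of_nonneg_left (Real.exp_le_exp.2 ?_) (by positivity)
      refine mul_le_mul_of_nonneg_left (mem_ball_zero_iff.1 hw).le (by positivity)
    linarith
  set 𝒰 : Ultrafilter ℕ := Filter.hyperfilter ℕ with h𝒰
  have h𝒰le : (𝒰 : Filter ℕ) ≤ atTop := by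
    rw [← Nat.cofinite_eq_atTop]
    exact Filter.hyperfilter_le_cofinite
  have h41 : ∀ n, 1 / (4 * t n) ≤ 1 / t n := fun n => by
    apply one_div_le_one_div_of_le (ht0 n)
    linarith [ht0 n]
  obtain ⟨G, hGd, hG0, hG1, -⟩ := hMT univ g 𝒰 isOpen_univ h𝒰le (by
    intro x _
    refine ⟨1, one_pos, Real.exp (B (‖x‖ + 1)), subset_univ _, ?_⟩
    filter_upwards [hreb (‖x‖ + 1) (by positivity), hball (‖x‖ + 1) (by positivity)] with n hn hn2
    have hsub : ball x 1 ⊆ ball (0 : ℂ) (‖x‖ + 1) := by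
      refine ball_subset_ball' ?_
      rw [dist_zero_right]
      linarith
    refine ⟨(hNN n).1.mono ((hsub.trans hn2).trans (ball_subset_ball (h41 n))), fun z hz => ?_⟩
    obtain ⟨h3, h4⟩ := hn z (hsub hz)
    rw [h4]
    exact Real.exp_le_exp.2 ((le_abs_self _).trans h3))
  have hGdiff : Differentiable ℂ G := differentiableOn_univ.1 hGd
  have hpt : ∀ x, Tendsto (fun n => g n x) (𝒰 : Filter ℕ) (𝓝 (G x)) := fun x =>
    hG0.tendsto_at (mem_univ x)
  have hpt' : ∀ x, Tendsto (fun n => deriv (g n) x) (𝒰 : Filter ℕ) (𝓝 (deriv G x)) := fun x =>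
    hG1.tendsto_at (mem_univ x)
  -- the limit has no zeros
  have hGne : ∀ x, G x ≠ 0 := by
    intro x
    have h3 : Real.exp (-B (‖x‖ + 1)) ≤ ‖G x‖ := by
      refine ge_of_tendsto (hpt x).norm ?_
      filter_upwards [h𝒰le (hreb (‖x‖ + 1) (by positivity))] with n hn
      obtain ⟨h3, h4⟩ := hn x (by rw [mem_ball_zero_iff]; linarith)
      rw [h4]
      exact Real.exp_le_exp.2 (by linarith [neg_abs_le (h n x).re])
    intro h4
    rw [h4, norm_zero] at h3
    linarith [Real.exp_pos (-B (‖x‖ + 1))]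
  have hquot : ∀ x, Tendsto (fun n => deriv (g n) x / g n x) (𝒰 : Filter ℕ)
      (𝓝 (deriv G x / G x)) := fun x => (hpt' x).div (hpt x) (hGne x)
  -- the logarithmic derivative is bounded
  have hbd : ∀ x, ‖deriv G x / G x‖ ≤ 4 * K + 1 := by
    intro x
    refine le_of_tendsto (hquot x).norm ?_
    have h3 : ∀ᶠ n in atTop, t n < 1 / (16 * B (‖x‖ + 1)) :=
      ht_lim.eventually_lt_const (by have := hBpos (‖x‖ + 1); positivity)
    filter_upwards [h𝒰le h3, h𝒰le (hreb (‖x‖ + 1) (by positivity)),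
      h𝒰le (hball (‖x‖ + 1) (by positivity))] with n hn1 hn2 hn3
    have hx : x ∈ ball (0 : ℂ) (‖x‖ + 1) := by rw [mem_ball_zero_iff]; linarith
    have h4 := (hS n).2.1 x (hn3 hx)
    have h5 := (hn2 x hx).1
    have h6 := hBpos (‖x‖ + 1)
    have h7 : t n * (16 * B (‖x‖ + 1)) ≤ 1 := by
      rw [lt_div_iff₀ (by positivity)] at hn1
      exact hn1.le
    have h8 : 16 * t n * |(h n x).re| ≤ 16 * t n * B (‖x‖ + 1) :=
      mul_le_mul_of_nonneg_left h5 (by have := ht0 n; positivity)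
    linarith
  have hQd : Differentiable ℂ (fun x => deriv G x / G x) := by
    have h3 : Differentiable ℂ (deriv G) := by
      have := hGdiff.contDiff (n := 2)
      exact (this.differentiable_deriv_two)
    exact h3.div hGdiff hGne
  have hQc : ∀ x, deriv G x / G x = deriv G 0 / G 0 := by
    intro x
    refine hQd.apply_eq_apply_of_bounded ?_ x 0
    rw [isBounded_iff_forall_norm_le]
    exact ⟨4 * K + 1, by rintro _ ⟨y, rfl⟩; exact hbd y⟩
  set a : ℂ := deriv G 0 / G 0 with ha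
  have ha2 : 2 ≤ ‖a‖ := by
    refine ge_of_tendsto (hquot 0).norm ?_
    exact Eventually.of_forall fun n => (hS n).2.2.2
  have ha0 : a ≠ 0 := by
    intro h3
    rw [h3, norm_zero] at ha2
    linarith
  have hder : ∀ x, deriv G x = a * G x := by
    intro x
    rw [← hQc x, div_mul_cancel₀ _ (hGne x)]
  -- the limit is an exponential function
  have hexp : ∀ x, G x = G 0 * Complex.exp (a * x) := by
    intro x
    have h3 : ∀ x, HasDerivAt (fun x => G x * Complex.exp (-(a * x))) 0 x := by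
      intro x
      have h4 : HasDerivAt G (a * G x) x := by
        rw [← hder x]
        exact (hGdiff x).hasDerivAt
      have h5 : HasDerivAt (fun x : ℂ => Complex.exp (-(a * x)))
          (Complex.exp (-(a * x)) * (-(a * 1))) x :=
        (((hasDerivAt_id x).const_mul a).neg).cexp
      refine (h4.mul h5).congr_deriv ?_
      ring
    have h6 := is_const_of_deriv_eq_zero (fun x => (h3 x).differentiableAt)
      (fun x => (h3 x).deriv) x 0
    simp only [mul_zero, neg_zero, Complex.exp_zero, mul_one] at h6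
    rw [← h6, mul_assoc, ← Complex.exp_add]
    simp
  -- the derivative takes the value one
  have hc0 : a * G 0 ≠ 0 := mul_ne_zero ha0 (hGne 0)
  set w₀ : ℂ := Complex.log ((a * G 0)⁻¹) / a with hw₀
  have hw1 : deriv G w₀ = 1 := by
    rw [hder, hexp, hw₀, mul_div_cancel₀ _ ha0, Complex.exp_log (inv_ne_zero hc0)]
    rw [← mul_assoc, mul_inv_cancel₀ hc0]
  have hH := hHU (ball 0 (‖w₀‖ + 1)) (fun n x => deriv (g n) x - 1) (fun x => deriv G x - 1) 𝒰
    isOpen_ball ?_ ?_ ?_ w₀ (by rw [mem_ball_zero_iff]; linarith) (by simp [hw1])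
  · have h3 : deriv G =ᶠ[𝓝 w₀] fun _ => (1 : ℂ) := by
      filter_upwards [hH] with z hz
      exact sub_eq_zero.1 hz
    have h4 := h3.deriv_eq
    have h5 : HasDerivAt (deriv G) (a * (a * G w₀)) w₀ := by
      have h6 : deriv G = fun x => a * G x := funext hder
      rw [h6]
      have h7 : HasDerivAt G (a * G w₀) w₀ := by
        rw [← hder w₀]
        exact (hGdiff w₀).hasDerivAt
      exact h7.const_mul a
    rw [h5.deriv, deriv_const] at h4
    exact (mul_ne_zero ha0 (mul_ne_zero ha0 (hGne w₀))) h4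
  · filter_upwards [h𝒰le (hball (‖w₀‖ + 1) (by positivity))] with n hn
    have h3 : DifferentiableOn ℂ (g n) (ball 0 (‖w₀‖ + 1)) :=
      (hNN n).1.mono (hn.trans (ball_subset_ball (h41 n)))
    exact (h3.deriv isOpen_ball).sub_const 1
  · have h3 := hG1.mono (subset_univ (ball (0 : ℂ) (‖w₀‖ + 1)))
    rw [Metric.tendstoLocallyUniformlyOn_iff] at h3 ⊢
    intro ε hε x hx
    obtain ⟨s, hs, h4⟩ := h3 ε hε x hx
    refine ⟨s, hs, ?_⟩
    filter_upwards [h4] with n hn y hy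
    have := hn y hy
    rwa [dist_sub_right]
  · filter_upwards [h𝒰le (hball (‖w₀‖ + 1) (by positivity))] with n hn z hz
    exact sub_ne_zero.2 ((hNN n).2.2 z (ball_subset_ball (h41 n) (hn hz)))

end Pool.Agent.H792R2.SS
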