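import Pool.Agent.H792R2.SS.Defs
import Pool.Agent.Helper509.Polar

/-!
# NU: facts on the kernel
-/

set_option autoImplicit false
open Set Filter Topology Metric MeasureTheory

namespace Pool.Agent.H792R2.SS.NUx

theorem tlog_le (r t : ℝ) (hr : 0 < r) (ht : 0 < t) (htr : t < r) :
    0 ≤ Real.log (r / t) ∧ t * Real.log (r / t) ≤ r := by
  have h1 : 1 ≤ r / t := by
    rw [le_div_iff₀ ht]
    linarith
  refine ⟨Real.log_nonneg h1, ?_⟩
  have h2 : Real.log (r / t) ≤ r / t := (Real.log_le_sub_one_of_pos (by positivity)).trans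
    (by linarith)
  calc t * Real.log (r / t) ≤ t * (r / t) := mul_le_mul_of_nonneg_left h2 ht.le
    _ = r := by field_simp

theorem meas_ker (r : ℝ) : Measurable (ker r) := by
  unfold ker
  apply Measurable.div
  · exact Real.measurable_log.comp (measurable_const.div measurable_norm)
  · exact (measurable_const.sub (measurable_norm.pow_const 2)).pow_const 2

theorem int_ker (r : ℝ) (hr : 0 < r) (hr1 : r < 1) : IntegrableOn (ker r) (ball 0 r) := by
  refine ⟨(meas_ker r).aestronglyMeasurable, ?_⟩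
  rw [hasFiniteIntegral_iff_enorm, Helper509.Polar.lintegral_ball]
  have hr2 : 0 < 1 - r ^ 2 := by nlinarith
  have hle : ∫⁻ p in (Ioo 0 r) ×ˢ (Ioo (-Real.pi) Real.pi),
      ENNReal.ofReal p.1 * ‖ker r (circleMap 0 p.1 p.2)‖ₑ ≤
      ∫⁻ p in (Ioo 0 r) ×ˢ (Ioo (-Real.pi) Real.pi), ENNReal.ofReal (r / (1 - r ^ 2) ^ 2) := by
    apply setLIntegral_mono' (measurableSet_Ioo.prod measurableSet_Ioo)
    intro p hp
    have hp1 : 0 < p.1 := hp.1.1
    have hp2 : p.1 < r := hp.1.2
    obtain ⟨hl0, hl1⟩ := tlog_le r p.1 hr hp1 hp2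
    have hp3 : 1 - r ^ 2 ≤ 1 - p.1 ^ 2 := by nlinarith
    rw [← ofReal_norm, ← ENNReal.ofReal_mul hp1.le]
    apply ENNReal.ofReal_le_ofReal
    unfold ker
    rw [norm_circleMap_zero, abs_of_pos hp1, norm_div, Real.norm_of_nonneg hl0,
      Real.norm_of_nonneg (by positivity), ← mul_div_assoc]
    apply div_le_div₀ hr.le hl1 (by positivity)
    apply pow_le_pow_left₀ hr2.le hp3
  refine lt_of_le_of_lt hle ?_
  rw [setLIntegral_const]
  apply ENNReal.mul_lt_top ENNReal.ofReal_lt_top
  rw [Measure.volume_eq_prod, Measure.prod_prod, Real.volume_Ioo, Real.volume_Ioo]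
  exact ENNReal.mul_lt_top ENNReal.ofReal_lt_top ENNReal.ofReal_lt_top

end Pool.Agent.H792R2.SS.NUx

namespace Pool.Agent.H792R2.SS

open NUx

theorem t_NU (hMEAN : S_MEAN) (hLU : S_LU) : S_NU := by
  refine ⟨int_ker, ?_, ?_⟩
  · intro r hr hr1
    have hr2 : 0 < 1 - r ^ 2 := by nlinarith
    obtain ⟨h1, h2⟩ := hLU (fun _ => 1) (fun x => x) (differentiableOn_const 1)
      (fun z _ => one_ne_zero) contDiff_id
    have hU : ∀ z : ℂ, UU (fun _ => 1) z = -Real.log (1 - ‖z‖ ^ 2) := by
      intro z
      unfold UU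
      simp
    have h3 := hMEAN (fun z => UU (fun _ => 1) z) r h1 hr hr1
    have h4 : Real.circleAverage (fun z => UU (fun _ => 1) z) 0 r = sr r := by
      apply Real.circleAverage_const_on_circle
      intro z hz
      rw [mem_sphere_zero_iff_norm, abs_of_pos hr] at hz
      rw [hU, hz]
      rfl
    have h5 : UU (fun _ => 1) 0 = 0 := by
      rw [hU]
      simp
    have h6 : ∫ z in ball (0 : ℂ) r, Real.log (r / ‖z‖) * Lap (fun z => UU (fun _ => 1) z) z =
        ∫ z in ball (0 : ℂ) r, 4 * ker r z := by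
      apply setIntegral_congr_fun measurableSet_ball
      intro z hz
      have hz1 : ‖z‖ < r := by rwa [mem_ball_zero_iff] at hz
      have hz2 : 0 < 1 - ‖z‖ ^ 2 := by nlinarith [norm_nonneg z]
      have h7 := h2 z (by rw [mem_ball_zero_iff]; linarith)
      have h8 : deriv (fun x : ℝ => x) = fun _ => 1 := by
        funext x
        exact deriv_id x
      rw [h8] at h7
      simp only [deriv_const] at h7
      rw [zero_mul, add_zero] at h7
      have h9 : Lap (fun z => UU (fun _ => 1) z) z = 4 / (1 - ‖z‖ ^ 2) ^ 2 := by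
        field_simp
        field_simp at h7
        linarith
      simp only
      rw [h9]
      unfold ker
      ring
    rw [h4, h5, zero_add, h6, integral_const_mul] at h3
    rw [h3]
    unfold nu
    rw [inter_univ]
    have hpi := Real.pi_pos
    field_simp
    ring
  · intro r r' hr hrr hr1 z hz
    have hz1 : ‖z‖ < r := by rwa [mem_ball_zero_iff] at hz
    unfold ker
    by_cases h0 : z = 0
    · simp [h0]
    · have hn : 0 < ‖z‖ := norm_pos_iff.mpr h0
      obtain ⟨hl0, -⟩ := tlog_le r ‖z‖ hr hn hz1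
      refine ⟨by positivity, ?_⟩
      apply div_le_div_of_nonneg_right _ (by positivity)
      apply Real.log_le_log (by positivity)
      apply div_le_div_of_nonneg_right hrr hn.le

end Pool.Agent.H792R2.SS
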