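import Pool.Agent.H792R2.SS.Defs

set_option autoImplicit false
open Set Filter Topology Metric MeasureTheory

namespace Pool.Agent.H792R2.SS.P1x

theorem scale {F : ℂ → ℂ} {z : ℂ} {R : ℝ} (hF : NN F z R) {w : ℂ} {ρ : ℝ} (hρ : 0 < ρ)
    (hsub : ball w ρ ⊆ ball z R) :
    NN (fun x => F (w + (ρ : ℂ) * x) / (ρ : ℂ)) 0 1 ∧
      ∀ x ∈ ball (0 : ℂ) 1, HasDerivAt (fun x => F (w + (ρ : ℂ) * x) / (ρ : ℂ))
        (deriv F (w + (ρ : ℂ) * x)) x := by
  obtain ⟨hd, hne, h1⟩ := hF
  have hρ' : (ρ : ℂ) ≠ 0 := by exact_mod_cast hρ.ne'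
  have hmem : ∀ x ∈ ball (0 : ℂ) 1, w + (ρ : ℂ) * x ∈ ball z R := by
    intro x hx
    apply hsub
    rw [mem_ball_zero_iff] at hx
    rw [mem_ball, dist_eq_norm, add_sub_cancel_left, norm_mul, Complex.norm_real,
      Real.norm_of_nonneg hρ.le]
    nlinarith
  have hder : ∀ x ∈ ball (0 : ℂ) 1, HasDerivAt (fun x => F (w + (ρ : ℂ) * x) / (ρ : ℂ))
      (deriv F (w + (ρ : ℂ) * x)) x := by
    intro x hx
    have h2 : HasDerivAt F (deriv F (w + (ρ : ℂ) * x)) (w + (ρ : ℂ) * x) :=
      (hd.differentiableAt (isOpen_ball.mem_nhds (hmem x hx))).hasDerivAt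
    have h3 : HasDerivAt (fun x : ℂ => w + (ρ : ℂ) * x) (ρ : ℂ) x := by
      simpa using ((hasDerivAt_id x).const_mul (ρ : ℂ)).const_add w
    have h4 := (h2.comp x h3).div_const (ρ : ℂ)
    rw [mul_div_assoc, div_self hρ', mul_one] at h4
    exact h4
  refine ⟨⟨fun x hx => (hder x hx).differentiableAt.differentiableWithinAt, fun x hx =>
    div_ne_zero (hne _ (hmem x hx)) hρ', fun x hx => ?_⟩, hder⟩
  rw [(hder x hx).deriv]
  exact h1 _ (hmem x hx)

end Pool.Agent.H792R2.SS.P1x

namespace Pool.Agent.H792R2.SS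

theorem t_P1 (hNL : S_NL) (hHH : S_HH) (hLOG : S_LOG) : S_P1 := by
  obtain ⟨C0, hC0, hNL⟩ := hNL
  refine ⟨20 * Real.exp 1 * C0 + 8, by positivity, ?_⟩
  intro F z R hR hF
  have hR2 : 0 < R / 2 := by positivity
  have hRc : (R : ℂ) ≠ 0 := by exact_mod_cast hR.ne'
  -- pointwise bound
  have key : ∀ w ∈ ball z (R / 2), ‖deriv F w‖ ≤ C0 * (1 + 4 * (‖F w‖ / R) ^ 2) := by
    intro w hw
    have hsub : ball w (R / 2) ⊆ ball z R := by
      intro x hx
      rw [mem_ball] at *
      have := dist_triangle x w z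
      linarith
    obtain ⟨hNN, hder⟩ := P1x.scale hF hR2 hsub
    have h2 := hNL _ hNN
    rw [(hder 0 (mem_ball_self one_pos)).deriv] at h2
    simp only [mul_zero, add_zero, norm_div, Complex.norm_real, Real.norm_of_nonneg hR2.le] at h2
    refine h2.trans (le_of_eq ?_)
    field_simp
    ring
  obtain ⟨hd, hne, h1⟩ := hF
  obtain ⟨h, hh, he⟩ := hLOG (ball z R) (fun w => F w / R) isOpen_ball (convex_ball z R)
    (hd.div_const _) (fun w hw => div_ne_zero (hne w hw) hRc)
  have hnorm : ∀ w ∈ ball z R, Real.exp (h w).re = ‖F w‖ / R := by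
    intro w hw
    rw [← Complex.norm_exp, he w hw, norm_div, Complex.norm_real, Real.norm_of_nonneg hR.le]
  have hder : ∀ w ∈ ball z R, deriv h w = deriv F w / F w := by
    intro w hw
    have hdh : HasDerivAt h (deriv h w) w :=
      (hh.differentiableAt (isOpen_ball.mem_nhds hw)).hasDerivAt
    have hdF : HasDerivAt F (deriv F w) w :=
      (hd.differentiableAt (isOpen_ball.mem_nhds hw)).hasDerivAt
    have e1 : HasDerivAt (fun x => Complex.exp (h x)) (Complex.exp (h w) * deriv h w) w := hdh.cexp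
    have e2 : HasDerivAt (fun x => F x / R) (deriv F w / R) w := hdF.div_const _
    have e3 : (fun x => Complex.exp (h x)) =ᶠ[𝓝 w] (fun x => F x / R) := by
      filter_upwards [isOpen_ball.mem_nhds hw] with x hx using he x hx
    have e4 := (e2.congr_of_eventuallyEq e3).unique e1
    rw [he w hw] at e4
    have hFw := hne w hw
    field_simp at e4 ⊢
    rw [e4]
  have hHH' := hHH h z (R / 2) (5 * Real.exp 1 * C0 / R) hR2 (by positivity)
    (hh.mono (ball_subset_ball (by linarith))) (by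
      intro w hw hre
      have hwR : w ∈ ball z R := ball_subset_ball (by linarith) hw
      rw [hder w hwR, norm_div]
      have hk := key w hw
      have hu := hnorm w hwR
      rw [abs_le] at hre
      set u : ℝ := ‖F w‖ / R with hudef
      have hu0 : 0 < u := by rw [← hu]; positivity
      have hu1 : u ≤ Real.exp 1 := by rw [← hu]; exact Real.exp_le_exp.mpr hre.2
      have hu2 : 1 ≤ u * Real.exp 1 := by
        rw [← hu, ← Real.exp_add]
        exact Real.one_le_exp (by linarith [hre.1])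
      have hFw : ‖F w‖ = u * R := by rw [hudef]; field_simp
      rw [hFw, div_le_div_iff₀ (by positivity) hR]
      have h5 : 1 + 4 * u ^ 2 ≤ 5 * Real.exp 1 * u := by nlinarith
      calc ‖deriv F w‖ * R ≤ (C0 * (1 + 4 * u ^ 2)) * R := mul_le_mul_of_nonneg_right hk hR.le
        _ ≤ (C0 * (5 * Real.exp 1 * u)) * R :=
          mul_le_mul_of_nonneg_right (mul_le_mul_of_nonneg_left h5 hC0.le) hR.le
        _ = _ := by ring)
  have hz : z ∈ ball z R := mem_ball_self hR
  have hre : (h z).re = Real.log (‖F z‖ / R) := by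
    rw [← hnorm z hz, Real.log_exp]
  rw [← hder z hz, ← hre]
  have h6 : R * ‖deriv h z‖ ≤ R * (4 * (5 * Real.exp 1 * C0 / R) + 4 * |(h z).re| / (R / 2)) :=
    mul_le_mul_of_nonneg_left hHH' hR.le
  have h7 : R * (4 * (5 * Real.exp 1 * C0 / R) + 4 * |(h z).re| / (R / 2)) =
      20 * Real.exp 1 * C0 + 8 * |(h z).re| := by
    field_simp
    ring
  rw [h7] at h6
  refine h6.trans ?_
  have h8 : 0 ≤ 20 * Real.exp 1 * C0 * |(h z).re| := by positivity
  nlinarith [abs_nonneg (h z).re]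

end Pool.Agent.H792R2.SS
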