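import Pool.Agent.H792R2.SS.Defs

set_option autoImplicit false
open Set Filter Topology Metric MeasureTheory

namespace Pool.Agent.H792R2.SS
namespace P3x

lemma exp_sq (t : ℝ) (ht : 0 ≤ t) : (1 + t) ^ 2 ≤ 2 * Real.exp t := by
  have := Real.quadratic_le_exp_of_nonneg ht
  nlinarith

/-- the case `z = 0`, `R = 1` -/
lemma core (hP1 : S_P1) (hLOG : S_LOG) (hGR : S_GR) (hPOS : S_POS) :
    ∃ C : ℝ, 0 < C ∧ ∀ F : ℂ → ℂ, NN F 0 1 →
      ‖deriv (deriv F) 0‖ ≤ C * min 1 ‖F 0‖ * (1 + |Real.log ‖F 0‖|) ^ 2 *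
        (1 + |Real.log ‖deriv F 0 - 1‖|) * ‖deriv F 0 - 1‖ := by
  obtain ⟨A, hA, hP⟩ := hP1
  set B : ℝ := 4 * A * Real.exp (2 * A) with hB
  have hB0 : 0 < B := by positivity
  set M0 : ℝ := (1 + 4 * A) * Real.exp (2 * A) with hM0
  have hM00 : 0 < M0 := by positivity
  refine ⟨4 * (M0 + 1) * Real.exp (4 * B) + 2 * Real.exp 1 * B * (B + 4), by positivity, ?_⟩
  intro F hF
  obtain ⟨hd, h0, h1⟩ := hF
  obtain ⟨h, hhd, hexp⟩ := hLOG (ball 0 1) F isOpen_ball (convex_ball _ _) hd h0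
  have hsub : ball (0 : ℂ) (1 / 2) ⊆ ball 0 1 := ball_subset_ball (by norm_num)
  have hnorm : ∀ w ∈ ball (0 : ℂ) 1, ‖F w‖ = Real.exp (h w).re := fun w hw => by
    rw [← hexp w hw, Complex.norm_exp]
  have hlog : ∀ w ∈ ball (0 : ℂ) 1, Real.log ‖F w‖ = (h w).re := fun w hw => by
    rw [hnorm w hw, Real.log_exp]
  have hdiffh : ∀ w ∈ ball (0 : ℂ) 1, DifferentiableAt ℂ h w := fun w hw =>
    (hhd w hw).differentiableAt (isOpen_ball.mem_nhds hw)
  have hder : ∀ w ∈ ball (0 : ℂ) 1, deriv F w = F w * deriv h w := fun w hw => by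
    have e1 : F =ᶠ[𝓝 w] fun x => Complex.exp (h x) := by
      filter_upwards [isOpen_ball.mem_nhds hw] with x hx
      exact (hexp x hx).symm
    rw [e1.deriv_eq]
    have := ((hdiffh w hw).hasDerivAt).cexp
    rw [this.deriv, hexp w hw]
  have hFd : ∀ w ∈ ball (0 : ℂ) 1, DifferentiableAt ℂ F w := fun w hw =>
    (hd w hw).differentiableAt (isOpen_ball.mem_nhds hw)
  have hdd : DifferentiableOn ℂ (deriv F) (ball 0 1) := hd.deriv isOpen_ball
  -- P1 on small balls
  have hh' : ∀ w ∈ ball (0 : ℂ) (1 / 2), ‖deriv h w‖ ≤ 4 * A * (1 + |(h w).re|) := by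
    intro w hw
    have hw1 := hsub hw
    have hb : ball w (1 / 2) ⊆ ball (0 : ℂ) 1 := by
      apply ball_subset_ball'
      rw [mem_ball] at hw
      linarith
    have hnn : NN F w (1 / 2) := ⟨hd.mono hb, fun x hx => h0 x (hb hx), fun x hx => h1 x (hb hx)⟩
    have := hP F w (1 / 2) (by norm_num) hnn
    have e1 : deriv F w / F w = deriv h w := by
      rw [hder w hw1]
      field_simp [h0 w hw1]
    rw [e1] at this
    have e2 : Real.log (‖F w‖ / (1 / 2)) = (h w).re + Real.log 2 := by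
      rw [Real.log_div (norm_ne_zero_iff.2 (h0 w hw1)) (by norm_num), hlog w hw1, one_div,
        Real.log_inv]
      ring
    rw [e2] at this
    have e3 : |(h w).re + Real.log 2| ≤ |(h w).re| + 1 := by
      refine (abs_add_le _ _).trans ?_
      have h2 : Real.log 2 ≤ 1 := by
        have := Real.log_two_lt_d9
        linarith
      have h3 : 0 ≤ Real.log 2 := Real.log_nonneg (by norm_num)
      rw [abs_of_nonneg h3]
      linarith
    have e4 : 0 ≤ |(h w).re| := abs_nonneg _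
    nlinarith
  have hgr : ∀ w ∈ ball (0 : ℂ) (1 / 2),
      1 + |(h w).re| ≤ (1 + |(h 0).re|) * Real.exp (2 * A) := by
    intro w hw
    have := hGR (ball 0 (1 / 2)) h (4 * A) isOpen_ball (convex_ball _ _) (by positivity)
      (hhd.mono hsub) hh' 0 (mem_ball_self (by norm_num)) w hw
    refine this.trans ?_
    have hw' : ‖w - 0‖ < 1 / 2 := by
      rw [← dist_eq_norm]; exact hw
    have : Real.exp (4 * A * ‖w - 0‖) ≤ Real.exp (2 * A) := by
      apply Real.exp_le_exp.2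
      nlinarith
    have e4 : 0 ≤ |(h 0).re| := abs_nonneg _
    gcongr
  have h00 : (0 : ℂ) ∈ ball (0 : ℂ) 1 := mem_ball_self one_pos
  have h00' : (0 : ℂ) ∈ ball (0 : ℂ) (1 / 2) := mem_ball_self (by norm_num)
  set u0 : ℝ := (h 0).re with hu0
  have hu0a : 0 ≤ |u0| := abs_nonneg _
  have hP' : ∀ w ∈ ball (0 : ℂ) (1 / 2), ‖deriv h w‖ ≤ B * (1 + |u0|) := by
    intro w hw
    refine (hh' w hw).trans ?_
    have := hgr w hw
    calc 4 * A * (1 + |(h w).re|) ≤ 4 * A * ((1 + |u0|) * Real.exp (2 * A)) := by gcongr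
      _ = B * (1 + |u0|) := by rw [hB]; ring
  -- general bound
  have hPne : ∀ w ∈ ball (0 : ℂ) 1, deriv F w - 1 ≠ 0 := fun w hw => sub_ne_zero.2 (h1 w hw)
  obtain ⟨V, hVd, hV⟩ := hLOG (ball 0 1) (fun w => deriv F w - 1) isOpen_ball (convex_ball _ _)
    (hdd.sub_const 1) hPne
  have hVre : ∀ w ∈ ball (0 : ℂ) 1, (V w).re = Real.log ‖deriv F w - 1‖ := fun w hw => by
    rw [← hV w hw, Complex.norm_exp, Real.log_exp]
  have hVM : ∀ w ∈ ball (0 : ℂ) (1 / 2), (V w).re ≤ M0 * (1 + |u0|) := by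
    intro w hw
    have hw1 := hsub hw
    rw [hVre w hw1]
    have ha : 0 ≤ |(h w).re| := abs_nonneg _
    have e1 : ‖deriv F w - 1‖ ≤ Real.exp |(h w).re| * (1 + 4 * A * (1 + |(h w).re|)) := by
      refine (norm_sub_le _ _).trans ?_
      rw [hder w hw1, norm_mul, hnorm w hw1, norm_one]
      have b1 : Real.exp (h w).re ≤ Real.exp |(h w).re| := Real.exp_le_exp.2 (le_abs_self _)
      have b2 : 1 ≤ Real.exp |(h w).re| := Real.one_le_exp ha
      have b3 := hh' w hw
      have b4 : Real.exp (h w).re * ‖deriv h w‖ ≤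
          Real.exp |(h w).re| * (4 * A * (1 + |(h w).re|)) :=
        mul_le_mul b1 b3 (norm_nonneg _) (Real.exp_pos _).le
      nlinarith
    have hpos : 0 < ‖deriv F w - 1‖ := norm_pos_iff.2 (hPne w hw1)
    have e2 := Real.log_le_log hpos e1
    rw [Real.log_mul (Real.exp_pos _).ne' (by positivity), Real.log_exp] at e2
    have e3 : Real.log (1 + 4 * A * (1 + |(h w).re|)) ≤ 4 * A * (1 + |(h w).re|) := by
      have := Real.log_le_sub_one_of_pos (x := 1 + 4 * A * (1 + |(h w).re|)) (by positivity)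
      linarith
    have e4 := hgr w hw
    calc Real.log ‖deriv F w - 1‖ ≤ (1 + 4 * A) * (1 + |(h w).re|) := by nlinarith
      _ ≤ (1 + 4 * A) * ((1 + |u0|) * Real.exp (2 * A)) := by gcongr
      _ = M0 * (1 + |u0|) := by rw [hM0]; ring
  set v0 : ℝ := Real.log ‖deriv F 0 - 1‖ with hv0
  have hv0a : 0 ≤ |v0| := abs_nonneg _
  have hVdiff : ∀ w ∈ ball (0 : ℂ) 1, DifferentiableAt ℂ V w := fun w hw =>
    (hVd w hw).differentiableAt (isOpen_ball.mem_nhds hw)
  have hV' : deriv (deriv F) 0 = (deriv F 0 - 1) * deriv V 0 := by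
    have e1 : deriv F =ᶠ[𝓝 0] fun x => Complex.exp (V x) + 1 := by
      filter_upwards [isOpen_ball.mem_nhds h00] with x hx
      rw [hV x hx]; ring
    rw [e1.deriv_eq]
    have := (((hVdiff 0 h00).hasDerivAt).cexp).add_const (1 : ℂ)
    rw [this.deriv, hV 0 h00]
  have hgen : ‖deriv (deriv F) 0‖ ≤
      4 * (M0 + 1) * (1 + |u0|) * (1 + |v0|) * ‖deriv F 0 - 1‖ := by
    have hg := (hPOS (fun w => ((M0 * (1 + |u0|) + 1 : ℝ) : ℂ) - V w) 0 (1 / 2) (by norm_num)
      ((differentiableOn_const _).sub (hVd.mono hsub)) (by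
        intro w hw
        have := hVM w hw
        simp only [Complex.sub_re, Complex.ofReal_re]
        linarith)).1
    have e1 : deriv (fun w => ((M0 * (1 + |u0|) + 1 : ℝ) : ℂ) - V w) 0 = - deriv V 0 := by
      rw [deriv_const_sub]
    rw [e1, norm_neg] at hg
    simp only [Complex.sub_re, Complex.ofReal_re] at hg
    rw [hVre 0 h00] at hg
    have e2 : - v0 ≤ |v0| := neg_le_abs _
    have e3 : ‖deriv V 0‖ ≤ 4 * (M0 + 1) * (1 + |u0|) * (1 + |v0|) := by
      refine hg.trans ?_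
      have : 2 * (M0 * (1 + |u0|) + 1 - v0) / (1 / 2) = 4 * (M0 * (1 + |u0|) + 1 - v0) := by ring
      rw [this]
      have k1 : 0 ≤ |u0| * |v0| := by positivity
      have k2 : 0 ≤ M0 * |v0| := by positivity
      have k3 : 0 ≤ M0 * (|u0| * |v0|) := by positivity
      nlinarith
    rw [hV', norm_mul, mul_comm]
    exact mul_le_mul_of_nonneg_right e3 (norm_nonneg _)
  rw [hlog 0 h00, hnorm 0 h00]
  have hPn : 0 ≤ ‖deriv F 0 - 1‖ := norm_nonneg _
  rcases le_or_gt (-(4 * B)) u0 with hcase | hcase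
  · -- large case
    have hmin : Real.exp (-(4 * B)) ≤ min 1 (Real.exp u0) :=
      le_min (Real.exp_le_one_iff.2 (by linarith)) (Real.exp_le_exp.2 hcase)
    have k1 : 1 ≤ Real.exp (4 * B) * min 1 (Real.exp u0) := by
      calc (1 : ℝ) = Real.exp (4 * B) * Real.exp (-(4 * B)) := by
            rw [← Real.exp_add]; simp
        _ ≤ _ := by gcongr
    have k2 : (1 + |u0|) ≤ (1 + |u0|) ^ 2 := by nlinarith
    have hmn : 0 < min 1 (Real.exp u0) := lt_min one_pos (Real.exp_pos _)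
    calc ‖deriv (deriv F) 0‖ ≤ 4 * (M0 + 1) * (1 + |u0|) * (1 + |v0|) * ‖deriv F 0 - 1‖ := hgen
      _ ≤ 4 * (M0 + 1) * (1 + |u0|) ^ 2 * (1 + |v0|) * ‖deriv F 0 - 1‖ := by gcongr
      _ = 1 * (4 * (M0 + 1) * (1 + |u0|) ^ 2 * (1 + |v0|) * ‖deriv F 0 - 1‖) := by ring
      _ ≤ (Real.exp (4 * B) * min 1 (Real.exp u0)) *
          (4 * (M0 + 1) * (1 + |u0|) ^ 2 * (1 + |v0|) * ‖deriv F 0 - 1‖) := by gcongr
      _ = (4 * (M0 + 1) * Real.exp (4 * B)) * min 1 (Real.exp u0) * (1 + |u0|) ^ 2 *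
          (1 + |v0|) * ‖deriv F 0 - 1‖ := by ring
      _ ≤ (4 * (M0 + 1) * Real.exp (4 * B) + 2 * Real.exp 1 * B * (B + 4)) *
          min 1 (Real.exp u0) * (1 + |u0|) ^ 2 * (1 + |v0|) * ‖deriv F 0 - 1‖ := by
          gcongr
          have : 0 ≤ 2 * Real.exp 1 * B * (B + 4) := by positivity
          linarith
  · -- small case
    have hu0neg : u0 < 0 := by linarith
    have habs : |u0| = -u0 := abs_of_neg hu0neg
    have hmn : min 1 (Real.exp u0) = Real.exp u0 := min_eq_right (Real.exp_le_one_iff.2 hu0neg.le)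
    have k0 : B * (1 + |u0|) * Real.exp u0 ≤ 1 / 2 := by
      have q1 := exp_sq (-u0) (by linarith)
      have q2 : Real.exp (-u0) * Real.exp u0 = 1 := by rw [← Real.exp_add]; simp
      have q3 : 4 * B ≤ 1 + -u0 := by linarith
      rw [habs]
      have q4 : (1 + -u0) ^ 2 * Real.exp u0 ≤ 2 := by
        calc (1 + -u0) ^ 2 * Real.exp u0 ≤ (2 * Real.exp (-u0)) * Real.exp u0 := by gcongr
          _ = 2 := by rw [mul_assoc, q2]; ring
      have q5 : 0 < Real.exp u0 := Real.exp_pos _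
      have q6 : 4 * (B * (1 + -u0) * Real.exp u0) ≤ (1 + -u0) ^ 2 * Real.exp u0 := by
        have : 4 * B * ((1 + -u0) * Real.exp u0) ≤ (1 + -u0) * ((1 + -u0) * Real.exp u0) := by
          apply mul_le_mul_of_nonneg_right q3
          have : 0 ≤ 1 + -u0 := by linarith
          positivity
        nlinarith
      linarith
    have hP0 : ‖deriv F 0‖ ≤ 1 / 2 := by
      rw [hder 0 h00, norm_mul, hnorm 0 h00]
      have := hP' 0 h00'
      calc Real.exp u0 * ‖deriv h 0‖ ≤ Real.exp u0 * (B * (1 + |u0|)) := by gcongr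
        _ = B * (1 + |u0|) * Real.exp u0 := by ring
        _ ≤ 1 / 2 := k0
    have hPlow : 1 / 2 ≤ ‖deriv F 0 - 1‖ := by
      have := norm_sub_norm_le (1 : ℂ) (deriv F 0)
      rw [norm_one, norm_sub_rev] at this
      linarith
    -- Cauchy estimate
    set ρ : ℝ := 1 / ((B + 4) * (1 + |u0|)) with hρ
    have hρ0 : 0 < ρ := by positivity
    have hρ4 : ρ ≤ 1 / 4 := by
      rw [hρ]
      apply one_div_le_one_div_of_le (by norm_num)
      nlinarith
    have hcb : closedBall (0 : ℂ) ρ ⊆ ball 0 (1 / 2) := closedBall_subset_ball (by linarith)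
    have hosc : ∀ w ∈ closedBall (0 : ℂ) ρ, (h w).re ≤ u0 + 1 := by
      intro w hw
      have hmv := (convex_ball (0 : ℂ) (1 / 2)).norm_image_sub_le_of_norm_deriv_le
        (f := h) (C := B * (1 + |u0|)) (fun x hx => hdiffh x (hsub hx)) hP' h00' (hcb hw)
      have h5 : ‖w - 0‖ ≤ ρ := by rw [← dist_eq_norm]; exact hw
      have h6 : B * (1 + |u0|) * ‖w - 0‖ ≤ 1 := by
        calc B * (1 + |u0|) * ‖w - 0‖ ≤ (B + 4) * (1 + |u0|) * ρ := by gcongr; linarith
          _ = 1 := by rw [hρ]; field_simp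
      have h7 : (h w - h 0).re ≤ ‖h w - h 0‖ := (le_abs_self _).trans (Complex.abs_re_le_norm _)
      rw [Complex.sub_re] at h7
      linarith
    have hsup : ∀ w ∈ sphere (0 : ℂ) ρ, ‖deriv F w‖ ≤ Real.exp (u0 + 1) * (B * (1 + |u0|)) := by
      intro w hw
      have hwc : w ∈ closedBall (0 : ℂ) ρ := sphere_subset_closedBall hw
      rw [hder w (hsub (hcb hwc)), norm_mul, hnorm w (hsub (hcb hwc))]
      exact mul_le_mul (Real.exp_le_exp.2 (hosc w hwc)) (hP' w (hcb hwc)) (norm_nonneg _)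
        (Real.exp_pos _).le
    have hcau := Complex.norm_deriv_le_of_forall_mem_sphere_norm_le (f := deriv F) (c := 0) hρ0
      (hdd.diffContOnCl_ball (by
        intro x hx
        exact hsub (hcb hx))) hsup
    have hcau2 : ‖deriv (deriv F) 0‖ ≤ Real.exp 1 * B * (B + 4) * (1 + |u0|) ^ 2 * Real.exp u0 := by
      refine hcau.trans (le_of_eq ?_)
      rw [hρ, Real.exp_add]
      field_simp
    rw [hmn]
    calc ‖deriv (deriv F) 0‖ ≤ Real.exp 1 * B * (B + 4) * (1 + |u0|) ^ 2 * Real.exp u0 := hcau2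
      _ = (2 * Real.exp 1 * B * (B + 4)) * Real.exp u0 * (1 + |u0|) ^ 2 * 1 * (1 / 2) := by ring
      _ ≤ (4 * (M0 + 1) * Real.exp (4 * B) + 2 * Real.exp 1 * B * (B + 4)) * Real.exp u0 *
          (1 + |u0|) ^ 2 * (1 + |v0|) * ‖deriv F 0 - 1‖ := by
          gcongr
          · have : 0 ≤ 4 * (M0 + 1) * Real.exp (4 * B) := by positivity
            linarith
          · linarith

end P3x

theorem t_P3 (hP1 : S_P1) (hLOG : S_LOG) (hGR : S_GR) (hPOS : S_POS) : S_P3 := by
  obtain ⟨C, hC, h⟩ := P3x.core hP1 hLOG hGR hPOS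
  refine ⟨C, hC, ?_⟩
  intro F z R hR hF
  obtain ⟨hd, h0, h1⟩ := hF
  have hRc : (R : ℂ) ≠ 0 := by exact_mod_cast hR.ne'
  set G : ℂ → ℂ := fun w => F (z + R * w) / R with hG
  have hmem : ∀ w ∈ ball (0 : ℂ) 1, z + R * w ∈ ball z R := by
    intro w hw
    rw [mem_ball, dist_eq_norm] at hw ⊢
    rw [sub_zero] at hw
    rw [add_sub_cancel_left, norm_mul, Complex.norm_real, Real.norm_of_nonneg hR.le]
    nlinarith
  have hFd : ∀ x ∈ ball z R, DifferentiableAt ℂ F x := fun x hx =>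
    (hd x hx).differentiableAt (isOpen_ball.mem_nhds hx)
  have hlin : ∀ w : ℂ, HasDerivAt (fun w : ℂ => z + R * w) (R : ℂ) w := fun w => by
    simpa using ((hasDerivAt_id w).const_mul (R : ℂ)).const_add z
  have hGder : ∀ w ∈ ball (0 : ℂ) 1, HasDerivAt G (deriv F (z + R * w)) w := by
    intro w hw
    have := (((hFd _ (hmem w hw)).hasDerivAt).comp w (hlin w)).div_const (R : ℂ)
    have e : deriv F (z + R * w) * R / R = deriv F (z + R * w) := by field_simp
    rw [e] at this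
    exact this
  have hGd : ∀ w ∈ ball (0 : ℂ) 1, deriv G w = deriv F (z + R * w) := fun w hw =>
    (hGder w hw).deriv
  have hdd : DifferentiableOn ℂ (deriv F) (ball z R) := hd.deriv isOpen_ball
  have h00 : (0 : ℂ) ∈ ball (0 : ℂ) 1 := mem_ball_self one_pos
  have hzz : z ∈ ball z R := mem_ball_self hR
  have hG2 : deriv (deriv G) 0 = R * deriv (deriv F) z := by
    have e1 : deriv G =ᶠ[𝓝 0] fun w => deriv F (z + R * w) := by
      filter_upwards [isOpen_ball.mem_nhds h00] with w hw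
      exact hGd w hw
    rw [e1.deriv_eq]
    have hz0 : z + R * 0 = z := by simp
    have hF2 : HasDerivAt (deriv F) (deriv (deriv F) z) (z + R * 0) := by
      rw [hz0]
      exact ((hdd z hzz).differentiableAt (isOpen_ball.mem_nhds hzz)).hasDerivAt
    have := hF2.comp (0 : ℂ) (hlin 0)
    rw [show (fun w : ℂ => deriv F (z + R * w)) = (deriv F ∘ fun w : ℂ => z + R * w) from rfl,
      this.deriv, mul_comm]
  have hNN : NN G 0 1 := by
    refine ⟨fun w hw => (hGder w hw).differentiableAt.differentiableWithinAt, ?_, ?_⟩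
    · intro w hw
      exact div_ne_zero (h0 _ (hmem w hw)) hRc
    · intro w hw
      rw [hGd w hw]
      exact h1 _ (hmem w hw)
  have := h G hNN
  rw [hG2, hGd 0 h00] at this
  have hG0 : ‖G 0‖ = ‖F z‖ / R := by
    simp only [hG, mul_zero, add_zero]
    rw [norm_div, Complex.norm_real, Real.norm_of_nonneg hR.le]
  rw [hG0, norm_mul, Complex.norm_real, Real.norm_of_nonneg hR.le] at this
  simpa using this

end Pool.Agent.H792R2.SS
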