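import Pool.Agent.H792R2.SS.Defs

set_option autoImplicit false
open Set Filter Topology Metric MeasureTheory

namespace Pool.Agent.H792R2.SS.POLYx

theorem norm_sq_le {R κ : ℝ} (hR : 2 * κ ^ 2 + 1 ≤ R) :
    (R - 1 / 2) ^ 2 + κ ^ 2 ≤ (R - 1 / 4) ^ 2 := by
  nlinarith [sq_nonneg κ]

end Pool.Agent.H792R2.SS.POLYx

namespace Pool.Agent.H792R2.SS

theorem t_POLY (hPOS : S_POS) : S_POLY := by
  refine ⟨64 * 200 ^ 2, by norm_num, ?_⟩
  intro W hW hpos k
  set R : ℝ := 200 * (1 + k) ^ 2 with hR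
  have hk0 : (0 : ℝ) ≤ k := Nat.cast_nonneg k
  have hR1 : 100 ≤ R := by rw [hR]; nlinarith
  have hR0 : 0 < R := by linarith
  set z : ℂ := ((-1 / 2 - R : ℝ) : ℂ) with hz
  have hsub : ∀ y ∈ ball z R, y.re < -1 / 2 := by
    intro y hy
    rw [mem_ball, dist_eq_norm] at hy
    have h1 := Complex.re_le_norm (y - z)
    rw [Complex.sub_re, hz, Complex.ofReal_re] at h1
    rw [hz] at hy
    linarith
  set g : ℂ → ℂ := fun y => -Complex.I * W y with hg
  have hgre : ∀ y, (g y).re = (W y).im := by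
    intro y
    simp [hg]
  have hgd : DifferentiableOn ℂ g (ball z R) :=
    (hW.mono (fun y hy => hsub y hy)).const_mul _
  have hH := (hPOS g z R hR0 hgd (fun y hy => by rw [hgre]; exact hpos y (hsub y hy))).2
  have hu0 : 0 < (g z).re := by
    rw [hgre]
    exact hpos z (hsub z (mem_ball_self hR0))
  have key : ∀ y : ℂ, ‖y - z‖ ≤ R - 1 / 4 →
      (g z).re ≤ 8 * R * (W y).im ∧ (W y).im ≤ 8 * R * (g z).re := by
    intro y hy
    have hy' : y ∈ ball z R := by
      rw [mem_ball, dist_eq_norm]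
      linarith
    obtain ⟨h1, h2⟩ := hH y hy'
    rw [hgre y] at h1 h2
    have hd0 := norm_nonneg (y - z)
    have hq : (1 : ℝ) / (8 * R) ≤ (R - ‖y - z‖) / (R + ‖y - z‖) := by
      rw [div_le_div_iff₀ (by positivity) (by positivity)]
      nlinarith
    have hq2 : (R + ‖y - z‖) / (R - ‖y - z‖) ≤ 8 * R := by
      rw [div_le_iff₀ (by linarith)]
      nlinarith
    constructor
    · have h3 : (g z).re * (1 / (8 * R)) ≤ (W y).im :=
        le_trans (mul_le_mul_of_nonneg_left hq hu0.le) h1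
      rw [mul_one_div, div_le_iff₀ (by positivity)] at h3
      linarith
    · have h3 : (W y).im ≤ (g z).re * (8 * R) :=
        le_trans h2 (mul_le_mul_of_nonneg_left hq2 hu0.le)
      linarith
  have hpi : Real.pi < 4 := by linarith [Real.pi_lt_d2]
  have hpi0 := Real.pi_pos
  have p1 : ‖(-1 + 2 * Real.pi * k * Complex.I) - z‖ ≤ R - 1 / 4 := by
    apply le_of_sq_le_sq _ (by linarith)
    rw [← Complex.normSq_eq_norm_sq, Complex.normSq_apply]
    have e1 : ((-1 + 2 * Real.pi * k * Complex.I) - z : ℂ).re = R - 1 / 2 := by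
      rw [hz]
      simp
      ring
    have e2 : ((-1 + 2 * Real.pi * k * Complex.I) - z : ℂ).im = 2 * Real.pi * k := by
      rw [hz]
      simp
    rw [e1, e2]
    have h64 : (2 * Real.pi * k) ^ 2 ≤ 64 * k ^ 2 := by
      have : (2 * Real.pi * k) ^ 2 = 4 * (Real.pi ^ 2) * k ^ 2 := by ring
      rw [this]
      have h16 : Real.pi ^ 2 ≤ 16 := by nlinarith
      nlinarith [sq_nonneg (k : ℝ)]
    have hRk : 200 * (k : ℝ) ^ 2 + 200 ≤ R := by rw [hR]; nlinarith
    nlinarith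
  have p2 : ‖(-1 : ℂ) - z‖ ≤ R - 1 / 4 := by
    apply le_of_sq_le_sq _ (by linarith)
    rw [← Complex.normSq_eq_norm_sq, Complex.normSq_apply]
    have e1 : ((-1 : ℂ) - z).re = R - 1 / 2 := by
      rw [hz]
      simp
      ring
    have e2 : ((-1 : ℂ) - z).im = 0 := by
      rw [hz]
      simp
    rw [e1, e2]
    nlinarith
  obtain ⟨a1, a2⟩ := key _ p1
  obtain ⟨b1, b2⟩ := key _ p2
  have hR2 : 8 * R * (8 * R) = 64 * 200 ^ 2 * (1 + (k : ℝ)) ^ 4 := by
    rw [hR]
    ring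
  rw [← hR2]
  constructor
  · calc (W (-1 + 2 * Real.pi * k * Complex.I)).im ≤ 8 * R * (g z).re := a2
      _ ≤ 8 * R * (8 * R * (W (-1)).im) := mul_le_mul_of_nonneg_left b1 (by positivity)
      _ = 8 * R * (8 * R) * (W (-1)).im := by ring
  · calc (W (-1)).im ≤ 8 * R * (g z).re := b2
      _ ≤ 8 * R * (8 * R * (W (-1 + 2 * Real.pi * k * Complex.I)).im) :=
        mul_le_mul_of_nonneg_left a1 (by positivity)
      _ = 8 * R * (8 * R) * (W (-1 + 2 * Real.pi * k * Complex.I)).im := by ring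

end Pool.Agent.H792R2.SS
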