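import Pool.Agent.H792R2.SS.Defs

set_option autoImplicit false
open Set Filter Topology Metric MeasureTheory

namespace Pool.Agent.H792R2.SS.POSx

theorem sq_id (x a : ℂ) :
    ‖x + (starRingEnd ℂ) a‖ ^ 2 = ‖x - a‖ ^ 2 + 4 * (x.re * a.re) := by
  rw [← Complex.normSq_eq_norm_sq, ← Complex.normSq_eq_norm_sq, Complex.normSq_apply,
    Complex.normSq_apply]
  simp only [Complex.add_re, Complex.add_im, Complex.sub_re, Complex.sub_im, Complex.conj_re,
    Complex.conj_im]
  ring

theorem harnack_alg {u α d R N M : ℝ} (hu : 0 < u) (hα : 0 < α) (hd : 0 ≤ d) (hR : d < R)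
    (hN : (u - α) ^ 2 ≤ N ^ 2) (hM : M ^ 2 = N ^ 2 + 4 * (u * α)) (hN0 : 0 ≤ N)
    (h : N * R ≤ d * M) :
    α * ((R - d) / (R + d)) ≤ u ∧ u ≤ α * ((R + d) / (R - d)) := by
  have hR0 : 0 < R := lt_of_le_of_lt hd hR
  have h1 : (N * R) ^ 2 ≤ (d * M) ^ 2 := pow_le_pow_left₀ (mul_nonneg hN0 hR0.le) h 2
  have h2 : N ^ 2 * (R ^ 2 - d ^ 2) ≤ 4 * d ^ 2 * (u * α) := by
    rw [mul_pow, mul_pow, hM] at h1
    nlinarith
  have h3 : 0 < R ^ 2 - d ^ 2 := by nlinarith
  have h4 : (u - α) ^ 2 * (R ^ 2 - d ^ 2) ≤ 4 * d ^ 2 * (u * α) :=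
    le_trans (mul_le_mul_of_nonneg_right hN h3.le) h2
  have h5 : (u * (R - d) - α * (R + d)) * (u * (R + d) - α * (R - d)) ≤ 0 := by nlinarith
  have p1 : 0 < R - d := by linarith
  have p2 : 0 < R + d := by linarith
  have q1 : u * (R - d) ≤ α * (R + d) := by
    by_contra hc
    push Not at hc
    have e1 : u * (R + d) - α * (R - d) ≤ 0 := by
      by_contra hc'
      push Not at hc'
      have := mul_pos (sub_pos.2 hc) hc'
      linarith
    nlinarith
  have q2 : α * (R - d) ≤ u * (R + d) := by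
    by_contra hc
    push Not at hc
    have e1 : 0 ≤ u * (R - d) - α * (R + d) := by
      by_contra hc'
      push Not at hc'
      have := mul_pos_of_neg_of_neg hc' (sub_neg.2 hc)
      linarith
    nlinarith
  constructor
  · rw [← mul_div_assoc, div_le_iff₀ p2]
    exact q2
  · rw [← mul_div_assoc, le_div_iff₀ p1]
    exact q1

end Pool.Agent.H792R2.SS.POSx

namespace Pool.Agent.H792R2.SS

theorem t_POS : S_POS := by
  intro h z R hR hd hpos
  have hz : z ∈ ball z R := mem_ball_self hR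
  set a := h z with ha
  have hα : 0 < a.re := hpos z hz
  set q : ℂ → ℂ := fun w => (h w - a) / (h w + (starRingEnd ℂ) a) with hq
  have hre : ∀ w ∈ ball z R, 0 < (h w + (starRingEnd ℂ) a).re := by
    intro w hw
    rw [Complex.add_re, Complex.conj_re]
    exact add_pos (hpos w hw) hα
  have hne : ∀ w ∈ ball z R, h w + (starRingEnd ℂ) a ≠ 0 := by
    intro w hw h0
    have := hre w hw
    rw [h0, Complex.zero_re] at this
    exact lt_irrefl _ this
  have hqz : q z = 0 := by simp [hq, ha]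
  have hqd : DifferentiableOn ℂ q (ball z R) :=
    (hd.sub (differentiableOn_const a)).div (hd.add (differentiableOn_const _)) hne
  have hmaps : MapsTo q (ball z R) (ball (q z) 1) := by
    intro w hw
    rw [hqz, mem_ball_zero_iff, hq]
    dsimp only
    rw [norm_div, div_lt_one (norm_pos_iff.2 (hne w hw))]
    refine lt_of_pow_lt_pow_left₀ 2 (norm_nonneg _) ?_
    rw [POSx.sq_id]
    have := mul_pos (hpos w hw) hα
    linarith
  have hmaps' : MapsTo q (ball z R) (closedBall (q z) 1) := fun w hw =>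
    ball_subset_closedBall (hmaps hw)
  constructor
  · have h1 := Complex.norm_deriv_le_div_of_mapsTo_ball hqd hmaps' hR
    have hdz : DifferentiableAt ℂ h z := hd.differentiableAt (isOpen_ball.mem_nhds hz)
    have hder : HasDerivAt q ((deriv h z * (h z + (starRingEnd ℂ) a) - (h z - a) * deriv h z) /
        (h z + (starRingEnd ℂ) a) ^ 2) z :=
      (hdz.hasDerivAt.sub_const a).div (hdz.hasDerivAt.add_const _) (hne z hz)
    rw [hder.deriv] at h1
    have e1 : h z + (starRingEnd ℂ) a = ((2 * a.re : ℝ) : ℂ) := by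
      rw [← ha, Complex.add_conj]
    have e2 : h z - a = 0 := by rw [ha]; ring
    rw [e2, zero_mul, sub_zero, e1, pow_two, mul_div_mul_right _ _ (by
      rw [← e1]; exact hne z hz), norm_div, Complex.norm_real, Real.norm_of_nonneg (by linarith),
      div_le_div_iff₀ (by linarith) hR] at h1
    rw [le_div_iff₀ hR]
    linarith
  · intro w hw
    have h1 := Complex.dist_le_div_mul_dist_of_mapsTo_ball hqd hmaps' hw
    rw [hqz, dist_zero_right, dist_eq_norm] at h1
    have hNM : ‖h w - a‖ * R ≤ ‖w - z‖ * ‖h w + (starRingEnd ℂ) a‖ := by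
      have hM : 0 < ‖h w + (starRingEnd ℂ) a‖ := norm_pos_iff.2 (hne w hw)
      rw [hq] at h1
      dsimp only at h1
      rw [norm_div, div_le_iff₀ hM] at h1
      calc ‖h w - a‖ * R ≤ (1 / R * ‖w - z‖ * ‖h w + (starRingEnd ℂ) a‖) * R :=
            mul_le_mul_of_nonneg_right h1 hR.le
        _ = ‖w - z‖ * ‖h w + (starRingEnd ℂ) a‖ := by field_simp
    have hdR : ‖w - z‖ < R := by
      rw [← dist_eq_norm]
      exact hw
    refine POSx.harnack_alg (hpos w hw) hα (norm_nonneg _) hdR ?_ (POSx.sq_id (h w) a)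
      (norm_nonneg _) hNM
    have := Complex.abs_re_le_norm (h w - a)
    rw [Complex.sub_re] at this
    exact sq_le_sq' (by linarith [abs_le.1 this]) (abs_le.1 this).2

end Pool.Agent.H792R2.SS
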