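import Pool.Agent.H792R2.SS.Defs

/-! # Rescaling (task RS, by helper279) -/

set_option autoImplicit false
open Set Filter Topology Metric MeasureTheory

namespace Pool.Agent.H792R2.SS

theorem t_RS : S_RS := by
  intro F n hn hF hlt
  have hn0 : (0 : ℝ) < n := by exact_mod_cast hn
  have hn1 : (1 : ℝ) ≤ n := by exact_mod_cast hn
  obtain ⟨hFd, hF0, hF1⟩ := hF
  -- choice of `ρ`
  obtain ⟨ρ, ⟨hρ0, hρ1⟩, hρ⟩ : ∃ ρ : ℝ, ρ ∈ Ioo (1 / 2 : ℝ) 1 ∧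
      n * (1 + ‖F 0‖ ^ 2 / ρ ^ 2) < ‖deriv F 0‖ := by
    have hc : ContinuousAt (fun ρ : ℝ => (n : ℝ) * (1 + ‖F 0‖ ^ 2 / ρ ^ 2)) 1 := by
      fun_prop (disch := norm_num)
    have h1 : ∀ᶠ ρ in 𝓝[<] (1 : ℝ), (n : ℝ) * (1 + ‖F 0‖ ^ 2 / ρ ^ 2) < ‖deriv F 0‖ :=
      (hc.tendsto.eventually_lt_const (by simpa using hlt)).filter_mono nhdsWithin_le_nhds
    have h2 : ∀ᶠ ρ in 𝓝[<] (1 : ℝ), ρ ∈ Ioo (1 / 2 : ℝ) 1 := Ioo_mem_nhdsLT (by norm_num)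
    obtain ⟨ρ, h3, h4⟩ := (h2.and h1).exists
    exact ⟨ρ, h3, h4⟩
  have hρp : 0 < ρ := by linarith
  have hmem : ∀ z : ℂ, ‖z‖ ≤ 1 → (ρ : ℂ) * z ∈ ball (0 : ℂ) 1 := by
    intro z hz
    rw [mem_ball_zero_iff, norm_mul, Complex.norm_real, Real.norm_eq_abs, abs_of_pos hρp]
    nlinarith [norm_nonneg z]
  have hmap : MapsTo (fun z : ℂ => (ρ : ℂ) * z) (closedBall 0 1) (ball 0 1) := fun z hz =>
    hmem z (mem_closedBall_zero_iff.1 hz)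
  set F₁ : ℂ → ℂ := fun z => F ((ρ : ℂ) * z) / ρ with hF₁
  set D₁ : ℂ → ℂ := fun z => deriv F ((ρ : ℂ) * z) with hD₁
  have hFc : ContinuousOn F₁ (closedBall 0 1) := by
    refine ContinuousOn.div_const ?_ _
    exact hFd.continuousOn.comp (by fun_prop) hmap
  have hDc : ContinuousOn D₁ (closedBall 0 1) :=
    ((hFd.deriv isOpen_ball).continuousOn).comp (by fun_prop) hmap
  have hρc : (ρ : ℂ) ≠ 0 := by exact_mod_cast hρp.ne'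
  have hF₁0 : ∀ z : ℂ, ‖z‖ ≤ 1 → F₁ z ≠ 0 := fun z hz => div_ne_zero (hF0 _ (hmem z hz)) hρc
  -- the compact set
  set T : ℝ := 1 / Real.sqrt n with hT
  have hT0 : 0 < T := by positivity
  have hT2 : T ^ 2 = 1 / n := by
    rw [hT, div_pow, Real.sq_sqrt hn0.le, one_pow]
  set φ : ℝ × ℂ → ℝ := fun p => (‖D₁ p.2‖ - 1) * (p.1 ^ 2 * (1 - ‖p.2‖) ^ 2) - ‖F₁ p.2‖ ^ 2
    with hφ
  set D : Set (ℝ × ℂ) := Icc 0 T ×ˢ closedBall 0 1 with hD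
  have hDcomp : IsCompact D := isCompact_Icc.prod (isCompact_closedBall 0 1)
  have hφc : ContinuousOn φ D := by
    have h1 : ContinuousOn (fun p : ℝ × ℂ => D₁ p.2) D :=
      hDc.comp continuousOn_snd fun p hp => hp.2
    have h2 : ContinuousOn (fun p : ℝ × ℂ => F₁ p.2) D :=
      hFc.comp continuousOn_snd fun p hp => hp.2
    refine ContinuousOn.sub (ContinuousOn.mul (h1.norm.sub continuousOn_const) ?_) (h2.norm.pow 2)
    fun_prop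
  set A : Set (ℝ × ℂ) := D ∩ φ ⁻¹' (Ici 0) with hA
  have hAcomp : IsCompact A :=
    hDcomp.of_isClosed_subset (hφc.preimage_isClosed_of_isClosed hDcomp.isClosed isClosed_Ici)
      inter_subset_left
  have hAne : A.Nonempty := by
    refine ⟨(T, 0), ⟨⟨⟨hT0.le, le_rfl⟩, by simp⟩, ?_⟩⟩
    simp only [mem_preimage, mem_Ici, hφ, norm_zero, sub_zero, one_pow, mul_one, hT2]
    have h1 : ‖D₁ 0‖ = ‖deriv F 0‖ := by simp [hD₁]
    have h2 : ‖F₁ 0‖ ^ 2 = ‖F 0‖ ^ 2 / ρ ^ 2 := by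
      simp only [hF₁, mul_zero, norm_div, Complex.norm_real, Real.norm_eq_abs, abs_of_pos hρp,
        div_pow]
    rw [h1, h2, sub_nonneg]
    rw [mul_one_div, le_div_iff₀ hn0]
    nlinarith
  obtain ⟨⟨t, z₀⟩, hmemA, hmin⟩ := hAcomp.exists_isMinOn hAne
    (f := fun p : ℝ × ℂ => p.1) continuousOn_fst
  obtain ⟨⟨⟨ht0, htT⟩, hz₀⟩, hφ0⟩ := hmemA
  simp only at ht0 htT hz₀
  have hz₀' : ‖z₀‖ ≤ 1 := mem_closedBall_zero_iff.1 hz₀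
  simp only [mem_preimage, mem_Ici, hφ] at hφ0
  have hF₁pos : ∀ z : ℂ, ‖z‖ ≤ 1 → 0 < ‖F₁ z‖ ^ 2 := fun z hz => by
    have := norm_pos_iff.2 (hF₁0 z hz)
    positivity
  have htpos : 0 < t := by
    rcases ht0.eq_or_lt with h | h
    · rw [← h] at hφ0
      have := hF₁pos z₀ hz₀'
      have e : (‖D₁ z₀‖ - 1) * ((0 : ℝ) ^ 2 * (1 - ‖z₀‖) ^ 2) = 0 := by ring
      rw [e] at hφ0
      linarith
    · exact h
  have hz₀1 : ‖z₀‖ < 1 := by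
    rcases hz₀'.eq_or_lt with h | h
    · rw [h] at hφ0
      have := hF₁pos z₀ hz₀'
      have e : (‖D₁ z₀‖ - 1) * (t ^ 2 * (1 - 1) ^ 2) = 0 := by ring
      rw [e] at hφ0
      linarith
    · exact h
  -- the maximum is one
  have hle : ∀ z : ℂ, ‖z‖ ≤ 1 →
      (‖D₁ z‖ - 1) * (t ^ 2 * (1 - ‖z‖) ^ 2) - ‖F₁ z‖ ^ 2 ≤ 0 := by
    intro z hz
    by_contra hc
    push Not at hc
    have h1 : ContinuousAt (fun s : ℝ =>
        (‖D₁ z‖ - 1) * (s ^ 2 * (1 - ‖z‖) ^ 2) - ‖F₁ z‖ ^ 2) t := by fun_prop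
    have h2 : ∀ᶠ s in 𝓝[<] t, 0 < (‖D₁ z‖ - 1) * (s ^ 2 * (1 - ‖z‖) ^ 2) - ‖F₁ z‖ ^ 2 :=
      (h1.tendsto.eventually_const_lt hc).filter_mono nhdsWithin_le_nhds
    have h3 : ∀ᶠ s in 𝓝[<] t, s ∈ Ioo 0 t := Ioo_mem_nhdsLT htpos
    obtain ⟨s, ⟨h4, h5⟩, h6⟩ := (h3.and h2).exists
    have h7 : (s, z) ∈ A := by
      refine ⟨⟨⟨h4.le, (h5.trans_le htT).le⟩, mem_closedBall_zero_iff.2 hz⟩, ?_⟩
      simp only [mem_preimage, mem_Ici, hφ]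
      exact h6.le
    have h8 := hmin h7
    simp only [mem_ofPred_eq] at h8
    linarith
  have heq : (‖D₁ z₀‖ - 1) * (t ^ 2 * (1 - ‖z₀‖) ^ 2) = ‖F₁ z₀‖ ^ 2 := by
    have := hle z₀ hz₀'
    linarith
  -- the rescaled function
  set η : ℝ := t * (1 - ‖z₀‖) with hη
  have hη0 : 0 < η := mul_pos htpos (by linarith)
  have hηc : (η : ℂ) ≠ 0 := by exact_mod_cast hη0.ne'
  have hzball : ∀ w : ℂ, w ∈ ball (0 : ℂ) (1 / t) → ‖z₀ + η * w‖ < 1 ∧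
      η * (1 - t * ‖w‖) ≤ t * (1 - ‖z₀ + η * w‖) ∧ 0 < 1 - t * ‖w‖ := by
    intro w hw
    rw [mem_ball_zero_iff, lt_div_iff₀ htpos] at hw
    have h1 : ‖z₀ + η * w‖ ≤ ‖z₀‖ + η * ‖w‖ := by
      refine (norm_add_le _ _).trans ?_
      rw [norm_mul, Complex.norm_real, Real.norm_eq_abs, abs_of_pos hη0]
    have h2 : η * ‖w‖ < 1 - ‖z₀‖ := by
      have h3 : η * ‖w‖ = (1 - ‖z₀‖) * (‖w‖ * t) := by rw [hη]; ring
      rw [h3]
      have : 0 < 1 - ‖z₀‖ := by linarith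
      nlinarith
    refine ⟨by linarith, ?_, by linarith⟩
    have h3 : η * (1 - t * ‖w‖) = t * (1 - ‖z₀‖ - η * ‖w‖) := by rw [hη]; ring
    rw [h3]
    refine mul_le_mul_of_nonneg_left ?_ htpos.le
    linarith
  set g : ℂ → ℂ := fun w => F ((ρ : ℂ) * (z₀ + η * w)) / (ρ * η) with hg
  have hgF : ∀ w, g w = F₁ (z₀ + η * w) / η := by
    intro w
    simp only [hg, hF₁]
    rw [div_div]
  have hgd : ∀ w ∈ ball (0 : ℂ) (1 / t), HasDerivAt g (D₁ (z₀ + η * w)) w := by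
    intro w hw
    have h1 : HasDerivAt F (D₁ (z₀ + η * w)) ((ρ : ℂ) * (z₀ + η * w)) :=
      (hFd.differentiableAt (isOpen_ball.mem_nhds (hmem _ (hzball w hw).1.le))).hasDerivAt
    have h2 : HasDerivAt (fun w : ℂ => (ρ : ℂ) * (z₀ + η * w)) (ρ * η) w := by
      have := (((hasDerivAt_id w).const_mul (η : ℂ)).const_add z₀).const_mul (ρ : ℂ)
      simpa using this
    refine ((h1.comp w h2).div_const (ρ * η)).congr_deriv ?_
    field_simp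
  have hgnorm : ∀ w, ‖g w‖ ^ 2 = ‖F₁ (z₀ + η * w)‖ ^ 2 / η ^ 2 := by
    intro w
    rw [hgF, norm_div, Complex.norm_real, Real.norm_eq_abs, abs_of_pos hη0, div_pow]
  refine ⟨t, g, htpos, htT, ⟨?_, ?_, ?_⟩, ?_, ?_⟩
  · intro w hw
    exact (hgd w hw).differentiableAt.differentiableWithinAt
  · intro w hw
    rw [hgF]
    exact div_ne_zero (hF₁0 _ (hzball w hw).1.le) hηc
  · intro w hw
    rw [(hgd w hw).deriv]
    exact hF1 _ (hmem _ (hzball w hw).1.le)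
  · have h0 : (0 : ℂ) ∈ ball (0 : ℂ) (1 / t) := mem_ball_self (by positivity)
    rw [(hgd 0 h0).deriv, hgnorm]
    simp only [mul_zero, add_zero]
    rw [← heq]
    have h1 : t ^ 2 * (1 - ‖z₀‖) ^ 2 = η ^ 2 := by rw [hη]; ring
    rw [h1]
    field_simp
    ring
  · intro w hw
    obtain ⟨h1, h2, h3⟩ := hzball w hw
    rw [(hgd w hw).deriv, hgnorm]
    have h4 := hle (z₀ + η * w) h1.le
    set s : ℝ := t * (1 - ‖z₀ + η * w‖) with hs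
    have h5 : t ^ 2 * (1 - ‖z₀ + η * w‖) ^ 2 = s ^ 2 := by rw [hs]; ring
    rw [h5] at h4
    have h6 : 0 < η * (1 - t * ‖w‖) := mul_pos hη0 h3
    have h7 : (η * (1 - t * ‖w‖)) ^ 2 ≤ s ^ 2 := pow_le_pow_left₀ h6.le h2 2
    have h8 : 0 < s ^ 2 := lt_of_lt_of_le (by positivity) h7
    have h9 : ‖D₁ (z₀ + η * w)‖ ≤ 1 + ‖F₁ (z₀ + η * w)‖ ^ 2 / s ^ 2 := by
      have : ‖D₁ (z₀ + η * w)‖ - 1 ≤ ‖F₁ (z₀ + η * w)‖ ^ 2 / s ^ 2 := by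
        rw [le_div_iff₀ h8]
        linarith
      linarith
    refine h9.trans ?_
    have h10 : ‖F₁ (z₀ + η * w)‖ ^ 2 / s ^ 2 ≤
        ‖F₁ (z₀ + η * w)‖ ^ 2 / (η * (1 - t * ‖w‖)) ^ 2 :=
      div_le_div_of_nonneg_left (by positivity) (by positivity) h7
    have h11 : ‖F₁ (z₀ + η * w)‖ ^ 2 / (η * (1 - t * ‖w‖)) ^ 2 =
        ‖F₁ (z₀ + η * w)‖ ^ 2 / η ^ 2 / (1 - t * ‖w‖) ^ 2 := by
      rw [mul_pow, div_div]
    linarith

end Pool.Agent.H792R2.SS
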