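import Pool.Agent.H792R2.SS.Defs

set_option autoImplicit false
open Set Filter Topology Metric MeasureTheory

namespace Pool.Agent.H792R2.SS.SEPx

theorem q_bound {A q C' : ℝ} (hA : 0 < A) (hq : 0 < q) (hqC : q ≤ C') (hC' : 1 ≤ C')
    (h : 1 ≤ A * (q * (1 + |Real.log q|))) :
    |Real.log q| ≤ Real.log C' + 2 * |Real.log (3 * A)| := by
  have hlC : 0 ≤ Real.log C' := Real.log_nonneg hC'
  have h3A := abs_nonneg (Real.log (3 * A))
  rcases le_or_gt 1 q with h1 | h1
  · rw [abs_of_nonneg (Real.log_nonneg h1)]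
    have := Real.log_le_log hq hqC
    linarith
  · have hln : Real.log q < 0 := Real.log_neg hq h1
    rw [abs_of_neg hln] at h ⊢
    set s := Real.sqrt q with hs
    have hs0 : 0 < s := Real.sqrt_pos.2 hq
    have hsq : s ^ 2 = q := Real.sq_sqrt hq.le
    have hlog : Real.log q = 2 * Real.log s := by
      rw [← hsq, Real.log_pow]
      norm_num
    have hl2 : -Real.log s ≤ 1 / s - 1 := by
      have := Real.log_le_sub_one_of_pos (show 0 < 1 / s by positivity)
      rw [Real.log_div one_ne_zero hs0.ne', Real.log_one] at this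
      linarith
    have h2 : q * (1 + -Real.log q) ≤ 2 * s := by
      have h3 : -Real.log q ≤ 2 * (1 / s - 1) := by
        rw [hlog]
        linarith
      calc q * (1 + -Real.log q) ≤ q * (1 + 2 * (1 / s - 1)) :=
            mul_le_mul_of_nonneg_left (by linarith) hq.le
        _ = 2 * s - s ^ 2 := by
            rw [← hsq]
            field_simp
            ring
        _ ≤ 2 * s := by nlinarith
    have h4 : 1 ≤ 3 * A * s := by
      have := mul_le_mul_of_nonneg_left h2 hA.le
      nlinarith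
    have h5 : 0 ≤ Real.log (3 * A) + Real.log s := by
      rw [← Real.log_mul (by positivity) hs0.ne']
      exact Real.log_nonneg h4
    have h6 := le_abs_self (Real.log (3 * A))
    rw [hlog]
    linarith

end Pool.Agent.H792R2.SS.SEPx

namespace Pool.Agent.H792R2.SS

theorem t_SEP (hP1 : S_P1) (hLOG : S_LOG) (hGR : S_GR) (hPOS : S_POS) : S_SEP := by
  intro C
  obtain ⟨A, hA, hP⟩ := hP1
  set C' := max C 1 with hC'
  have hC'1 : 1 ≤ C' := le_max_right _ _
  set C1 := Real.log C' + 2 * |Real.log (3 * A)| with hC1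
  have hC10 : 0 ≤ C1 := by
    have := Real.log_nonneg hC'1
    have := abs_nonneg (Real.log (3 * A))
    linarith
  set C2 := (1 + C1) * Real.exp (2 * A) with hC2
  have hC20 : 0 < C2 := by positivity
  set C3 := 4 * A * C2 * Real.exp C2 with hC3
  have hC30 : 0 < C3 := by positivity
  set M := Real.log (C3 + 1) with hM
  have hM0 : 0 < M := Real.log_pos (by linarith)
  set C4 := 24 * (M + 2) with hC4
  have hC40 : 0 < C4 := by positivity
  refine ⟨min (1 / 4) (1 / C4), by positivity, ?_⟩
  intro F V w R hR hNN hF hF' hV hVe x hx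
  obtain ⟨hFd, hF0, hF1⟩ := hNN
  have hwR : w ∈ ball w R := mem_ball_self hR
  -- the value at `w`
  have hFw : 0 < ‖F w‖ := norm_pos_iff.2 (hF0 w hwR)
  have hq0 : 0 < ‖F w‖ / R := div_pos hFw hR
  have hqC : ‖F w‖ / R ≤ C' := by
    rw [div_le_iff₀ hR]
    exact hF.trans (mul_le_mul_of_nonneg_right (le_max_left _ _) hR.le)
  have hder1 : 1 ≤ ‖deriv F w‖ := by
    rw [hF']
    have h1 : (1 : ℂ) + Complex.exp (-1) = ((1 + Real.exp (-1) : ℝ) : ℂ) := by
      push_cast
      rfl
    rw [h1, Complex.norm_real, Real.norm_eq_abs, abs_of_pos (by positivity)]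
    have := Real.exp_pos (-1)
    linarith
  have hlogq : |Real.log (‖F w‖ / R)| ≤ C1 := by
    apply SEPx.q_bound hA hq0 hqC hC'1
    have h1 := hP F w R hR ⟨hFd, hF0, hF1⟩
    rw [norm_div, ← mul_div_assoc, div_le_iff₀ hFw] at h1
    have h2 : R ≤ R * ‖deriv F w‖ := by nlinarith
    have h3 : R ≤ A * (1 + |Real.log (‖F w‖ / R)|) * ‖F w‖ := h2.trans h1
    have h4 : A * (‖F w‖ / R * (1 + |Real.log (‖F w‖ / R)|)) =
        A * (1 + |Real.log (‖F w‖ / R)|) * ‖F w‖ / R := by ring
    rw [h4, le_div_iff₀ hR, one_mul]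
    exact h3
  -- the logarithm
  obtain ⟨h, hhd, hhe⟩ := hLOG (ball w R) F isOpen_ball (convex_ball w R) hFd hF0
  have hh' : ∀ y ∈ ball w R, deriv F y = F y * deriv h y := by
    intro y hy
    have h1 : DifferentiableAt ℂ h y := hhd.differentiableAt (isOpen_ball.mem_nhds hy)
    have h2 : F =ᶠ[𝓝 y] fun u => Complex.exp (h u) := by
      filter_upwards [isOpen_ball.mem_nhds hy] with u hu
      exact (hhe u hu).symm
    rw [h2.deriv_eq, deriv_cexp h1, hhe y hy]
  have hre : ∀ y ∈ ball w R, (h y).re = Real.log ‖F y‖ := by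
    intro y hy
    rw [← hhe y hy, Complex.norm_exp, Real.log_exp]
  have hlogd : ∀ y ∈ ball w R, (h y - (Real.log R : ℂ)).re = Real.log (‖F y‖ / R) := by
    intro y hy
    rw [Complex.sub_re, Complex.ofReal_re, hre y hy,
      Real.log_div (norm_pos_iff.2 (hF0 y hy)).ne' hR.ne']
  have hsub2 : ∀ y ∈ ball w (R / 2), ball y (R / 2) ⊆ ball w R := by
    intro y hy u hu
    rw [mem_ball] at hy hu ⊢
    have := dist_triangle u y w
    linarith
  have hsubR : ball w (R / 2) ⊆ ball w R := ball_subset_ball (by linarith)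
  have hhbd : ∀ y ∈ ball w (R / 2), ‖deriv (fun u => h u - (Real.log R : ℂ)) y‖ ≤
      4 * A / R * (1 + |(h y - (Real.log R : ℂ)).re|) := by
    intro y hy
    have hyR := hsubR hy
    have h1 := hP F y (R / 2) (by linarith) ⟨hFd.mono (hsub2 y hy),
      fun u hu => hF0 u (hsub2 y hy hu), fun u hu => hF1 u (hsub2 y hy hu)⟩
    have hFy : F y ≠ 0 := hF0 y hyR
    have h2 : deriv F y / F y = deriv h y := by
      rw [hh' y hyR]
      field_simp
    rw [h2] at h1
    rw [deriv_sub_const, hlogd y hyR]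
    have hFy' : 0 < ‖F y‖ := norm_pos_iff.2 hFy
    have h3 : Real.log (‖F y‖ / (R / 2)) = Real.log (‖F y‖ / R) + Real.log 2 := by
      rw [← Real.log_mul (by positivity) (by norm_num)]
      congr 1
      field_simp
    rw [h3] at h1
    have h4 : |Real.log (‖F y‖ / R) + Real.log 2| ≤ |Real.log (‖F y‖ / R)| + 1 := by
      refine (abs_add_le _ _).trans ?_
      have h5 : |Real.log 2| ≤ 1 := by
        rw [abs_of_pos (Real.log_pos (by norm_num))]
        linarith [Real.log_two_lt_d9]
      linarith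
    have h6 : A * (1 + |Real.log (‖F y‖ / R) + Real.log 2|) ≤
        2 * A * (1 + |Real.log (‖F y‖ / R)|) := by
      have h7 := abs_nonneg (Real.log (‖F y‖ / R))
      nlinarith
    have h8 : R / 2 * ‖deriv h y‖ ≤ 2 * A * (1 + |Real.log (‖F y‖ / R)|) := h1.trans h6
    have h9 : 4 * A / R * (1 + |Real.log (‖F y‖ / R)|) =
        2 * (2 * A * (1 + |Real.log (‖F y‖ / R)|)) / R := by ring
    rw [h9, le_div_iff₀ hR]
    linarith
  have hgr : ∀ y ∈ ball w (R / 2), |Real.log (‖F y‖ / R)| ≤ C2 ∧ 1 + |Real.log (‖F y‖ / R)| ≤ C2 := by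
    intro y hy
    have h1 := hGR (ball w (R / 2)) (fun u => h u - (Real.log R : ℂ)) (4 * A / R) isOpen_ball
      (convex_ball _ _) (by positivity) ((hhd.mono hsubR).sub_const _) hhbd w
      (mem_ball_self (by linarith)) y hy
    rw [hlogd y (hsubR hy), hlogd w hwR] at h1
    have h2 : 4 * A / R * ‖y - w‖ ≤ 2 * A := by
      have h3 : ‖y - w‖ ≤ R / 2 := by
        rw [mem_ball, dist_eq_norm] at hy
        exact hy.le
      calc 4 * A / R * ‖y - w‖ ≤ 4 * A / R * (R / 2) :=
            mul_le_mul_of_nonneg_left h3 (by positivity)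
        _ = 2 * A := by
            field_simp
            ring
    have h4 : (1 + |Real.log (‖F w‖ / R)|) * Real.exp (4 * A / R * ‖y - w‖) ≤ C2 := by
      rw [hC2]
      apply mul_le_mul (by linarith) (Real.exp_le_exp.2 h2) (Real.exp_pos _).le (by linarith)
    have h5 := h1.trans h4
    exact ⟨by linarith, h5⟩
  have hF'bd : ∀ y ∈ ball w (R / 2), ‖deriv F y‖ ≤ C3 := by
    intro y hy
    have hyR := hsubR hy
    have h1 := hhbd y hy
    rw [deriv_sub_const, hlogd y hyR] at h1
    obtain ⟨h2, h3⟩ := hgr y hy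
    have hFy' : 0 < ‖F y‖ := norm_pos_iff.2 (hF0 y hyR)
    have h4 : ‖F y‖ ≤ R * Real.exp C2 := by
      have h5 : ‖F y‖ / R ≤ Real.exp C2 := by
        rw [← Real.log_le_iff_le_exp (by positivity)]
        exact (le_abs_self _).trans h2
      rw [div_le_iff₀ hR] at h5
      linarith
    rw [hh' y hyR, norm_mul]
    calc ‖F y‖ * ‖deriv h y‖ ≤ (R * Real.exp C2) * (4 * A / R * C2) := by
          apply mul_le_mul h4 _ (norm_nonneg _) (by positivity)
          exact h1.trans (mul_le_mul_of_nonneg_left h3 (by positivity))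
      _ = C3 := by
          rw [hC3]
          field_simp
  -- the function `V`
  have hVre : ∀ y ∈ ball w (R / 2), (V y).re ≤ M := by
    intro y hy
    have h1 : Real.exp (V y).re ≤ C3 + 1 := by
      rw [← Complex.norm_exp, hVe y (hsubR hy)]
      refine (norm_sub_le _ _).trans ?_
      rw [norm_one]
      linarith [hF'bd y hy]
    rw [hM]
    rw [Real.le_log_iff_exp_le (by linarith)]
    exact h1
  have hVw : (V w).re = -1 := by
    have h1 := hVe w hwR
    rw [hF'] at h1
    have h2 : Complex.exp (V w) = Complex.exp (-1) := by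
      rw [h1]
      ring
    have h3 := congrArg norm h2
    rw [Complex.norm_exp, Complex.norm_exp] at h3
    have h4 := Real.exp_injective h3
    rw [h4]
    simp
  have hkd : DifferentiableOn ℂ (fun u => ((M + 1 : ℝ) : ℂ) - V u) (ball w R) := hV.const_sub _
  have hkpos : ∀ y ∈ ball w (R / 2), 0 < (((M + 1 : ℝ) : ℂ) - V y).re := by
    intro y hy
    rw [Complex.sub_re, Complex.ofReal_re]
    linarith [hVre y hy]
  have hkbd : ∀ y ∈ ball w (R / 4), (((M + 1 : ℝ) : ℂ) - V y).re ≤ 3 * (M + 2) := by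
    intro y hy
    have hy2 : y ∈ ball w (R / 2) := ball_subset_ball (by linarith) hy
    have h1 := ((hPOS (fun u => ((M + 1 : ℝ) : ℂ) - V u) w (R / 2) (by linarith)
      (hkd.mono hsubR) hkpos).2 y hy2).2
    have h2 : (((M + 1 : ℝ) : ℂ) - V w).re = M + 2 := by
      rw [Complex.sub_re, Complex.ofReal_re, hVw]
      ring
    simp only [h2] at h1
    have h3 : ‖y - w‖ < R / 4 := by rwa [mem_ball, dist_eq_norm] at hy
    have h4 : (R / 2 + ‖y - w‖) / (R / 2 - ‖y - w‖) ≤ 3 := by
      rw [div_le_iff₀ (by linarith)]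
      linarith
    calc (((M + 1 : ℝ) : ℂ) - V y).re ≤ (M + 2) * ((R / 2 + ‖y - w‖) / (R / 2 - ‖y - w‖)) := h1
      _ ≤ (M + 2) * 3 := mul_le_mul_of_nonneg_left h4 (by linarith)
      _ = 3 * (M + 2) := by ring
  have hVder : ∀ y ∈ ball w (R / 4), ‖deriv V y‖ ≤ C4 / R := by
    intro y hy
    have hyb : ball y (R / 4) ⊆ ball w (R / 2) := by
      intro u hu
      rw [mem_ball] at hy hu ⊢
      have := dist_triangle u y w
      linarith
    have h1 := (hPOS (fun u => ((M + 1 : ℝ) : ℂ) - V u) y (R / 4) (by linarith)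
      (hkd.mono (hyb.trans hsubR)) (fun u hu => hkpos u (hyb hu))).1
    have h2 : deriv (fun u => ((M + 1 : ℝ) : ℂ) - V u) y = -deriv V y := by
      rw [deriv_const_sub]
    rw [h2, norm_neg] at h1
    refine h1.trans ?_
    have h3 := hkbd y hy
    rw [hC4, div_le_div_iff₀ (by linarith) hR]
    nlinarith
  have hx4 : x ∈ ball w (R / 4) := by
    rw [mem_ball, dist_eq_norm]
    have : min (1 / 4) (1 / C4) * R ≤ 1 / 4 * R :=
      mul_le_mul_of_nonneg_right (min_le_left _ _) hR.le
    linarith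
  have hmv := (convex_ball w (R / 4)).norm_image_sub_le_of_norm_deriv_le
    (f := V) (C := C4 / R)
    (fun y hy => hV.differentiableAt (isOpen_ball.mem_nhds (ball_subset_ball (by linarith) hy)))
    hVder (mem_ball_self (by linarith)) hx4
  have hfin : C4 / R * ‖x - w‖ ≤ 1 := by
    have h1 : ‖x - w‖ ≤ 1 / C4 * R :=
      hx.le.trans (mul_le_mul_of_nonneg_right (min_le_right _ _) hR.le)
    calc C4 / R * ‖x - w‖ ≤ C4 / R * (1 / C4 * R) := mul_le_mul_of_nonneg_left h1 (by positivity)
      _ = 1 := by field_simp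
  have hpi := Real.pi_gt_three
  linarith

end Pool.Agent.H792R2.SS
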