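import Pool.Agent.H792R2.SS.Defs

set_option autoImplicit false
open Set Filter Topology Metric MeasureTheory

namespace Pool.Agent.H792R2.SS.T1x

theorem contLog {f : ℂ → ℂ} (hf : NN f 0 1) {r : ℝ} (hr : r < 1) :
    ContinuousOn (fun z => Real.log ‖f z‖) (sphere (0 : ℂ) r) := by
  have hsub : sphere (0 : ℂ) r ⊆ ball 0 1 := sphere_subset_ball hr
  exact ((hf.1.continuousOn.mono hsub).norm).log
    (fun z hz => norm_ne_zero_iff.2 (hf.2.1 z (hsub hz)))

theorem UU_sphere {f : ℂ → ℂ} {r : ℝ} {z : ℂ} (hz : z ∈ sphere (0 : ℂ) r) :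
    UU f z = Real.log ‖f z‖ + sr r := by
  rw [mem_sphere_zero_iff_norm] at hz
  unfold UU sr
  rw [hz]
  ring

end Pool.Agent.H792R2.SS.T1x

namespace Pool.Agent.H792R2.SS

theorem t_T1 : S_T1 := by
  intro f hf r hr0 hr1
  have habs : |r| = r := abs_of_pos hr0
  have hTT : TT f r = Real.circleAverage (fun z => max 0 (Real.log ‖f z‖)) 0 r := by
    rw [Real.circleAverage_def, smul_eq_mul]
    rfl
  rw [hTT]
  have hcl := T1x.contLog hf hr1
  have c1 : ContinuousOn (fun z => max 0 (Real.log ‖f z‖)) (sphere (0 : ℂ) r) :=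
    continuousOn_const.sup hcl
  have c2 : ContinuousOn (fun z => max 0 (-UU f z)) (sphere (0 : ℂ) r) := by
    refine ContinuousOn.congr (f := fun z => max 0 (-(Real.log ‖f z‖ + sr r)))
      (continuousOn_const.sup (hcl.add continuousOn_const).neg) (fun z hz => ?_)
    change max 0 (-UU f z) = max 0 (-(Real.log ‖f z‖ + sr r))
    rw [T1x.UU_sphere hz]
  constructor
  · exact Real.circleAverage_nonneg_of_nonneg fun z _ => le_max_left _ _
  · have hclosed : closedBall (0 : ℂ) |r| ⊆ ball 0 1 := by
      rw [habs]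
      exact closedBall_subset_ball hr1
    have hlog : Real.circleAverage (fun z => Real.log ‖f z‖) 0 r = Real.log ‖f 0‖ := by
      refine AnalyticOnNhd.circleAverage_log_norm_of_ne_zero ?_ ?_
      · exact (hf.1.analyticOnNhd isOpen_ball).mono hclosed
      · exact fun u hu => hf.2.1 u (hclosed hu)
    have e : Real.circleAverage (fun z => (Real.log ‖f z‖ + sr r) + max 0 (-UU f z)) 0 r =
        Real.log ‖f 0‖ + sr r + Real.circleAverage (fun z => max 0 (-UU f z)) 0 r := by
      have i1 : CircleIntegrable (fun z => Real.log ‖f z‖ + sr r) 0 r :=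
        (hcl.add continuousOn_const).circleIntegrable hr0.le
      rw [Real.circleAverage_fun_add i1
        (c2.circleIntegrable hr0.le), Real.circleAverage_fun_add (hcl.circleIntegrable hr0.le)
        (continuousOn_const.circleIntegrable hr0.le), hlog, Real.circleAverage_const]
    rw [← e]
    refine Real.circleAverage_mono (c1.circleIntegrable hr0.le)
      (((hcl.add continuousOn_const).add c2).circleIntegrable hr0.le) (fun z hz => ?_)
    rw [habs] at hz
    rw [T1x.UU_sphere hz]
    have hsr : 0 ≤ sr r := by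
      unfold sr
      have h1 : 0 < 1 - r ^ 2 := by nlinarith
      have := Real.log_nonpos h1.le (by nlinarith)
      linarith
    rcases le_or_gt (Real.log ‖f z‖) 0 with h | h
    · rw [max_eq_left h]
      have := le_max_right 0 (-(Real.log ‖f z‖ + sr r))
      linarith
    · rw [max_eq_right h.le]
      have := le_max_left 0 (-(Real.log ‖f z‖ + sr r))
      linarith

end Pool.Agent.H792R2.SS
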