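import Pool.Agent.H792R2.SS.Defs

set_option autoImplicit false
open Set Filter Topology Metric MeasureTheory

namespace Pool.Agent.H792R2.SS.Yx

/-! ### the gluing function -/

noncomputable def g (t : ℝ) : ℝ := 3 / 4 * max 0 (1 - t ^ 2)
noncomputable def l1 (t : ℝ) : ℝ := ∫ x in (-1 : ℝ)..t, g x
noncomputable def l0 (t : ℝ) : ℝ := ∫ x in (-1 : ℝ)..t, l1 x

lemma g_cont : Continuous g := by unfold g; fun_prop

lemma g_nonneg (t : ℝ) : 0 ≤ g t := by unfold g; positivity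

lemma l1_deriv (t : ℝ) : HasDerivAt l1 (g t) t :=
  (g_cont.integral_hasStrictDerivAt (-1) t).hasDerivAt

lemma l1_cont : Continuous l1 :=
  continuous_iff_continuousAt.2 fun t => (l1_deriv t).continuousAt

lemma l0_deriv (t : ℝ) : HasDerivAt l0 (l1 t) t :=
  (l1_cont.integral_hasStrictDerivAt (-1) t).hasDerivAt

lemma deriv_l1 : deriv l1 = g := funext fun t => (l1_deriv t).deriv
lemma deriv_l0 : deriv l0 = l1 := funext fun t => (l0_deriv t).deriv

lemma l0_contDiff : ContDiff ℝ 2 l0 := by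
  have h1 : ContDiff ℝ 1 l1 := by
    rw [contDiff_one_iff_deriv]
    exact ⟨fun t => (l1_deriv t).differentiableAt, by rw [deriv_l1]; exact g_cont⟩
  have : (2 : WithTop ℕ∞) = 1 + 1 := by norm_num
  rw [this, contDiff_succ_iff_deriv]
  refine ⟨fun t => (l0_deriv t).differentiableAt, by simp, ?_⟩
  rw [deriv_l0]; exact h1

lemma g_zero {t : ℝ} (ht : t ≤ -1) : g t = 0 := by
  unfold g
  rw [max_eq_left]; · simp
  nlinarith

lemma l1_zero {t : ℝ} (ht : t ≤ -1) : l1 t = 0 := by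
  unfold l1
  rw [intervalIntegral.integral_congr (g := fun _ => (0 : ℝ))]
  · simp
  · intro x hx
    rw [uIcc_of_ge ht] at hx
    exact g_zero hx.2

lemma l0_zero {t : ℝ} (ht : t ≤ -1) : l0 t = 0 := by
  unfold l0
  rw [intervalIntegral.integral_congr (g := fun _ => (0 : ℝ))]
  · simp
  · intro x hx
    rw [uIcc_of_ge ht] at hx
    exact l1_zero hx.2

lemma l1_mono : Monotone l1 := by
  apply monotone_of_deriv_nonneg
  · exact fun t => (l1_deriv t).differentiableAt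
  · intro t; rw [deriv_l1]; exact g_nonneg t

lemma l1_nonneg (t : ℝ) : 0 ≤ l1 t := by
  rcases le_total t (-1) with h | h
  · rw [l1_zero h]
  · have := l1_mono h
    rwa [l1_zero le_rfl] at this

lemma l1_one {t : ℝ} (ht : 1 ≤ t) : l1 t = 1 := by
  have h1 : l1 1 = 1 := by
    unfold l1
    rw [intervalIntegral.integral_congr (g := fun x => 3 / 4 * (1 - x ^ 2))]
    · rw [intervalIntegral.integral_const_mul]
      rw [intervalIntegral.integral_sub (by simp) (by apply Continuous.intervalIntegrable; fun_prop)]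
      simp only [integral_one, integral_pow]
      norm_num
    · intro x hx
      rw [uIcc_of_le (by norm_num)] at hx
      simp only [g]
      rw [max_eq_right]
      nlinarith [hx.1, hx.2]
  have h2 : l1 t = l1 1 + ∫ x in (1 : ℝ)..t, g x := by
    unfold l1
    rw [intervalIntegral.integral_add_adjacent_intervals] <;>
      exact g_cont.intervalIntegrable _ _
  rw [h2, h1, intervalIntegral.integral_congr (g := fun _ => (0 : ℝ))]
  · simp
  · intro x hx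
    rw [uIcc_of_le ht] at hx
    simp only [g]
    rw [max_eq_left]; · simp
    nlinarith [hx.1]

lemma l1_le_one (t : ℝ) : l1 t ≤ 1 := by
  rcases le_total t 1 with h | h
  · have := l1_mono h
    rwa [l1_one le_rfl] at this
  · rw [l1_one h]

lemma l0_nonneg (t : ℝ) : 0 ≤ l0 t := by
  rcases le_total t (-1) with h | h
  · rw [l0_zero h]
  · have hm : Monotone l0 := by
      apply monotone_of_deriv_nonneg
      · exact fun t => (l0_deriv t).differentiableAt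
      · intro t; rw [deriv_l0]; exact l1_nonneg t
    have := hm h
    rwa [l0_zero le_rfl] at this

lemma l0_le (t : ℝ) : l0 t ≤ max 0 t + 1 := by
  rcases le_total t (-1) with h | h
  · rw [l0_zero h]
    have := le_max_left 0 t
    linarith
  · have hm : Monotone (fun t => t + 1 - l0 t) := by
      apply monotone_of_deriv_nonneg
      · intro t
        exact (((hasDerivAt_id t).add_const 1).sub (l0_deriv t)).differentiableAt
      · intro t
        have : HasDerivAt (fun t => t + 1 - l0 t) (1 - l1 t) t :=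
          ((hasDerivAt_id t).add_const 1).sub (l0_deriv t)
        rw [this.deriv]
        have := l1_le_one t
        linarith
    have h2 := hm h
    simp only [l0_zero le_rfl] at h2
    have := le_max_right 0 t
    linarith

/-! ### Laplacian lemmas -/

lemma Lap_add {u v : ℂ → ℝ} {z : ℂ} (hu : ContDiffAt ℝ 2 u z) (hv : ContDiffAt ℝ 2 v z) :
    Lap (fun w => u w + v w) z = Lap u z + Lap v z := hu.laplacian_add hv

lemma Lap_sub {u v : ℂ → ℝ} {z : ℂ} (hu : ContDiffAt ℝ 2 u z) (hv : ContDiffAt ℝ 2 v z) :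
    Lap (fun w => u w - v w) z = Lap u z - Lap v z := hu.laplacian_sub hv

lemma Lap_cmul {u : ℂ → ℝ} {z : ℂ} (c : ℝ) (hu : ContDiffAt ℝ 2 u z) :
    Lap (fun w => c * u w) z = c * Lap u z := by
  have := InnerProductSpace.laplacian_smul c hu
  exact this

lemma Lap_cst {z : ℂ} (c : ℝ) : Lap (fun _ => c) z = 0 := by
  unfold Lap
  rw [InnerProductSpace.laplacian_const]
  rfl

lemma Lap_congr {u v : ℂ → ℝ} {z : ℂ} (h : u =ᶠ[𝓝 z] v) : Lap u z = Lap v z := by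
  exact (InnerProductSpace.laplacian_congr_nhds h).eq_of_nhds

lemma Lap_lognorm {P : ℂ → ℂ} {z : ℂ} (hP : AnalyticAt ℂ P z) (h0 : P z ≠ 0) :
    ContDiffAt ℝ 2 (fun w => Real.log ‖P w‖) z ∧ Lap (fun w => Real.log ‖P w‖) z = 0 := by
  have h := hP.harmonicAt_log_norm h0
  exact ⟨h.1, h.2.eq_of_nhds⟩

/-! ### the two functions -/

noncomputable def aa (f : ℂ → ℂ) (z : ℂ) : ℝ :=
  Real.log (1 - ‖z‖ ^ 2) - Real.log 2 + (Real.log ‖deriv (deriv f) z‖ - Real.log ‖deriv f z - 1‖)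

noncomputable def bb (f : ℂ → ℂ) (τ : ℝ) (z : ℂ) : ℝ :=
  Real.log (1 / 8) + (1 / 2 * Real.log (‖deriv f z‖ ^ 2 + τ ^ 2) -
    1 / 2 * Real.log (‖deriv f z‖ ^ 2 + 1 ^ 2))

noncomputable def EA (f : ℂ → ℂ) (z : ℂ) : ℝ :=
  (1 - ‖z‖ ^ 2) / 2 * ‖deriv (deriv f) z‖ / ‖deriv f z - 1‖

noncomputable def EB (f : ℂ → ℂ) (τ : ℝ) (z : ℂ) : ℝ :=
  1 / 8 * Real.sqrt (‖deriv f z‖ ^ 2 + τ ^ 2) / Real.sqrt (1 + ‖deriv f z‖ ^ 2)

lemma exp_half_log {x : ℝ} (hx : 0 < x) : Real.exp (1 / 2 * Real.log x) = Real.sqrt x := by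
  rw [mul_comm, Real.exp_mul, Real.exp_log hx, Real.sqrt_eq_rpow]

lemma exp_bb (f : ℂ → ℂ) {τ : ℝ} (hτ : 0 < τ) (z : ℂ) : Real.exp (bb f τ z) = EB f τ z := by
  unfold bb EB
  rw [Real.exp_add, Real.exp_sub, Real.exp_log (by norm_num), exp_half_log (by positivity),
    exp_half_log (by positivity), mul_div_assoc]
  congr 3
  ring

lemma exp_aa (f : ℂ → ℂ) {z : ℂ} (hz : ‖z‖ < 1) (hQ : deriv (deriv f) z ≠ 0)
    (hP : deriv f z ≠ 1) : Real.exp (aa f z) = EA f z := by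
  unfold aa EA
  have h1 : 0 < 1 - ‖z‖ ^ 2 := by nlinarith [norm_nonneg z]
  have h2 : 0 < ‖deriv (deriv f) z‖ := norm_pos_iff.2 hQ
  have h3 : 0 < ‖deriv f z - 1‖ := norm_pos_iff.2 (sub_ne_zero.2 hP)
  rw [Real.exp_add, Real.exp_sub, Real.exp_sub, Real.exp_log h1, Real.exp_log h2,
    Real.exp_log h3, Real.exp_log (by norm_num)]
  ring

section
variable {f : ℂ → ℂ} (hf : NN f 0 1)
include hf

lemma anP {z : ℂ} (hz : z ∈ ball (0 : ℂ) 1) : AnalyticAt ℂ (deriv f) z :=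
  (hf.1.analyticAt (isOpen_ball.mem_nhds hz)).deriv

lemma anQ {z : ℂ} (hz : z ∈ ball (0 : ℂ) 1) : AnalyticAt ℂ (deriv (deriv f)) z :=
  (anP hf hz).deriv

lemma anP1 {z : ℂ} (hz : z ∈ ball (0 : ℂ) 1) : AnalyticAt ℂ (fun w => deriv f w - 1) z :=
  (anP hf hz).sub analyticAt_const

lemma lap_bb (hLB : S_LB) {τ : ℝ} (hτ : 0 < τ) {z : ℂ} (hz : z ∈ ball (0 : ℂ) 1) :
    ContDiffAt ℝ 2 (bb f τ) z ∧ Lap (bb f τ) z =
      1 / 2 * (4 * τ ^ 2 * ‖deriv (deriv f) z‖ ^ 2 / (‖deriv f z‖ ^ 2 + τ ^ 2) ^ 2) -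
      1 / 2 * (4 * 1 ^ 2 * ‖deriv (deriv f) z‖ ^ 2 / (‖deriv f z‖ ^ 2 + 1 ^ 2) ^ 2) := by
  obtain ⟨c1, e1⟩ := hLB (deriv f) τ z (anP hf hz) hτ
  obtain ⟨c2, e2⟩ := hLB (deriv f) 1 z (anP hf hz) one_pos
  have d1 : ContDiffAt ℝ 2 (fun w => 1 / 2 * Real.log (‖deriv f w‖ ^ 2 + τ ^ 2)) z :=
    contDiffAt_const.mul c1
  have d2 : ContDiffAt ℝ 2 (fun w => 1 / 2 * Real.log (‖deriv f w‖ ^ 2 + 1 ^ 2)) z :=
    contDiffAt_const.mul c2
  constructor
  · exact contDiffAt_const.add (d1.sub d2)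
  · have : Lap (bb f τ) z = Lap (fun w => (fun _ : ℂ => Real.log (1 / 8)) w +
        (fun w => (fun w => 1 / 2 * Real.log (‖deriv f w‖ ^ 2 + τ ^ 2)) w -
          (fun w => 1 / 2 * Real.log (‖deriv f w‖ ^ 2 + 1 ^ 2)) w) w) z := rfl
    rw [this, Lap_add contDiffAt_const (d1.sub d2), Lap_sub d1 d2, Lap_cst, zero_add,
      Lap_cmul _ c1, Lap_cmul _ c2, e1, e2]

lemma lap_aa (hLD : S_LD) {z : ℂ} (hz : z ∈ ball (0 : ℂ) 1) (hQ : deriv (deriv f) z ≠ 0) :
    ContDiffAt ℝ 2 (aa f) z ∧ Lap (aa f) z = -4 / (1 - ‖z‖ ^ 2) ^ 2 := by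
  obtain ⟨c1, e1⟩ := hLD z (mem_ball_zero_iff.1 hz)
  obtain ⟨c2, e2⟩ := Lap_lognorm (anQ hf hz) hQ
  obtain ⟨c3, e3⟩ := Lap_lognorm (anP1 hf hz) (sub_ne_zero.2 (hf.2.2 z hz))
  have d1 : ContDiffAt ℝ 2 (fun w : ℂ => Real.log (1 - ‖w‖ ^ 2) - Real.log 2) z :=
    c1.sub contDiffAt_const
  constructor
  · exact d1.add (c2.sub c3)
  · have : Lap (aa f) z = Lap (fun w => (fun w : ℂ => Real.log (1 - ‖w‖ ^ 2) - Real.log 2) w +
        (fun w => (fun w => Real.log ‖deriv (deriv f) w‖) w -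
          (fun w => Real.log ‖deriv f w - 1‖) w) w) z := rfl
    rw [this, Lap_add d1 (c2.sub c3), Lap_sub c2 c3, e2, e3]
    have h4 : Lap (fun w : ℂ => Real.log (1 - ‖w‖ ^ 2) - Real.log 2) z =
      Lap (fun w => (fun w : ℂ => Real.log (1 - ‖w‖ ^ 2)) w - (fun _ : ℂ => Real.log 2) w) z := rfl
    rw [h4, Lap_sub c1 contDiffAt_const, e1, Lap_cst]
    ring

omit hf in
lemma EB_pos {τ : ℝ} (hτ : 0 < τ) (z : ℂ) : 0 < EB f τ z := by unfold EB; positivity

omit hf in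
lemma EB_sq {τ : ℝ} (hτ : 0 < τ) (hτ1 : τ ≤ 1) (z : ℂ) : EB f τ z ≤ 1 / 8 := by
  unfold EB
  rw [div_le_iff₀ (by positivity)]
  have : Real.sqrt (‖deriv f z‖ ^ 2 + τ ^ 2) ≤ Real.sqrt (1 + ‖deriv f z‖ ^ 2) := by
    apply Real.sqrt_le_sqrt
    nlinarith
  linarith

omit hf in
lemma EB_ge {τ : ℝ} (z : ℂ) :
    1 / 8 * ‖deriv f z‖ / Real.sqrt (1 + ‖deriv f z‖ ^ 2) ≤ EB f τ z := by
  unfold EB
  gcongr
  apply Real.le_sqrt_of_sq_le
  nlinarith [sq_nonneg τ]

lemma m_pos {z : ℂ} (hz : z ∈ ball (0 : ℂ) 1) : 0 < ‖deriv f z - 1‖ :=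
  norm_pos_iff.2 (sub_ne_zero.2 (hf.2.2 z hz))

omit hf in
lemma D_pos {z : ℂ} (hz : z ∈ ball (0 : ℂ) 1) : 0 < 1 - ‖z‖ ^ 2 := by
  have := mem_ball_zero_iff.1 hz
  nlinarith [norm_nonneg z]

lemma EA_nonneg {z : ℂ} (hz : z ∈ ball (0 : ℂ) 1) : 0 ≤ EA f z := by
  have := D_pos hz
  have := m_pos hf hz
  unfold EA; positivity

/-- the Laplacian of `b` from below. -/
lemma Lb_ge (hLB : S_LB) {τ : ℝ} (hτ : 0 < τ) {z : ℂ} (hz : z ∈ ball (0 : ℂ) 1) :
    -4 * EA f z ^ 2 ≤ (1 - ‖z‖ ^ 2) ^ 2 / 4 * Lap (bb f τ) z := by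
  rw [(lap_bb hf hLB hτ hz).2]
  have hm := m_pos hf hz
  have hD := D_pos hz
  have hm2 : ‖deriv f z - 1‖ ≤ ‖deriv f z‖ + 1 := by
    simpa using norm_sub_le (deriv f z) 1
  unfold EA
  generalize ‖deriv (deriv f) z‖ = q at *
  have hp : 0 ≤ ‖deriv f z‖ := norm_nonneg _
  generalize ‖deriv f z‖ = p at *
  generalize ‖deriv f z - 1‖ = m at *
  generalize 1 - ‖z‖ ^ 2 = D at *
  have h1 : 0 ≤ 1 / 2 * (4 * τ ^ 2 * q ^ 2 / (p ^ 2 + τ ^ 2) ^ 2) := by positivity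
  have h2 : 1 / (p ^ 2 + 1 ^ 2) ^ 2 ≤ 2 / m ^ 2 := by
    rw [div_le_div_iff₀ (by positivity) (by positivity)]
    have : m ^ 2 ≤ 2 * (p ^ 2 + 1) := by nlinarith [sq_nonneg (p - 1)]
    nlinarith [sq_nonneg p, mul_nonneg (sq_nonneg p) (sq_nonneg p)]
  have h3 : D ^ 2 / 4 * (1 / 2 * (4 * 1 ^ 2 * q ^ 2 / (p ^ 2 + 1 ^ 2) ^ 2)) ≤
      4 * (D / 2 * q / m) ^ 2 := by
    have e1 : D ^ 2 / 4 * (1 / 2 * (4 * 1 ^ 2 * q ^ 2 / (p ^ 2 + 1 ^ 2) ^ 2)) =
      D ^ 2 * q ^ 2 / 2 * (1 / (p ^ 2 + 1 ^ 2) ^ 2) := by ring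
    have e2 : 4 * (D / 2 * q / m) ^ 2 = D ^ 2 * q ^ 2 / 2 * (2 / m ^ 2) := by ring
    rw [e1, e2]
    gcongr
  have h4 : 0 ≤ D ^ 2 / 4 * (1 / 2 * (4 * τ ^ 2 * q ^ 2 / (p ^ 2 + τ ^ 2) ^ 2)) := by positivity
  rw [mul_sub]
  linarith

lemma Lb_half (hLB : S_LB) {τ : ℝ} (hτ : 0 < τ) (hτ1 : τ ≤ 1) {z : ℂ}
    (hz : z ∈ ball (0 : ℂ) 1) (h : EA f z ≤ Real.exp 1 * EB f τ z) :
    -1 / 2 ≤ (1 - ‖z‖ ^ 2) ^ 2 / 4 * Lap (bb f τ) z := by
  have h1 := Lb_ge hf hLB hτ hz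
  have h2 : EA f z ≤ Real.exp 1 * (1 / 8) :=
    h.trans (mul_le_mul_of_nonneg_left (EB_sq hτ hτ1 z) (Real.exp_pos 1).le)
  have h3 := EA_nonneg hf hz
  have h4 : Real.exp 1 < 2.7182818286 := Real.exp_one_lt_d9
  have h5 : EA f z ≤ 0.34 := by linarith
  nlinarith

omit hf in
lemma le_neg_one {a b : ℝ} (h : Real.exp a ≤ Real.exp (-1) * Real.exp b) : a - b ≤ -1 := by
  rw [← Real.exp_add, Real.exp_le_exp] at h
  linarith

open Classical in
/-- the glued function. -/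
noncomputable def HH (f : ℂ → ℂ) (τ : ℝ) (z : ℂ) : ℝ :=
  if deriv (deriv f) z = 0 then bb f τ z else bb f τ z + l0 (aa f z - bb f τ z)

lemma near1 {τ : ℝ} {z : ℂ} (hz : z ∈ ball (0 : ℂ) 1) (hQ : deriv (deriv f) z ≠ 0) :
    HH f τ =ᶠ[𝓝 z] fun w => bb f τ w + (fun w => l0 ((fun w => aa f w - bb f τ w) w)) w := by
  filter_upwards [(anQ hf hz).continuousAt.eventually_ne hQ] with w hw
  simp [HH, hw]

lemma near2 {τ : ℝ} (hτ : 0 < τ) {z : ℂ} (hz : z ∈ ball (0 : ℂ) 1)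
    (hQ : deriv (deriv f) z = 0) : HH f τ =ᶠ[𝓝 z] bb f τ := by
  have cP := (anP hf hz).continuousAt
  have cQ := (anQ hf hz).continuousAt
  have hm := m_pos hf hz
  have cA : ContinuousAt (EA f) z := by
    unfold EA
    apply ContinuousAt.div
    · exact ContinuousAt.mul (by fun_prop) cQ.norm
    · exact (cP.sub continuousAt_const).norm
    · exact hm.ne'
  have cB : ContinuousAt (fun w => Real.exp (-1) * EB f τ w) z := by
    unfold EB
    apply ContinuousAt.mul continuousAt_const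
    apply ContinuousAt.div
    · exact continuousAt_const.mul (((cP.norm.pow 2).add continuousAt_const).sqrt)
    · exact (continuousAt_const.add (cP.norm.pow 2)).sqrt
    · positivity
  have h0 : EA f z < Real.exp (-1) * EB f τ z := by
    have : EA f z = 0 := by unfold EA; rw [hQ]; simp
    rw [this]
    exact mul_pos (Real.exp_pos _) (EB_pos hτ z)
  filter_upwards [cA.eventually_lt cB h0, isOpen_ball.mem_nhds hz] with w hw hwb
  unfold HH
  split_ifs with h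
  · rfl
  · rw [← exp_aa f (mem_ball_zero_iff.1 hwb) h (hf.2.2 w hwb), ← exp_bb f hτ w] at hw
    rw [l0_zero (le_neg_one hw.le), add_zero]

end

end Pool.Agent.H792R2.SS.Yx

namespace Pool.Agent.H792R2.SS

open Yx in
theorem t_Y (hCH : S_CH) (hLB : S_LB) (hLD : S_LD) : S_Y := by
  intro f τ hf hτ hτ1
  -- the Laplacian where `P' ≠ 0`
  have key : ∀ z ∈ ball (0 : ℂ) 1, deriv (deriv f) z ≠ 0 → ContDiffAt ℝ 2 (HH f τ) z ∧
      Lap (HH f τ) z = Lap (bb f τ) z + (l1 (aa f z - bb f τ z) *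
        (-4 / (1 - ‖z‖ ^ 2) ^ 2 - Lap (bb f τ) z) +
        g (aa f z - bb f τ z) * ‖fderiv ℝ (fun w => aa f w - bb f τ w) z‖ ^ 2) := by
    intro z hz hQ
    obtain ⟨ca, ea⟩ := lap_aa hf hLD hz hQ
    obtain ⟨cb, eb⟩ := lap_bb hf hLB hτ hz
    obtain ⟨cc, ec⟩ := hCH (fun w => aa f w - bb f τ w) l0 z (ca.sub cb) l0_contDiff.contDiffAt
    have hn := near1 (τ := τ) hf hz hQ
    constructor
    · exact (cb.add cc).congr_of_eventuallyEq hn
    · rw [Lap_congr hn, Lap_add cb cc, ec, deriv_l0, deriv_l1, Lap_sub ca cb, ea]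
  refine ⟨HH f τ, ?_, ?_⟩
  · intro z hz
    apply ContDiffAt.contDiffWithinAt
    by_cases hQ : deriv (deriv f) z = 0
    · exact (lap_bb hf hLB hτ hz).1.congr_of_eventuallyEq (near2 hf hτ hz hQ)
    · exact (key z hz hQ).1
  · intro z hz
    have hD := D_pos hz
    have hm := m_pos hf hz
    change -1 ≤ (1 - ‖z‖ ^ 2) ^ 2 / 4 * Lap (HH f τ) z ∧
      (unh f z → -1 / 2 ≤ (1 - ‖z‖ ^ 2) ^ 2 / 4 * Lap (HH f τ) z) ∧
      Real.exp (HH f τ z) ≤ 3 * max (EA f z) (EB f τ z) ∧ EB f τ z ≤ Real.exp (HH f τ z)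
    by_cases hQ : deriv (deriv f) z = 0
    · have hA : EA f z = 0 := by unfold EA; rw [hQ]; simp
      have h1 := Lb_ge hf hLB hτ hz
      rw [hA] at h1
      have h2 : HH f τ z = bb f τ z := by simp [HH, hQ]
      have hB := EB_pos (f := f) hτ z
      rw [Lap_congr (near2 hf hτ hz hQ), h2, exp_bb f hτ z]
      refine ⟨by linarith, fun _ => by linarith, ?_, le_rfl⟩
      have := le_max_right (EA f z) (EB f τ z)
      linarith
    · obtain ⟨-, hL⟩ := key z hz hQ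
      have hz1 := mem_ball_zero_iff.1 hz
      have ea := exp_aa f hz1 hQ (hf.2.2 z hz)
      have eb := exp_bb f hτ z
      have h2 : HH f τ z = bb f τ z + l0 (aa f z - bb f τ z) := by simp [HH, hQ]
      have hB := EB_pos (f := f) hτ z
      -- lower bound of the Laplacian
      have hlow : (1 - l1 (aa f z - bb f τ z)) * ((1 - ‖z‖ ^ 2) ^ 2 / 4 * Lap (bb f τ) z) -
          l1 (aa f z - bb f τ z) ≤ (1 - ‖z‖ ^ 2) ^ 2 / 4 * Lap (HH f τ) z := by
        rw [hL]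
        have h3 : 0 ≤ (1 - ‖z‖ ^ 2) ^ 2 / 4 * (g (aa f z - bb f τ z) *
            ‖fderiv ℝ (fun w => aa f w - bb f τ w) z‖ ^ 2) := by
          have := g_nonneg (aa f z - bb f τ z)
          positivity
        have h4 : (1 - ‖z‖ ^ 2) ^ 2 / 4 * (-4 / (1 - ‖z‖ ^ 2) ^ 2) = -1 := by
          field_simp
        have h5 : (1 - ‖z‖ ^ 2) ^ 2 / 4 * (Lap (bb f τ) z + (l1 (aa f z - bb f τ z) *
            (-4 / (1 - ‖z‖ ^ 2) ^ 2 - Lap (bb f τ) z) +
            g (aa f z - bb f τ z) * ‖fderiv ℝ (fun w => aa f w - bb f τ w) z‖ ^ 2)) =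
            (1 - l1 (aa f z - bb f τ z)) * ((1 - ‖z‖ ^ 2) ^ 2 / 4 * Lap (bb f τ) z) +
            l1 (aa f z - bb f τ z) * ((1 - ‖z‖ ^ 2) ^ 2 / 4 * (-4 / (1 - ‖z‖ ^ 2) ^ 2)) +
            (1 - ‖z‖ ^ 2) ^ 2 / 4 * (g (aa f z - bb f τ z) *
            ‖fderiv ℝ (fun w => aa f w - bb f τ w) z‖ ^ 2) := by ring
        rw [h5, h4]
        linarith
      have hl0 := l1_nonneg (aa f z - bb f τ z)
      have hl1 := l1_le_one (aa f z - bb f τ z)
      have hhalf : aa f z - bb f τ z ≤ 1 →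
          -1 / 2 ≤ (1 - ‖z‖ ^ 2) ^ 2 / 4 * Lap (bb f τ) z := by
        intro ht
        apply Lb_half hf hLB hτ hτ1 hz
        rw [← ea, ← eb, ← Real.exp_add, Real.exp_le_exp]
        linarith
      refine ⟨?_, ?_, ?_, ?_⟩
      · rcases le_total (aa f z - bb f τ z) 1 with ht | ht
        · have := hhalf ht
          nlinarith
        · rw [l1_one ht] at hlow
          linarith
      · intro hu
        have hs : 0 < Real.sqrt (1 + ‖deriv f z‖ ^ 2) := by positivity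
        have h6 : EA f z ≤ 1 / 32 * ‖deriv f z‖ / Real.sqrt (1 + ‖deriv f z‖ ^ 2) := by
          unfold EA
          rw [div_le_div_iff₀ hm hs]
          unfold unh at hu
          exact hu
        have h7 := EB_ge (f := f) (τ := τ) z
        have h8 : EA f z ≤ 1 / 4 * EB f τ z := by
          calc EA f z ≤ 1 / 32 * ‖deriv f z‖ / Real.sqrt (1 + ‖deriv f z‖ ^ 2) := h6
            _ = 1 / 4 * (1 / 8 * ‖deriv f z‖ / Real.sqrt (1 + ‖deriv f z‖ ^ 2)) := by ring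
            _ ≤ 1 / 4 * EB f τ z := by gcongr
        have h9 : (1 : ℝ) / 4 ≤ Real.exp (-1) := by
          rw [Real.exp_neg, ← one_div]
          apply one_div_le_one_div_of_le (Real.exp_pos 1)
          have := Real.exp_one_lt_d9
          linarith
        have h10 : aa f z - bb f τ z ≤ -1 := by
          apply le_neg_one
          rw [ea, eb]
          exact h8.trans (mul_le_mul_of_nonneg_right h9 hB.le)
        rw [l1_zero h10] at hlow
        have := hhalf (by linarith)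
        linarith
      · rw [h2]
        have h3 := l0_le (aa f z - bb f τ z)
        calc Real.exp (bb f τ z + l0 (aa f z - bb f τ z)) ≤
            Real.exp (1 + max (aa f z) (bb f τ z)) := by
              apply Real.exp_le_exp.2
              have : max 0 (aa f z - bb f τ z) + bb f τ z = max (aa f z) (bb f τ z) := by
                rw [← max_add_add_right, zero_add, sub_add_cancel, max_comm]
              linarith
          _ = Real.exp 1 * max (EA f z) (EB f τ z) := by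
              rw [Real.exp_add, Real.exp_monotone.map_max, ea, eb]
          _ ≤ 3 * max (EA f z) (EB f τ z) := by
              have := Real.exp_one_lt_d9
              apply mul_le_mul_of_nonneg_right (by linarith)
              exact hB.le.trans (le_max_right _ _)
      · rw [h2, Real.exp_add, eb]
        have := l0_nonneg (aa f z - bb f τ z)
        exact le_mul_of_one_le_right hB.le (Real.one_le_exp this)

end Pool.Agent.H792R2.SS
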