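import Pool.Agent.H792R2.SS.Defs

set_option autoImplicit false
open Set Filter Topology Metric MeasureTheory

namespace Pool.Agent.H792R2.SS.ZEROx

theorem exp_sub_one_ge {ω : ℂ} (hω : ‖ω‖ = 1) : 1 / 4 ≤ ‖Complex.exp ω - 1‖ := by
  have h := Complex.exp_bound (x := ω) hω.le (n := 2) (by norm_num)
  rw [hω] at h
  simp only [Finset.sum_range_succ, Finset.sum_range_zero, zero_add, pow_zero, pow_one,
    Nat.factorial_zero, Nat.factorial_one, Nat.cast_one, div_one] at h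
  have h2 : ‖Complex.exp ω - (1 + ω)‖ ≤ 3 / 4 := by
    refine le_trans h ?_
    norm_num [Nat.factorial]
  have h3 : ‖ω‖ ≤ ‖Complex.exp ω - 1‖ + ‖Complex.exp ω - (1 + ω)‖ := by
    have e : ω = (Complex.exp ω - 1) - (Complex.exp ω - (1 + ω)) := by ring
    calc ‖ω‖ = ‖(Complex.exp ω - 1) - (Complex.exp ω - (1 + ω))‖ := by rw [← e]
      _ ≤ _ := norm_sub_le _ _
  linarith

theorem exp_five_le {ζ : ℂ} (hζ : ‖ζ‖ ≤ 5) : ‖Complex.exp ζ‖ ≤ 243 := by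
  rw [Complex.norm_exp]
  have h1 : ζ.re ≤ 5 := le_trans (Complex.re_le_norm ζ) hζ
  calc Real.exp ζ.re ≤ Real.exp 5 := Real.exp_le_exp.2 h1
    _ = Real.exp 1 ^ 5 := by rw [← Real.exp_nat_mul]; norm_num
    _ ≤ 3 ^ 5 := pow_le_pow_left₀ (Real.exp_pos 1).le (by linarith [Real.exp_one_lt_d9]) 5
    _ = 243 := by norm_num

/-- the quotient of derivatives is near one -/
theorem g_near (hKB : S_KB) {φ : ℂ → ℂ} (hφ : DifferentiableOn ℂ φ {y | 1 / 2 < y.re})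
    (hinj : InjOn φ {y | 1 / 2 < y.re}) {R : ℝ} (hR : 10 ^ 7 ≤ R) :
    deriv φ (1 + R) ≠ 0 ∧ ∀ ζ : ℂ, ‖ζ‖ ≤ 5 →
      ‖deriv φ (1 + R + ζ) / deriv φ (1 + R) - 1‖ ≤ 1 / 200000 := by
  have hopen : IsOpen {y : ℂ | 1 / 2 < y.re} := isOpen_lt continuous_const Complex.continuous_re
  have hφ' : DifferentiableOn ℂ (deriv φ) {y | 1 / 2 < y.re} := hφ.deriv hopen
  have hkb : ∀ y : ℂ, 1 / 2 < y.re → deriv φ y ≠ 0 ∧
      (y.re - 1 / 2) * ‖deriv (deriv φ) y‖ ≤ 4 * ‖deriv φ y‖ := by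
    intro y hy
    have hsub : ball y (y.re - 1 / 2) ⊆ {y | 1 / 2 < y.re} := by
      intro x hx
      rw [mem_ball, dist_comm, dist_eq_norm] at hx
      have := Complex.re_le_norm (y - x)
      rw [Complex.sub_re] at this
      change 1 / 2 < x.re
      linarith
    exact hKB φ y (y.re - 1 / 2) (by linarith) (hφ.mono hsub) (hinj.mono hsub)
  have hre : ∀ ζ : ℂ, ‖ζ‖ ≤ 5 → R - 4 ≤ (1 + (R : ℂ) + ζ).re := by
    intro ζ hζ
    have h1 := (abs_le.1 (le_trans (Complex.abs_re_le_norm ζ) hζ)).1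
    simp only [Complex.add_re, Complex.one_re, Complex.ofReal_re]
    linarith
  have hc : deriv φ (1 + R) ≠ 0 := by
    have := (hkb (1 + (R : ℂ) + 0) (by
      have := hre 0 (by simp)
      linarith)).1
    rwa [add_zero] at this
  refine ⟨hc, ?_⟩
  set D := deriv φ (1 + R) with hD
  have hDpos : 0 < ‖D‖ := norm_pos_iff.2 hc
  set g : ℂ → ℂ := fun ζ => deriv φ (1 + R + ζ) / D with hg
  have hgd : ∀ ζ : ℂ, ‖ζ‖ ≤ 5 → HasDerivAt g (deriv (deriv φ) (1 + R + ζ) / D) ζ := by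
    intro ζ hζ
    have h1 : HasDerivAt (deriv φ) (deriv (deriv φ) (1 + R + ζ)) (1 + R + ζ) :=
      (hφ'.differentiableAt (hopen.mem_nhds (by
        have := hre ζ hζ
        change 1 / 2 < (1 + (R : ℂ) + ζ).re
        linarith))).hasDerivAt
    have h2 : HasDerivAt (fun ζ : ℂ => 1 + (R : ℂ) + ζ) 1 ζ := (hasDerivAt_id ζ).const_add _
    have h3 := h1.comp ζ h2
    rw [mul_one] at h3
    exact h3.div_const D
  have hcont : ContinuousOn (fun ζ => ‖g ζ‖) (closedBall 0 5) := by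
    refine ContinuousOn.norm (fun ζ hζ => ?_)
    exact (hgd ζ (mem_closedBall_zero_iff.1 hζ)).continuousAt.continuousWithinAt
  obtain ⟨ζm, hζm, hmax⟩ := (isCompact_closedBall (0 : ℂ) 5).exists_isMaxOn
    ⟨0, mem_closedBall_self (by norm_num)⟩ hcont
  set M := ‖g ζm‖ with hM
  have hMle : ∀ ζ : ℂ, ‖ζ‖ ≤ 5 → ‖g ζ‖ ≤ M := fun ζ hζ => hmax (mem_closedBall_zero_iff.2 hζ)
  have hbound : ∀ ζ ∈ closedBall (0 : ℂ) 5, ‖deriv (deriv φ) (1 + R + ζ) / D‖ ≤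
      1 / 2000000 * M := by
    intro ζ hζ
    have hζ' := mem_closedBall_zero_iff.1 hζ
    have h1 := (hkb (1 + R + ζ) (by have := hre ζ hζ'; linarith)).2
    have h2 := hMle ζ hζ'
    have h3 := hre ζ hζ'
    rw [hg] at h2
    dsimp only at h2
    rw [norm_div, div_le_iff₀ hDpos] at h2
    rw [norm_div, div_le_iff₀ hDpos]
    have h4 : 8000000 * ‖deriv (deriv φ) (1 + R + ζ)‖ ≤
        ((1 + (R : ℂ) + ζ).re - 1 / 2) * ‖deriv (deriv φ) (1 + R + ζ)‖ :=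
      mul_le_mul_of_nonneg_right (by linarith) (norm_nonneg _)
    linarith
  have hmv : ∀ ζ : ℂ, ‖ζ‖ ≤ 5 → ‖g ζ - g 0‖ ≤ 1 / 2000000 * M * 5 := by
    intro ζ hζ
    have h1 := (convex_closedBall (0 : ℂ) 5).norm_image_sub_le_of_norm_hasDerivWithin_le
      (fun x hx => (hgd x (mem_closedBall_zero_iff.1 hx)).hasDerivWithinAt) hbound
      (mem_closedBall_self (by norm_num)) (mem_closedBall_zero_iff.2 hζ)
    rw [sub_zero] at h1
    exact le_trans h1 (mul_le_mul_of_nonneg_left hζ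
      (mul_nonneg (by norm_num) (norm_nonneg _)))
  have hg0 : g 0 = 1 := by
    rw [hg]
    dsimp only
    rw [add_zero]
    exact div_self hc
  rw [hg0] at hmv
  have hM2 : M ≤ 2 := by
    have h1 := hmv ζm (mem_closedBall_zero_iff.1 hζm)
    have h2 : M ≤ ‖g ζm - 1‖ + ‖(1 : ℂ)‖ := by
      calc M = ‖(g ζm - 1) + 1‖ := by rw [sub_add_cancel]
        _ ≤ _ := norm_add_le _ _
    rw [norm_one] at h2
    linarith
  intro ζ hζ
  have := hmv ζ hζ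
  change ‖g ζ - 1‖ ≤ _
  linarith

end Pool.Agent.H792R2.SS.ZEROx

namespace Pool.Agent.H792R2.SS

theorem t_ZERO (hKB : S_KB) : S_ZERO := by
  refine ⟨10 ^ 7, by norm_num, ?_⟩
  intro φ Φ hφ hinj hΦ hΦ0 hder R hR hκ
  have hopen : IsOpen {y : ℂ | 1 / 2 < y.re} := isOpen_lt continuous_const Complex.continuous_re
  obtain ⟨hc, hg⟩ := ZEROx.g_near hKB hφ hinj hR
  have hre : ∀ ζ : ℂ, ‖ζ‖ ≤ 5 → 1 / 2 < (1 + (R : ℂ) + ζ).re := by
    intro ζ hζ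
    have h1 := (abs_le.1 (le_trans (Complex.abs_re_le_norm ζ) hζ)).1
    simp only [Complex.add_re, Complex.one_re, Complex.ofReal_re]
    linarith
  set D := deriv φ (1 + R) with hD
  set A : ℂ := Complex.exp (1 + R) * D with hA
  have hA0 : A ≠ 0 := mul_ne_zero (Complex.exp_ne_zero _) hc
  set E : ℂ → ℂ := fun ζ => Φ (1 + R + ζ) / A - Complex.exp ζ with hE
  set q : ℂ → ℂ := fun ζ => Φ (1 + R + ζ) / A with hq
  have hqd : ∀ ζ : ℂ, ‖ζ‖ ≤ 5 →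
      HasDerivAt q ((1 + Complex.exp (1 + R + ζ)) * deriv φ (1 + R + ζ) / A) ζ := by
    intro ζ hζ
    have h1 : HasDerivAt Φ (deriv Φ (1 + R + ζ)) (1 + R + ζ) :=
      (hΦ.differentiableAt (hopen.mem_nhds (hre ζ hζ))).hasDerivAt
    rw [hder _ (hre ζ hζ)] at h1
    have h2 : HasDerivAt (fun ζ : ℂ => 1 + (R : ℂ) + ζ) 1 ζ := (hasDerivAt_id ζ).const_add _
    have h3 := h1.comp ζ h2
    rw [mul_one] at h3
    exact h3.div_const A
  have hEd : ∀ ζ : ℂ, ‖ζ‖ ≤ 5 →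
      HasDerivAt E ((1 + Complex.exp (1 + R + ζ)) * deriv φ (1 + R + ζ) / A - Complex.exp ζ) ζ :=
    fun ζ hζ => (hqd ζ hζ).sub (Complex.hasDerivAt_exp ζ)
  have hsmall : ‖Complex.exp (-(1 + R))‖ ≤ 1 / 10000000 := by
    rw [Complex.norm_exp]
    have e : (-(1 + (R : ℂ))).re = -(1 + R) := by simp
    rw [e, Real.exp_neg, inv_eq_one_div]
    apply one_div_le_one_div_of_le (by norm_num)
    have := Real.add_one_le_exp (1 + R)
    linarith
  have hEb : ∀ ζ : ℂ, ‖ζ‖ ≤ 5 →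
      ‖(1 + Complex.exp (1 + R + ζ)) * deriv φ (1 + R + ζ) / A - Complex.exp ζ‖ ≤ 1 / 200 := by
    intro ζ hζ
    set G := deriv φ (1 + R + ζ) / D with hG
    have h1 : ‖G - 1‖ ≤ 1 / 200000 := hg ζ hζ
    have h2 : ‖G‖ ≤ 2 := by
      calc ‖G‖ = ‖(G - 1) + 1‖ := by rw [sub_add_cancel]
        _ ≤ ‖G - 1‖ + ‖(1 : ℂ)‖ := norm_add_le _ _
        _ ≤ 2 := by rw [norm_one]; linarith
    have e : (1 + Complex.exp (1 + R + ζ)) * deriv φ (1 + R + ζ) / A - Complex.exp ζ =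
        Complex.exp (-(1 + R)) * G + Complex.exp ζ * (G - 1) := by
      rw [hA, hG, Complex.exp_add (1 + R) ζ, Complex.exp_neg]
      have := Complex.exp_ne_zero (1 + (R : ℂ))
      field_simp
      ring
    rw [e]
    have h3 := ZEROx.exp_five_le hζ
    calc ‖Complex.exp (-(1 + R)) * G + Complex.exp ζ * (G - 1)‖
        ≤ ‖Complex.exp (-(1 + R))‖ * ‖G‖ + ‖Complex.exp ζ‖ * ‖G - 1‖ := by
          rw [← norm_mul, ← norm_mul]
          exact norm_add_le _ _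
      _ ≤ 1 / 10000000 * 2 + 243 * (1 / 200000) := by
          refine add_le_add (mul_le_mul hsmall h2 (norm_nonneg _) (by norm_num))
            (mul_le_mul h3 h1 (norm_nonneg _) (by norm_num))
      _ ≤ 1 / 200 := by norm_num
  have hmv : ∀ ζ ζ' : ℂ, ‖ζ‖ ≤ 5 → ‖ζ'‖ ≤ 5 → ‖E ζ' - E ζ‖ ≤ 1 / 200 * ‖ζ' - ζ‖ := by
    intro ζ ζ' hζ hζ'
    exact (convex_closedBall (0 : ℂ) 5).norm_image_sub_le_of_norm_hasDerivWithin_le
      (fun x hx => (hEd x (mem_closedBall_zero_iff.1 hx)).hasDerivWithinAt)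
      (fun x hx => hEb x (mem_closedBall_zero_iff.1 hx))
      (mem_closedBall_zero_iff.2 hζ) (mem_closedBall_zero_iff.2 hζ')
  set κ : ℂ := Φ (1 + R) / (Complex.exp (1 + R) * deriv φ (1 + R)) - 1 with hκd
  have hE0 : E 0 = κ := by
    rw [hE, hκd]
    dsimp only
    rw [add_zero, Complex.exp_zero]
  have hκ0 : -κ ≠ 0 := by
    intro h0
    rw [neg_eq_zero] at h0
    rw [h0, norm_zero] at hκ
    exact zero_ne_one hκ
  set ζ₀ : ℂ := Complex.log (-κ) with hζ₀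
  have hexp : Complex.exp ζ₀ = -κ := Complex.exp_log hκ0
  have hζn : ‖ζ₀‖ ≤ 4 := by
    have h1 : ζ₀.re = 0 := by
      rw [hζ₀, Complex.log_re, norm_neg, hκ, Real.log_one]
    have h2 : |ζ₀.im| ≤ Real.pi := by
      rw [hζ₀, Complex.log_im]
      exact Complex.abs_arg_le_pi _
    have h3 := Complex.norm_le_abs_re_add_abs_im ζ₀
    rw [h1, abs_zero] at h3
    linarith [Real.pi_lt_d2]
  have hqE : ∀ ζ, q ζ = E ζ + Complex.exp ζ := by
    intro ζ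
    rw [hq, hE]
    ring
  have hq0 : ‖q ζ₀‖ ≤ 1 / 50 := by
    rw [hqE, hexp, ← hE0, ← sub_eq_add_neg]
    have := hmv 0 ζ₀ (by simp) (by linarith)
    rw [sub_zero] at this
    linarith
  have hsph : ∀ ζ ∈ sphere ζ₀ 1, 1 / 5 ≤ ‖q ζ - q ζ₀‖ := by
    intro ζ hζ
    rw [mem_sphere, dist_eq_norm] at hζ
    have hζ5 : ‖ζ‖ ≤ 5 := by
      calc ‖ζ‖ = ‖(ζ - ζ₀) + ζ₀‖ := by rw [sub_add_cancel]
        _ ≤ ‖ζ - ζ₀‖ + ‖ζ₀‖ := norm_add_le _ _
        _ ≤ 5 := by linarith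
    have h1 := hmv ζ₀ ζ (by linarith) hζ5
    rw [hζ] at h1
    have h2 : Complex.exp ζ - Complex.exp ζ₀ =
        Complex.exp ζ₀ * (Complex.exp (ζ - ζ₀) - 1) := by
      rw [mul_sub, ← Complex.exp_add, mul_one]
      congr 2
      ring
    have h3 : 1 / 4 ≤ ‖Complex.exp ζ - Complex.exp ζ₀‖ := by
      rw [h2, norm_mul, hexp, norm_neg, hκ, one_mul]
      exact ZEROx.exp_sub_one_ge hζ
    have h4 : Complex.exp ζ - Complex.exp ζ₀ = (q ζ - q ζ₀) - (E ζ - E ζ₀) := by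
      rw [hqE, hqE]
      ring
    rw [h4] at h3
    have h5 := norm_sub_le (q ζ - q ζ₀) (E ζ - E ζ₀)
    linarith
  have hdiff : DiffContOnCl ℂ q (ball ζ₀ 1) := by
    apply DifferentiableOn.diffContOnCl
    intro ζ hζ
    rw [closure_ball _ one_ne_zero, mem_closedBall, dist_eq_norm] at hζ
    have hζ5 : ‖ζ‖ ≤ 5 := by
      calc ‖ζ‖ = ‖(ζ - ζ₀) + ζ₀‖ := by rw [sub_add_cancel]
        _ ≤ ‖ζ - ζ₀‖ + ‖ζ₀‖ := norm_add_le _ _
        _ ≤ 5 := by linarith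
    exact (hqd ζ hζ5).differentiableAt.differentiableWithinAt
  have hfreq : ∃ᶠ ζ in 𝓝 ζ₀, q ζ ≠ q ζ₀ := by
    intro hev
    have hev' : q =ᶠ[𝓝 ζ₀] fun _ => q ζ₀ := by
      filter_upwards [hev] with ζ hζ
      exact not_not.1 hζ
    have h1 := hev'.deriv_eq
    rw [deriv_const, (hqd ζ₀ (by linarith)).deriv] at h1
    have h2 := hEb ζ₀ (by linarith)
    rw [h1, zero_sub, norm_neg, hexp, norm_neg, hκ] at h2
    norm_num at h2
  have himg := hdiff.ball_subset_image_closedBall one_pos hsph hfreq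
  have h0mem : (0 : ℂ) ∈ ball (q ζ₀) (1 / 5 / 2) := by
    rw [mem_ball, dist_zero_left]
    linarith
  obtain ⟨ζ, hζ, hqζ⟩ := himg h0mem
  rw [mem_closedBall, dist_eq_norm] at hζ
  have hζ5 : ‖ζ‖ ≤ 5 := by
    calc ‖ζ‖ = ‖(ζ - ζ₀) + ζ₀‖ := by rw [sub_add_cancel]
      _ ≤ ‖ζ - ζ₀‖ + ‖ζ₀‖ := norm_add_le _ _
      _ ≤ 5 := by linarith
  rw [hq] at hqζ
  dsimp only at hqζ
  rcases div_eq_zero_iff.1 hqζ with h | h
  · exact hΦ0 _ (hre ζ hζ5) h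
  · exact hA0 h

end Pool.Agent.H792R2.SS
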