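import Pool.Agent.H792R2.SS.Res
import Pool.Agent.H792R2.SS.ALEM
import Pool.Agent.H792R2.SS.CH
import Pool.Agent.H792R2.SS.CLEM
import Pool.Agent.H792R2.SS.COMB
import Pool.Agent.H792R2.SS.COV
import Pool.Agent.H792R2.SS.CPT
import Pool.Agent.H792R2.SS.FIN
import Pool.Agent.H792R2.SS.G
import Pool.Agent.H792R2.SS.G1
import Pool.Agent.H792R2.SS.G2
import Pool.Agent.H792R2.SS.GR
import Pool.Agent.H792R2.SS.GU
import Pool.Agent.H792R2.SS.HH
import Pool.Agent.H792R2.SS.HU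
import Pool.Agent.H792R2.SS.I10
import Pool.Agent.H792R2.SS.I5me
import Pool.Agent.H792R2.SS.I9
import Pool.Agent.H792R2.SS.I9a
import Pool.Agent.H792R2.SS.INV
import Pool.Agent.H792R2.SS.KB
import Pool.Agent.H792R2.SS.LB
import Pool.Agent.H792R2.SS.LD
import Pool.Agent.H792R2.SS.LLw
import Pool.Agent.H792R2.SS.LLz
import Pool.Agent.H792R2.SS.LOG
import Pool.Agent.H792R2.SS.LU
import Pool.Agent.H792R2.SS.MEAN
import Pool.Agent.H792R2.SS.MEANa
import Pool.Agent.H792R2.SS.MEAS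
import Pool.Agent.H792R2.SS.MT
import Pool.Agent.H792R2.SS.NL
import Pool.Agent.H792R2.SS.NU
import Pool.Agent.H792R2.SS.P1
import Pool.Agent.H792R2.SS.P3
import Pool.Agent.H792R2.SS.POLY
import Pool.Agent.H792R2.SS.POS
import Pool.Agent.H792R2.SS.RS
import Pool.Agent.H792R2.SS.SEP
import Pool.Agent.H792R2.SS.T1
import Pool.Agent.H792R2.SS.Y
import Pool.Agent.H792R2.SS.ZERO

set_option autoImplicit false

namespace Pool.Agent.H792R2.SS

theorem fin : S_FIN := by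
  have hHH := t_HH t_POS
  have hNL := t_NL hHH t_LOG t_GR t_MT t_HU t_RS
  have hP1 := t_P1 hNL hHH t_LOG
  have hP3 := t_P3 hP1 t_LOG t_GR t_POS
  have hSEP := t_SEP hP1 t_LOG t_GR t_POS
  have hZERO := t_ZERO t_KB
  have hALEM := t_ALEM t_KB hZERO
  have hG1 := t_G1 t_INV
  have hG2 := t_G2 t_INV hALEM
  have hG := t_G t_LOG hG1 hG2 (t_CLEM t_POS) hSEP (t_POLY t_POS) t_COMB
  have hCPT := t_CPT hP1 t_LOG t_GR t_MT t_HU
  have hLLw := t_LLw hCPT hG
  have hLLz := t_LLz hLLw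
  have hLD := t_LD t_CH
  have hLB := t_LB t_CH
  have hLU := t_LU t_CH hLD
  have hMEAN := t_MEAN t_MEANa
  have hNU := t_NU hMEAN hLU
  have hY := t_Y t_CH hLB hLD
  have hCOV := t_COV hNU
  have hGU := t_GU hP1
  have hI5 := t_I5 hMEAN hLU hNU hGU t_MEAS
  have hI9a := t_I9a hGU hP3
  have hI9 := t_I9 hY hMEAN hNU t_MEAS hI9a
  have hI10 := t_I10 hGU
  exact t_FIN hI5 hLLz hCOV t_MEAS hI9 hI10 t_T1

end Pool.Agent.H792R2.SS
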