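import Mathlib

set_option autoImplicit false
open Set Filter Topology Metric MeasureTheory

namespace Pool.Agent.H792R2.SS

/-- upper half plane -/
def HP : Set ℂ := {w | 0 < w.im}

/-- `F` is holomorphic and zero-free with `F' ≠ 1` on the ball -/
def NN (F : ℂ → ℂ) (z : ℂ) (R : ℝ) : Prop :=
  DifferentiableOn ℂ F (ball z R) ∧ (∀ w ∈ ball z R, F w ≠ 0) ∧ (∀ w ∈ ball z R, deriv F w ≠ 1)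

/-- hyperbolic mass `s(r) = -log (1 - r²)` -/
noncomputable def sr (r : ℝ) : ℝ := -Real.log (1 - r ^ 2)

/-- `U = log |f| - log (1 - |z|²)` -/
noncomputable def UU (f : ℂ → ℂ) (z : ℂ) : ℝ := Real.log ‖f z‖ - Real.log (1 - ‖z‖ ^ 2)

/-- hyperbolic gradient of `U` -/
noncomputable def gU (f : ℂ → ℂ) (z : ℂ) : ℝ :=
  ‖(((1 - ‖z‖ ^ 2) / 2 : ℝ) : ℂ) * (deriv f z / f z) + (starRingEnd ℂ) z‖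

/-- the bad points -/
def bad (f : ℂ → ℂ) (K : ℝ) (z : ℂ) : Prop := |UU f z| ≤ K ∧ 9 / 8 ≤ gU f z ^ 2

/-- the unhealthy points -/
def unh (f : ℂ → ℂ) (z : ℂ) : Prop :=
  (1 - ‖z‖ ^ 2) / 2 * ‖deriv (deriv f) z‖ * Real.sqrt (1 + ‖deriv f z‖ ^ 2) ≤
    1 / 32 * ‖deriv f z‖ * ‖deriv f z - 1‖

/-- the weight -/
noncomputable def ker (r : ℝ) (z : ℂ) : ℝ := Real.log (r / ‖z‖) / (1 - ‖z‖ ^ 2) ^ 2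

/-- the mass of a set `E` for the radius `r` -/
noncomputable def nu (r : ℝ) (E : Set ℂ) : ℝ := 2 / Real.pi * ∫ z in ball (0 : ℂ) r ∩ E, ker r z

/-- the Nevanlinna characteristic, as in the frozen statement -/
noncomputable def TT (f : ℂ → ℂ) (r : ℝ) : ℝ :=
  (2 * Real.pi)⁻¹ * ∫ θ in (0 : ℝ)..2 * Real.pi, max 0 (Real.log ‖f (circleMap 0 r θ)‖)

/-- the Laplacian -/
noncomputable def Lap (h : ℂ → ℝ) (z : ℂ) : ℝ := Laplacian.laplacian h z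

/-! ### A. One complex variable -/

/-- Harnack and the derivative bound for positive real part -/
def S_POS : Prop := ∀ (h : ℂ → ℂ) (z : ℂ) (R : ℝ), 0 < R → DifferentiableOn ℂ h (ball z R) →
  (∀ w ∈ ball z R, 0 < (h w).re) →
  ‖deriv h z‖ ≤ 2 * (h z).re / R ∧
  ∀ w ∈ ball z R, (h z).re * ((R - ‖w - z‖) / (R + ‖w - z‖)) ≤ (h w).re ∧
    (h w).re ≤ (h z).re * ((R + ‖w - z‖) / (R - ‖w - z‖))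

/-- Harnack-Hopf lemma -/
def S_HH : Prop := ∀ (h : ℂ → ℂ) (z : ℂ) (R K : ℝ), 0 < R → 0 ≤ K →
  DifferentiableOn ℂ h (ball z R) → (∀ w ∈ ball z R, |(h w).re| ≤ 1 → ‖deriv h w‖ ≤ K) →
  ‖deriv h z‖ ≤ 4 * K + 4 * |(h z).re| / R

/-- holomorphic logarithm on convex sets -/
def S_LOG : Prop := ∀ (Ω : Set ℂ) (f : ℂ → ℂ), IsOpen Ω → Convex ℝ Ω → DifferentiableOn ℂ f Ω →
  (∀ z ∈ Ω, f z ≠ 0) → ∃ g : ℂ → ℂ, DifferentiableOn ℂ g Ω ∧ ∀ z ∈ Ω, Complex.exp (g z) = f z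

/-- Gronwall -/
def S_GR : Prop := ∀ (Ω : Set ℂ) (h : ℂ → ℂ) (A : ℝ), IsOpen Ω → Convex ℝ Ω → 0 ≤ A →
  DifferentiableOn ℂ h Ω → (∀ w ∈ Ω, ‖deriv h w‖ ≤ A * (1 + |(h w).re|)) →
  ∀ w ∈ Ω, ∀ w' ∈ Ω, 1 + |(h w').re| ≤ (1 + |(h w).re|) * Real.exp (A * ‖w' - w‖)

/-- Montel on an exhausted domain, along an ultrafilter -/
def S_MT : Prop := ∀ (Ω : Set ℂ) (F : ℕ → ℂ → ℂ) (𝒰 : Ultrafilter ℕ), IsOpen Ω →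
  (𝒰 : Filter ℕ) ≤ atTop →
  (∀ x ∈ Ω, ∃ r > 0, ∃ M : ℝ, ball x r ⊆ Ω ∧
    ∀ᶠ n in atTop, DifferentiableOn ℂ (F n) (ball x r) ∧ ∀ z ∈ ball x r, ‖F n z‖ ≤ M) →
  ∃ G : ℂ → ℂ, DifferentiableOn ℂ G Ω ∧ TendstoLocallyUniformlyOn F G (𝒰 : Filter ℕ) Ω ∧
    TendstoLocallyUniformlyOn (fun n => deriv (F n)) (deriv G) (𝒰 : Filter ℕ) Ω ∧
    TendstoLocallyUniformlyOn (fun n => deriv (deriv (F n))) (deriv (deriv G)) (𝒰 : Filter ℕ) Ω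

/-- Hurwitz along an ultrafilter -/
def S_HU : Prop := ∀ (V : Set ℂ) (F : ℕ → ℂ → ℂ) (G : ℂ → ℂ) (𝒰 : Ultrafilter ℕ), IsOpen V →
  (∀ᶠ n in (𝒰 : Filter ℕ), DifferentiableOn ℂ (F n) V) →
  TendstoLocallyUniformlyOn F G (𝒰 : Filter ℕ) V →
  (∀ᶠ n in (𝒰 : Filter ℕ), ∀ z ∈ V, F n z ≠ 0) → ∀ a ∈ V, G a = 0 → ∀ᶠ z in 𝓝 a, G z = 0

/-- Koebe: second coefficient -/
def S_KB : Prop := ∀ (φ : ℂ → ℂ) (z : ℂ) (R : ℝ), 0 < R → DifferentiableOn ℂ φ (ball z R) →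
  InjOn φ (ball z R) → deriv φ z ≠ 0 ∧ R * ‖deriv (deriv φ) z‖ ≤ 4 * ‖deriv φ z‖

/-- inverse branches on convex sets -/
def S_INV : Prop := ∀ (𝒞 : Set ℂ) (V : ℂ → ℂ) (c : ℝ) (w₀ : ℂ), IsOpen 𝒞 → Convex ℝ 𝒞 → 0 < c →
  DifferentiableOn ℂ V HP → (∀ w ∈ HP, V w ∈ 𝒞 → c ≤ ‖deriv V w‖ * w.im) → w₀ ∈ HP →
  V w₀ ∈ 𝒞 → ∃ W : ℂ → ℂ, DifferentiableOn ℂ W 𝒞 ∧ W (V w₀) = w₀ ∧
    ∀ y ∈ 𝒞, W y ∈ HP ∧ V (W y) = y ∧ ‖deriv W y‖ ≤ (W y).im / c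

/-! ### B. Normality -/

/-- rescaling -/
def S_RS : Prop := ∀ (F : ℂ → ℂ) (n : ℕ), 1 ≤ n → NN F 0 1 →
  n * (1 + ‖F 0‖ ^ 2) < ‖deriv F 0‖ →
  ∃ (t : ℝ) (g : ℂ → ℂ), 0 < t ∧ t ≤ 1 / Real.sqrt n ∧ NN g 0 (1 / t) ∧
    ‖deriv g 0‖ = 1 + ‖g 0‖ ^ 2 ∧
    ∀ w ∈ ball (0 : ℂ) (1 / t), ‖deriv g w‖ ≤ 1 + ‖g w‖ ^ 2 / (1 - t * ‖w‖) ^ 2

/-- normality -/
def S_NL : Prop := ∃ C : ℝ, 0 < C ∧ ∀ F : ℂ → ℂ, NN F 0 1 → ‖deriv F 0‖ ≤ C * (1 + ‖F 0‖ ^ 2)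

/-- gradient bound (P1) -/
def S_P1 : Prop := ∃ C : ℝ, 0 < C ∧ ∀ (F : ℂ → ℂ) (z : ℂ) (R : ℝ), 0 < R → NN F z R →
  R * ‖deriv F z / F z‖ ≤ C * (1 + |Real.log (‖F z‖ / R)|)

/-- bound for the second derivative (P3) -/
def S_P3 : Prop := ∃ C : ℝ, 0 < C ∧ ∀ (F : ℂ → ℂ) (z : ℂ) (R : ℝ), 0 < R → NN F z R →
  R * ‖deriv (deriv F) z‖ ≤ C * min 1 (‖F z‖ / R) * (1 + |Real.log (‖F z‖ / R)|) ^ 2 *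
    (1 + |Real.log ‖deriv F z - 1‖|) * ‖deriv F z - 1‖

/-- separation -/
def S_SEP : Prop := ∀ C : ℝ, ∃ c : ℝ, 0 < c ∧ ∀ (F V : ℂ → ℂ) (w : ℂ) (R : ℝ), 0 < R →
  NN F w R → ‖F w‖ ≤ C * R → deriv F w = 1 + Complex.exp (-1) →
  DifferentiableOn ℂ V (ball w R) → (∀ x ∈ ball w R, Complex.exp (V x) = deriv F x - 1) →
  ∀ x : ℂ, ‖x - w‖ < c * R → ‖V x - V w‖ < 2 * Real.pi

/-! ### C. The half plane -/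

/-- zero lemma -/
def S_ZERO : Prop := ∃ R₀ : ℝ, 0 < R₀ ∧ ∀ φ Φ : ℂ → ℂ,
  DifferentiableOn ℂ φ {y | 1 / 2 < y.re} → InjOn φ {y | 1 / 2 < y.re} →
  DifferentiableOn ℂ Φ {y | 1 / 2 < y.re} → (∀ y : ℂ, 1 / 2 < y.re → Φ y ≠ 0) →
  (∀ y : ℂ, 1 / 2 < y.re → deriv Φ y = (1 + Complex.exp y) * deriv φ y) →
  ∀ R : ℝ, R₀ ≤ R → ‖Φ (1 + R) / (Complex.exp (1 + R) * deriv φ (1 + R)) - 1‖ ≠ 1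

/-- the region where `P` is large -/
def S_ALEM : Prop := ∃ C : ℝ, 0 < C ∧ ∀ φ Φ : ℂ → ℂ,
  DifferentiableOn ℂ φ {y | 1 / 2 < y.re} → InjOn φ {y | 1 / 2 < y.re} →
  DifferentiableOn ℂ Φ {y | 1 / 2 < y.re} → (∀ y : ℂ, 1 / 2 < y.re → Φ y ≠ 0) →
  (∀ y : ℂ, 1 / 2 < y.re → deriv Φ y = (1 + Complex.exp y) * deriv φ y) →
  ‖Φ 1‖ ≤ C * ‖deriv φ 1‖

/-- the region where `P` is near 1 -/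
def S_CLEM : Prop := ∀ c : ℝ, 0 < c → ∃ C : ℝ, 0 < C ∧ ∀ W Ψ : ℂ → ℂ,
  DifferentiableOn ℂ W {y | y.re < -1 / 2} →
  (∀ y : ℂ, y.re < -1 / 2 → 0 < (W y).im ∧ ‖deriv W y‖ ≤ (W y).im / c) →
  DifferentiableOn ℂ Ψ {y | y.re < -1 / 2} →
  (∀ y : ℂ, y.re < -1 / 2 → deriv Ψ y = Complex.exp y * deriv W y) →
  ∀ k l : ℕ, ‖Ψ (-1 + 2 * Real.pi * k * Complex.I) - Ψ (-1 + 2 * Real.pi * l * Complex.I)‖ ≤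
    C * ((W (-1 + 2 * Real.pi * k * Complex.I)).im + (W (-1 + 2 * Real.pi * l * Complex.I)).im)

/-- polynomial bounds for the heights -/
def S_POLY : Prop := ∃ B : ℝ, 0 < B ∧ ∀ W : ℂ → ℂ, DifferentiableOn ℂ W {y | y.re < -1 / 2} →
  (∀ y : ℂ, y.re < -1 / 2 → 0 < (W y).im) → ∀ k : ℕ,
  (W (-1 + 2 * Real.pi * k * Complex.I)).im ≤ B * (1 + k) ^ 4 * (W (-1)).im ∧
  (W (-1)).im ≤ B * (1 + k) ^ 4 * (W (-1 + 2 * Real.pi * k * Complex.I)).im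

/-- the combinatorial contradiction -/
def S_COMB : Prop := ∀ (w : ℕ → ℂ) (A c B h : ℝ), 0 < c → 0 < h → 0 < B →
  (∀ k, 0 < (w k).im) → (∀ k l, ‖w k - w l‖ ≤ A * ((w k).im + (w l).im)) →
  (∀ k l, k ≠ l → c * (w k).im ≤ ‖w k - w l‖) →
  (∀ k : ℕ, (w k).im ≤ B * (1 + k) ^ 4 * h ∧ h ≤ B * (1 + k) ^ 4 * (w k).im) → False

/-- healthy functions on the half plane, with a logarithm `V` of `F' - 1` -/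
def HL (F V : ℂ → ℂ) (c : ℝ) : Prop := 0 < c ∧ DifferentiableOn ℂ F HP ∧ (∀ w ∈ HP, F w ≠ 0) ∧
  DifferentiableOn ℂ V HP ∧ (∀ w ∈ HP, Complex.exp (V w) = deriv F w - 1) ∧
  (∀ w ∈ HP, c * ‖1 + Complex.exp (V w)‖ ≤
    w.im * ‖deriv V w‖ * Real.sqrt (1 + ‖1 + Complex.exp (V w)‖ ^ 2))

/-- an inverse branch on the left half plane -/
def S_G1 : Prop := ∀ (F V : ℂ → ℂ) (c : ℝ), HL F V c → (¬ ∃ a : ℂ, ∀ w ∈ HP, V w = a) →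
  ∃ (c₁ : ℝ) (W : ℂ → ℂ), 0 < c₁ ∧ DifferentiableOn ℂ W {y | y.re < -1 / 2} ∧
    ∀ y : ℂ, y.re < -1 / 2 → W y ∈ HP ∧ V (W y) = y ∧ ‖deriv W y‖ ≤ (W y).im / c₁

/-- bound for `F` at the points with `F' = 1 + exp (-1)` -/
def S_G2 : Prop := ∀ (F V : ℂ → ℂ) (c : ℝ), HL F V c → ∃ C : ℝ, 0 < C ∧ ∀ w ∈ HP, ∀ k : ℕ,
  V w = -1 + 2 * Real.pi * k * Complex.I → ‖F w‖ ≤ C * w.im

/-- the claim on the half plane -/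
def S_G : Prop := ∀ (F : ℂ → ℂ) (c : ℝ), 0 < c → DifferentiableOn ℂ F HP →
  (∀ w ∈ HP, F w ≠ 0) → (∀ w ∈ HP, deriv F w ≠ 1) →
  (∀ w ∈ HP, c * ‖deriv F w‖ * ‖deriv F w - 1‖ ≤
    w.im * ‖deriv (deriv F) w‖ * Real.sqrt (1 + ‖deriv F w‖ ^ 2)) →
  ∃ a : ℂ, ∀ w ∈ HP, deriv F w = a

/-- compactness: limits of functions on tangent discs -/
def S_CPT : Prop := ∀ (K : ℝ) (d : ℕ → ℝ) (F : ℕ → ℂ → ℂ) (𝒰 : Ultrafilter ℕ),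
  (𝒰 : Filter ℕ) ≤ atTop → (∀ n, 0 < d n) → Tendsto d atTop (𝓝 0) →
  (∀ n, NN (F n) (Complex.I / (d n : ℂ)) (1 / d n)) →
  (∀ n, |Real.log ‖F n Complex.I‖| ≤ K) →
  ∃ G : ℂ → ℂ, DifferentiableOn ℂ G HP ∧ (∀ w ∈ HP, G w ≠ 0) ∧
    ((∀ w ∈ HP, deriv G w = 1) ∨ (∀ w ∈ HP, deriv G w ≠ 1)) ∧
    TendstoLocallyUniformlyOn F G (𝒰 : Filter ℕ) HP ∧
    TendstoLocallyUniformlyOn (fun n => deriv (F n)) (deriv G) (𝒰 : Filter ℕ) HP ∧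
    TendstoLocallyUniformlyOn (fun n => deriv (deriv (F n))) (deriv (deriv G)) (𝒰 : Filter ℕ) HP

/-- near a bad point there is an unhealthy ball (half plane coordinates) -/
def S_LLw : Prop := ∀ K : ℝ, ∃ (Q r₀ d₀ : ℝ), 1 ≤ Q ∧ 0 < r₀ ∧ 0 < d₀ ∧
  ∀ (d : ℝ) (F : ℂ → ℂ), 0 < d → d < d₀ → NN F (Complex.I / (d : ℂ)) (1 / d) →
  |Real.log ‖F Complex.I‖| ≤ K →
  9 / 8 ≤ ‖((1 - d / 2 : ℝ) : ℂ) * (-Complex.I) * (deriv F Complex.I / F Complex.I) +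
    ((1 - d : ℝ) : ℂ)‖ ^ 2 →
  ∃ w' : ℂ, ∀ w ∈ ball w' r₀, ‖w‖ ≤ Q ∧ 1 / Q ≤ w.im ∧ ‖w‖ ^ 2 * d < 2 * w.im ∧
    (w.im - d * ‖w‖ ^ 2 / 2) * ‖deriv (deriv F) w‖ * Real.sqrt (1 + ‖deriv F w‖ ^ 2) ≤
      1 / 32 * ‖deriv F w‖ * ‖deriv F w - 1‖

/-- near a bad point there is an unhealthy ball (disc coordinates) -/
def S_LLz : Prop := ∀ K : ℝ, ∃ (Q r₀ d₀ : ℝ), 1 ≤ Q ∧ 0 < r₀ ∧ 0 < d₀ ∧ d₀ < 1 ∧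
  ∀ f : ℂ → ℂ, NN f 0 1 → ∀ z : ℂ, bad f K z → 1 - ‖z‖ < d₀ → ‖z‖ < 1 →
  ∃ z' : ℂ, ∀ w ∈ ball z' (r₀ * (1 - ‖z‖)), ‖w - z‖ ≤ Q * (1 - ‖z‖) ∧
    (1 - ‖z‖) / Q ≤ 1 - ‖w‖ ∧ unh f w

/-! ### D. Potential theory on the disc -/

/-- chain rule for the Laplacian -/
def S_CH : Prop := ∀ (u : ℂ → ℝ) (φ : ℝ → ℝ) (z : ℂ), ContDiffAt ℝ 2 u z →
  ContDiffAt ℝ 2 φ (u z) → ContDiffAt ℝ 2 (fun w => φ (u w)) z ∧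
  Lap (fun w => φ (u w)) z =
    deriv φ (u z) * Lap u z + deriv (deriv φ) (u z) * ‖fderiv ℝ u z‖ ^ 2

/-- Laplacian of `log (|P|² + τ²)` -/
def S_LB : Prop := ∀ (P : ℂ → ℂ) (τ : ℝ) (z : ℂ), AnalyticAt ℂ P z → 0 < τ →
  ContDiffAt ℝ 2 (fun w => Real.log (‖P w‖ ^ 2 + τ ^ 2)) z ∧
  Lap (fun w => Real.log (‖P w‖ ^ 2 + τ ^ 2)) z =
    4 * τ ^ 2 * ‖deriv P z‖ ^ 2 / (‖P z‖ ^ 2 + τ ^ 2) ^ 2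

/-- Laplacian and gradient of `log (1 - |z|²)` -/
def S_LD : Prop := ∀ z : ℂ, ‖z‖ < 1 → ContDiffAt ℝ 2 (fun w : ℂ => Real.log (1 - ‖w‖ ^ 2)) z ∧
  Lap (fun w : ℂ => Real.log (1 - ‖w‖ ^ 2)) z = -4 / (1 - ‖z‖ ^ 2) ^ 2

/-- means of a `C²` function: differential equation -/
def S_MEANa : Prop := ∀ h : ℂ → ℝ, ContDiffOn ℝ 2 h (ball 0 1) → ∃ m' : ℝ → ℝ,
  (∀ t : ℝ, 0 < t → t < 1 → HasDerivAt (fun t => Real.circleAverage h 0 t) (m' t) t) ∧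
  (∀ t : ℝ, 0 < t → t < 1 →
    HasDerivAt (fun t => t * m' t) (t * Real.circleAverage (Lap h) 0 t) t) ∧
  (∀ ρ : ℝ, ρ < 1 → ∃ M : ℝ, ∀ t : ℝ, 0 < t → t ≤ ρ → |m' t| ≤ M)

/-- the mean formula -/
def S_MEAN : Prop := ∀ (h : ℂ → ℝ) (r : ℝ), ContDiffOn ℝ 2 h (ball 0 1) → 0 < r → r < 1 →
  Real.circleAverage h 0 r =
    h 0 + (2 * Real.pi)⁻¹ * ∫ z in ball (0 : ℂ) r, Real.log (r / ‖z‖) * Lap h z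

/-- hyperbolic Laplacian of functions of `U` -/
def S_LU : Prop := ∀ (f : ℂ → ℂ) (φ : ℝ → ℝ), DifferentiableOn ℂ f (ball 0 1) →
  (∀ z ∈ ball (0 : ℂ) 1, f z ≠ 0) → ContDiff ℝ 2 φ →
  ContDiffOn ℝ 2 (fun z => φ (UU f z)) (ball 0 1) ∧
  ∀ z ∈ ball (0 : ℂ) 1, (1 - ‖z‖ ^ 2) ^ 2 / 4 * Lap (fun z => φ (UU f z)) z =
    deriv φ (UU f z) + deriv (deriv φ) (UU f z) * gU f z ^ 2

/-- basic facts on the kernel -/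
def S_NU : Prop := (∀ r : ℝ, 0 < r → r < 1 → IntegrableOn (ker r) (ball 0 r)) ∧
  (∀ r : ℝ, 0 < r → r < 1 → nu r univ = sr r) ∧
  (∀ r r' : ℝ, 0 < r → r ≤ r' → r' < 1 → ∀ z ∈ ball (0 : ℂ) r, 0 ≤ ker r z ∧ ker r z ≤ ker r' z)

/-- the glued function -/
def S_Y : Prop := ∀ (f : ℂ → ℂ) (τ : ℝ), NN f 0 1 → 0 < τ → τ ≤ 1 →
  ∃ H : ℂ → ℝ, ContDiffOn ℝ 2 H (ball 0 1) ∧ ∀ z ∈ ball (0 : ℂ) 1,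
    -1 ≤ (1 - ‖z‖ ^ 2) ^ 2 / 4 * Lap H z ∧
    (unh f z → -1 / 2 ≤ (1 - ‖z‖ ^ 2) ^ 2 / 4 * Lap H z) ∧
    Real.exp (H z) ≤ 3 * max ((1 - ‖z‖ ^ 2) / 2 * ‖deriv (deriv f) z‖ / ‖deriv f z - 1‖)
      (1 / 8 * Real.sqrt (‖deriv f z‖ ^ 2 + τ ^ 2) / Real.sqrt (1 + ‖deriv f z‖ ^ 2)) ∧
    1 / 8 * Real.sqrt (‖deriv f z‖ ^ 2 + τ ^ 2) / Real.sqrt (1 + ‖deriv f z‖ ^ 2) ≤
      Real.exp (H z)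

/-- measurability -/
def S_MEAS : Prop := ∀ f : ℂ → ℂ, NN f 0 1 → (∀ K : ℝ, MeasurableSet (ball 0 1 ∩ {z | bad f K z})) ∧
  MeasurableSet (ball 0 1 ∩ {z | unh f z})

/-- covering -/
def S_COV : Prop := ∀ Q r₀ d₀ : ℝ, 1 ≤ Q → 0 < r₀ → 0 < d₀ → d₀ < 1 → ∃ C₂ C₃ : ℝ, 0 < C₂ ∧
  ∀ E G : Set ℂ, MeasurableSet (ball 0 1 ∩ E) → MeasurableSet (ball 0 1 ∩ G) →
  (∀ z ∈ E, 1 - ‖z‖ < d₀ → ‖z‖ < 1 → ∃ z' : ℂ, ∀ w ∈ ball z' (r₀ * (1 - ‖z‖)),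
    ‖w - z‖ ≤ Q * (1 - ‖z‖) ∧ (1 - ‖z‖) / Q ≤ 1 - ‖w‖ ∧ w ∈ G) →
  ∀ r : ℝ, 1 / 2 ≤ r → r < 1 → nu r E ≤ C₂ * nu r G + C₃

/-- gradient bounds on the disc -/
def S_GU : Prop := ∃ C : ℝ, 1 ≤ C ∧ ∀ (f : ℂ → ℂ) (z : ℂ), NN f 0 1 → z ∈ ball (0 : ℂ) 1 →
  gU f z ≤ C * (1 + |UU f z|) ∧ ‖deriv f z‖ ≤ C * (1 + |UU f z|) * Real.exp (UU f z)

/-- pointwise bound for the glued function -/
def S_I9a : Prop := ∃ C : ℝ, 0 < C ∧ ∀ (f : ℂ → ℂ) (τ : ℝ) (z : ℂ), NN f 0 1 →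
  z ∈ ball (0 : ℂ) 1 → 0 < τ → τ ≤ 1 → τ ≤ Real.exp (UU f z) →
  3 * max ((1 - ‖z‖ ^ 2) / 2 * ‖deriv (deriv f) z‖ / ‖deriv f z - 1‖)
    (1 / 8 * Real.sqrt (‖deriv f z‖ ^ 2 + τ ^ 2) / Real.sqrt (1 + ‖deriv f z‖ ^ 2)) ≤
  C * Real.exp (-max 0 (-UU f z)) * (1 + |UU f z|) ^ 2 * (1 + |Real.log ‖deriv f z - 1‖|)

/-- first integral inequality -/
def S_I5 : Prop := ∃ K C₁ : ℝ, 0 < C₁ ∧ ∀ f : ℂ → ℂ, NN f 0 1 → ∀ r : ℝ, 0 < r → r < 1 →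
  Real.circleAverage (fun z => max 0 (-UU f z)) 0 r ≤
    Real.log (1 + Real.exp (-UU f 0)) + sr r / 8 + C₁ * nu r {z | bad f K z}

/-- second integral inequality -/
def S_I9 : Prop := ∀ f : ℂ → ℂ, NN f 0 1 → (∃ z ∈ ball (0 : ℂ) 1, deriv f z ≠ 0) →
  ∃ C : ℝ, ∀ r : ℝ, 1 / 2 ≤ r → r < 1 →
  Real.circleAverage (fun z => max 0 (-UU f z)) 0 r ≤ sr r - nu r {z | unh f z} / 2 +
    Real.circleAverage (fun z => 2 * Real.log (1 + |UU f z|) +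
      Real.log (1 + |Real.log ‖deriv f z - 1‖|)) 0 r + C

/-- means of `|U|`, `|v|` -/
def S_I10 : Prop := ∀ f : ℂ → ℂ, NN f 0 1 → ∃ B : ℝ, ∀ r : ℝ, 0 < r → r < 1 →
  Real.circleAverage (fun z => |UU f z|) 0 r +
    Real.circleAverage (fun z => |Real.log ‖deriv f z - 1‖|) 0 r ≤ B * (1 + TT f r + sr r)

/-- the characteristic in terms of `U` -/
def S_T1 : Prop := ∀ f : ℂ → ℂ, NN f 0 1 → ∀ r : ℝ, 0 < r → r < 1 →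
  0 ≤ TT f r ∧ TT f r ≤ Real.log ‖f 0‖ + sr r + Real.circleAverage (fun z => max 0 (-UU f z)) 0 r

/-- the bound -/
def S_FIN : Prop := ∃ α : ℝ, α < 2 ∧ ∀ f : ℂ → ℂ, NN f 0 1 →
  (∃ M : ℝ, ∀ᶠ r in 𝓝[<] (1 : ℝ), TT f r / (-Real.log (1 - r)) ≤ M) →
  ∀ᶠ r in 𝓝[<] (1 : ℝ), TT f r / (-Real.log (1 - r)) ≤ α

end Pool.Agent.H792R2.SS
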