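import Pool.Agent.H792R2.SS.Defs
import Pool.Agent.Helper114.RMT

set_option autoImplicit false
open Set Filter Topology Metric MeasureTheory

namespace Pool.Agent.H792R2.SS

theorem t_HU : S_HU := by
  intro V F G 𝒰 hV hd hlim hne a ha h0
  classical
  let good : Set ℕ := {n | DifferentiableOn ℂ (F n) V ∧ ∀ z ∈ V, F n z ≠ 0}
  have hgood : ∀ᶠ n in (𝒰 : Filter ℕ), n ∈ good := by
    filter_upwards [hd, hne] with n h1 h2 using ⟨h1, h2⟩
  let F' : ℕ → ℂ → ℂ := fun n => if n ∈ good then F n else fun _ => 1
  have hd' : ∀ n, DifferentiableOn ℂ (F' n) V := by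
    intro n
    by_cases h : n ∈ good
    · have : F' n = F n := if_pos h
      rw [this]; exact h.1
    · have : F' n = fun _ => 1 := if_neg h
      rw [this]; exact differentiableOn_const _
  have hne' : ∀ n, ∀ z ∈ V, F' n z ≠ 0 := by
    intro n z hz
    by_cases h : n ∈ good
    · have : F' n = F n := if_pos h
      rw [this]; exact h.2 z hz
    · have : F' n = fun _ => 1 := if_neg h
      rw [this]; exact one_ne_zero
  have hlim' : TendstoLocallyUniformlyOn F' G (𝒰 : Filter ℕ) V := by
    rw [Metric.tendstoLocallyUniformlyOn_iff] at hlim ⊢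
    intro ε hε x hx
    obtain ⟨t, ht, hn⟩ := hlim ε hε x hx
    refine ⟨t, ht, ?_⟩
    filter_upwards [hn, hgood] with n hn hg y hy
    have : F' n = F n := if_pos hg
    rw [this]
    exact hn y hy
  exact Pool.Agent.Helper114.RMT.hurwitz hV hd' hlim' hne' ha h0

end Pool.Agent.H792R2.SS
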