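import Pool.Agent.H792R2.SS.Defs

/-! Laplacian of functions of `|P|²` (helper509). -/

set_option autoImplicit false
open Set Filter Topology Metric MeasureTheory
open scoped ComplexConjugate

namespace Pool.Agent.H792R2.SS.LBx

theorem lap_of_harm {u : ℂ → ℝ} {z : ℂ} (h : InnerProductSpace.HarmonicAt u z) : Lap u z = 0 :=
  h.2.self_of_nhds

/-- real derivative of the real part -/
theorem fd_re {P : ℂ → ℂ} {z : ℂ} (h : AnalyticAt ℂ P z) :
    ‖fderiv ℝ (fun w => (P w).re) z‖ = ‖deriv P z‖ := by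
  have h1 : HasFDerivAt P ((ContinuousLinearMap.toSpanSingleton ℂ (deriv P z)).restrictScalars ℝ) z :=
    (h.differentiableAt.hasDerivAt.hasFDerivAt).restrictScalars ℝ
  have h2 : HasFDerivAt (fun w => (P w).re) (Complex.reCLM.comp
      ((ContinuousLinearMap.toSpanSingleton ℂ (deriv P z)).restrictScalars ℝ)) z :=
    Complex.reCLM.hasFDerivAt.comp z h1
  have h3 : Complex.reCLM.comp ((ContinuousLinearMap.toSpanSingleton ℂ (deriv P z)).restrictScalars ℝ)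
      = innerSL ℝ (conj (deriv P z)) := by
    ext v
    simp [Complex.inner]
  rw [h2.fderiv, h3, innerSL_apply_norm, Complex.norm_conj]

theorem fd_im {P : ℂ → ℂ} {z : ℂ} (h : AnalyticAt ℂ P z) :
    ‖fderiv ℝ (fun w => (P w).im) z‖ = ‖deriv P z‖ := by
  have h1 : AnalyticAt ℂ (fun w => -Complex.I * P w) z := analyticAt_const.mul h
  have h2 := fd_re h1
  have h3 : (fun w => (-Complex.I * P w).re) = fun w => (P w).im := by
    funext w
    simp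
  rw [h3] at h2
  rw [h2, deriv_const_mul _ h.differentiableAt]
  simp

theorem fd_sq {P : ℂ → ℂ} {z : ℂ} (h : AnalyticAt ℂ P z) :
    ‖fderiv ℝ (fun w => ‖P w‖ ^ 2) z‖ = 2 * ‖P z‖ * ‖deriv P z‖ := by
  have h1 : HasFDerivAt P ((ContinuousLinearMap.toSpanSingleton ℂ (deriv P z)).restrictScalars ℝ) z :=
    (h.differentiableAt.hasDerivAt.hasFDerivAt).restrictScalars ℝ
  have h2 := h1.norm_sq
  have h3 : 2 • (innerSL ℝ (P z)).comp
      ((ContinuousLinearMap.toSpanSingleton ℂ (deriv P z)).restrictScalars ℝ) =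
      innerSL ℝ (2 * (P z * conj (deriv P z))) := by
    ext v
    simp [Complex.inner]
    ring
  have h4 : fderiv ℝ (fun w => ‖P w‖ ^ 2) z = innerSL ℝ (2 * (P z * conj (deriv P z))) := by
    rw [← h3]
    exact h2.fderiv
  rw [h4, innerSL_apply_norm, norm_mul, norm_mul, Complex.norm_conj]
  norm_num
  ring

theorem cd {P : ℂ → ℂ} {z : ℂ} (h : AnalyticAt ℂ P z) : ContDiffAt ℝ 2 P z :=
  (h.contDiffAt (n := 2)).restrict_scalars ℝ

theorem cd_sq {P : ℂ → ℂ} {z : ℂ} (h : AnalyticAt ℂ P z) : ContDiffAt ℝ 2 (fun w => ‖P w‖ ^ 2) z :=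
  (cd h).norm_sq ℝ

theorem d2 (x : ℝ) : deriv (fun x : ℝ => x ^ 2) x = 2 * x := by
  simp

theorem dd2 (x : ℝ) : deriv (deriv (fun x : ℝ => x ^ 2)) x = 2 := by
  have : deriv (fun x : ℝ => x ^ 2) = fun x => 2 * x := funext d2
  rw [this]
  simp

/-- Laplacian of the square of a harmonic function -/
theorem lap_sq_harm (hCH : S_CH) {u : ℂ → ℝ} {z : ℂ} (h : InnerProductSpace.HarmonicAt u z) :
    ContDiffAt ℝ 2 (fun w => u w ^ 2) z ∧ Lap (fun w => u w ^ 2) z = 2 * ‖fderiv ℝ u z‖ ^ 2 := by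
  obtain ⟨h1, h2⟩ := hCH u (fun x => x ^ 2) z h.1 (by fun_prop)
  refine ⟨h1, ?_⟩
  rw [h2, lap_of_harm h, dd2]
  ring

theorem lap_sq (hCH : S_CH) {P : ℂ → ℂ} {z : ℂ} (h : AnalyticAt ℂ P z) :
    Lap (fun w => ‖P w‖ ^ 2) z = 4 * ‖deriv P z‖ ^ 2 := by
  obtain ⟨a1, a2⟩ := lap_sq_harm hCH h.harmonicAt_re
  obtain ⟨b1, b2⟩ := lap_sq_harm hCH h.harmonicAt_im
  have e : (fun w => ‖P w‖ ^ 2) = (fun w => (P w).re ^ 2) + fun w => (P w).im ^ 2 := by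
    funext w
    rw [Pi.add_apply, Complex.sq_norm, Complex.normSq_apply]
    ring
  have h3 : Lap (fun w => ‖P w‖ ^ 2) z = Lap (fun w => (P w).re ^ 2) z +
      Lap (fun w => (P w).im ^ 2) z := by
    unfold Lap
    rw [e]
    exact a1.laplacian_add b1
  rw [h3]
  have c1 : ‖fderiv ℝ (fun w => (P w).re) z‖ = ‖deriv P z‖ := fd_re h
  have c2 : ‖fderiv ℝ (fun w => (P w).im) z‖ = ‖deriv P z‖ := fd_im h
  have a3 : Lap (fun w => (P w).re ^ 2) z = 2 * ‖deriv P z‖ ^ 2 := by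
    rw [← c1]; exact a2
  have b3 : Lap (fun w => (P w).im ^ 2) z = 2 * ‖deriv P z‖ ^ 2 := by
    rw [← c2]; exact b2
  rw [a3, b3]
  ring

theorem main (hCH : S_CH) {P : ℂ → ℂ} {z : ℂ} (h : AnalyticAt ℂ P z) (φ : ℝ → ℝ)
    (hφ : ContDiffAt ℝ 2 φ (‖P z‖ ^ 2)) :
    ContDiffAt ℝ 2 (fun w => φ (‖P w‖ ^ 2)) z ∧
    Lap (fun w => φ (‖P w‖ ^ 2)) z = deriv φ (‖P z‖ ^ 2) * (4 * ‖deriv P z‖ ^ 2) +
      deriv (deriv φ) (‖P z‖ ^ 2) * (4 * ‖P z‖ ^ 2 * ‖deriv P z‖ ^ 2) := by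
  obtain ⟨h1, h2⟩ := hCH (fun w => ‖P w‖ ^ 2) φ z (cd_sq h) hφ
  refine ⟨h1, ?_⟩
  rw [h2, lap_sq hCH h, fd_sq h]
  ring

end Pool.Agent.H792R2.SS.LBx
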