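import Pool.Agent.H792R2.SS.Defs

set_option autoImplicit false
open Set Filter Topology Metric MeasureTheory

namespace Pool.Agent.H792R2.SS.MEASx

theorem le_meas {s : Set ℂ} (hs : IsOpen s) {u v : ℂ → ℝ} (hu : ContinuousOn u s)
    (hv : ContinuousOn v s) : MeasurableSet (s ∩ {z | u z ≤ v z}) := by
  have h1 : IsOpen (s ∩ (fun z => u z - v z) ⁻¹' Ioi 0) :=
    (hu.sub hv).isOpen_inter_preimage hs isOpen_Ioi
  have e : s ∩ {z | u z ≤ v z} = s \ (s ∩ (fun z => u z - v z) ⁻¹' Ioi 0) := by
    ext z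
    simp only [mem_inter_iff, mem_setOf_eq, mem_diff, mem_preimage, mem_Ioi, sub_pos, not_and,
      not_lt]
    constructor
    · rintro ⟨h1, h2⟩
      exact ⟨h1, fun _ => h2⟩
    · rintro ⟨h1, h2⟩
      exact ⟨h1, h2 h1⟩
  rw [e]
  exact hs.measurableSet.diff h1.measurableSet

end Pool.Agent.H792R2.SS.MEASx

namespace Pool.Agent.H792R2.SS

theorem t_MEAS : S_MEAS := by
  intro f hf
  have hfd := hf.1
  have hf' : DifferentiableOn ℂ (deriv f) (ball 0 1) := hfd.deriv isOpen_ball
  have hf'' : DifferentiableOn ℂ (deriv (deriv f)) (ball 0 1) := hf'.deriv isOpen_ball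
  have cf := hfd.continuousOn
  have cf' := hf'.continuousOn
  have cf'' := hf''.continuousOn
  have cw : ContinuousOn (fun z : ℂ => 1 - ‖z‖ ^ 2) (ball 0 1) := by fun_prop
  have hw : ∀ z ∈ ball (0 : ℂ) 1, 1 - ‖z‖ ^ 2 ≠ 0 := by
    intro z hz
    rw [mem_ball_zero_iff] at hz
    have := norm_nonneg z
    nlinarith
  have cU : ContinuousOn (UU f) (ball 0 1) := by
    unfold UU
    exact (cf.norm.log (fun z hz => norm_ne_zero_iff.2 (hf.2.1 z hz))).sub (cw.log hw)
  have cg : ContinuousOn (fun z => gU f z ^ 2) (ball 0 1) := by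
    unfold gU
    refine ContinuousOn.pow (ContinuousOn.norm (ContinuousOn.add (ContinuousOn.mul ?_ ?_) ?_)) 2
    · exact Complex.continuous_ofReal.comp_continuousOn (cw.div_const 2)
    · exact cf'.div cf hf.2.1
    · exact Complex.continuous_conj.continuousOn
  constructor
  · intro K
    have h1 := MEASx.le_meas isOpen_ball cU.abs (continuousOn_const (c := K))
    have h2 := MEASx.le_meas isOpen_ball (continuousOn_const (c := (9 / 8 : ℝ))) cg
    have e : ball (0 : ℂ) 1 ∩ {z | bad f K z} =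
        (ball 0 1 ∩ {z | |UU f z| ≤ K}) ∩ (ball 0 1 ∩ {z | 9 / 8 ≤ gU f z ^ 2}) := by
      ext z
      simp only [mem_inter_iff, mem_setOf_eq, bad]
      tauto
    rw [e]
    exact h1.inter h2
  · refine MEASx.le_meas isOpen_ball ?_ ?_
    · refine ((cw.div_const 2).mul cf''.norm).mul ?_
      exact Real.continuous_sqrt.comp_continuousOn (continuousOn_const.add (cf'.norm.pow 2))
    · exact (continuousOn_const.mul cf'.norm).mul (cf'.sub continuousOn_const).norm

end Pool.Agent.H792R2.SS
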