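import Pool.Agent.H792R2.SS.Defs

set_option autoImplicit false
open Set Filter Topology Metric MeasureTheory

namespace Pool.Agent.H792R2.SS

theorem res_of_fin (hFIN : S_FIN) :
    ¬ (∀ c : ℝ, c < 2 → ∃ f : ℂ → ℂ, DifferentiableOn ℂ f (Metric.ball (0:ℂ) 1) ∧
      (∀ z ∈ Metric.ball (0:ℂ) 1, f z ≠ 0 ∧ deriv f z ≠ 1) ∧
      (∃ M : ℝ, ∀ᶠ r in 𝓝[<] (1:ℝ),
        ((2 * Real.pi)⁻¹ * ∫ θ in (0:ℝ)..2 * Real.pi, max 0 (Real.log ‖f (circleMap 0 r θ)‖))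
          / (-Real.log (1 - r)) ≤ M) ∧
      (∃ᶠ r in 𝓝[<] (1:ℝ), c <
        ((2 * Real.pi)⁻¹ * ∫ θ in (0:ℝ)..2 * Real.pi, max 0 (Real.log ‖f (circleMap 0 r θ)‖))
          / (-Real.log (1 - r)))) := by
  intro h
  obtain ⟨α, hα, H⟩ := hFIN
  obtain ⟨f, hf, hz, hM, hfr⟩ := h ((α + 2) / 2) (by linarith)
  have h1 := H f ⟨hf, fun w hw => (hz w hw).1, fun w hw => (hz w hw).2⟩ hM
  obtain ⟨r, hr1, hr2⟩ := (hfr.and_eventually h1).exists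
  unfold TT at hr2
  linarith

end Pool.Agent.H792R2.SS
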